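import Mathlib

set_option autoImplicit false
set_option linter.unusedSectionVars false

open Finset
open scoped Pointwise

namespace Pool.Agent.Helper398

/-- normalised argument -/
noncomputable def ph (z : ℂ) : ℝ := Complex.arg z / (2 * Real.pi)

theorem ph_exp (z : ℂ) (hz : ‖z‖ = 1) :
    z = Complex.exp (Complex.I * ((2 * Real.pi * ph z : ℝ) : ℂ)) := by
  have h1 : 2 * Real.pi * ph z = Complex.arg z := by
    unfold ph
    field_simp
  rw [h1]
  have h2 := Complex.norm_mul_exp_arg_mul_I z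
  rw [hz, Complex.ofReal_one, one_mul, mul_comm] at h2
  exact h2.symm

theorem ph_small (z : ℂ) (hz : ‖z‖ = 1) : 16 * ph z ^ 2 ≤ ‖1 - z‖ ^ 2 := by
  have h0 := ph_exp z hz
  obtain ⟨y, hy⟩ : ∃ y, y = ph z := ⟨_, rfl⟩
  rw [← hy] at h0 ⊢
  have hyb : |Real.pi * y| ≤ Real.pi / 2 := by
    have h1 := Complex.abs_arg_le_pi z
    have h2 : Real.pi * y = Complex.arg z / 2 := by
      rw [hy]; unfold ph; field_simp
    rw [h2, abs_div, abs_of_pos (by norm_num : (0 : ℝ) < 2)]
    linarith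
  rw [h0, norm_sub_rev, Complex.norm_exp_I_mul_ofReal_sub_one]
  have h1 : 2 * Real.pi * y / 2 = Real.pi * y := by ring
  rw [h1, Real.norm_eq_abs, sq_abs]
  have h3 := Real.mul_abs_le_abs_sin hyb
  have h4 : 2 / Real.pi * |Real.pi * y| = 2 * |y| := by
    rw [abs_mul, abs_of_pos Real.pi_pos]
    field_simp
  rw [h4] at h3
  have h5 : (2 * |y|) ^ 2 ≤ Real.sin (Real.pi * y) ^ 2 := by
    rw [← sq_abs (Real.sin _)]
    exact pow_le_pow_left₀ (by positivity) h3 2
  rw [mul_pow, sq_abs] at h5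
  nlinarith

theorem ph_neg {G : Type*} [AddCommGroup G] [Finite G] (ψ : AddChar G ℂ) (t : G)
    (h : |ph (ψ t)| < 1 / 2) : ph (ψ (-t)) = - ph (ψ t) := by
  rw [AddChar.map_neg_eq_conj]
  unfold ph at h ⊢
  have hne : Complex.arg (ψ t) ≠ Real.pi := by
    intro h1
    rw [h1] at h
    have : Real.pi / (2 * Real.pi) = 1 / 2 := by field_simp
    rw [this] at h
    norm_num at h
  have h2 : (starRingEnd ℂ) (ψ t) = (starRingEnd ℂ) (ψ t) := rfl
  rw [Complex.arg_conj, if_neg hne, neg_div]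

theorem ph_inj (r s : ℝ) (h : Complex.exp (Complex.I * ((2 * Real.pi * r : ℝ) : ℂ)) =
    Complex.exp (Complex.I * ((2 * Real.pi * s : ℝ) : ℂ))) (hrs : |r - s| < 1) : r = s := by
  rw [Complex.exp_eq_exp_iff_exists_int] at h
  obtain ⟨n, hn⟩ := h
  have h1 : (2 * Real.pi * r : ℝ) = 2 * Real.pi * s + n * (2 * Real.pi) := by
    have h2 : Complex.I * ((2 * Real.pi * r : ℝ) : ℂ) =
        Complex.I * ((2 * Real.pi * s + n * (2 * Real.pi) : ℝ) : ℂ) := by
      rw [hn]; push_cast; ring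
    have h3 := mul_left_cancel₀ Complex.I_ne_zero h2
    exact_mod_cast h3
  have h2 : r - s = n := by
    have hpi : (2 * Real.pi) ≠ 0 := by positivity
    have : (2 * Real.pi) * (r - s) = (2 * Real.pi) * n := by linarith
    exact mul_left_cancel₀ hpi this
  rw [h2] at hrs
  have h3 : |n| < 1 := by exact_mod_cast hrs
  have h4 : n = 0 := Int.abs_lt_one_iff.1 h3
  rw [h4] at h2
  push_cast at h2
  linarith

end Pool.Agent.Helper398
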