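import Mathlib

set_option autoImplicit false

open Finset
open scoped Pointwise

namespace Pool.Agent.Helper398

variable {G : Type*} [AddCommGroup G] [DecidableEq G]

/-- The number of new elements obtained by translating B by x. -/
def gr (B : Finset G) (x : G) : ℕ := ((x +ᵥ B) \ B).card

theorem gr_zero (B : Finset G) : gr B 0 = 0 := by
  simp [gr]

theorem card_inter_add_gr (B : Finset G) (x : G) : (B ∩ (x +ᵥ B)).card + gr B x = B.card := by
  unfold gr
  rw [Finset.inter_comm, Finset.card_inter_add_card_sdiff, Finset.card_vadd_finset]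

theorem gr_neg (B : Finset G) (x : G) : gr B (-x) = gr B x := by
  have h1 := card_inter_add_gr B x
  have h2 := card_inter_add_gr B (-x)
  have h3 : (B ∩ (-x +ᵥ B)).card = (B ∩ (x +ᵥ B)).card := by
    have : x +ᵥ (B ∩ (-x +ᵥ B)) = B ∩ (x +ᵥ B) := by
      rw [Finset.vadd_finset_inter, vadd_neg_vadd, Finset.inter_comm]
    rw [← this, Finset.card_vadd_finset]
  omega

theorem gr_add (B : Finset G) (x y : G) : gr B (x + y) ≤ gr B x + gr B y := by
  unfold gr
  have h : ((x + y) +ᵥ B) \ B ⊆ ((x +ᵥ B) \ B) ∪ (x +ᵥ ((y +ᵥ B) \ B)) := by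
    intro z hz
    rw [Finset.mem_sdiff] at hz
    rw [Finset.mem_union, Finset.mem_sdiff, Finset.vadd_finset_sdiff, Finset.mem_sdiff,
      ← add_vadd]
    by_cases hx : z ∈ x +ᵥ B
    · exact Or.inl ⟨hx, hz.2⟩
    · exact Or.inr ⟨hz.1, hx⟩
  calc (((x + y) +ᵥ B) \ B).card ≤ _ := Finset.card_le_card h
    _ ≤ _ := Finset.card_union_le _ _
    _ = _ := by rw [Finset.card_vadd_finset]

theorem sum_inter [Fintype G] (B : Finset G) :
    ∑ x : G, (B ∩ (x +ᵥ B)).card = B.card ^ 2 := by
  have h1 : ∀ x : G, (B ∩ (x +ᵥ B)).card = ∑ b ∈ B, if b ∈ x +ᵥ B then 1 else 0 := by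
    intro x
    rw [← Finset.filter_mem_eq_inter, Finset.card_filter]
  simp_rw [h1]
  rw [Finset.sum_comm]
  have h2 : ∀ b ∈ B, ∑ x : G, (if b ∈ x +ᵥ B then 1 else 0 : ℕ) = B.card := by
    intro b _
    have h3 : ∀ x : G, (b ∈ x +ᵥ B ↔ (Equiv.subLeft b) x ∈ B) := by
      intro x
      rw [Finset.mem_vadd_finset]
      simp only [Equiv.subLeft_apply, vadd_eq_add]
      constructor
      · rintro ⟨y, hy, rfl⟩
        simpa using hy
      · intro h
        exact ⟨b - x, h, by abel⟩
    simp_rw [h3]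
    rw [Equiv.sum_comp (Equiv.subLeft b) (fun z => if z ∈ B then 1 else 0)]
    simp
  rw [Finset.sum_congr rfl h2, Finset.sum_const, smul_eq_mul, sq]

/-- iterated sumsets -/
def it (T : Finset G) : ℕ → Finset G
  | 0 => {0}
  | (j + 1) => it T j + T

theorem it_mono_succ (T : Finset G) (h0 : (0 : G) ∈ T) (j : ℕ) : it T j ⊆ it T (j + 1) := by
  intro x hx
  have := Finset.add_mem_add hx h0
  simpa [it] using this

theorem gr_it (B T : Finset G) (L : ℝ) (hL : ∀ t ∈ T, (gr B t : ℝ) ≤ L) (j : ℕ) :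
    ∀ y ∈ it T j, (gr B y : ℝ) ≤ j * L := by
  induction j with
  | zero =>
    intro y hy
    simp only [it, Finset.mem_singleton] at hy
    subst hy
    simp [gr_zero]
  | succ j ih =>
    intro y hy
    simp only [it, Finset.mem_add] at hy
    obtain ⟨a, ha, t, ht, rfl⟩ := hy
    have h1 := ih a ha
    have h2 := hL t ht
    have h3 : (gr B (a + t) : ℝ) ≤ gr B a + gr B t := by exact_mod_cast gr_add B a t
    push_cast
    linarith

/-- the counting lemma -/
theorem counting [Fintype G] (B T : Finset G) (h0 : (0 : G) ∈ T) (L : ℝ)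
    (hL : ∀ t ∈ T, (gr B t : ℝ) ≤ L) (J : ℕ) :
    ((it T J).card : ℝ) * (B.card - J * L) + L * ∑ j ∈ range J, ((it T j).card : ℝ)
      ≤ (B.card : ℝ) ^ 2 := by
  have key : ((it T J).card : ℝ) * (B.card - J * L) + L * ∑ j ∈ range J, ((it T j).card : ℝ)
      ≤ ∑ y ∈ it T J, ((B ∩ (y +ᵥ B)).card : ℝ) := by
    induction J with
    | zero =>
      simp [it]
    | succ J ih =>
      have hsub := it_mono_succ T h0 J
      rw [Finset.sum_range_succ, ← Finset.sum_sdiff hsub]
      have h1 : ((it T (J + 1) \ it T J).card : ℝ) * (B.card - (J + 1 : ℕ) * L) ≤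
          ∑ y ∈ it T (J + 1) \ it T J, ((B ∩ (y +ᵥ B)).card : ℝ) := by
        rw [← nsmul_eq_mul]
        apply Finset.card_nsmul_le_sum
        intro y hy
        have h2 := gr_it B T L hL (J + 1) y (Finset.mem_sdiff.1 hy).1
        have h3 : ((B ∩ (y +ᵥ B)).card : ℝ) + gr B y = B.card := by
          exact_mod_cast card_inter_add_gr B y
        linarith
      have h4 : ((it T (J + 1) \ it T J).card : ℝ) = (it T (J + 1)).card - (it T J).card := by
        rw [Finset.card_sdiff_of_subset hsub, Nat.cast_sub (Finset.card_le_card hsub)]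
      rw [h4] at h1
      push_cast at h1 ⊢
      nlinarith [h1, ih]
  refine key.trans ?_
  have h5 : (B.card : ℝ) ^ 2 = ∑ y : G, ((B ∩ (y +ᵥ B)).card : ℝ) := by
    exact_mod_cast (sum_inter B).symm
  rw [h5]
  exact Finset.sum_le_sum_of_subset_of_nonneg (Finset.subset_univ _) (fun _ _ _ => Nat.cast_nonneg _)

end Pool.Agent.Helper398
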