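import Mathlib

set_option autoImplicit false
set_option linter.unusedSectionVars false

open Finset

namespace Pool.Agent.Helper398

/-- `z` is a subset sum of the family `u` over `I` -/
def Rep {ι : Type*} (u : ι → ℕ) (I : Finset ι) (z : ℕ) : Prop := ∃ J ⊆ I, ∑ i ∈ J, u i = z

variable {ι : Type*} [DecidableEq ι]

theorem Rep.mono {u : ι → ℕ} {I I' : Finset ι} {z : ℕ} (h : Rep u I z) (hI : I ⊆ I') :
    Rep u I' z := by
  obtain ⟨J, hJ, hz⟩ := h
  exact ⟨J, hJ.trans hI, hz⟩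

theorem Rep.symm {u : ι → ℕ} {I : Finset ι} {z : ℕ} (h : Rep u I z) :
    Rep u I (∑ i ∈ I, u i - z) := by
  obtain ⟨J, hJ, hz⟩ := h
  refine ⟨I \ J, Finset.sdiff_subset, ?_⟩
  have := Finset.sum_sdiff (f := u) hJ
  omega

theorem rep_ext {u : ι → ℕ} {I : Finset ι} {α β : ℕ} (h : ∀ z, α ≤ z → z ≤ β → Rep u I z)
    (i : ι) (hi : i ∉ I) (hu : u i + α ≤ β + 1) :
    ∀ z, α ≤ z → z ≤ β + u i → Rep u (insert i I) z := by
  intro z h1 h2
  by_cases h3 : z ≤ β
  · exact (h z h1 h3).mono (Finset.subset_insert _ _)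
  · obtain ⟨J, hJ, hz⟩ := h (z - u i) (by omega) (by omega)
    refine ⟨insert i J, Finset.insert_subset_insert _ hJ, ?_⟩
    rw [Finset.sum_insert (fun hc => hi (hJ hc)), hz]
    omega

theorem rep_ext_all {u : ι → ℕ} {I : Finset ι} {α β : ℕ}
    (h : ∀ z, α ≤ z → z ≤ β → Rep u I z) (K : Finset ι) (hd : Disjoint I K)
    (hu : ∀ i ∈ K, u i + α ≤ β + 1) :
    ∀ z, α ≤ z → z ≤ β + ∑ i ∈ K, u i → Rep u (I ∪ K) z := by
  induction K using Finset.induction_on with
  | empty => simpa using h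
  | insert a K ha ih =>
    have h1 := ih (hd.mono_right (Finset.subset_insert _ _))
      (fun i hi => hu i (Finset.mem_insert_of_mem hi))
    have h2 := rep_ext h1 a (by
      rw [Finset.mem_union]
      rintro (hc | hc)
      · exact (Finset.disjoint_left.1 hd hc) (Finset.mem_insert_self _ _)
      · exact ha hc) (by
      have := hu a (Finset.mem_insert_self _ _)
      omega)
    intro z hz1 hz2
    rw [Finset.sum_insert ha] at hz2
    rw [Finset.union_insert]
    exact h2 z hz1 (by omega)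

/-- the pairs lemma: a set of integers in `[1,y]` missing at most `μ` of them -/
theorem rep_pairs (P : Finset ℕ) (y μ : ℕ) (hP : (Finset.Icc 1 y \ P).card ≤ μ) (z : ℕ)
    (hz1 : 2 * μ + 3 ≤ z) (hz2 : z + (2 * μ + 3) ≤ 2 * y) :
    ∃ J ⊆ P ∩ Finset.Icc 1 y, ∑ j ∈ J, j = z := by
  classical
  -- pairs `(i, z - i)` with `i` in an interval of length `μ + 1`
  obtain ⟨lo, hlo⟩ : ∃ lo, lo = max 1 (z - y) := ⟨_, rfl⟩
  by_contra hcon
  have hbad : ∀ i ∈ Finset.Ico lo (lo + (μ + 1)), i ∉ P ∨ z - i ∉ P := by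
    intro i hi
    rw [Finset.mem_Ico] at hi
    by_contra hc
    push Not at hc
    apply hcon
    refine ⟨{i, z - i}, ?_, ?_⟩
    · intro j hj
      rw [Finset.mem_insert, Finset.mem_singleton] at hj
      rw [Finset.mem_inter, Finset.mem_Icc]
      rcases hj with rfl | rfl
      · exact ⟨hc.1, by omega, by omega⟩
      · exact ⟨hc.2, by omega, by omega⟩
    · rw [Finset.sum_pair (by omega)]
      omega
  have hinj : (Finset.Ico lo (lo + (μ + 1))).card ≤ (Finset.Icc 1 y \ P).card := by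
    apply Finset.card_le_card_of_injOn (fun i => if i ∈ P then z - i else i)
    · intro i hi
      have h1 := hbad i hi
      rw [Finset.mem_coe, Finset.mem_Ico] at hi
      simp only [Finset.mem_coe, Finset.mem_sdiff, Finset.mem_Icc]
      split_ifs with h
      · refine ⟨⟨by omega, by omega⟩, ?_⟩
        rcases h1 with h1 | h1
        · exact absurd h h1
        · exact h1
      · exact ⟨⟨by omega, by omega⟩, h⟩
    · intro i hi j hj hij
      rw [Finset.mem_coe, Finset.mem_Ico] at hi hj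
      simp only at hij
      split_ifs at hij <;> omega
  rw [Nat.card_Ico] at hinj
  omega

theorem sum_le_tri (P : Finset ℕ) (y : ℕ) (hP : ∀ p ∈ P, p ≤ y) :
    2 * ∑ p ∈ P, p ≤ y * (y + 1) := by
  have h1 : ∑ p ∈ P, p ≤ ∑ p ∈ Finset.range (y + 1), p := by
    apply Finset.sum_le_sum_of_subset
    intro p hp
    rw [Finset.mem_range]
    have := hP p hp
    omega
  have h2 := Finset.sum_range_id_mul_two (y + 1)
  have h3 : (y + 1) * (y + 1 - 1) = y * (y + 1) := by rw [Nat.add_sub_cancel]; ring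
  omega

/-- covering lemma for integers, case of many different values -/
theorem int_cover (S : Finset ι) (u : ι → ℕ) (L μ : ℕ) (hu : ∀ i ∈ S, 1 ≤ u i ∧ u i ≤ L)
    (hP : (Finset.Icc 1 L \ S.image u).card ≤ μ) (hL : 16 * μ + 21 ≤ L) (z : ℕ)
    (hz1 : 2 * μ + 3 ≤ z) (hz2 : z + (2 * μ + 3) ≤ ∑ i ∈ S, u i) : Rep u S z := by
  classical
  obtain ⟨y, hy⟩ : ∃ y, y = (L + 1) / 2 + (2 * μ + 3) := ⟨_, rfl⟩
  obtain ⟨P, hPdef⟩ : ∃ P, P = S.image u := ⟨_, rfl⟩
  rw [← hPdef] at hP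
  -- section
  have hsec : ∀ p ∈ P, ∃ i ∈ S, u i = p := by
    intro p hp
    rw [hPdef, Finset.mem_image] at hp
    exact hp
  obtain ⟨P0, hP0⟩ : ∃ P0, P0 = P ∩ Finset.Icc 1 y := ⟨_, rfl⟩
  have hneS : S.Nonempty := by
    rw [Finset.nonempty_iff_ne_empty]
    intro h
    rw [h, Finset.sum_empty] at hz2
    omega
  obtain ⟨i0, -⟩ := hneS
  obtain ⟨s, hs⟩ : ∃ s : ℕ → ι, ∀ p ∈ P, s p ∈ S ∧ u (s p) = p := by
    have : ∀ p, ∃ i, p ∈ P → i ∈ S ∧ u i = p := by
      intro p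
      by_cases hp : p ∈ P
      · obtain ⟨i, hi, hi2⟩ := hsec p hp
        exact ⟨i, fun _ => ⟨hi, hi2⟩⟩
      · exact ⟨i0, fun h => absurd h hp⟩
    choose s hs using this
    exact ⟨s, hs⟩
  have hsinj : ∀ p ∈ P, ∀ p' ∈ P, s p = s p' → p = p' := by
    intro p hp p' hp' h
    rw [← (hs p hp).2, ← (hs p' hp').2, h]
  have hsumP : ∀ Q ⊆ P, ∑ i ∈ Q.image s, u i = ∑ p ∈ Q, p := by
    intro Q hQ
    rw [Finset.sum_image (fun p hp p' hp' h => hsinj p (hQ hp) p' (hQ hp') h)]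
    exact Finset.sum_congr rfl (fun p hp => (hs p (hQ hp)).2)
  have hP0P : P0 ⊆ P := by rw [hP0]; exact Finset.inter_subset_left
  obtain ⟨V0, hV0⟩ : ∃ V0, V0 = P0.image s := ⟨_, rfl⟩
  have hV0S : V0 ⊆ S := by
    intro i hi
    rw [hV0, Finset.mem_image] at hi
    obtain ⟨p, hp, rfl⟩ := hi
    exact (hs p (hP0P hp)).1
  have hyL : y ≤ L := by omega
  have hP' : (Finset.Icc 1 y \ P).card ≤ μ := by
    refine le_trans (Finset.card_le_card ?_) hP
    intro x hx
    rw [Finset.mem_sdiff, Finset.mem_Icc] at hx ⊢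
    exact ⟨⟨hx.1.1, by omega⟩, hx.2⟩
  -- the first interval
  have hfirst : ∀ z, 2 * μ + 3 ≤ z → z ≤ 2 * y - (2 * μ + 3) → Rep u V0 z := by
    intro z h1 h2
    obtain ⟨J, hJ, hJz⟩ := rep_pairs P y μ hP' z h1 (by omega)
    rw [← hP0] at hJ
    refine ⟨J.image s, ?_, ?_⟩
    · rw [hV0]; exact Finset.image_subset_image hJ
    · rw [hsumP J (hJ.trans hP0P), hJz]
  have hall := rep_ext_all hfirst (S \ V0) Finset.disjoint_sdiff (by
    intro i hi
    have := (hu i (Finset.sdiff_subset hi)).2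
    omega)
  rw [Finset.union_sdiff_of_subset hV0S] at hall
  -- comparison of the weights
  have hw : ∑ i ∈ S \ V0, u i + ∑ i ∈ V0, u i = ∑ i ∈ S, u i := Finset.sum_sdiff hV0S
  have hV0le : 2 * ∑ i ∈ V0, u i ≤ y * (y + 1) := by
    rw [hV0, hsumP P0 hP0P]
    apply sum_le_tri
    intro p hp
    rw [hP0, Finset.mem_inter, Finset.mem_Icc] at hp
    exact hp.2.2
  have hV1 : (L - y - μ) * (y + 1) ≤ ∑ i ∈ S \ V0, u i := by
    obtain ⟨P1, hP1⟩ : ∃ P1, P1 = P ∩ Finset.Icc (y + 1) L := ⟨_, rfl⟩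
    have hP1P : P1 ⊆ P := by rw [hP1]; exact Finset.inter_subset_left
    have h1 : P1.image s ⊆ S \ V0 := by
      intro i hi
      rw [Finset.mem_image] at hi
      obtain ⟨p, hp, rfl⟩ := hi
      rw [Finset.mem_sdiff]
      refine ⟨(hs p (hP1P hp)).1, ?_⟩
      intro hc
      rw [hV0, Finset.mem_image] at hc
      obtain ⟨p', hp', he⟩ := hc
      have := hsinj p' (hP0P hp') p (hP1P hp) he
      rw [hP0, Finset.mem_inter, Finset.mem_Icc] at hp'
      rw [hP1, Finset.mem_inter, Finset.mem_Icc] at hp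
      omega
    have h2 : ∑ p ∈ P1, p ≤ ∑ i ∈ S \ V0, u i := by
      rw [← hsumP P1 hP1P]
      exact Finset.sum_le_sum_of_subset h1
    have h3 : P1.card * (y + 1) ≤ ∑ p ∈ P1, p := by
      rw [← smul_eq_mul, ← Finset.sum_const]
      apply Finset.sum_le_sum
      intro p hp
      rw [hP1, Finset.mem_inter, Finset.mem_Icc] at hp
      omega
    have h4 : L - y - μ ≤ P1.card := by
      have h5 : (Finset.Icc (y + 1) L).card = L - y := by rw [Nat.card_Icc]; omega
      have h6 : (Finset.Icc (y + 1) L \ P).card ≤ μ := by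
        refine le_trans (Finset.card_le_card ?_) hP
        intro x hx
        rw [Finset.mem_sdiff, Finset.mem_Icc] at hx ⊢
        exact ⟨⟨by omega, hx.1.2⟩, hx.2⟩
      have h7 := Finset.card_inter_add_card_sdiff (Finset.Icc (y + 1) L) P
      rw [Finset.inter_comm, ← hP1] at h7
      omega
    exact (Nat.mul_le_mul_right _ h4).trans (h3.trans h2)
  have hcmp : ∑ i ∈ V0, u i ≤ ∑ i ∈ S \ V0, u i := by
    have h1 : y * (y + 1) ≤ 2 * ((L - y - μ) * (y + 1)) := by
      have h2 : y ≤ 2 * (L - y - μ) := by omega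
      calc y * (y + 1) ≤ 2 * (L - y - μ) * (y + 1) := Nat.mul_le_mul_right _ h2
        _ = _ := by ring
    omega
  by_cases h : z ≤ 2 * y - (2 * μ + 3) + ∑ i ∈ S \ V0, u i
  · exact hall z hz1 h
  · have h1 : Rep u S (∑ i ∈ S, u i - z) := hall _ (by omega) (by omega)
    have h2 := h1.symm
    have h3 : ∑ i ∈ S, u i - (∑ i ∈ S, u i - z) = z := by omega
    rwa [h3] at h2

/-- covering lemma for integers, case of many ones -/
theorem int_cover_one (S : Finset ι) (u : ι → ℕ) (L : ℕ) (hu : ∀ i ∈ S, u i ≤ L)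
    (h1 : L ≤ (S.filter (fun i => u i = 1)).card + 1) (z : ℕ) (hz : z ≤ ∑ i ∈ S, u i) :
    Rep u S z := by
  classical
  obtain ⟨V0, hV0⟩ : ∃ V0, V0 = S.filter (fun i => u i = 1) := ⟨_, rfl⟩
  have hV0S : V0 ⊆ S := by rw [hV0]; exact Finset.filter_subset _ _
  have hV01 : ∀ i ∈ V0, u i = 1 := by
    intro i hi
    rw [hV0, Finset.mem_filter] at hi
    exact hi.2
  have hfirst : ∀ z, 0 ≤ z → z ≤ V0.card → Rep u V0 z := by
    intro z _ h2
    obtain ⟨J, hJ, hJz⟩ := Finset.exists_subset_card_eq h2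
    refine ⟨J, hJ, ?_⟩
    rw [Finset.sum_congr rfl (fun i hi => hV01 i (hJ hi)), Finset.sum_const, smul_eq_mul, mul_one,
      hJz]
  have hall := rep_ext_all hfirst (S \ V0) Finset.disjoint_sdiff (by
    intro i hi
    have := hu i (Finset.sdiff_subset hi)
    rw [← hV0] at h1
    omega)
  rw [Finset.union_sdiff_of_subset hV0S] at hall
  apply hall z (Nat.zero_le _)
  have hw : ∑ i ∈ S \ V0, u i + ∑ i ∈ V0, u i = ∑ i ∈ S, u i := Finset.sum_sdiff hV0S
  have h2 : ∑ i ∈ V0, u i = V0.card := by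
    rw [Finset.sum_congr rfl (fun i hi => hV01 i hi), Finset.sum_const, smul_eq_mul, mul_one]
  omega

end Pool.Agent.Helper398
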