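import Mathlib

set_option autoImplicit false

open Finset
open scoped Pointwise

namespace Pool.Agent.Helper398

variable {G : Type*} [AddCommGroup G] [DecidableEq G] [Fintype G]

theorem atom_inter (T : Finset G) (hneg : ∀ t ∈ T, -t ∈ T) (κ : ℕ)
    (hκ : ∀ C : Finset G, C.Nonempty → C + T ≠ univ → C.card + κ ≤ (C + T).card)
    (A B : Finset G) (hA : A + T ≠ univ) (hAκ : (A + T).card = A.card + κ)
    (hBκ : (B + T).card = B.card + κ) (hAB : B.card = A.card)
    (hmin : ∀ C : Finset G, C.Nonempty → C + T ≠ univ → (C + T).card = C.card + κ →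
      A.card ≤ C.card)
    (hI : (A ∩ B).Nonempty) : A = B := by
  by_contra hne
  have hAne : A.Nonempty := hI.mono Finset.inter_subset_left
  have hlt : (A ∩ B).card < A.card := by
    apply Finset.card_lt_card
    refine ⟨Finset.inter_subset_left, fun h => hne ?_⟩
    have h1 : A ⊆ B := fun x hx => (Finset.mem_inter.1 (h hx)).2
    exact Finset.eq_of_subset_of_card_le h1 hAB.le
  have hCsub : (A ∩ B) + T ⊆ (A + T) ∩ (B + T) := Finset.inter_add_subset
  have hCne : (A ∩ B) + T ≠ univ := by
    intro h
    apply hA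
    rw [Finset.eq_univ_iff_forall] at h ⊢
    intro x
    exact (Finset.mem_inter.1 (hCsub (h x))).1
  have hC1 := hκ _ hI hCne
  have hC2 : (A ∩ B).card + κ ≠ ((A ∩ B) + T).card := by
    intro h
    have := hmin _ hI hCne h.symm
    omega
  have hD : (A ∪ B) + T = (A + T) ∪ (B + T) := Finset.union_add
  have hsum := Finset.card_union_add_card_inter (A + T) (B + T)
  have hsum2 := Finset.card_union_add_card_inter A B
  have hle := Finset.card_le_card hCsub
  rw [← hD] at hsum
  have hDne : (A ∪ B) + T = univ := by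
    by_contra h
    have := hκ _ (hAne.mono Finset.subset_union_left) h
    omega
  have hcard : ((A ∪ B) + T).card = Fintype.card G := by
    rw [hDne, Finset.card_univ]
  have hpos : 0 < (A ∩ B).card := Finset.card_pos.2 hI
  -- the dual fragment
  have hstar : (univ \ (A + T)).Nonempty := by
    rw [Finset.sdiff_nonempty]
    intro h
    exact hA (Finset.univ_subset_iff.1 h)
  have hdisj : (univ \ (A + T)) + T ⊆ univ \ A := by
    intro z hz
    rw [Finset.mem_add] at hz
    obtain ⟨x, hx, t, ht, rfl⟩ := hz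
    rw [Finset.mem_sdiff] at hx ⊢
    refine ⟨Finset.mem_univ _, fun h => hx.2 ?_⟩
    have := Finset.add_mem_add h (hneg t ht)
    simpa using this
  have hstarne : (univ \ (A + T)) + T ≠ univ := by
    intro h
    obtain ⟨a, ha⟩ := hAne
    have h1 : a ∈ (univ \ (A + T)) + T := by rw [h]; exact Finset.mem_univ _
    exact (Finset.mem_sdiff.1 (hdisj h1)).2 ha
  have hs1 : (univ \ (A + T)).card + (A + T).card = Fintype.card G := by
    rw [← Finset.card_univ]
    exact Finset.card_sdiff_add_card_eq_card (Finset.subset_univ _)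
  have hs2 : (univ \ A).card + A.card = Fintype.card G := by
    rw [← Finset.card_univ]
    exact Finset.card_sdiff_add_card_eq_card (Finset.subset_univ _)
  have hs3 := Finset.card_le_card hdisj
  have hs4 := hκ _ hstar hstarne
  have hs5 := hmin _ hstar hstarne (by omega)
  omega

theorem isoperimetric (T : Finset G) (hneg : ∀ t ∈ T, -t ∈ T) (hT : T ≠ univ) (h0 : (0 : G) ∈ T) :
    ∃ (H : AddSubgroup G) (HF : Finset G), (HF : Set G) = H ∧ HF + T ≠ univ ∧
      ∀ A : Finset G, A.Nonempty → A + T ≠ univ →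
        A.card + (HF + T).card ≤ (A + T).card + HF.card := by
  classical
  let F : Finset (Finset G) := univ.filter (fun A => A.Nonempty ∧ A + T ≠ univ)
  have hF : F.Nonempty := ⟨{0}, by
    simp only [F, Finset.mem_filter, Finset.mem_univ, true_and, Finset.singleton_nonempty]
    rw [Finset.singleton_zero, zero_add]
    exact hT⟩
  have hle : ∀ A : Finset G, A.card ≤ (A + T).card := fun A =>
    Finset.card_le_card_add_right ⟨0, h0⟩
  obtain ⟨A1, hA1, hmin1⟩ := Finset.exists_min_image F (fun A => (A + T).card - A.card) hF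
  let F2 : Finset (Finset G) := F.filter (fun A => (A + T).card - A.card = (A1 + T).card - A1.card)
  have hF2 : F2.Nonempty := ⟨A1, by simp [F2, hA1]⟩
  obtain ⟨A, hA, hmin⟩ := Finset.exists_min_image F2 (fun A => A.card) hF2
  have hA' : A ∈ F ∧ (A + T).card - A.card = (A1 + T).card - A1.card := by
    simpa [F2] using hA
  have hAF : A.Nonempty ∧ A + T ≠ univ := by simpa [F] using hA'.1
  obtain ⟨κ, hκdef⟩ : ∃ κ, κ = (A + T).card - A.card := ⟨_, rfl⟩
  have hAκ : (A + T).card = A.card + κ := by have := hle A; omega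
  have hκ : ∀ C : Finset G, C.Nonempty → C + T ≠ univ → C.card + κ ≤ (C + T).card := by
    intro C hC hCT
    have h1 := hmin1 C (by simp only [F, Finset.mem_filter, Finset.mem_univ, true_and]; exact ⟨hC, hCT⟩)
    have h2 := hle C
    have h3 := hA'.2
    omega
  have hmin' : ∀ C : Finset G, C.Nonempty → C + T ≠ univ → (C + T).card = C.card + κ →
      A.card ≤ C.card := by
    intro C hC hCT hCκ
    apply hmin C
    simp only [F2, F, Finset.mem_filter, Finset.mem_univ, true_and]
    refine ⟨⟨hC, hCT⟩, ?_⟩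
    have h3 := hA'.2
    omega
  obtain ⟨a, ha⟩ := hAF.1
  obtain ⟨H, hH⟩ : ∃ H : Finset G, H = -a +ᵥ A := ⟨_, rfl⟩
  have hcardH : H.card = A.card := by rw [hH, Finset.card_vadd_finset]
  have htr : ∀ x : G, (x +ᵥ A) + T = x +ᵥ (A + T) := fun x => by
    rw [vadd_add_assoc]
  have htr2 : ∀ x : G, (x +ᵥ H) + T = x +ᵥ (H + T) := fun x => by
    rw [vadd_add_assoc]
  have hHT : (H + T).card = H.card + κ := by
    rw [hcardH, hH, htr, Finset.card_vadd_finset, hAκ]
  have hHne : H + T ≠ univ := by
    intro h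
    apply hAF.2
    have h1 : (H + T).card = Fintype.card G := by rw [h, Finset.card_univ]
    rw [hHT, hcardH, ← hAκ] at h1
    exact (Finset.card_eq_iff_eq_univ _).1 h1
  have h0H : (0 : G) ∈ H := by
    rw [hH, Finset.mem_vadd_finset]
    exact ⟨a, ha, by simp⟩
  have hclosed : ∀ x ∈ H, x +ᵥ H = H := by
    intro x hx
    symm
    apply atom_inter T hneg κ hκ H (x +ᵥ H) hHne hHT
    · rw [htr2, Finset.card_vadd_finset, Finset.card_vadd_finset, hHT]
    · rw [Finset.card_vadd_finset]
    · intro C h1 h2 h3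
      rw [hcardH]
      exact hmin' C h1 h2 h3
    · refine ⟨x, Finset.mem_inter.2 ⟨hx, ?_⟩⟩
      rw [Finset.mem_vadd_finset]
      exact ⟨0, h0H, by simp⟩
  refine ⟨{ carrier := (H : Set G), zero_mem' := ?_, add_mem' := ?_, neg_mem' := ?_ }, H, rfl, hHne, ?_⟩
  · intro x y hx hy
    have h1 := hclosed x (by simpa using hx)
    have : x + y ∈ x +ᵥ H := by
      rw [Finset.mem_vadd_finset]
      exact ⟨y, by simpa using hy, rfl⟩
    rw [h1] at this
    simpa using this
  · simpa using h0H
  · intro x hx
    have h1 := hclosed x (by simpa using hx)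
    have h2 : (0 : G) ∈ x +ᵥ H := by rw [h1]; exact h0H
    rw [Finset.mem_vadd_finset] at h2
    obtain ⟨y, hy, hxy⟩ := h2
    have h3 : -x = y := by
      rw [vadd_eq_add] at hxy
      exact neg_eq_of_add_eq_zero_right hxy
    simp only [SetLike.mem_coe] at hy ⊢
    rw [h3]
    exact hy
  · intro C hC hCT
    have h1 := hκ C hC hCT
    rw [hHT]
    omega

end Pool.Agent.Helper398
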