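import Mathlib
import Pool.Agent.Helper398.Growth
import Pool.Agent.Helper398.Iso

set_option autoImplicit false
set_option linter.unusedSectionVars false

open Finset
open scoped Pointwise

namespace Pool.Agent.Helper398

variable {G : Type*} [AddCommGroup G] [DecidableEq G]

/-- zero-sum-free: no nonempty subset sums to zero -/
def ZSF (S : Finset G) : Prop := ∀ B ⊆ S, B.Nonempty → ∑ b ∈ B, b ≠ 0

/-- no element of order at most two -/
def NI (S : Finset G) : Prop := ∀ s ∈ S, s + s ≠ 0

theorem ZSF.mono {S T : Finset G} (h : ZSF T) (hST : S ⊆ T) : ZSF S :=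
  fun B hB hne => h B (hB.trans hST) hne

theorem NI.mono {S T : Finset G} (h : NI T) (hST : S ⊆ T) : NI S :=
  fun s hs => h s (hST hs)

theorem ZSF.zero_notMem {S : Finset G} (h : ZSF S) : (0 : G) ∉ S := by
  intro h0
  exact h {0} (by simpa using h0) (by simp) (by simp)

/-- the symmetric set attached to R -/
def sym (R : Finset G) : Finset G := insert 0 (R ∪ -R)

theorem zero_mem_sym (R : Finset G) : (0 : G) ∈ sym R := by simp [sym]

theorem subset_sym (R : Finset G) : R ⊆ sym R := fun x hx => by simp [sym, hx]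

theorem neg_mem_sym (R : Finset G) : ∀ t ∈ sym R, -t ∈ sym R := by
  intro t ht
  simp only [sym, Finset.mem_insert, Finset.mem_union, Finset.mem_neg'] at ht ⊢
  rcases ht with rfl | h | h
  · simp
  · right; right; simpa using h
  · right; left; simpa using h

theorem card_sym (R : Finset G) (h : ZSF R) (hn : NI R) : (sym R).card = 2 * R.card + 1 := by
  unfold sym
  have hd : Disjoint R (-R) := by
    rw [Finset.disjoint_left]
    intro x hx hx'
    rw [Finset.mem_neg'] at hx'
    have hne : x ≠ -x := by
      intro h1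
      apply hn x hx
      nth_rewrite 2 [h1]
      simp
    apply h {x, -x}
    · intro y hy
      simp only [Finset.mem_insert, Finset.mem_singleton] at hy
      rcases hy with rfl | rfl <;> assumption
    · simp
    · rw [Finset.sum_pair hne]; simp
  rw [Finset.card_insert_of_notMem, Finset.card_union_of_disjoint hd, Finset.card_neg]
  · omega
  · simp only [Finset.mem_union, Finset.mem_neg', neg_zero, or_self]
    exact h.zero_notMem

theorem gr_sym (B R : Finset G) (L : ℝ) (hL0 : 0 ≤ L) (hL : ∀ x ∈ R, (gr B x : ℝ) ≤ L) :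
    ∀ t ∈ sym R, (gr B t : ℝ) ≤ L := by
  intro t ht
  simp only [sym, Finset.mem_insert, Finset.mem_union, Finset.mem_neg'] at ht
  rcases ht with rfl | h | h
  · simpa [gr_zero] using hL0
  · exact hL t h
  · rw [← gr_neg]; exact hL _ h

/-- isoperimetric constant of the symmetric set of a generating set: lower bounds -/
theorem iso_sym [Fintype G] (R : Finset G) (hgen : AddSubgroup.closure (R : Set G) = ⊤)
    (hT : sym R ≠ univ) :
    ∃ (H : AddSubgroup G) (HF : Finset G) (κ : ℕ), (∀ x, x ∈ HF ↔ x ∈ H) ∧
      (sym R).card ≤ 2 * κ ∧ HF.card ≤ κ ∧ (sym R \ HF).card ≤ κ ∧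
      ∀ A : Finset G, A.Nonempty → A + sym R ≠ univ → A.card + κ ≤ (A + sym R).card := by
  obtain ⟨H, HF, hHF, hne, hA⟩ := isoperimetric (sym R) (neg_mem_sym R) hT (zero_mem_sym R)
  have h0H : (0 : G) ∈ HF := by
    have : (0 : G) ∈ (HF : Set G) := by rw [hHF]; exact H.zero_mem
    simpa using this
  have hsub : HF ⊆ HF + sym R := fun x hx => by
    simpa using Finset.add_mem_add hx (zero_mem_sym R)
  have hsub2 : sym R ⊆ HF + sym R := fun x hx => by
    simpa using Finset.add_mem_add h0H hx
  have hle := Finset.card_le_card hsub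
  have hmemH : ∀ x, x ∈ HF ↔ x ∈ H := fun x => by
    have : x ∈ (HF : Set G) ↔ x ∈ (H : Set G) := by rw [hHF]
    simpa using this
  -- some element of R is outside H
  have hex : ∃ r ∈ R, r ∉ H := by
    by_contra hcon
    push Not at hcon
    have h1 : AddSubgroup.closure (R : Set G) ≤ H := by
      rw [AddSubgroup.closure_le]
      intro x hx
      exact hcon x (by simpa using hx)
    rw [hgen, top_le_iff] at h1
    apply hne
    rw [Finset.eq_univ_iff_forall]
    intro x
    apply hsub
    rw [hmemH, h1]
    exact AddSubgroup.mem_top x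
  obtain ⟨r, hr, hrH⟩ := hex
  have hdis : Disjoint HF (r +ᵥ HF) := by
    rw [Finset.disjoint_left]
    intro x hx hx'
    rw [Finset.mem_vadd_finset] at hx'
    obtain ⟨y, hy, rfl⟩ := hx'
    rw [hmemH] at hx hy
    apply hrH
    have := H.sub_mem hx hy
    simpa using this
  have hsub3 : HF ∪ (r +ᵥ HF) ⊆ HF + sym R := by
    apply Finset.union_subset hsub
    intro x hx
    rw [Finset.mem_vadd_finset] at hx
    obtain ⟨y, hy, rfl⟩ := hx
    have := Finset.add_mem_add hy (subset_sym R hr)
    rw [vadd_eq_add, add_comm r y]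
    exact this
  have h2 := Finset.card_le_card hsub3
  rw [Finset.card_union_of_disjoint hdis, Finset.card_vadd_finset] at h2
  have h3 := Finset.card_le_card hsub2
  refine ⟨H, HF, (HF + sym R).card - HF.card, hmemH, by omega, by omega, ?_, ?_⟩
  · have h4 : Disjoint (sym R \ HF) HF := Finset.sdiff_disjoint
    have h5 : (sym R \ HF) ∪ HF ⊆ HF + sym R := by
      apply Finset.union_subset _ hsub
      intro x hx
      apply hsub2
      exact (Finset.mem_sdiff.1 hx).1
    have h6 := Finset.card_le_card h5
    rw [Finset.card_union_of_disjoint h4] at h6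
    omega
  · intro A hA1 hA2
    have := hA A hA1 hA2
    omega

theorem it_card [Fintype G] (T : Finset G) (κ : ℕ)
    (hκ : ∀ A : Finset G, A.Nonempty → A + T ≠ univ → A.card + κ ≤ (A + T).card)
    (h0 : (0 : G) ∈ T) (j : ℕ) : it T j = univ ∨ 1 + j * κ ≤ (it T j).card := by
  induction j with
  | zero => right; simp [it]
  | succ j ih =>
    have hmono := it_mono_succ T h0 j
    rcases ih with h | h
    · left
      rw [h] at hmono
      exact Finset.univ_subset_iff.1 hmono
    · by_cases hu : it T (j + 1) = univ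
      · exact Or.inl hu
      · right
        have hne : (it T j).Nonempty := Finset.card_pos.1 (by omega)
        have := hκ (it T j) hne hu
        have h2 : (it T j + T).card = (it T (j + 1)).card := rfl
        rw [h2] at this
        nlinarith

/-- if the translates by elements of R barely move B then B is empty or everything;
crude growth bound -/
theorem growth_crude_half [Fintype G] (R B : Finset G) (hR : ZSF R) (hn : NI R)
    (hgen : AddSubgroup.closure (R : Set G) = ⊤) (hRne : R.Nonempty) (hBne : B.Nonempty)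
    (hB : 2 * B.card ≤ Fintype.card G) : ∃ x ∈ R, min B.card R.card ≤ 9 * gr B x := by
  by_contra hcon
  push Not at hcon
  obtain ⟨n, hnd⟩ : ∃ n, n = B.card := ⟨_, rfl⟩
  obtain ⟨u, hud⟩ : ∃ u, u = R.card := ⟨_, rfl⟩
  have hn1 : 1 ≤ n := by rw [hnd]; exact Finset.card_pos.2 hBne
  have hu1 : 1 ≤ u := by rw [hud]; exact Finset.card_pos.2 hRne
  have hcs := card_sym R hR hn
  rw [← hnd, ← hud] at hcon
  rw [← hnd] at hB
  rw [← hud] at hcs
  by_cases hnu : n ≤ u
  · -- one step
    have hL : ∀ t ∈ sym R, (gr B t : ℝ) ≤ (n : ℝ) / 9 := by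
      apply gr_sym B R _ (by positivity)
      intro x hx
      have h1 := hcon x hx
      rw [min_eq_left hnu] at h1
      have h2 : ((9 * gr B x : ℕ) : ℝ) < (n : ℝ) := by exact_mod_cast h1
      push_cast at h2
      linarith
    have h3 := counting B (sym R) (zero_mem_sym R) _ hL 1
    rw [← hnd] at h3
    have h4 : it (sym R) 1 = sym R := by
      show {0} + sym R = sym R
      rw [Finset.singleton_zero, zero_add]
    rw [h4, hcs] at h3
    simp only [Nat.cast_one, one_mul, Finset.range_one, Finset.sum_singleton, it,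
      Finset.card_singleton] at h3
    push_cast at h3
    have h5 : (n : ℝ) ≤ u := by exact_mod_cast hnu
    have h6 : (1 : ℝ) ≤ n := by exact_mod_cast hn1
    nlinarith
  · push Not at hnu
    have hL : ∀ t ∈ sym R, (gr B t : ℝ) ≤ (u : ℝ) / 9 := by
      apply gr_sym B R _ (by positivity)
      intro x hx
      have h1 := hcon x hx
      rw [min_eq_right hnu.le] at h1
      have h2 : ((9 * gr B x : ℕ) : ℝ) < (u : ℝ) := by exact_mod_cast h1
      push_cast at h2
      linarith
    have hT : sym R ≠ univ := by
      intro h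
      rw [h, Finset.card_univ] at hcs
      omega
    obtain ⟨H, HF, κ, -, hκ1, -, -, hκ⟩ := iso_sym R hgen hT
    have hκu : u ≤ κ := by omega
    obtain ⟨J, hJ⟩ : ∃ J, J = (2 * n - 1) / u := ⟨_, rfl⟩
    have hJ2 : 2 ≤ J := by
      rw [hJ, Nat.le_div_iff_mul_le hu1]
      omega
    have hJu : J * u ≤ 2 * n - 1 := by rw [hJ]; exact Nat.div_mul_le_self _ _
    have hJu2 : 2 * n ≤ J * u + u := by
      have := Nat.lt_div_mul_add hu1 (a := 2 * n - 1)
      rw [← hJ] at this
      omega
    have hcard : ∀ j, j ≤ J → 1 + j * u ≤ (it (sym R) j).card := by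
      intro j hj
      rcases it_card (sym R) κ hκ (zero_mem_sym R) j with h | h
      · rw [h, Finset.card_univ]
        have : j * u ≤ J * u := Nat.mul_le_mul_right _ hj
        omega
      · have : j * u ≤ j * κ := Nat.mul_le_mul_left _ hκu
        omega
    have h3 := counting B (sym R) (zero_mem_sym R) _ hL J
    rw [← hnd] at h3
    have hJr : (2 : ℝ) ≤ J := by exact_mod_cast hJ2
    have hur : (1 : ℝ) ≤ u := by exact_mod_cast hu1
    have hJur : (J : ℝ) * u ≤ 2 * n - 1 := by
      have : ((J * u + 1 : ℕ) : ℝ) ≤ ((2 * n : ℕ) : ℝ) := by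
        exact_mod_cast (by omega : J * u + 1 ≤ 2 * n)
      push_cast at this
      linarith
    have hJur2 : 2 * (n : ℝ) ≤ J * u + u := by exact_mod_cast hJu2
    have hnur : (u : ℝ) + 1 ≤ n := by exact_mod_cast hnu
    have hsum : (J : ℝ) + u * (J * (J - 1) / 2) ≤
        ∑ j ∈ range J, ((it (sym R) j).card : ℝ) := by
      have h4 : ∀ K, K ≤ J → (K : ℝ) + u * (K * (K - 1) / 2) ≤
          ∑ j ∈ range K, ((it (sym R) j).card : ℝ) := by
        intro K hK
        induction K with
        | zero => simp
        | succ K ih =>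
          rw [Finset.sum_range_succ]
          have h5 := ih (by omega)
          have h6 : ((1 + K * u : ℕ) : ℝ) ≤ ((it (sym R) K).card : ℝ) := by
            exact_mod_cast hcard K (by omega)
          push_cast at h6 ⊢
          nlinarith
      exact h4 J le_rfl
    have hJc : (1 : ℝ) + J * u ≤ ((it (sym R) J).card : ℝ) := by
      exact_mod_cast hcard J le_rfl
    -- combine
    have hpos : 0 ≤ (n : ℝ) - J * (u / 9) := by nlinarith
    have h7 : ((1 : ℝ) + J * u) * (n - J * (u / 9)) + (u / 9) * (J + u * (J * (J - 1) / 2))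
        ≤ (n : ℝ) ^ 2 := by
      refine le_trans ?_ h3
      apply add_le_add
      · exact mul_le_mul_of_nonneg_right hJc hpos
      · exact mul_le_mul_of_nonneg_left hsum (by positivity)
    obtain ⟨w, hw⟩ : ∃ w : ℝ, w = J * u := ⟨_, rfl⟩
    have h8 : ((1 : ℝ) + w) * (n - w / 9) + w / 9 + (w ^ 2 - u * w) / 18 ≤ (n : ℝ) ^ 2 := by
      have : ((1 : ℝ) + J * u) * (n - J * (u / 9)) + (u / 9) * (J + u * (J * (J - 1) / 2)) =
        ((1 : ℝ) + w) * (n - w / 9) + w / 9 + (w ^ 2 - u * w) / 18 := by
        rw [hw]; ring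
      rw [← this]; exact h7
    rw [← hw] at hJur hJur2
    have hw2 : 2 * (u : ℝ) ≤ w := by rw [hw]; nlinarith
    have hw3 : 4 * (n : ℝ) ≤ 3 * w := by linarith
    nlinarith [mul_nonneg (by linarith : (0:ℝ) ≤ w - 4 * n / 3) (by linarith : (0:ℝ) ≤ (n:ℝ)),
      mul_nonneg (by linarith : (0:ℝ) ≤ w) (by linarith : (0:ℝ) ≤ 3 * n - 2 - u - w)]

theorem gr_compl [Fintype G] (B : Finset G) (x : G) : gr Bᶜ x = gr B x := by
  rw [← gr_neg B x]
  unfold gr
  rw [← Finset.card_vadd_finset x ((-x +ᵥ B) \ B), Finset.vadd_finset_sdiff, vadd_neg_vadd]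
  congr 1
  ext y
  simp only [Finset.mem_sdiff, Finset.mem_compl, not_not, ← Finset.neg_vadd_mem_iff (a := x)]
  tauto

theorem growth_crude [Fintype G] (R B : Finset G) (hR : ZSF R) (hn : NI R)
    (hgen : AddSubgroup.closure (R : Set G) = ⊤) (hRne : R.Nonempty) (hBne : B.Nonempty)
    (hB : B ≠ univ) : ∃ x ∈ R, min (min B.card Bᶜ.card) R.card ≤ 9 * gr B x := by
  have hcc := Finset.card_add_card_compl B
  by_cases h : 2 * B.card ≤ Fintype.card G
  · obtain ⟨x, hx, hx2⟩ := growth_crude_half R B hR hn hgen hRne hBne h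
    refine ⟨x, hx, le_trans ?_ hx2⟩
    exact min_le_min_right _ (min_le_left _ _)
  · have hc : (Bᶜ).Nonempty := by
      rw [Finset.nonempty_iff_ne_empty]
      intro h0
      exact hB ((Finset.compl_eq_empty_iff _).1 h0)
    obtain ⟨x, hx, hx2⟩ := growth_crude_half R Bᶜ hR hn hgen hRne hc (by omega)
    refine ⟨x, hx, le_trans ?_ (le_of_le_of_eq hx2 (by rw [gr_compl]))⟩
    exact min_le_min_right _ (min_le_right _ _)

/-! transport to the subgroup generated by R -/

section transport

open Classical in
/-- the part of B inside the subgroup K, as a subset of K -/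
noncomputable def toSub (K : AddSubgroup G) (B : Finset G) : Finset K :=
  B.subtype (fun x => x ∈ K)

theorem mem_toSub (K : AddSubgroup G) (B : Finset G) (x : K) : x ∈ toSub K B ↔ (x : G) ∈ B := by
  classical
  simp [toSub]

open Classical in
/-- the part of B inside the subgroup K -/
noncomputable def inSub (K : AddSubgroup G) (B : Finset G) : Finset G := B.filter (fun x => x ∈ K)

theorem mem_inSub (K : AddSubgroup G) (B : Finset G) (x : G) : x ∈ inSub K B ↔ x ∈ B ∧ x ∈ K := by
  classical
  simp [inSub]

theorem card_toSub (K : AddSubgroup G) (B : Finset G) : (toSub K B).card = (inSub K B).card := by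
  classical
  simp [toSub, inSub]

theorem inSub_closure (R : Finset G) : inSub (AddSubgroup.closure (R : Set G)) R = R := by
  ext x
  rw [mem_inSub]
  constructor
  · exact fun h => h.1
  · intro h
    exact ⟨h, AddSubgroup.subset_closure (by simpa using h)⟩

theorem sum_coe_sub (K : AddSubgroup G) (B : Finset K) :
    ((∑ b ∈ B, b : K) : G) = ∑ b ∈ B.map (Function.Embedding.subtype _), b := by
  rw [Finset.sum_map, AddSubgroup.val_finsetSum]
  rfl

theorem ZSF_toSub (K : AddSubgroup G) (R : Finset G) (h : ZSF R) : ZSF (toSub K R) := by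
  intro B hB hne h0
  apply h (B.map (Function.Embedding.subtype _))
  · intro x hx
    rw [Finset.mem_map] at hx
    obtain ⟨y, hy, rfl⟩ := hx
    exact (mem_toSub K R y).1 (hB hy)
  · exact hne.map
  · rw [← sum_coe_sub, h0]
    rfl

theorem NI_toSub (K : AddSubgroup G) (R : Finset G) (h : NI R) : NI (toSub K R) := by
  intro x hx h0
  apply h x ((mem_toSub K R x).1 hx)
  have := congrArg (fun y : K => (y : G)) h0
  simpa using this

theorem closure_toSub (R : Finset G) :
    AddSubgroup.closure ((toSub (AddSubgroup.closure (R : Set G)) R :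
      Finset (AddSubgroup.closure (R : Set G))) : Set (AddSubgroup.closure (R : Set G))) = ⊤ := by
  have h := AddSubgroup.closure_closure_coe_preimage (k := (R : Set G))
  rw [← h]
  congr 1
  ext x
  simp [mem_toSub]

theorem gr_toSub_le (K : AddSubgroup G) (B : Finset G) (x : K) :
    gr (toSub K B) x ≤ gr B (x : G) := by
  classical
  unfold gr
  have : ((x +ᵥ toSub K B) \ toSub K B).map (Function.Embedding.subtype _) ⊆
      ((x : G) +ᵥ B) \ B := by
    intro y hy
    rw [Finset.mem_map] at hy
    obtain ⟨z, hz, rfl⟩ := hy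
    rw [Finset.mem_sdiff, Finset.mem_vadd_finset] at hz
    obtain ⟨⟨w, hw, rfl⟩, hz2⟩ := hz
    rw [mem_toSub] at hw hz2
    rw [Finset.mem_sdiff, Finset.mem_vadd_finset]
    exact ⟨⟨w, hw, rfl⟩, hz2⟩
  have h2 := Finset.card_le_card this
  rwa [Finset.card_map] at h2

end transport

end Pool.Agent.Helper398
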