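import Mathlib
import Pool.Agent.Helper398.Sums

set_option autoImplicit false
set_option linter.unusedSectionVars false

open Finset
open scoped Pointwise

namespace Pool.Agent.Helper398

variable {G : Type*} [AddCommGroup G] [DecidableEq G]

theorem subsetSum_insert' (S : Finset G) (a : G) (ha : a ∉ S) :
    (insert a S).subsetSum = S.subsetSum ∪ (a +ᵥ S.subsetSum) := by
  ext x
  rw [Finset.mem_union, Finset.mem_vadd_finset]
  constructor
  · intro hx
    rw [Finset.mem_subsetSum_iff] at hx
    obtain ⟨B, hB, rfl⟩ := hx
    by_cases haB : a ∈ B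
    · right
      refine ⟨∑ b ∈ B.erase a, b, ?_, ?_⟩
      · rw [Finset.mem_subsetSum_iff]
        refine ⟨B.erase a, ?_, rfl⟩
        rw [← Finset.subset_insert_iff]
        exact hB
      · rw [vadd_eq_add, Finset.add_sum_erase B (fun b => b) haB]
    · left
      rw [Finset.mem_subsetSum_iff]
      refine ⟨B, ?_, rfl⟩
      exact (Finset.subset_insert_iff_of_notMem haB).1 hB
  · rintro (hx | ⟨y, hy, rfl⟩)
    · exact Finset.subsetSum_mono (Finset.subset_insert a S) hx
    · apply Finset.vadd_finset_subsetSum_subset_subsetSum_insert ha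
      rw [Finset.mem_vadd_finset]
      exact ⟨y, hy, rfl⟩

theorem card_subsetSum_insert (S : Finset G) (a : G) (ha : a ∉ S) :
    (insert a S).subsetSum.card = S.subsetSum.card + gr S.subsetSum a := by
  rw [subsetSum_insert' S a ha, ← Finset.union_sdiff_self_eq_union,
    Finset.card_union_of_disjoint Finset.disjoint_sdiff]
  rfl

theorem subsetSum_closure (R : Finset G) (x : G) (hx : x ∈ R.subsetSum) :
    x ∈ AddSubgroup.closure (R : Set G) := by
  rw [Finset.mem_subsetSum_iff] at hx
  obtain ⟨B, hB, rfl⟩ := hx
  apply AddSubgroup.sum_mem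
  intro b hb
  exact AddSubgroup.subset_closure (by simpa using hB hb)

theorem doubling (S R : Finset G) (hRS : R ⊆ S)
    (hne : AddSubgroup.closure (R : Set G) ≠ AddSubgroup.closure (S : Set G)) :
    2 * R.subsetSum.card ≤ S.subsetSum.card := by
  have hex : ∃ s ∈ S, s ∉ AddSubgroup.closure (R : Set G) := by
    by_contra hcon
    push Not at hcon
    apply hne
    apply le_antisymm
    · exact AddSubgroup.closure_mono (by exact_mod_cast hRS)
    · rw [AddSubgroup.closure_le]
      intro x hx
      exact hcon x (by simpa using hx)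
  obtain ⟨s, hs, hsR⟩ := hex
  have hsR' : s ∉ R := fun h => hsR (AddSubgroup.subset_closure (by simpa using h))
  have h1 : (insert s R).subsetSum ⊆ S.subsetSum := by
    apply Finset.subsetSum_mono
    exact Finset.insert_subset hs hRS
  have h2 := Finset.card_le_card h1
  rw [subsetSum_insert' R s hsR'] at h2
  rw [Finset.card_union_of_disjoint, Finset.card_vadd_finset] at h2
  · omega
  · rw [Finset.disjoint_left]
    intro x hx hx'
    rw [Finset.mem_vadd_finset] at hx'
    obtain ⟨y, hy, rfl⟩ := hx'
    apply hsR
    have := AddSubgroup.sub_mem _ (subsetSum_closure R _ hx) (subsetSum_closure R _ hy)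
    simpa using this

theorem ZSF.card_add_card [Finite G] (X R : Finset G) (hd : Disjoint X R) (h : ZSF (X ∪ R)) :
    (inSub (AddSubgroup.closure (R : Set G)) X.subsetSum).card + R.subsetSum.card ≤
      Nat.card (AddSubgroup.closure (R : Set G)) + 1 := by
  classical
  have : Fintype (AddSubgroup.closure (R : Set G)) := Fintype.ofFinite _
  obtain ⟨K, hK⟩ : ∃ K, K = AddSubgroup.closure (R : Set G) := ⟨_, rfl⟩
  obtain ⟨KF, hKF⟩ : ∃ KF : Finset G, KF = (univ : Finset (AddSubgroup.closure (R : Set G))).map
    (Function.Embedding.subtype _) := ⟨_, rfl⟩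
  have hKc : KF.card = Nat.card (AddSubgroup.closure (R : Set G)) := by
    rw [hKF, Finset.card_map, Finset.card_univ, Nat.card_eq_fintype_card]
  have hmem : ∀ x, x ∈ KF ↔ x ∈ AddSubgroup.closure (R : Set G) := by
    intro x
    rw [hKF, Finset.mem_map]
    constructor
    · rintro ⟨y, _, rfl⟩
      exact y.2
    · intro hx
      exact ⟨⟨x, hx⟩, Finset.mem_univ _, rfl⟩
  have hdis : Disjoint (inSub (AddSubgroup.closure (R : Set G)) X.subsetSum)
      (-(R.subsetSum.erase 0)) := by
    rw [Finset.disjoint_left]
    intro x hx hx'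
    rw [mem_inSub, Finset.mem_subsetSum_iff] at hx
    rw [Finset.mem_neg', Finset.mem_erase, Finset.mem_subsetSum_iff] at hx'
    obtain ⟨⟨B, hB, hBx⟩, -⟩ := hx
    obtain ⟨hx0, C, hC, hCx⟩ := hx'
    have hCne : C.Nonempty := by
      rw [Finset.nonempty_iff_ne_empty]
      rintro rfl
      apply hx0
      rw [← hCx, Finset.sum_empty]
    apply h (B ∪ C) (Finset.union_subset_union hB hC) (hCne.mono Finset.subset_union_right)
    rw [Finset.sum_union (Finset.disjoint_of_subset_left hB (Finset.disjoint_of_subset_right hC hd)),
      hBx, hCx]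
    simp
  have hsub : inSub (AddSubgroup.closure (R : Set G)) X.subsetSum ∪ (-(R.subsetSum.erase 0)) ⊆ KF := by
    intro x hx
    rw [hmem]
    rw [Finset.mem_union, mem_inSub, Finset.mem_neg', Finset.mem_erase] at hx
    rcases hx with hx | hx
    · exact hx.2
    · have := subsetSum_closure R _ hx.2
      simpa using AddSubgroup.neg_mem _ this
  have h1 := Finset.card_le_card hsub
  rw [Finset.card_union_of_disjoint hdis, Finset.card_neg,
    Finset.card_erase_of_mem Finset.zero_mem_subsetSum, hKc] at h1
  have h2 : 0 < R.subsetSum.card := Finset.card_pos.2 Finset.subsetSum_nonempty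
  omega

theorem card_lt_card_subsetSum (R : Finset G) (h : (0 : G) ∉ R) : R.card + 1 ≤ R.subsetSum.card := by
  rw [← Finset.card_insert_of_notMem h]
  apply Finset.card_le_card
  exact Finset.insert_subset Finset.zero_mem_subsetSum Finset.subset_subsetSum

theorem crude_step [Finite G] (X R : Finset G) (hd : Disjoint X R) (h : ZSF (X ∪ R))
    (hn : NI (X ∪ R)) (hR : R.Nonempty) :
    ∃ x ∈ R, min (inSub (AddSubgroup.closure (R : Set G)) X.subsetSum).card R.card ≤
      9 * gr X.subsetSum x := by
  classical
  have : Fintype (AddSubgroup.closure (R : Set G)) := Fintype.ofFinite _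
  have hZR : ZSF R := h.mono Finset.subset_union_right
  have hNR : NI R := hn.mono Finset.subset_union_right
  have h1 := ZSF.card_add_card X R hd h
  have h2 := card_lt_card_subsetSum R hZR.zero_notMem
  have hRpos := Finset.card_pos.2 hR
  have hcard1 : (toSub (AddSubgroup.closure (R : Set G)) R).card = R.card := by
    rw [card_toSub, inSub_closure]
  have hRne' : (toSub (AddSubgroup.closure (R : Set G)) R).Nonempty := by
    rw [← Finset.card_pos, hcard1]; exact hRpos
  have hBne' : (toSub (AddSubgroup.closure (R : Set G)) X.subsetSum).Nonempty := by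
    refine ⟨0, ?_⟩
    rw [mem_toSub]
    exact Finset.zero_mem_subsetSum
  rw [← card_toSub, Nat.card_eq_fintype_card] at h1
  have hcc := Finset.card_add_card_compl (toSub (AddSubgroup.closure (R : Set G)) X.subsetSum)
  have hBu : toSub (AddSubgroup.closure (R : Set G)) X.subsetSum ≠ univ := by
    intro hu
    rw [hu, Finset.card_univ] at h1
    omega
  obtain ⟨x, hx, hx2⟩ := growth_crude (toSub (AddSubgroup.closure (R : Set G)) R)
    (toSub (AddSubgroup.closure (R : Set G)) X.subsetSum) (ZSF_toSub _ R hZR) (NI_toSub _ R hNR)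
    (closure_toSub R) hRne' hBne' hBu
  refine ⟨x, (mem_toSub _ R x).1 hx, ?_⟩
  have h3 := gr_toSub_le (AddSubgroup.closure (R : Set G)) X.subsetSum x
  rw [hcard1] at hx2
  rw [← card_toSub]
  have h4 : R.card ≤ ((toSub (AddSubgroup.closure (R : Set G)) X.subsetSum)ᶜ).card := by omega
  have h5 : min (toSub (AddSubgroup.closure (R : Set G)) X.subsetSum).card R.card ≤
      min (min (toSub (AddSubgroup.closure (R : Set G)) X.subsetSum).card
        ((toSub (AddSubgroup.closure (R : Set G)) X.subsetSum)ᶜ).card) R.card := by
    omega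
  omega

theorem inSub_subsetSum_of_le (K : AddSubgroup G) (X : Finset G)
    (h : ∀ x ∈ X, x ∈ K) : inSub K X.subsetSum = X.subsetSum := by
  ext x
  rw [mem_inSub]
  constructor
  · exact fun h => h.1
  · intro hx
    refine ⟨hx, ?_⟩
    have h1 := subsetSum_closure X x hx
    have h2 : AddSubgroup.closure (X : Set G) ≤ K := by
      rw [AddSubgroup.closure_le]
      intro y hy
      exact h y (by simpa using hy)
    exact h2 h1

/-- Crude quadratic bound. -/
theorem crude_bound [Finite G] (m : ℕ) : ∀ S : Finset G, S.card = m → ZSF S → NI S →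
    m ^ 2 ≤ 288 * S.subsetSum.card := by
  induction m using Nat.strong_induction_on with
  | _ m ih =>
    intro S hS hZ hN
    have hpos : 0 < S.subsetSum.card := Finset.card_pos.2 Finset.subsetSum_nonempty
    by_cases hm : m ≤ 1
    · have : m ^ 2 ≤ 1 := by
        calc m ^ 2 ≤ 1 ^ 2 := Nat.pow_le_pow_left hm 2
          _ = 1 := by norm_num
      omega
    push Not at hm
    by_cases hA : ∃ R ⊆ S, m ^ 2 ≤ 2 * R.card ^ 2 ∧
        AddSubgroup.closure (R : Set G) ≠ AddSubgroup.closure (S : Set G)
    · obtain ⟨R, hRS, hR2, hRne⟩ := hA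
      have hlt : R.card < m := by
        rw [← hS]
        apply Finset.card_lt_card
        refine ⟨hRS, fun h => hRne ?_⟩
        rw [Finset.Subset.antisymm hRS h]
      have h1 := ih R.card hlt R rfl (hZ.mono hRS) (hN.mono hRS)
      have h2 := doubling S R hRS hRne
      omega
    · push Not at hA
      have hproc : ∀ i, i ≤ m / 4 + 1 → ∃ X ⊆ S, X.card = i ∧
          i * (i + 1) + 18 ≤ 18 * X.subsetSum.card := by
        intro i
        induction i with
        | zero =>
          intro _
          refine ⟨∅, Finset.empty_subset _, rfl, ?_⟩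
          have : 0 < (∅ : Finset G).subsetSum.card := Finset.card_pos.2 Finset.subsetSum_nonempty
          omega
        | succ i ihi =>
          intro hi
          obtain ⟨X, hXS, hXi, hXc⟩ := ihi (by omega)
          have hRc : (S \ X).card = m - i := by
            rw [Finset.card_sdiff_of_subset hXS, hS, hXi]
          have hgen : AddSubgroup.closure ((S \ X : Finset G) : Set G) =
              AddSubgroup.closure (S : Set G) := by
            apply hA _ Finset.sdiff_subset
            rw [hRc]
            have h1 : 4 * (m - i) ≥ 3 * m := by omega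
            nlinarith
          have hU : X ∪ (S \ X) = S := Finset.union_sdiff_of_subset hXS
          obtain ⟨x, hx, hx2⟩ := crude_step X (S \ X) Finset.disjoint_sdiff
            (by rw [hU]; exact hZ) (by rw [hU]; exact hN)
            (by rw [← Finset.card_pos, hRc]; omega)
          rw [hgen, inSub_subsetSum_of_le, hRc] at hx2
          · have hxX : x ∉ X := (Finset.mem_sdiff.1 hx).2
            have hxS : x ∈ S := (Finset.mem_sdiff.1 hx).1
            refine ⟨insert x X, Finset.insert_subset hxS hXS, ?_, ?_⟩
            · rw [Finset.card_insert_of_notMem hxX, hXi]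
            · rw [card_subsetSum_insert X x hxX]
              have h3 := card_lt_card_subsetSum X (fun h0 => hZ.zero_notMem (hXS h0))
              rw [hXi] at h3
              have h4 : i + 1 ≤ m - i := by omega
              have h5 : i + 1 ≤ 9 * gr X.subsetSum x := by omega
              nlinarith
          · intro y hy
            exact AddSubgroup.subset_closure (by simpa using hXS hy)
      obtain ⟨X, hXS, hXi, hXc⟩ := hproc (m / 4 + 1) le_rfl
      have h6 : X.subsetSum.card ≤ S.subsetSum.card :=
        Finset.card_le_card (Finset.subsetSum_mono hXS)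
      have h7 : m ≤ 4 * (m / 4 + 1) := by omega
      have h8 : m ^ 2 ≤ 16 * (m / 4 + 1) ^ 2 := by nlinarith
      nlinarith

end Pool.Agent.Helper398
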