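import Mathlib
import Pool.Agent.Helper398.Crude

set_option autoImplicit false
set_option linter.unusedSectionVars false

open Finset
open scoped Pointwise

namespace Pool.Agent.Helper398

variable {G : Type*} [AddCommGroup G] [DecidableEq G]

/-- no element of S stabilises the set of subset sums of S -/
def NS (S : Finset G) : Prop := ∀ x ∈ S, x +ᵥ S.subsetSum ≠ S.subsetSum

theorem subsetSum_union (X R : Finset G) (hd : Disjoint X R) :
    (X ∪ R).subsetSum = X.subsetSum + R.subsetSum := by
  ext s
  rw [Finset.mem_subsetSum_iff, Finset.mem_add]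
  constructor
  · rintro ⟨B, hB, rfl⟩
    refine ⟨∑ b ∈ B ∩ X, b, ?_, ∑ b ∈ B \ X, b, ?_, ?_⟩
    · exact Finset.mem_subsetSum_iff.2 ⟨B ∩ X, Finset.inter_subset_right, rfl⟩
    · refine Finset.mem_subsetSum_iff.2 ⟨B \ X, ?_, rfl⟩
      intro b hb
      rw [Finset.mem_sdiff] at hb
      have := hB hb.1
      rw [Finset.mem_union] at this
      exact this.resolve_left hb.2
    · exact Finset.sum_inter_add_sum_sdiff B X (fun b => b)
  · rintro ⟨y, hy, z, hz, rfl⟩
    rw [Finset.mem_subsetSum_iff] at hy hz
    obtain ⟨B, hB, rfl⟩ := hy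
    obtain ⟨C, hC, rfl⟩ := hz
    refine ⟨B ∪ C, Finset.union_subset_union hB hC, ?_⟩
    rw [Finset.sum_union (Finset.disjoint_of_subset_left hB (Finset.disjoint_of_subset_right hC hd))]

theorem NS.mono {S R : Finset G} (h : NS S) (hRS : R ⊆ S) : NS R := by
  intro x hx hst
  apply h x (hRS hx)
  have h1 : S = R ∪ (S \ R) := (Finset.union_sdiff_of_subset hRS).symm
  rw [h1, subsetSum_union _ _ Finset.disjoint_sdiff, ← vadd_add_assoc, hst]

theorem NS.zero_notMem {S : Finset G} (h : NS S) : (0 : G) ∉ S := fun h0 => h 0 h0 (zero_vadd _ _)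

theorem card_sym_ge (R : Finset G) (h0 : (0 : G) ∉ R) : R.card + 1 ≤ (sym R).card := by
  rw [← Finset.card_insert_of_notMem h0]
  apply Finset.card_le_card
  intro x hx
  rw [Finset.mem_insert] at hx
  rcases hx with rfl | hx
  · exact zero_mem_sym R
  · exact subset_sym R hx

theorem card_sym_le (R : Finset G) : (sym R).card ≤ 2 * R.card + 1 := by
  unfold sym
  refine le_trans (Finset.card_insert_le _ _) ?_
  have := Finset.card_union_le R (-R)
  rw [Finset.card_neg] at this
  omega

/-- asymmetric sets -/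
def Asym (R : Finset G) : Prop := ∀ x ∈ R, -x ∉ R

theorem Asym.mono {S R : Finset G} (h : Asym S) (hRS : R ⊆ S) : Asym R :=
  fun x hx hx' => h x (hRS hx) (hRS hx')

theorem card_sym_asym (R : Finset G) (h : Asym R) : (sym R).card = 2 * R.card + 1 := by
  unfold sym
  have hd : Disjoint R (-R) := by
    rw [Finset.disjoint_left]
    intro x hx hx'
    rw [Finset.mem_neg'] at hx'
    exact h x hx hx'
  rw [Finset.card_insert_of_notMem, Finset.card_union_of_disjoint hd, Finset.card_neg]
  · omega
  · simp only [Finset.mem_union, Finset.mem_neg', neg_zero, or_self]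
    intro h0
    exact h 0 h0 (by simpa using h0)

theorem gr_vadd (B : Finset G) (c x : G) : gr (c +ᵥ B) x = gr B x := by
  unfold gr
  rw [vadd_comm x c B, ← Finset.vadd_finset_sdiff, Finset.card_vadd_finset]

/-- crude growth bound -/
theorem growth_crude_half' [Fintype G] (R B : Finset G) (w : ℕ) (hw : 1 ≤ w)
    (h2w : 2 * w ≤ (sym R).card)
    (hgen : AddSubgroup.closure (R : Set G) = ⊤) (hBne : B.Nonempty)
    (hB : 2 * B.card ≤ Fintype.card G) : ∃ x ∈ R, min B.card w ≤ 9 * gr B x := by
  by_contra hcon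
  push Not at hcon
  obtain ⟨n, hnd⟩ : ∃ n, n = B.card := ⟨_, rfl⟩
  have hn1 : 1 ≤ n := by rw [hnd]; exact Finset.card_pos.2 hBne
  rw [← hnd] at hcon
  rw [← hnd] at hB
  have h4 : it (sym R) 1 = sym R := by
    show {0} + sym R = sym R
    rw [Finset.singleton_zero, zero_add]
  by_cases hnu : n ≤ w
  · -- one step
    have hL : ∀ t ∈ sym R, (gr B t : ℝ) ≤ (n : ℝ) / 9 := by
      apply gr_sym B R _ (by positivity)
      intro x hx
      have h1 := hcon x hx
      rw [min_eq_left hnu] at h1
      have h2 : ((9 * gr B x : ℕ) : ℝ) < (n : ℝ) := by exact_mod_cast h1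
      push_cast at h2
      linarith
    have h3 := counting B (sym R) (zero_mem_sym R) _ hL 1
    rw [← hnd] at h3
    rw [h4] at h3
    simp only [Nat.cast_one, one_mul, Finset.range_one, Finset.sum_singleton, it,
      Finset.card_singleton] at h3
    have h5 : (n : ℝ) ≤ w := by exact_mod_cast hnu
    have h6 : (1 : ℝ) ≤ n := by exact_mod_cast hn1
    have h7 : (2 : ℝ) * w ≤ (sym R).card := by exact_mod_cast h2w
    nlinarith
  · push Not at hnu
    have hL : ∀ t ∈ sym R, (gr B t : ℝ) ≤ (w : ℝ) / 9 := by
      apply gr_sym B R _ (by positivity)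
      intro x hx
      have h1 := hcon x hx
      rw [min_eq_right hnu.le] at h1
      have h2 : ((9 * gr B x : ℕ) : ℝ) < (w : ℝ) := by exact_mod_cast h1
      push_cast at h2
      linarith
    have hnur : (w : ℝ) + 1 ≤ n := by exact_mod_cast hnu
    have hur : (1 : ℝ) ≤ w := by exact_mod_cast hw
    by_cases hT : sym R = univ
    · have h3 := counting B (sym R) (zero_mem_sym R) _ hL 1
      rw [← hnd] at h3
      rw [h4, hT, Finset.card_univ] at h3
      simp only [Nat.cast_one, one_mul, Finset.range_one, Finset.sum_singleton, it,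
        Finset.card_singleton] at h3
      have h8 : (2 : ℝ) * n ≤ Fintype.card G := by exact_mod_cast hB
      nlinarith
    obtain ⟨H, HF, κ, -, hκ1, -, -, hκ⟩ := iso_sym R hgen hT
    have hκu : w ≤ κ := by omega
    obtain ⟨J, hJ⟩ : ∃ J, J = (2 * n - 1) / w := ⟨_, rfl⟩
    have hJ2 : 2 ≤ J := by
      rw [hJ, Nat.le_div_iff_mul_le hw]
      omega
    have hJu : J * w ≤ 2 * n - 1 := by rw [hJ]; exact Nat.div_mul_le_self _ _
    have hJu2 : 2 * n ≤ J * w + w := by
      have := Nat.lt_div_mul_add hw (a := 2 * n - 1)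
      rw [← hJ] at this
      omega
    have hcard : ∀ j, j ≤ J → 1 + j * w ≤ (it (sym R) j).card := by
      intro j hj
      rcases it_card (sym R) κ hκ (zero_mem_sym R) j with h | h
      · rw [h, Finset.card_univ]
        have : j * w ≤ J * w := Nat.mul_le_mul_right _ hj
        omega
      · have : j * w ≤ j * κ := Nat.mul_le_mul_left _ hκu
        omega
    have h3 := counting B (sym R) (zero_mem_sym R) _ hL J
    rw [← hnd] at h3
    have hJr : (2 : ℝ) ≤ J := by exact_mod_cast hJ2
    have hJur : (J : ℝ) * w ≤ 2 * n - 1 := by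
      have : ((J * w + 1 : ℕ) : ℝ) ≤ ((2 * n : ℕ) : ℝ) := by
        exact_mod_cast (by omega : J * w + 1 ≤ 2 * n)
      push_cast at this
      linarith
    have hJur2 : 2 * (n : ℝ) ≤ J * w + w := by exact_mod_cast hJu2
    have hsum : (J : ℝ) + w * (J * (J - 1) / 2) ≤
        ∑ j ∈ range J, ((it (sym R) j).card : ℝ) := by
      have h4 : ∀ K, K ≤ J → (K : ℝ) + w * (K * (K - 1) / 2) ≤
          ∑ j ∈ range K, ((it (sym R) j).card : ℝ) := by
        intro K hK
        induction K with
        | zero => simp
        | succ K ih =>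
          rw [Finset.sum_range_succ]
          have h5 := ih (by omega)
          have h6 : ((1 + K * w : ℕ) : ℝ) ≤ ((it (sym R) K).card : ℝ) := by
            exact_mod_cast hcard K (by omega)
          push_cast at h6 ⊢
          nlinarith
      exact h4 J le_rfl
    have hJc : (1 : ℝ) + J * w ≤ ((it (sym R) J).card : ℝ) := by
      exact_mod_cast hcard J le_rfl
    have hpos : 0 ≤ (n : ℝ) - J * (w / 9) := by nlinarith
    have h7 : ((1 : ℝ) + J * w) * (n - J * (w / 9)) + (w / 9) * (J + w * (J * (J - 1) / 2))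
        ≤ (n : ℝ) ^ 2 := by
      refine le_trans ?_ h3
      apply add_le_add
      · exact mul_le_mul_of_nonneg_right hJc hpos
      · exact mul_le_mul_of_nonneg_left hsum (by positivity)
    obtain ⟨v, hv⟩ : ∃ v : ℝ, v = J * w := ⟨_, rfl⟩
    have h8 : ((1 : ℝ) + v) * (n - v / 9) + v / 9 + (v ^ 2 - w * v) / 18 ≤ (n : ℝ) ^ 2 := by
      have : ((1 : ℝ) + J * w) * (n - J * (w / 9)) + (w / 9) * (J + w * (J * (J - 1) / 2)) =
        ((1 : ℝ) + v) * (n - v / 9) + v / 9 + (v ^ 2 - w * v) / 18 := by
        rw [hv]; ring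
      rw [← this]; exact h7
    rw [← hv] at hJur hJur2
    have hv2 : 2 * (w : ℝ) ≤ v := by rw [hv]; nlinarith
    have hv3 : 4 * (n : ℝ) ≤ 3 * v := by linarith
    nlinarith [mul_nonneg (by linarith : (0:ℝ) ≤ v - 4 * n / 3) (by linarith : (0:ℝ) ≤ (n:ℝ)),
      mul_nonneg (by linarith : (0:ℝ) ≤ v) (by linarith : (0:ℝ) ≤ 3 * n - 2 - w - v)]

theorem growth_crude' [Fintype G] (R B : Finset G) (w : ℕ) (hw : 1 ≤ w)
    (h2w : 2 * w ≤ (sym R).card)
    (hgen : AddSubgroup.closure (R : Set G) = ⊤) (hBne : B.Nonempty)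
    (hB : B ≠ univ) : ∃ x ∈ R, min (min B.card Bᶜ.card) w ≤ 9 * gr B x := by
  have hcc := Finset.card_add_card_compl B
  by_cases h : 2 * B.card ≤ Fintype.card G
  · obtain ⟨x, hx, hx2⟩ := growth_crude_half' R B w hw h2w hgen hBne h
    refine ⟨x, hx, le_trans ?_ hx2⟩
    exact min_le_min_right _ (min_le_left _ _)
  · have hc : (Bᶜ).Nonempty := by
      rw [Finset.nonempty_iff_ne_empty]
      intro h0
      exact hB ((Finset.compl_eq_empty_iff _).1 h0)
    obtain ⟨x, hx, hx2⟩ := growth_crude_half' R Bᶜ w hw h2w hgen hc (by omega)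
    refine ⟨x, hx, le_trans ?_ (le_of_le_of_eq hx2 (by rw [gr_compl]))⟩
    exact min_le_min_right _ (min_le_right _ _)

/-- Some coset of the group generated by R is not nearly full. -/
theorem exists_coset [Finite G] (X R : Finset G) (hd : Disjoint X R) (h : NS (X ∪ R))
    (hR : R.Nonempty) : ∃ c ∈ X.subsetSum,
      (toSub (AddSubgroup.closure (R : Set G)) (-c +ᵥ X.subsetSum)).card + R.subsetSum.card ≤
        Nat.card (AddSubgroup.closure (R : Set G)) := by
  classical
  have : Fintype (AddSubgroup.closure (R : Set G)) := Fintype.ofFinite _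
  by_contra hcon
  push Not at hcon
  obtain ⟨x, hx⟩ := hR
  apply h x (Finset.mem_union_right _ hx)
  have hinv : ∀ y ∈ (X ∪ R).subsetSum, ∀ k ∈ AddSubgroup.closure (R : Set G),
      k + y ∈ (X ∪ R).subsetSum := by
    intro y hy k hk
    rw [subsetSum_union _ _ hd, Finset.mem_add] at hy ⊢
    obtain ⟨c, hc, s, hs, rfl⟩ := hy
    have hsK := subsetSum_closure R s hs
    have hkK : k + s ∈ AddSubgroup.closure (R : Set G) := AddSubgroup.add_mem _ hk hsK
    have hcard := hcon c hc
    rw [Nat.card_eq_fintype_card] at hcard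
    -- the image of the subset sums of R inside the subgroup
    have hRsub : (toSub (AddSubgroup.closure (R : Set G)) R.subsetSum).card = R.subsetSum.card := by
      rw [card_toSub]
      congr 1
      ext z
      rw [mem_inSub]
      exact ⟨fun h => h.1, fun h => ⟨h, subsetSum_closure R z h⟩⟩
    obtain ⟨k', hk'⟩ : ∃ k' : AddSubgroup.closure (R : Set G), k' = ⟨k + s, hkK⟩ := ⟨_, rfl⟩
    have hcard2 : Fintype.card (AddSubgroup.closure (R : Set G)) <
        (toSub (AddSubgroup.closure (R : Set G)) (-c +ᵥ X.subsetSum)).card +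
        ((toSub (AddSubgroup.closure (R : Set G)) R.subsetSum).image (fun z => k' - z)).card := by
      rw [Finset.card_image_of_injective _ (sub_right_injective), hRsub]
      exact hcard
    have hint : ¬ Disjoint (toSub (AddSubgroup.closure (R : Set G)) (-c +ᵥ X.subsetSum))
        ((toSub (AddSubgroup.closure (R : Set G)) R.subsetSum).image (fun z => k' - z)) := by
      intro hdis
      have h1 := Finset.card_union_of_disjoint hdis
      have h2 := Finset.card_le_univ (toSub (AddSubgroup.closure (R : Set G)) (-c +ᵥ X.subsetSum) ∪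
        (toSub (AddSubgroup.closure (R : Set G)) R.subsetSum).image (fun z => k' - z))
      omega
    rw [Finset.not_disjoint_iff] at hint
    obtain ⟨z, hz1, hz2⟩ := hint
    rw [Finset.mem_image] at hz2
    obtain ⟨w, hw, rfl⟩ := hz2
    rw [mem_toSub] at hz1 hw
    rw [Finset.mem_vadd_finset] at hz1
    obtain ⟨b, hb, hb2⟩ := hz1
    refine ⟨b, hb, w, hw, ?_⟩
    have h3 : -c + b = (k + s) - w := by
      have : ((k' - w : AddSubgroup.closure (R : Set G)) : G) = (k + s) - w := by
        rw [hk']; rfl
      rw [← this, ← hb2]; rfl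
    have : b = c + ((k + s) - w) := by rw [← h3]; abel
    rw [this]; abel
  apply Finset.eq_of_subset_of_card_le
  · intro y hy
    rw [Finset.mem_vadd_finset] at hy
    obtain ⟨z, hz, rfl⟩ := hy
    exact hinv z hz x (AddSubgroup.subset_closure (by simpa using hx))
  · rw [Finset.card_vadd_finset]

theorem card_toSub_of_le (K : AddSubgroup G) (B : Finset G) (h : ∀ b ∈ B, b ∈ K) :
    (toSub K B).card = B.card := by
  rw [card_toSub]
  congr 1
  ext z
  rw [mem_inSub]
  exact ⟨fun h => h.1, fun h1 => ⟨h1, h z h1⟩⟩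

theorem crude_step' [Finite G] (X R : Finset G) (w : ℕ) (hw : 1 ≤ w)
    (h2w : 2 * w ≤ R.card + 1) (hd : Disjoint X R) (h : NS (X ∪ R)) (hR : R.Nonempty) :
    ∃ x ∈ R, ∃ c ∈ X.subsetSum,
      min (toSub (AddSubgroup.closure (R : Set G)) (-c +ᵥ X.subsetSum)).card w ≤
      9 * gr X.subsetSum x := by
  classical
  have : Fintype (AddSubgroup.closure (R : Set G)) := Fintype.ofFinite _
  have hNR : NS R := h.mono Finset.subset_union_right
  obtain ⟨c, hc, h1⟩ := exists_coset X R hd h hR
  have h2 := card_lt_card_subsetSum R hNR.zero_notMem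
  have hRpos := Finset.card_pos.2 hR
  have hcard1 : (toSub (AddSubgroup.closure (R : Set G)) R).card = R.card := by
    rw [card_toSub, inSub_closure]
  have hBne' : (toSub (AddSubgroup.closure (R : Set G)) (-c +ᵥ X.subsetSum)).Nonempty := by
    refine ⟨0, ?_⟩
    rw [mem_toSub, Finset.mem_vadd_finset]
    exact ⟨c, hc, by simp⟩
  rw [Nat.card_eq_fintype_card] at h1
  have hcc := Finset.card_add_card_compl
    (toSub (AddSubgroup.closure (R : Set G)) (-c +ᵥ X.subsetSum))
  have hBu : toSub (AddSubgroup.closure (R : Set G)) (-c +ᵥ X.subsetSum) ≠ univ := by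
    intro hu
    rw [hu, Finset.card_univ] at h1
    omega
  have h0 : (0 : AddSubgroup.closure (R : Set G)) ∉ toSub (AddSubgroup.closure (R : Set G)) R := by
    rw [mem_toSub]
    exact hNR.zero_notMem
  have hsym := card_sym_ge _ h0
  obtain ⟨x, hx, hx2⟩ := growth_crude' (toSub (AddSubgroup.closure (R : Set G)) R)
    (toSub (AddSubgroup.closure (R : Set G)) (-c +ᵥ X.subsetSum)) w hw (by omega)
    (closure_toSub R) hBne' hBu
  refine ⟨x, (mem_toSub _ R x).1 hx, c, hc, ?_⟩
  have h3 := gr_toSub_le (AddSubgroup.closure (R : Set G)) (-c +ᵥ X.subsetSum) x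
  rw [gr_vadd] at h3
  omega

/-- Crude quadratic bound for sets no element of which stabilises the set of subset sums. -/
theorem crude_bound' [Finite G] (m : ℕ) : ∀ S : Finset G, S.card = m → NS S →
    m ^ 2 ≤ 288 * S.subsetSum.card := by
  induction m using Nat.strong_induction_on with
  | _ m ih =>
    intro S hS hZ
    have hpos : 0 < S.subsetSum.card := Finset.card_pos.2 Finset.subsetSum_nonempty
    by_cases hm : m ≤ 3
    · have : m ^ 2 ≤ 9 := by
        calc m ^ 2 ≤ 3 ^ 2 := Nat.pow_le_pow_left hm 2
          _ = 9 := by norm_num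
      omega
    push Not at hm
    by_cases hA : ∃ R ⊆ S, m ^ 2 ≤ 2 * R.card ^ 2 ∧
        AddSubgroup.closure (R : Set G) ≠ AddSubgroup.closure (S : Set G)
    · obtain ⟨R, hRS, hR2, hRne⟩ := hA
      have hlt : R.card < m := by
        rw [← hS]
        apply Finset.card_lt_card
        refine ⟨hRS, fun h => hRne ?_⟩
        rw [Finset.Subset.antisymm hRS h]
      have h1 := ih R.card hlt R rfl (hZ.mono hRS)
      have h2 := doubling S R hRS hRne
      omega
    · push Not at hA
      have hproc : ∀ i, i ≤ m / 4 + 1 → ∃ X ⊆ S, X.card = i ∧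
          i * (i + 1) + 18 ≤ 18 * X.subsetSum.card := by
        intro i
        induction i with
        | zero =>
          intro _
          refine ⟨∅, Finset.empty_subset _, rfl, ?_⟩
          have : 0 < (∅ : Finset G).subsetSum.card := Finset.card_pos.2 Finset.subsetSum_nonempty
          omega
        | succ i ihi =>
          intro hi
          obtain ⟨X, hXS, hXi, hXc⟩ := ihi (by omega)
          have hRc : (S \ X).card = m - i := by
            rw [Finset.card_sdiff_of_subset hXS, hS, hXi]
          have hgen : AddSubgroup.closure ((S \ X : Finset G) : Set G) =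
              AddSubgroup.closure (S : Set G) := by
            apply hA _ Finset.sdiff_subset
            rw [hRc]
            have h1 : 4 * (m - i) ≥ 3 * m := by omega
            nlinarith
          have hU : X ∪ (S \ X) = S := Finset.union_sdiff_of_subset hXS
          obtain ⟨x, hx, c, hc, hx2⟩ := crude_step' X (S \ X) (i + 1) (by omega)
            (by rw [hRc]; omega) Finset.disjoint_sdiff
            (by rw [hU]; exact hZ)
            (by rw [← Finset.card_pos, hRc]; omega)
          have hXK : ∀ b ∈ X.subsetSum, b ∈ AddSubgroup.closure (S : Set G) := by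
            intro b hb
            have h1 := subsetSum_closure X b hb
            exact AddSubgroup.closure_mono (by exact_mod_cast hXS) h1
          rw [hgen, card_toSub_of_le, Finset.card_vadd_finset] at hx2
          · have hxX : x ∉ X := (Finset.mem_sdiff.1 hx).2
            have hxS : x ∈ S := (Finset.mem_sdiff.1 hx).1
            refine ⟨insert x X, Finset.insert_subset hxS hXS, ?_, ?_⟩
            · rw [Finset.card_insert_of_notMem hxX, hXi]
            · rw [card_subsetSum_insert X x hxX]
              have h3 := card_lt_card_subsetSum X (fun h0 => hZ.zero_notMem (hXS h0))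
              rw [hXi] at h3
              have h5 : i + 1 ≤ 9 * gr X.subsetSum x := by omega
              nlinarith
          · intro b hb
            rw [Finset.mem_vadd_finset] at hb
            obtain ⟨y, hy, rfl⟩ := hb
            exact AddSubgroup.add_mem _ (AddSubgroup.neg_mem _ (hXK c hc)) (hXK y hy)
      obtain ⟨X, hXS, hXi, hXc⟩ := hproc (m / 4 + 1) le_rfl
      have h6 : X.subsetSum.card ≤ S.subsetSum.card :=
        Finset.card_le_card (Finset.subsetSum_mono hXS)
      have h7 : m ≤ 4 * (m / 4 + 1) := by omega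
      have h8 : m ^ 2 ≤ 16 * (m / 4 + 1) ^ 2 := by nlinarith
      nlinarith

end Pool.Agent.Helper398
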