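import Mathlib
import Pool.Agent.Helper398.IntCover
import Pool.Agent.Helper398.Growth
import Pool.Agent.Helper398.NS

set_option autoImplicit false
set_option linter.unusedSectionVars false

open Finset
open scoped Pointwise

namespace Pool.Agent.Helper398

/-- one element halving the complement quadratically -/
theorem dbl {H : Type*} [AddCommGroup H] [Fintype H] [DecidableEq H] (D : Finset H) :
    ∃ c : H, Fintype.card H * (D ∪ (c +ᵥ D))ᶜ.card ≤ Dᶜ.card ^ 2 := by
  by_contra hcon
  push Not at hcon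
  have h1 : ∀ c : H, (D ∪ (c +ᵥ D))ᶜ = Dᶜ ∩ (c +ᵥ Dᶜ) := by
    intro c
    ext x
    simp only [Finset.mem_compl, Finset.mem_union, Finset.mem_inter, Finset.mem_vadd_finset]
    constructor
    · intro h
      push Not at h
      refine ⟨h.1, -c + x, ?_, by simp⟩
      intro hc
      exact h.2 _ hc (by simp)
    · rintro ⟨h1, z, hz, hzx⟩ (h | ⟨z', hz', h⟩)
      · exact h1 h
      · rw [← h] at hzx
        simp only [vadd_eq_add, add_right_inj] at hzx
        rw [hzx] at hz
        exact hz hz'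
  have h2 := sum_inter Dᶜ
  have h3 : ∑ c : H, Dᶜ.card ^ 2 < ∑ c : H, Fintype.card H * (Dᶜ ∩ (c +ᵥ Dᶜ)).card := by
    apply Finset.sum_lt_sum_of_nonempty ⟨0, Finset.mem_univ _⟩
    intro c _
    rw [← h1]
    exact hcon c
  rw [← Finset.mul_sum, h2, Finset.sum_const, Finset.card_univ, smul_eq_mul] at h3
  exact lt_irrefl _ h3

theorem pow_gt (q n : ℕ) (hq : 1 ≤ q) (hn : q ^ 2 ≤ n) : q * (q - 1) ^ n < q ^ n := by
  rcases Nat.eq_or_lt_of_le hq with h | h
  · subst h
    have hn0 : n ≠ 0 := by omega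
    simp [hn0]
  obtain ⟨p, rfl⟩ : ∃ p, q = p + 1 := ⟨q - 1, by omega⟩
  have hp : 1 ≤ p := by omega
  rw [Nat.add_sub_cancel]
  have hp' : (0 : ℝ) < p := by exact_mod_cast hp
  have h1 : (1 : ℝ) + n * (1 / p) ≤ (1 + 1 / p) ^ n := by
    apply one_add_mul_le_pow
    have : (0 : ℝ) < 1 / p := by positivity
    linarith
  have h2 : ((p : ℝ) + 1) < 1 + n * (1 / p) := by
    have h3 : ((p : ℝ) + 1) ^ 2 ≤ n := by exact_mod_cast hn
    have h4 : ((p : ℝ) + 1) ^ 2 * (1 / p) ≤ n * (1 / p) :=
      mul_le_mul_of_nonneg_right h3 (by positivity)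
    have h5 : (p : ℝ) < ((p : ℝ) + 1) ^ 2 * (1 / p) := by
      rw [mul_one_div, lt_div_iff₀ hp']
      nlinarith
    linarith
  have h3 : ((p : ℝ) + 1) * (p : ℝ) ^ n < ((p : ℝ) + 1) ^ n := by
    have e : ((p : ℝ) + 1) ^ n = (1 + 1 / p) ^ n * (p : ℝ) ^ n := by
      rw [← mul_pow]
      congr 1
      field_simp
    rw [e]
    exact mul_lt_mul_of_pos_right (lt_of_lt_of_le h2 h1) (by positivity)
  exact_mod_cast h3

variable {G : Type*} [AddCommGroup G] [Finite G] [DecidableEq G]

theorem fiber_card {W : ℕ} (w : G →+ ZMod W) (T : Finset G) (i : ZMod W)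
    (h : ∀ x ∈ T, w x = i) : T.card ≤ Nat.card w.ker := by
  rcases T.eq_empty_or_nonempty with h0 | ⟨x0, hx0⟩
  · rw [h0]; simp
  have hmem : ∀ x : T, (x : G) - x0 ∈ w.ker := by
    intro x
    rw [AddMonoidHom.mem_ker, map_sub, h _ x.2, h _ hx0, sub_self]
  have h1 : Nat.card T = T.card := by
    rw [Nat.card_eq_fintype_card, Fintype.card_coe]
  rw [← h1]
  apply Nat.card_le_card_of_injective (fun x : T => (⟨(x : G) - x0, hmem x⟩ : w.ker))
  intro x y hxy
  have := congrArg Subtype.val hxy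
  simp only [sub_left_inj] at this
  exact Subtype.ext this

theorem fiber_pair {W : ℕ} (w : G →+ ZMod W) (T : Finset G) (i : ZMod W)
    (h : ∀ x ∈ T, w x = i) (hT : Nat.card w.ker < 2 * T.card) (c : G) (hc : w c = 0) :
    ∃ a ∈ T, a + c ∈ T := by
  by_contra hcon
  push Not at hcon
  have hd : Disjoint T (c +ᵥ T) := by
    rw [Finset.disjoint_left]
    intro x hx hx2
    rw [Finset.mem_vadd_finset] at hx2
    obtain ⟨z, hz, hzx⟩ := hx2
    apply hcon z hz
    rw [add_comm]
    rw [vadd_eq_add] at hzx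
    rwa [hzx]
  have h1 := fiber_card w (T ∪ (c +ᵥ T)) i (by
    intro x hx
    rw [Finset.mem_union, Finset.mem_vadd_finset] at hx
    rcases hx with hx | ⟨z, hz, hzx⟩
    · exact h x hx
    · rw [← hzx, vadd_eq_add, map_add, hc, zero_add, h z hz])
  rw [Finset.card_union_of_disjoint hd, Finset.card_vadd_finset] at h1
  omega

/-- a nearly full fibre of small weight -/
theorem dense_fiber {W : ℕ} (w : G →+ ZMod W) (S : Finset G) (v : G → ℕ) (L D J0 : ℕ)
    (hv : ∀ s ∈ S, 1 ≤ v s ∧ v s ≤ L ∧ (v s : ZMod W) = w s)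
    (hS : Nat.card w.ker * L ≤ S.card + D)
    (hJ : 2 * D < J0 * Nat.card w.ker) (hJL : J0 ≤ L) (c : G) (hc : w c = 0)
    (hLW : L < W) :
    ∃ a ∈ S, a + c ∈ S ∧ v a ≤ J0 ∧ v (a + c) = v a := by
  obtain ⟨q, hq⟩ : ∃ q, q = Nat.card w.ker := ⟨_, rfl⟩
  rw [← hq] at hS hJ
  have hfib : ∀ i ∈ Finset.Icc 1 L, (S.filter (fun s => v s = i)).card ≤ q := by
    intro i _
    rw [hq]
    apply fiber_card w _ (i : ZMod W)
    intro x hx
    rw [Finset.mem_filter] at hx
    rw [← (hv x hx.1).2.2, hx.2]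
  have hcard : S.card = ∑ i ∈ Finset.Icc 1 L, (S.filter (fun s => v s = i)).card := by
    apply Finset.card_eq_sum_card_fiberwise
    intro s hs
    rw [Finset.mem_coe, Finset.mem_Icc]
    exact ⟨(hv s hs).1, (hv s hs).2.1⟩
  have hex : ∃ i ∈ Finset.Icc 1 J0, q < 2 * (S.filter (fun s => v s = i)).card := by
    by_contra hcon
    push Not at hcon
    have h1 : ∀ i ∈ Finset.Icc 1 L, 2 * (S.filter (fun s => v s = i)).card ≤
        if i ≤ J0 then q else 2 * q := by
      intro i hi
      split_ifs with h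
      · exact hcon i (by rw [Finset.mem_Icc] at hi ⊢; omega)
      · have := hfib i hi
        omega
    have h2 := Finset.sum_le_sum h1
    rw [← Finset.mul_sum, ← hcard] at h2
    have h3 : ∑ i ∈ Finset.Icc 1 L, (if i ≤ J0 then q else 2 * q) + J0 * q = 2 * (q * L) := by
      have h4 : Finset.Icc 1 L = Finset.Icc 1 J0 ∪ Finset.Icc (J0 + 1) L := by
        ext x; simp only [Finset.mem_union, Finset.mem_Icc]; omega
      have h5 : Disjoint (Finset.Icc 1 J0) (Finset.Icc (J0 + 1) L) := by
        rw [Finset.disjoint_left]; intro x hx hx2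
        rw [Finset.mem_Icc] at hx hx2; omega
      rw [h4, Finset.sum_union h5]
      have h6 : ∑ i ∈ Finset.Icc 1 J0, (if i ≤ J0 then q else 2 * q) = J0 * q := by
        rw [Finset.sum_congr rfl (fun i hi => if_pos (Finset.mem_Icc.1 hi).2), Finset.sum_const,
          Nat.card_Icc, smul_eq_mul, Nat.add_sub_cancel]
      have h7 : ∑ i ∈ Finset.Icc (J0 + 1) L, (if i ≤ J0 then q else 2 * q) = (L - J0) * (2 * q) := by
        rw [Finset.sum_congr rfl (fun i hi => if_neg (by
          have := (Finset.mem_Icc.1 hi).1; omega)), Finset.sum_const,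
          Nat.card_Icc, smul_eq_mul]
        congr 1
        omega
      rw [h6, h7]
      obtain ⟨e, rfl⟩ : ∃ e, L = J0 + e := ⟨L - J0, by omega⟩
      rw [Nat.add_sub_cancel_left]
      ring
    omega
  obtain ⟨i, hi, hiq⟩ := hex
  rw [Finset.mem_Icc] at hi
  obtain ⟨a, ha, hac⟩ := fiber_pair w (S.filter (fun s => v s = i)) (i : ZMod W) (by
    intro x hx
    rw [Finset.mem_filter] at hx
    rw [← (hv x hx.1).2.2, hx.2]) (by rw [← hq]; exact hiq) c hc
  rw [Finset.mem_filter] at ha hac
  exact ⟨a, ha.1, hac.1, by omega, by rw [ha.2, hac.2]⟩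

theorem subsetSum_mono {U S : Finset G} (h : U ⊆ S) : U.subsetSum ⊆ S.subsetSum := by
  intro x hx
  rw [Finset.mem_subsetSum_iff] at hx ⊢
  obtain ⟨B, hB, hx⟩ := hx
  exact ⟨B, hB.trans h, hx⟩

/-- choosing pairs whose differences span the kernel -/
theorem pairs {W : ℕ} (w : G →+ ZMod W) (S : Finset G) (v : G → ℕ) (L D J0 K : ℕ)
    (hv : ∀ s ∈ S, 1 ≤ v s ∧ v s ≤ L ∧ (v s : ZMod W) = w s)
    (hS : Nat.card w.ker * L ≤ S.card + D)
    (hJ : 2 * (D + 2 * K) < J0 * Nat.card w.ker) (hJL : J0 ≤ L) (hLW : L < W) (k : ℕ)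
    (hk : k ≤ K) :
    ∃ (U : Finset G) (g0 : G) (E : Finset w.ker) (y : ℕ), U ⊆ S ∧ U.card ≤ 2 * k ∧
      (0 : w.ker) ∈ E ∧ (∀ d ∈ E, g0 + (d : G) ∈ U.subsetSum) ∧ y ≤ k * J0 ∧
      ∑ s ∈ U, v s = 2 * y ∧ w g0 = (y : ZMod W) ∧
      (Nat.card w.ker - E.card) * (Nat.card w.ker) ^ (2 ^ k) ≤
        Nat.card w.ker * (Nat.card w.ker - 1) ^ (2 ^ k) := by
  classical
  have : Fintype w.ker := Fintype.ofFinite _
  obtain ⟨q, hq⟩ : ∃ q, q = Nat.card w.ker := ⟨_, rfl⟩
  have hqpos : 0 < q := by rw [hq]; exact Nat.card_pos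
  have hqF : Fintype.card w.ker = q := by rw [hq, Nat.card_eq_fintype_card]
  rw [← hq] at hS hJ ⊢
  induction k with
  | zero =>
    refine ⟨∅, 0, {0}, 0, Finset.empty_subset _, by simp, by simp, ?_, by simp, by simp, by simp, ?_⟩
    · intro d hd
      rw [Finset.mem_singleton] at hd
      rw [hd, Finset.mem_subsetSum_iff]
      exact ⟨∅, by simp, by simp⟩
    · rw [Finset.card_singleton]
      simp only [pow_zero, pow_one]
      rw [mul_comm]
  | succ k ih =>
    obtain ⟨U, g0, E, y, h1, h2, h3, h4, h5, h6, h7, h8⟩ := ih (by omega)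
    obtain ⟨c, hc⟩ := dbl E
    rw [Finset.card_compl, Finset.card_compl, hqF] at hc
    obtain ⟨a, ha, hac, hva, hvac⟩ := dense_fiber w (S \ U) v L (D + 2 * K) J0
      (fun s hs => hv s (Finset.sdiff_subset hs)) (by
        rw [← hq]
        have h9 := Finset.card_sdiff_add_card_eq_card h1
        omega) (by rw [← hq]; exact hJ) hJL (c : G) (by
          have := c.2
          rwa [AddMonoidHom.mem_ker] at this) hLW
    have hEq : E.card ≤ q := by
      rw [← hqF]; exact Finset.card_le_univ _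
    have hbound : (q - (E ∪ (c +ᵥ E)).card) * q ^ (2 ^ (k + 1)) ≤ q * (q - 1) ^ (2 ^ (k + 1)) := by
      have e1 : q * ((q - (E ∪ (c +ᵥ E)).card) * q ^ (2 ^ (k + 1))) ≤
          ((q - E.card) * q ^ (2 ^ k)) ^ 2 := by
        calc q * ((q - (E ∪ (c +ᵥ E)).card) * q ^ (2 ^ (k + 1))) =
            (q * (q - (E ∪ (c +ᵥ E)).card)) * (q ^ (2 ^ k)) ^ 2 := by
              rw [pow_succ 2 k, pow_mul]; ring
          _ ≤ (q - E.card) ^ 2 * (q ^ (2 ^ k)) ^ 2 := Nat.mul_le_mul_right _ hc
          _ = _ := by ring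
      have e2 : ((q - E.card) * q ^ (2 ^ k)) ^ 2 ≤ (q * (q - 1) ^ (2 ^ k)) ^ 2 :=
        Nat.pow_le_pow_left h8 2
      have e3 : (q * (q - 1) ^ (2 ^ k)) ^ 2 = q * (q * (q - 1) ^ (2 ^ (k + 1))) := by
        rw [pow_succ 2 k, pow_mul]; ring
      exact Nat.le_of_mul_le_mul_left ((e1.trans e2).trans e3.le) hqpos
    by_cases hc0 : c = 0
    · -- nothing changes
      refine ⟨U, g0, E, y, h1, by omega, h3, h4, ?_, h6, h7, ?_⟩
      · calc y ≤ k * J0 := h5
          _ ≤ (k + 1) * J0 := Nat.mul_le_mul_right _ (by omega)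
      · rw [hc0, zero_vadd, Finset.union_self] at hbound
        exact hbound
    · rw [Finset.mem_sdiff] at ha hac
      have hne : a ≠ a + (c : G) := by
        intro h
        apply hc0
        have : (c : G) = 0 := by
          have := h.symm
          rwa [add_eq_left] at this
        exact Subtype.ext this
      have hd : Disjoint U ({a, a + (c : G)} : Finset G) := by
        rw [Finset.disjoint_left]
        intro x hx hx2
        rw [Finset.mem_insert, Finset.mem_singleton] at hx2
        rcases hx2 with rfl | rfl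
        · exact ha.2 hx
        · exact hac.2 hx
      refine ⟨U ∪ {a, a + (c : G)}, g0 + a, E ∪ (c +ᵥ E), y + v a, ?_, ?_, ?_, ?_, ?_, ?_, ?_,
        hbound⟩
      · apply Finset.union_subset h1
        intro x hx
        rw [Finset.mem_insert, Finset.mem_singleton] at hx
        rcases hx with rfl | rfl
        · exact ha.1
        · exact hac.1
      · rw [Finset.card_union_of_disjoint hd, Finset.card_pair hne]
        omega
      · exact Finset.mem_union_left _ h3
      · intro d hd2
        rw [Finset.mem_union, Finset.mem_vadd_finset] at hd2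
        rcases hd2 with hd2 | ⟨z, hz, hzd⟩
        · have h9 := h4 d hd2
          rw [Finset.mem_subsetSum_iff] at h9 ⊢
          obtain ⟨B, hB, hBs⟩ := h9
          refine ⟨insert a B, ?_, ?_⟩
          · apply Finset.insert_subset
            · rw [Finset.mem_union]; right; simp
            · exact hB.trans Finset.subset_union_left
          · rw [Finset.sum_insert (fun h => ha.2 (hB h)), hBs]
            abel
        · have h9 := h4 z hz
          rw [Finset.mem_subsetSum_iff] at h9 ⊢
          obtain ⟨B, hB, hBs⟩ := h9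
          refine ⟨insert (a + (c : G)) B, ?_, ?_⟩
          · apply Finset.insert_subset
            · rw [Finset.mem_union]; right; simp
            · exact hB.trans Finset.subset_union_left
          · rw [Finset.sum_insert (fun h => hac.2 (hB h)), hBs, ← hzd]
            rw [vadd_eq_add, AddSubgroup.coe_add]
            abel
      · calc y + v a ≤ k * J0 + J0 := Nat.add_le_add h5 hva
          _ = (k + 1) * J0 := by ring
      · rw [Finset.sum_union hd, Finset.sum_pair hne, hvac, h6]
        ring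
      · rw [map_add, h7, ← (hv a ha.1).2.2]
        push_cast
        ring

/-- the covering lemma -/
theorem cover {W : ℕ} (w : G →+ ZMod W) (S : Finset G) (v : G → ℕ) (L D J0 k : ℕ)
    (hv : ∀ s ∈ S, 1 ≤ v s ∧ v s ≤ L ∧ (v s : ZMod W) = w s)
    (hS : Nat.card w.ker * L ≤ S.card + D)
    (hk : Nat.card w.ker ^ 2 ≤ 2 ^ k)
    (hJ : 2 * (D + 2 * k) < J0 * Nat.card w.ker) (hJL : J0 ≤ L) (hLW : L < W)
    (hcase : 16 * ((D + 2 * k) / Nat.card w.ker) + 21 ≤ L ∨ D + 2 * k + L ≤ Nat.card w.ker)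
    (x : G) (z : ℕ) (hz1 : k * J0 + (2 * ((D + 2 * k) / Nat.card w.ker) + 3) ≤ z)
    (hz2 : z + (k * J0 + (2 * ((D + 2 * k) / Nat.card w.ker) + 3)) ≤ ∑ s ∈ S, v s)
    (hx : w x = (z : ZMod W)) : x ∈ S.subsetSum := by
  classical
  obtain ⟨q, hq⟩ : ∃ q, q = Nat.card w.ker := ⟨_, rfl⟩
  have hqpos : 0 < q := by rw [hq]; exact Nat.card_pos
  obtain ⟨U, g0, E, y, h1, h2, h3, h4, h5, h6, h7, h8⟩ :=
    pairs w S v L D J0 k hv hS hJ hJL hLW k le_rfl
  have : Fintype w.ker := Fintype.ofFinite _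
  have hqF : Fintype.card w.ker = q := by rw [hq, Nat.card_eq_fintype_card]
  rw [← hq] at hS hJ h8 hk hcase hz1 hz2
  -- `E` is everything
  have hEuniv : ∀ d : w.ker, d ∈ E := by
    have h9 := pow_gt q (2 ^ k) hqpos hk
    have h10 : E.card ≤ q := by rw [← hqF]; exact Finset.card_le_univ _
    have h11 : q - E.card = 0 := by
      by_contra hc
      have h12 : 1 ≤ q - E.card := by omega
      have h13 : 1 * q ^ (2 ^ k) ≤ (q - E.card) * q ^ (2 ^ k) := Nat.mul_le_mul_right _ h12
      omega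
    have h12 : E = Finset.univ := by
      rw [← Finset.card_eq_iff_eq_univ, hqF]
      omega
    intro d
    rw [h12]
    exact Finset.mem_univ _
  obtain ⟨μ, hμ⟩ : ∃ μ, μ = (D + 2 * k) / q := ⟨_, rfl⟩
  rw [← hμ] at hcase hz1 hz2
  have hsum : ∑ s ∈ S \ U, v s + ∑ s ∈ U, v s = ∑ s ∈ S, v s := Finset.sum_sdiff h1
  have hcardU := Finset.card_sdiff_add_card_eq_card h1
  -- the multiset of the remaining weights covers
  have hfib : ∀ i, ((S \ U).filter (fun s => v s = i)).card ≤ q := by
    intro i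
    rw [hq]
    apply fiber_card w _ (i : ZMod W)
    intro x hx
    rw [Finset.mem_filter, Finset.mem_sdiff] at hx
    rw [← (hv x hx.1.1).2.2, hx.2]
  have hcard : (S \ U).card = ∑ i ∈ Finset.Icc 1 L, ((S \ U).filter (fun s => v s = i)).card := by
    apply Finset.card_eq_sum_card_fiberwise
    intro s hs
    rw [Finset.mem_coe, Finset.mem_sdiff] at hs
    rw [Finset.mem_coe, Finset.mem_Icc]
    exact ⟨(hv s hs.1).1, (hv s hs.1).2.1⟩
  have hrep : ∀ z', 2 * μ + 3 ≤ z' → z' + (2 * μ + 3) ≤ ∑ s ∈ S \ U, v s →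
      Rep v (S \ U) z' := by
    intro z' hz'1 hz'2
    rcases hcase with hcase | hcase
    · apply int_cover (S \ U) v L μ _ _ hcase z' hz'1 hz'2
      · intro s hs
        rw [Finset.mem_sdiff] at hs
        exact ⟨(hv s hs.1).1, (hv s hs.1).2.1⟩
      · -- few missing values
        rw [hμ, Nat.le_div_iff_mul_le hqpos]
        have h9 : ∑ i ∈ Finset.Icc 1 L, ((S \ U).filter (fun s => v s = i)).card ≤
            ∑ i ∈ Finset.Icc 1 L, (if i ∈ (S \ U).image v then q else 0) := by
          apply Finset.sum_le_sum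
          intro i _
          split_ifs with h
          · exact hfib i
          · rw [Nat.le_zero, Finset.card_eq_zero, Finset.filter_eq_empty_iff]
            intro s hs hsi
            exact h (Finset.mem_image.2 ⟨s, hs, hsi⟩)
        rw [← hcard, ← Finset.sum_filter, Finset.sum_const, smul_eq_mul] at h9
        have h10 := Finset.card_filter_add_card_filter_not (s := Finset.Icc 1 L) (fun i => i ∈ (S \ U).image v)
        have h11 : (Finset.Icc 1 L \ (S \ U).image v) =
            (Finset.Icc 1 L).filter (fun i => ¬ i ∈ (S \ U).image v) := by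
          ext x; rw [Finset.mem_sdiff, Finset.mem_filter]
        rw [← h11, Nat.card_Icc, Nat.add_sub_cancel] at h10
        obtain ⟨α, hα⟩ : ∃ α, α = ((Finset.Icc 1 L).filter (fun i => i ∈ (S \ U).image v)).card :=
          ⟨_, rfl⟩
        obtain ⟨γ, hγ⟩ : ∃ γ, γ = (Finset.Icc 1 L \ (S \ U).image v).card := ⟨_, rfl⟩
        rw [← hα] at h9
        rw [← hα, ← hγ] at h10
        rw [← hγ]
        have h12 : q * L = α * q + γ * q := by rw [← h10]; ring
        omega
    · apply int_cover_one (S \ U) v L _ _ z' (by omega)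
      · intro s hs
        rw [Finset.mem_sdiff] at hs
        exact (hv s hs.1).2.1
      · -- many ones
        have hL1 : 1 ≤ L := by
          by_contra hc
          have hJ0 : J0 = 0 := by omega
          rw [hJ0] at hJ
          omega
        have h9 : ∑ i ∈ Finset.Icc 1 L, ((S \ U).filter (fun s => v s = i)).card ≤
            ((S \ U).filter (fun s => v s = 1)).card + (L - 1) * q := by
          have h10 : Finset.Icc 1 L = insert 1 (Finset.Icc 2 L) := by
            ext x; simp only [Finset.mem_insert, Finset.mem_Icc]; omega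
          rw [h10, Finset.sum_insert (by simp)]
          apply Nat.add_le_add_left
          have h11 := Finset.sum_le_sum (s := Finset.Icc 2 L) (fun i _ => hfib i)
          rw [Finset.sum_const, Nat.card_Icc, smul_eq_mul] at h11
          have h12 : L + 1 - 2 = L - 1 := by omega
          rw [h12] at h11
          exact h11
        rw [← hcard] at h9
        have h12 : (L - 1) * q + q = q * L := by
          obtain ⟨e, rfl⟩ : ∃ e, L = e + 1 := ⟨L - 1, by omega⟩
          rw [Nat.add_sub_cancel]; ring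
        omega
  obtain ⟨J, hJ, hJz⟩ := hrep (z - y) (by omega) (by omega)
  have hker : x - g0 - ∑ s ∈ J, s ∈ w.ker := by
    rw [AddMonoidHom.mem_ker, map_sub, map_sub, h7, hx, map_sum]
    have h9 : ∑ s ∈ J, w s = ((z - y : ℕ) : ZMod W) := by
      rw [← hJz]
      push_cast
      apply Finset.sum_congr rfl
      intro s hs
      exact ((hv s (Finset.sdiff_subset (hJ hs))).2.2).symm
    rw [h9, Nat.cast_sub (by omega)]
    ring
  have h9 := h4 ⟨_, hker⟩ (hEuniv _)
  rw [Finset.mem_subsetSum_iff] at h9 ⊢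
  obtain ⟨B, hB, hBs⟩ := h9
  have hBJ : Disjoint B J := by
    rw [Finset.disjoint_left]
    intro s hs hs2
    exact (Finset.mem_sdiff.1 (hJ hs2)).2 (hB hs)
  refine ⟨B ∪ J, Finset.union_subset (hB.trans h1) (hJ.trans Finset.sdiff_subset), ?_⟩
  rw [Finset.sum_union hBJ, hBs]
  show g0 + (x - g0 - ∑ s ∈ J, s) + ∑ s ∈ J, s = x
  abel

end Pool.Agent.Helper398
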