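import Mathlib
import Pool.Agent.Helper398.Cover
import Pool.Agent.Helper398.Sums

set_option autoImplicit false
set_option linter.unusedSectionVars false

open Finset
open scoped Pointwise

namespace Pool.Agent.Helper398

variable {G : Type*} [AddCommGroup G] [Finite G] [DecidableEq G]

def sp (v : G → ℤ) (B : Finset G) : ℤ := ∑ b ∈ B, max (v b) 0
def sn (v : G → ℤ) (B : Finset G) : ℤ := ∑ b ∈ B, max (-(v b)) 0

theorem sp_add_sn (v : G → ℤ) (B : Finset G) : sp v B + sn v B = ∑ b ∈ B, |v b| := by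
  unfold sp sn
  rw [← Finset.sum_add_distrib]
  apply Finset.sum_congr rfl
  intro b _
  rcases le_total 0 (v b) with h | h
  · rw [abs_of_nonneg h, max_eq_left h, max_eq_right (by omega)]; ring
  · rw [abs_of_nonpos h, max_eq_right h, max_eq_left (by omega)]; ring

theorem sp_sub_sn (v : G → ℤ) (B : Finset G) : sp v B - sn v B = ∑ b ∈ B, v b := by
  unfold sp sn
  rw [← Finset.sum_sub_distrib]
  apply Finset.sum_congr rfl
  intro b _
  rcases le_total 0 (v b) with h | h
  · rw [max_eq_left h, max_eq_right (by omega)]; ring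
  · rw [max_eq_right h, max_eq_left (by omega)]; ring

theorem sp_nonneg (v : G → ℤ) (B : Finset G) : 0 ≤ sp v B :=
  Finset.sum_nonneg (fun _ _ => le_max_right _ _)

theorem sn_nonneg (v : G → ℤ) (B : Finset G) : 0 ≤ sn v B :=
  Finset.sum_nonneg (fun _ _ => le_max_right _ _)

theorem sp_insert (v : G → ℤ) (B : Finset G) (e : G) (he : e ∉ B) :
    sp v (insert e B) = sp v B + max (v e) 0 := by
  unfold sp; rw [Finset.sum_insert he]; ring

theorem sn_insert (v : G → ℤ) (B : Finset G) (e : G) (he : e ∉ B) :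
    sn v (insert e B) = sn v B + max (-(v e)) 0 := by
  unfold sn; rw [Finset.sum_insert he]; ring

/-- the interval property -/
def Iv {W : ℕ} (w : G →+ ZMod W) (v : G → ℤ) (B : Finset G) (α : ℤ) : Prop :=
  ∀ x : G, ∀ y : ℤ, -sn v B + α ≤ y → y + α ≤ sp v B → (y : ZMod W) = w x → x ∈ B.subsetSum

theorem Iv_insert {W : ℕ} (w : G →+ ZMod W) (v : G → ℤ) (B : Finset G) (α : ℤ)
    (h : Iv w v B α) (e : G) (he : e ∉ B) (hve : (v e : ZMod W) = w e)
    (hl : |v e| ≤ sp v B + sn v B - 2 * α + 1) : Iv w v (insert e B) α := by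
  intro x y h1 h2 hx
  rw [sn_insert v B e he] at h1
  rw [sp_insert v B e he] at h2
  have key : x ∈ B.subsetSum ∨ x - e ∈ B.subsetSum := by
    have hxe : ((y - v e : ℤ) : ZMod W) = w (x - e) := by
      rw [map_sub, ← hx, ← hve]; push_cast; ring
    rcases le_total 0 (v e) with h0 | h0
    · rw [max_eq_left h0] at h2
      rw [max_eq_right (by omega)] at h1
      rw [abs_of_nonneg h0] at hl
      by_cases h3 : y + α ≤ sp v B
      · left; exact h x y (by omega) h3 hx
      · right; exact h (x - e) (y - v e) (by omega) (by omega) hxe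
    · rw [max_eq_right h0] at h2
      rw [max_eq_left (by omega)] at h1
      rw [abs_of_nonpos h0] at hl
      by_cases h3 : -sn v B + α ≤ y
      · left; exact h x y h3 (by omega) hx
      · right; exact h (x - e) (y - v e) (by omega) (by omega) hxe
  rcases key with h3 | h3
  · exact subsetSum_mono (Finset.subset_insert _ _) h3
  · rw [Finset.mem_subsetSum_iff] at h3 ⊢
    obtain ⟨C, hC, hs⟩ := h3
    refine ⟨insert e C, Finset.insert_subset_insert _ hC, ?_⟩
    rw [Finset.sum_insert (fun hc => he (hC hc)), hs]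
    abel

theorem count_fibers {W : ℕ} (w : G →+ ZMod W) (hsurj : Function.Surjective w)
    (Z : Finset ℤ) (T : Finset G) (hT : ∀ z ∈ Z, ∀ x, (z : ZMod W) = w x → x ∈ T)
    (hZ : ∀ z ∈ Z, ∀ z' ∈ Z, z < z' → z' - z < W) : Z.card * Nat.card w.ker ≤ T.card := by
  choose σ hσ using hsurj
  have h1 : Z.card * Nat.card w.ker = Nat.card (Z × w.ker) := by
    rw [Nat.card_prod]
    congr 1
    rw [Nat.card_eq_fintype_card, Fintype.card_coe]
  have h2 : Nat.card T = T.card := by rw [Nat.card_eq_fintype_card, Fintype.card_coe]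
  rw [h1, ← h2]
  have hmem : ∀ p : Z × w.ker, σ ((p.1 : ℤ) : ZMod W) + (p.2 : G) ∈ T := by
    intro p
    apply hT p.1 p.1.2
    have := p.2.2
    rw [AddMonoidHom.mem_ker] at this
    rw [map_add, hσ, this, add_zero]
  apply Nat.card_le_card_of_injective (fun p : Z × w.ker =>
    (⟨σ ((p.1 : ℤ) : ZMod W) + (p.2 : G), hmem p⟩ : T))
  rintro ⟨z, k⟩ ⟨z', k'⟩ h
  have h3 : σ ((z : ℤ) : ZMod W) + (k : G) = σ ((z' : ℤ) : ZMod W) + (k' : G) :=
    congrArg (fun t : T => (t : G)) h
  have hk := k.2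
  have hk' := k'.2
  rw [AddMonoidHom.mem_ker] at hk hk'
  have h4 : ((z : ℤ) : ZMod W) = ((z' : ℤ) : ZMod W) := by
    have := congrArg w h3
    rwa [map_add, map_add, hσ, hσ, hk, hk', add_zero, add_zero] at this
  have h5 : (z : ℤ) = z' := by
    rw [ZMod.intCast_eq_intCast_iff_dvd_sub] at h4
    by_contra hne
    rcases lt_or_gt_of_ne hne with h6 | h6
    · have := hZ z z.2 z' z'.2 h6
      have := Int.le_of_dvd (by omega) h4
      omega
    · have := hZ z' z'.2 z z.2 h6
      have h7 : (W : ℤ) ∣ (z : ℤ) - z' := by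
        have := (dvd_neg (a := (W : ℤ))).2 h4
        rwa [neg_sub] at this
      have := Int.le_of_dvd (by omega) h7
      omega
  have h6 : z = z' := Subtype.ext h5
  subst h6
  rw [add_right_inj] at h3
  rw [Subtype.ext h3]

/-- a far away element doubles the sumset -/
theorem far_double {W : ℕ} (w : G →+ ZMod W) (hsurj : Function.Surjective w) (v : G → ℤ)
    (B : Finset G) (α : ℤ)
    (h : Iv w v B α) (e : G) (he : e ∉ B) (hve : (v e : ZMod W) = w e)
    (hvW : 2 * |v e| ≤ W) (l : ℕ) (hl : (l : ℤ) = sp v B + sn v B - 2 * α + 1)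
    (hfar : (l : ℤ) < |v e|) : 2 * l * Nat.card w.ker ≤ (insert e B).subsetSum.card := by
  obtain ⟨Z, hZ⟩ : ∃ Z, Z = Finset.Icc (-sn v B + α) (sp v B - α) ∪
    Finset.Icc (-sn v B + α + v e) (sp v B - α + v e) := ⟨_, rfl⟩
  have hcard : Z.card = 2 * l := by
    rw [hZ, Finset.card_union_of_disjoint]
    · rw [Int.card_Icc, Int.card_Icc]
      omega
    · rw [Finset.disjoint_left]
      intro z hz hz2
      rw [Finset.mem_Icc] at hz hz2
      rcases le_total 0 (v e) with h0 | h0
      · rw [abs_of_nonneg h0] at hfar; omega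
      · rw [abs_of_nonpos h0] at hfar; omega
  rw [← hcard]
  apply count_fibers w hsurj
  · intro z hz x hx
    rw [hZ, Finset.mem_union, Finset.mem_Icc, Finset.mem_Icc] at hz
    rcases hz with hz | hz
    · exact subsetSum_mono (Finset.subset_insert _ _) (h x z (by omega) (by omega) hx)
    · have h3 := h (x - e) (z - v e) (by omega) (by omega) (by
        rw [map_sub, ← hx, ← hve]; push_cast; ring)
      rw [Finset.mem_subsetSum_iff] at h3 ⊢
      obtain ⟨C, hC, hs⟩ := h3
      refine ⟨insert e C, Finset.insert_subset_insert _ hC, ?_⟩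
      rw [Finset.sum_insert (fun hc => he (hC hc)), hs]
      abel
  · intro z hz z' hz' hlt
    rw [hZ, Finset.mem_union, Finset.mem_Icc, Finset.mem_Icc] at hz hz'
    rcases le_total 0 (v e) with h0 | h0
    · rw [abs_of_nonneg h0] at hfar hvW; omega
    · rw [abs_of_nonpos h0] at hfar hvW; omega

theorem Iv_all {W : ℕ} (w : G →+ ZMod W) (hsurj : Function.Surjective w) (v : G → ℤ)
    (A S : Finset G) (α : ℤ) (h : Iv w v S α)
    (hv : ∀ x, (v x : ZMod W) = w x) (hvW : ∀ x, 2 * |v x| ≤ W)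
    (l : ℕ) (hl : (l : ℤ) ≤ sp v S + sn v S - 2 * α + 1)
    (hbig : A.subsetSum.card < 2 * l * Nat.card w.ker) :
    ∀ K : Finset G, Disjoint S K → S ∪ K ⊆ A → Iv w v (S ∪ K) α := by
  intro K
  induction K using Finset.induction_on with
  | empty => intro _ _; simpa using h
  | insert e K he ih =>
    intro hd hsub
    rw [Finset.union_insert] at hsub ⊢
    have h1 := ih (hd.mono_right (Finset.subset_insert _ _))
      ((Finset.subset_insert _ _).trans hsub)
    have heS : e ∉ S ∪ K := by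
      rw [Finset.mem_union]
      rintro (hc | hc)
      · exact Finset.disjoint_left.1 hd hc (Finset.mem_insert_self _ _)
      · exact he hc
    have hmono : sp v S + sn v S ≤ sp v (S ∪ K) + sn v (S ∪ K) := by
      rw [sp_add_sn, sp_add_sn]
      apply Finset.sum_le_sum_of_subset_of_nonneg Finset.subset_union_left
      intro i _ _
      exact abs_nonneg _
    by_cases hfar : |v e| ≤ sp v (S ∪ K) + sn v (S ∪ K) - 2 * α + 1
    · exact Iv_insert w v _ α h1 e heS (hv e) hfar
    · exfalso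
      have h2 := far_double w hsurj v (S ∪ K) α h1 e heS (hv e) (hvW e)
        (sp v (S ∪ K) + sn v (S ∪ K) - 2 * α + 1).toNat (by omega) (by omega)
      have h3 := Finset.card_le_card (subsetSum_mono hsub)
      have h4 : 2 * l * Nat.card w.ker ≤
          2 * (sp v (S ∪ K) + sn v (S ∪ K) - 2 * α + 1).toNat * Nat.card w.ker := by
        apply Nat.mul_le_mul_right
        omega
      omega

/-- the signed covering lemma -/
theorem signed_cover {W : ℕ} (w : G →+ ZMod W) (S : Finset G) (v : G → ℤ) (L D J0 k : ℕ)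
    (hW : 0 < W)
    (hv : ∀ s ∈ S, v s ≠ 0 ∧ |v s| ≤ L ∧ (v s : ZMod W) = w s)
    (hasym : ∀ a ∈ S, ∀ b ∈ S, a ≠ b → a + b ≠ 0)
    (hS : Nat.card w.ker * L ≤ S.card + D)
    (hk : Nat.card w.ker ^ 2 ≤ 2 ^ k)
    (hJ : 2 * (D + 2 * k) < J0 * Nat.card w.ker) (hJL : J0 ≤ L) (hLW : L < W)
    (hcase : 16 * ((D + 2 * k) / Nat.card w.ker) + 21 ≤ L ∨ D + 2 * k + L ≤ Nat.card w.ker) :
    Iv w v S ((k * J0 + (2 * ((D + 2 * k) / Nat.card w.ker) + 3) : ℕ) : ℤ) := by
  obtain ⟨α, hα⟩ : ∃ α : ℕ, α = k * J0 + (2 * ((D + 2 * k) / Nat.card w.ker) + 3) := ⟨_, rfl⟩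
  rw [← hα]
  obtain ⟨φ, hφ⟩ : ∃ φ : G → G, φ = fun s => if 0 < v s then s else -s := ⟨_, rfl⟩
  have hinj : ∀ a ∈ S, ∀ b ∈ S, φ a = φ b → a = b := by
    intro a ha b hb hab
    by_contra hne
    have h1 := hasym a ha b hb hne
    have hva := (hv a ha).1
    have hvb := (hv b hb).1
    simp only [hφ] at hab
    split_ifs at hab with h2 h3 h3
    · exact hne hab
    · exact h1 (by rw [hab, neg_add_cancel])
    · exact h1 (by rw [← hab, add_neg_cancel])
    · exact hne (neg_injective hab)
  have hwφ : ∀ s ∈ S, w (φ s) = ((v s).natAbs : ZMod W) := by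
    intro s hs
    have h1 := (hv s hs).2.2
    simp only [hφ]
    split_ifs with h
    · rw [← h1]
      have : ((v s).natAbs : ℤ) = v s := by omega
      rw [← Int.cast_natCast, this]
    · rw [map_neg, ← h1]
      have : ((v s).natAbs : ℤ) = -v s := by omega
      rw [← Int.cast_natCast, this, Int.cast_neg]
  have hvalφ : ∀ s ∈ S, (w (φ s)).val = (v s).natAbs := by
    intro s hs
    rw [hwφ s hs, ZMod.val_natCast]
    apply Nat.mod_eq_of_lt
    have := (hv s hs).2.1
    rw [Int.abs_eq_natAbs] at this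
    omega
  obtain ⟨S', hS'⟩ : ∃ S', S' = S.image φ := ⟨_, rfl⟩
  have hS'card : S'.card = S.card := by
    rw [hS']
    exact Finset.card_image_of_injOn (fun a ha b hb => hinj a ha b hb)
  have hsumS' : ((∑ s ∈ S', (w s).val : ℕ) : ℤ) = sp v S + sn v S := by
    rw [sp_add_sn, hS', Finset.sum_image (fun a ha b hb => hinj a ha b hb)]
    push_cast
    apply Finset.sum_congr rfl
    intro s hs
    rw [hvalφ s hs, Int.abs_eq_natAbs]
  obtain ⟨τ, hτ⟩ : ∃ τ : G, τ = ∑ s ∈ S, if 0 < v s then (0 : G) else -s := ⟨_, rfl⟩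
  have hwτ : w τ = ((sn v S : ℤ) : ZMod W) := by
    rw [hτ, map_sum]
    unfold sn
    rw [Int.cast_sum]
    apply Finset.sum_congr rfl
    intro s hs
    have h1 := (hv s hs).2.2
    split_ifs with h
    · rw [map_zero, max_eq_right (by omega), Int.cast_zero]
    · rw [map_neg, max_eq_left (by omega), Int.cast_neg, h1]
  intro x y h1 h2 hx
  have hcov := cover w S' (fun s => (w s).val) L D J0 k (by
    intro s' hs'
    rw [hS', Finset.mem_image] at hs'
    obtain ⟨s, hs, rfl⟩ := hs'
    have h3 := hv s hs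
    rw [Int.abs_eq_natAbs] at h3
    rw [hvalφ s hs]
    exact ⟨by omega, by omega, (hwφ s hs).symm⟩) (by rw [hS'card]; exact hS) hk hJ hJL hLW
    hcase (x + τ) (y + sn v S).toNat (by rw [← hα]; omega) (by rw [← hα]; omega) (by
      rw [map_add, ← hx, hwτ, ← Int.cast_natCast, Int.toNat_of_nonneg (by omega)]
      push_cast
      ring)
  rw [Finset.mem_subsetSum_iff] at hcov ⊢
  obtain ⟨B', hB', hs⟩ := hcov
  refine ⟨S.filter (fun s => if 0 < v s then s ∈ B' else -s ∉ B'), Finset.filter_subset _ _, ?_⟩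
  have h3 : ∑ b ∈ B', b = ∑ s ∈ S, if φ s ∈ B' then φ s else 0 := by
    rw [← Finset.sum_filter]
    have h4 : B' = (S.filter (fun s => φ s ∈ B')).image φ := by
      ext b
      rw [Finset.mem_image]
      constructor
      · intro hb
        have := hB' hb
        rw [hS', Finset.mem_image] at this
        obtain ⟨s, hs, rfl⟩ := this
        exact ⟨s, Finset.mem_filter.2 ⟨hs, hb⟩, rfl⟩
      · rintro ⟨s, hs, rfl⟩
        exact (Finset.mem_filter.1 hs).2
    conv_lhs => rw [h4]
    rw [Finset.sum_image (fun a ha b hb => hinj a (Finset.mem_filter.1 ha).1 b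
      (Finset.mem_filter.1 hb).1)]
  have h4 : x = ∑ b ∈ B', b - τ := by rw [hs]; abel
  rw [h4, h3, hτ, ← Finset.sum_sub_distrib, Finset.sum_filter]
  apply Finset.sum_congr rfl
  intro s _
  simp only [hφ]
  by_cases h5 : 0 < v s
  · simp only [h5, if_true]
    rw [sub_zero]
  · simp only [h5, if_false]
    by_cases h6 : -s ∈ B'
    · simp [h6]
    · simp [h6]

end Pool.Agent.Helper398
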