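import Mathlib
import Pool.Agent.Helper398.Iv

set_option autoImplicit false
set_option linter.unusedSectionVars false

open Finset
open scoped Pointwise

namespace Pool.Agent.Helper398

variable {G : Type*} [AddCommGroup G] [Finite G] [DecidableEq G]

theorem le_sp (v : G → ℤ) (B : Finset G) (s : G) (hs : s ∈ B) : v s ≤ sp v B := by
  have h1 : max (v s) 0 ≤ sp v B :=
    Finset.single_le_sum (f := fun b => max (v b) 0) (fun _ _ => le_max_right _ _) hs
  exact (le_max_left _ _).trans h1

theorem le_sn (v : G → ℤ) (B : Finset G) (s : G) (hs : s ∈ B) : -v s ≤ sn v B := by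
  have h1 : max (-v s) 0 ≤ sn v B :=
    Finset.single_le_sum (f := fun b => max (-v b) 0) (fun _ _ => le_max_right _ _) hs
  exact (le_max_left _ _).trans h1

theorem crit_pos (A : Finset G) (v : G → ℤ) (W : ℕ) (hW : 0 < W) (a : G) (ha : a ∈ A) (α w3 : ℤ)
    (hα : 1 ≤ α) (hva : v a ≠ 0) (hw3 : w3 = 2 * α + |v a|)
    (H1 : ∀ J ⊆ A, J.Nonempty → ¬ (W : ℤ) ∣ ∑ s ∈ J, v s)
    (H2 : ∀ j : ℤ, 1 ≤ j → j ≤ w3 → 2 ≤ (A.filter (fun s => |v s| = j)).card)
    (H3 : ∀ y : ℤ, -sn v (A.erase a) + α ≤ y → y + α ≤ sp v (A.erase a) →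
      ¬ (W : ℤ) ∣ (y + v a))
    (H4 : (W : ℤ) ≤ sp v A + sn v A) (hv0 : ∀ s ∈ A, v s ≠ 0)
    (Hs : ∃ s ∈ A, v s = 1) : False := by
  obtain ⟨s1, hs1, hs1v⟩ := Hs
  have hva1 : 1 ≤ |v a| := by
    have := abs_pos.2 hva
    omega
  -- all elements of absolute value one are positive
  have h1 : ∀ s ∈ A, |v s| = 1 → v s = 1 := by
    intro s hs hsv
    rcases (abs_eq (by norm_num)).1 hsv with h | h
    · exact h
    · exfalso
      have hne : s ≠ s1 := by rintro rfl; omega
      apply H1 {s, s1} (by intro x hx; simp at hx; rcases hx with rfl | rfl <;> assumption)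
        (by simp)
      rw [Finset.sum_pair hne, h, hs1v]
      simp
  have h2 := H2 1 le_rfl (by omega)
  obtain ⟨p1, hp1, p2, hp2, hp12⟩ := Finset.one_lt_card.1 (show 1 < _ from h2)
  rw [Finset.mem_filter] at hp1 hp2
  have hp1v := h1 p1 hp1.1 hp1.2
  have hp2v := h1 p2 hp2.1 hp2.2
  -- all elements of small absolute value are positive
  have h3 : ∀ j : ℕ, 1 ≤ j → (j : ℤ) ≤ w3 → ∀ s ∈ A, |v s| = j → v s = j := by
    intro j
    induction j using Nat.strong_induction_on with
    | _ j ih =>
      intro hj1 hj2 s hs hsv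
      rcases (abs_eq (by positivity)).1 hsv with h | h
      · exact h
      · exfalso
        rcases Nat.lt_or_ge j 2 with hj3 | hj3
        · have : j = 1 := by omega
          subst this
          have := h1 s hs (by exact_mod_cast hsv)
          omega
        rcases Nat.lt_or_ge j 3 with hj4 | hj4
        · have : j = 2 := by omega
          subst this
          have hne1 : s ≠ p1 := by rintro rfl; rw [hp1v] at h; norm_num at h
          have hne2 : s ≠ p2 := by rintro rfl; rw [hp2v] at h; norm_num at h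
          apply H1 {s, p1, p2} (by
            intro x hx; simp at hx; rcases hx with rfl | rfl | rfl
            · exact hs
            · exact hp1.1
            · exact hp2.1) (by simp)
          rw [Finset.sum_insert (by simp [hne1, hne2]), Finset.sum_pair hp12, h, hp1v, hp2v]
          norm_num
        · have h4 := H2 ((j - 1 : ℕ) : ℤ) (by omega) (by omega)
          have h5 : 0 < (A.filter (fun s => |v s| = ((j - 1 : ℕ) : ℤ))).card := by omega
          obtain ⟨s', hs'⟩ := Finset.card_pos.1 h5
          rw [Finset.mem_filter] at hs'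
          have h6 := ih (j - 1) (by omega) (by omega) (by omega) s' hs'.1 hs'.2
          have hne1 : s ≠ s' := by rintro rfl; omega
          have hne2 : s ≠ p1 := by rintro rfl; omega
          have hne3 : s' ≠ p1 := by rintro rfl; omega
          apply H1 {s, s', p1} (by
            intro x hx; simp at hx; rcases hx with rfl | rfl | rfl
            · exact hs
            · exact hs'.1
            · exact hp1.1) (by simp)
          rw [Finset.sum_insert (by simp [hne1, hne2]), Finset.sum_pair hne3, h, h6, hp1v]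
          have : -(j : ℤ) + (((j - 1 : ℕ) : ℤ) + 1) = 0 := by omega
          rw [this]
          exact dvd_zero _
  have h3' : ∀ s ∈ A, |v s| ≤ w3 → 0 < v s := by
    intro s hs hsw
    have h4 := abs_pos.2 (hv0 s hs)
    have h5 := h3 (|v s|).toNat (by omega) (by omega) s hs (by omega)
    omega
  -- the positive weight is large
  have h4 : α + |v a| ≤ sp v (A.erase a) := by
    have h5 := H2 w3 (by omega) le_rfl
    obtain ⟨s2, hs2, s3, hs3, hs23⟩ := Finset.one_lt_card.1 (show 1 < _ from h5)
    rw [Finset.mem_filter] at hs2 hs3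
    have hex : ∃ s ∈ A, s ≠ a ∧ |v s| = w3 := by
      by_cases h : s2 = a
      · exact ⟨s3, hs3.1, by rintro rfl; exact hs23 h, hs3.2⟩
      · exact ⟨s2, hs2.1, h, hs2.2⟩
    obtain ⟨s, hs, hsa, hsw⟩ := hex
    have h6 := h3' s hs (by omega)
    rw [abs_of_pos h6] at hsw
    have h7 := le_sp v (A.erase a) s (Finset.mem_erase.2 ⟨hsa, hs⟩)
    omega
  have h5 : sn v (A.erase a) < α + |v a| := by
    by_contra hc
    have h6 := neg_abs_le (v a)
    have h7 := le_abs_self (v a)
    apply H3 (-v a) (by omega) (by omega)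
    rw [neg_add_cancel]
    exact dvd_zero _
  -- all elements are positive
  have h6 : ∀ s ∈ A, 0 < v s := by
    intro s hs
    by_contra hc
    apply hc
    apply h3' s hs
    by_cases hsa : s = a
    · rw [hsa]; omega
    · have h7 := le_sn v (A.erase a) s (Finset.mem_erase.2 ⟨hsa, hs⟩)
      rw [abs_of_nonpos (by omega)]
      omega
  have h7 : sn v A = 0 := by
    unfold sn
    apply Finset.sum_eq_zero
    intro s hs
    have := h6 s hs
    rw [max_eq_right (by omega)]
  have h8 := sp_sub_sn v A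
  -- the interval is not everything
  have h9 : sp v (A.erase a) + sn v (A.erase a) - 2 * α + 1 < W := by
    by_contra hc
    push Not at hc
    obtain ⟨lo, hlo⟩ : ∃ lo, lo = -sn v (A.erase a) + α := ⟨_, rfl⟩
    have hWz : (W : ℤ) ≠ 0 := by omega
    have e1 := Int.emod_nonneg (-v a - lo) hWz
    have e2 := Int.emod_lt_of_pos (-v a - lo) (show (0 : ℤ) < W by omega)
    apply H3 (lo + (-v a - lo) % W) (by omega) (by omega)
    have e3 := Int.emod_add_mul_ediv (-v a - lo) W
    have e4 : lo + (-v a - lo) % W + v a = (W : ℤ) * (-((-v a - lo) / W)) := by linarith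
    rw [e4]
    exact Dvd.intro _ rfl
  have h10 : sp v (A.erase a) + sn v (A.erase a) + |v a| = sp v A + sn v A := by
    rw [sp_add_sn, sp_add_sn, Finset.sum_erase_add _ _ ha]
  obtain ⟨d, hd⟩ : ∃ d, d = sp v A - W := ⟨_, rfl⟩
  have hd0 : 0 ≤ d := by omega
  rcases hd0.eq_or_lt with hd1 | hd1
  · apply H1 A (Finset.Subset.refl _) ⟨a, ha⟩
    have : ∑ s ∈ A, v s = W := by omega
    rw [this]
  · have h11 := H2 d (by omega) (by omega)
    have h12 : 0 < (A.filter (fun s => |v s| = d)).card := by omega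
    obtain ⟨s, hs⟩ := Finset.card_pos.1 h12
    rw [Finset.mem_filter] at hs
    have h13 := h6 s hs.1
    rw [abs_of_pos h13] at hs
    have h14 : ∑ t ∈ A.erase s, v t = W := by
      have := Finset.sum_erase_add A v hs.1
      omega
    apply H1 (A.erase s) (Finset.erase_subset _ _)
    · rw [Finset.nonempty_iff_ne_empty]
      intro h
      rw [h, Finset.sum_empty] at h14
      omega
    · rw [h14]

theorem crit_false (A : Finset G) (v : G → ℤ) (W : ℕ) (hW : 0 < W) (a : G) (ha : a ∈ A) (α w3 : ℤ)
    (hα : 1 ≤ α) (hva : v a ≠ 0) (hw3 : w3 = 2 * α + |v a|)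
    (H1 : ∀ J ⊆ A, J.Nonempty → ¬ (W : ℤ) ∣ ∑ s ∈ J, v s)
    (H2 : ∀ j : ℤ, 1 ≤ j → j ≤ w3 → 2 ≤ (A.filter (fun s => |v s| = j)).card)
    (H3 : ∀ y : ℤ, -sn v (A.erase a) + α ≤ y → y + α ≤ sp v (A.erase a) →
      ¬ (W : ℤ) ∣ (y + v a))
    (H4 : (W : ℤ) ≤ sp v A + sn v A) (hv0 : ∀ s ∈ A, v s ≠ 0) : False := by
  have h0 : 0 ≤ |v a| := abs_nonneg _
  have h2 := H2 1 le_rfl (by omega)
  have h3 : 0 < (A.filter (fun s => |v s| = 1)).card := by omega
  obtain ⟨s, hs⟩ := Finset.card_pos.1 h3
  rw [Finset.mem_filter] at hs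
  rcases (abs_eq (by norm_num)).1 hs.2 with h | h
  · exact crit_pos A v W hW a ha α w3 hα hva hw3 H1 H2 H3 H4 hv0 ⟨s, hs.1, h⟩
  · have hsp : ∀ B : Finset G, sp (fun x => -v x) B = sn v B := fun B => rfl
    have hsn : ∀ B : Finset G, sn (fun x => -v x) B = sp v B := by
      intro B
      unfold sn sp
      simp
    apply crit_pos A (fun x => -v x) W hW a ha α w3 hα (neg_ne_zero.2 hva)
      (by simp only [abs_neg]; exact hw3)
    · intro J hJ hJne
      rw [Finset.sum_neg_distrib, dvd_neg]
      exact H1 J hJ hJne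
    · intro j hj1 hj2
      simp only [abs_neg]
      exact H2 j hj1 hj2
    · intro y hy1 hy2
      rw [hsn] at hy1
      rw [hsp] at hy2
      have := H3 (-y) (by omega) (by omega)
      intro hc
      apply this
      have e : -y + v a = -(y + -v a) := by ring
      rw [e, dvd_neg]
      exact hc
    · rw [hsn, hsp]; omega
    · intro s hs; exact neg_ne_zero.2 (hv0 s hs)
    · exact ⟨s, hs.1, by simp only [h, neg_neg]⟩

end Pool.Agent.Helper398
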