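import Mathlib
import Pool.Agent.Helper398.Crude
import Pool.Agent.Helper398.Cover

set_option autoImplicit false
set_option linter.unusedSectionVars false

open Finset
open scoped Pointwise

namespace Pool.Agent.Helper398

variable {G : Type*} [AddCommGroup G] [Finite G] [DecidableEq G]

theorem invol_periodic (X : Finset G) (e : G) (he : e ∈ X) (he2 : e + e = 0) :
    ∀ y ∈ X.subsetSum, y + e ∈ X.subsetSum := by
  intro y hy
  rw [Finset.mem_subsetSum_iff] at hy ⊢
  obtain ⟨B, hB, rfl⟩ := hy
  by_cases heB : e ∈ B
  · refine ⟨B.erase e, (Finset.erase_subset _ _).trans hB, ?_⟩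
    rw [← Finset.sum_erase_add B _ heB, add_assoc, he2, add_zero]
  · refine ⟨insert e B, Finset.insert_subset he hB, ?_⟩
    rw [Finset.sum_insert heB, add_comm]

theorem neg_notMem_of_ZSF (X : Finset G) (b : G) (hb : b ∉ X) (hZ : ZSF (insert b X)) :
    -b ∉ X.subsetSum := by
  intro h
  rw [Finset.mem_subsetSum_iff] at h
  obtain ⟨B, hB, hs⟩ := h
  apply hZ (insert b B) (Finset.insert_subset_insert _ hB) (Finset.insert_nonempty _ _)
  rw [Finset.sum_insert (fun hc => hb (hB hc)), hs, add_neg_cancel]

theorem exists_new (X : Finset G) (b : G) (hb : b ∉ X) (hZ : ZSF (insert b X)) :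
    ∃ z ∈ (b +ᵥ X.subsetSum), z ∉ X.subsetSum := by
  by_contra hcon
  push Not at hcon
  have h1 : (b +ᵥ X.subsetSum) ⊆ X.subsetSum := hcon
  have h2 : (b +ᵥ X.subsetSum) = X.subsetSum :=
    Finset.eq_of_subset_of_card_le h1 (by rw [Finset.card_vadd_finset])
  have h3 : (0 : G) ∈ X.subsetSum := by
    rw [Finset.mem_subsetSum_iff]; exact ⟨∅, by simp, by simp⟩
  rw [← h2, Finset.mem_vadd_finset] at h3
  obtain ⟨y, hy, hyb⟩ := h3
  rw [vadd_eq_add] at hyb
  have h4 : y = -b := by
    rw [eq_neg_iff_add_eq_zero, add_comm]; exact hyb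
  exact neg_notMem_of_ZSF X b hb hZ (h4 ▸ hy)

theorem growth_two (X : Finset G) (b e : G) (hb : b ∉ X) (hZ : ZSF (insert b X))
    (he : e ∈ X) (he2 : e + e = 0) : X.subsetSum.card + 2 ≤ (insert b X).subsetSum.card := by
  rw [card_subsetSum_insert X b hb]
  apply Nat.add_le_add_left
  obtain ⟨z, hz1, hz2⟩ := exists_new X b hb hZ
  have hper := invol_periodic X e he he2
  have he0 : e ≠ 0 := by
    intro h
    apply hZ.zero_notMem
    rw [← h]
    exact Finset.mem_insert_of_mem he
  have h1 : ({z, z + e} : Finset G) ⊆ (b +ᵥ X.subsetSum) \ X.subsetSum := by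
    intro x hx
    rw [Finset.mem_insert, Finset.mem_singleton] at hx
    rw [Finset.mem_sdiff]
    rcases hx with rfl | rfl
    · exact ⟨hz1, hz2⟩
    · constructor
      · rw [Finset.mem_vadd_finset] at hz1 ⊢
        obtain ⟨y, hy, rfl⟩ := hz1
        exact ⟨y + e, hper y hy, by rw [vadd_eq_add, vadd_eq_add, add_assoc]⟩
      · intro hc
        apply hz2
        have := hper _ hc
        rwa [add_assoc, he2, add_zero] at this
  have h2 := Finset.card_le_card h1
  rw [Finset.card_pair (by
    intro h
    apply he0
    have := h.symm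
    rwa [add_eq_left] at this)] at h2
  exact h2

theorem growth_two_all (e : G) (he2 : e + e = 0) (R : Finset G) : ∀ X : Finset G, Disjoint X R →
    e ∈ X → ZSF (X ∪ R) → X.subsetSum.card + 2 * R.card ≤ (X ∪ R).subsetSum.card := by
  induction R using Finset.induction_on with
  | empty => intro X _ _ _; simp
  | insert b R hb ih =>
    intro X hd he hZ
    have hbX : b ∉ X ∪ R := by
      rw [Finset.mem_union]
      rintro (h | h)
      · exact Finset.disjoint_left.1 hd h (Finset.mem_insert_self _ _)
      · exact hb h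
    rw [Finset.union_insert] at hZ ⊢
    have h1 := ih X (hd.mono_right (Finset.subset_insert _ _)) he
      (hZ.mono (Finset.subset_insert _ _))
    have h2 := growth_two (X ∪ R) b e hbX hZ (Finset.mem_union_left _ he) he2
    rw [Finset.card_insert_of_notMem hb]
    omega

theorem pair_diff (e b b' : G) (he2 : e + e = 0) (hbe : b ≠ e) (hbe' : b' ≠ e) (hbb : b' ≠ b)
    (hZ : ZSF ({b', b, e} : Finset G))
    (hcard : (({b', b, e} : Finset G).subsetSum).card ≤ 6) : b' = b + e := by
  have hb1 : b ∉ ({e} : Finset G) := by simpa using hbe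
  have hb2 : b' ∉ ({b, e} : Finset G) := by simp [hbe', hbb]
  have hZ1 : ZSF ({b, e} : Finset G) := hZ.mono (Finset.subset_insert _ _)
  have h1 : ({e} : Finset G).subsetSum.card + 2 ≤ (({b, e} : Finset G).subsetSum).card :=
    growth_two {e} b e hb1 hZ1 (Finset.mem_singleton_self e) he2
  have h2 : 2 ≤ (({e} : Finset G).subsetSum).card := by
    have := card_lt_card_subsetSum ({e} : Finset G) (hZ1.mono (Finset.subset_insert _ _)).zero_notMem
    rwa [Finset.card_singleton] at this
  have h3 := card_subsetSum_insert ({b, e} : Finset G) b' hb2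
  have hnd : ¬ Disjoint (b' +ᵥ ({b, e} : Finset G).subsetSum) ({b, e} : Finset G).subsetSum := by
    intro hd
    have h4 : gr ({b, e} : Finset G).subsetSum b' = ({b, e} : Finset G).subsetSum.card := by
      unfold gr
      rw [Finset.sdiff_eq_self_of_disjoint hd, Finset.card_vadd_finset]
    omega
  rw [Finset.not_disjoint_iff] at hnd
  obtain ⟨z, hz1, hz2⟩ := hnd
  rw [Finset.mem_vadd_finset] at hz1
  obtain ⟨y, hy, hyz⟩ := hz1
  rw [vadd_eq_add] at hyz
  have hel : ∀ y ∈ ({b, e} : Finset G).subsetSum, y = 0 ∨ y = e ∨ y = b ∨ y = b + e := by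
    intro y hy
    rw [subsetSum_insert' _ _ hb1, Finset.mem_union, Finset.mem_vadd_finset] at hy
    have hel1 : ∀ y ∈ ({e} : Finset G).subsetSum, y = 0 ∨ y = e := by
      intro y hy
      rw [Finset.mem_subsetSum_iff] at hy
      obtain ⟨B, hB, rfl⟩ := hy
      rcases Finset.subset_singleton_iff.1 hB with h | h
      · left; rw [h]; simp
      · right; rw [h]; simp
    rcases hy with hy | ⟨z, hz, rfl⟩
    · rcases hel1 y hy with h | h <;> simp [h]
    · rcases hel1 z hz with h | h <;> simp [h]
  have hn1 : b' ≠ 0 := fun h => hZ.zero_notMem (by rw [← h]; simp)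
  have hn2 : b' + b ≠ 0 := by
    intro h
    apply hZ {b', b} (by intro x hx; simp at hx ⊢; tauto) (by simp)
    rw [Finset.sum_pair hbb, h]
  have hn3 : b' + b + e ≠ 0 := by
    intro h
    apply hZ {b', b, e} (Finset.Subset.refl _) (by simp)
    rw [Finset.sum_insert hb2, Finset.sum_insert hb1, Finset.sum_singleton, ← add_assoc, h]
  have hne : -e = e := by rw [neg_eq_iff_add_eq_zero]; exact he2
  have hb'eq : b' = z - y := by rw [← hyz]; abel
  rcases hel y hy with h | h | h | h <;> rcases hel z hz2 with h' | h' | h' | h' <;>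
    rw [h, h'] at hb'eq
  · exact absurd (by rw [hb'eq]; abel) hn1
  · exact absurd (by rw [hb'eq]; abel) hbe'
  · exact absurd (by rw [hb'eq]; abel) hbb
  · rw [hb'eq]; abel
  · exact absurd (by rw [hb'eq, zero_sub, hne]) hbe'
  · exact absurd (by rw [hb'eq]; abel) hn1
  · rw [hb'eq, sub_eq_add_neg, hne]
  · exact absurd (by rw [hb'eq]; abel) hbb
  · exact absurd (by rw [hb'eq]; abel) hn2
  · exact absurd (by rw [hb'eq]; rw [sub_add_cancel, he2]) hn3
  · exact absurd (by rw [hb'eq]; abel) hn1
  · exact absurd (by rw [hb'eq]; abel) hbe'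
  · exact absurd (by rw [hb'eq]; abel) hn3
  · exact absurd (by rw [hb'eq]; rw [sub_add_eq_sub_sub_swap, sub_self, zero_sub, neg_add_cancel]) hn2
  · exact absurd (by rw [hb'eq, sub_add_eq_sub_sub, sub_self, zero_sub, hne]) hbe'
  · exact absurd (by rw [hb'eq]; abel) hn1

theorem small_zsf (K : AddSubgroup G) (A : Finset G) (hZ : ZSF A) (hK : ∀ a ∈ A, a ∈ K) :
    2 * A.card + 1 ≤ Nat.card K ∨ (Nat.card K = 2 * A.card ∧ 1 ≤ A.card ∧ A.card ≤ 3 ∧
      ∀ d ∈ K, d ∈ A.subsetSum) := by
  classical
  have hfin : ∀ T : Finset G, (∀ x ∈ T, x ∈ K) → T.card ≤ Nat.card K := by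
    intro T hT
    have h1 : Nat.card T = T.card := by rw [Nat.card_eq_fintype_card, Fintype.card_coe]
    rw [← h1]
    apply Nat.card_le_card_of_injective (fun x : T => (⟨x, hT x x.2⟩ : K))
    intro x y hxy
    have h2 : ((⟨(x : G), hT x x.2⟩ : K) : G) = ((⟨(y : G), hT y y.2⟩ : K) : G) :=
      congrArg (fun z : K => (z : G)) hxy
    exact Subtype.ext h2
  by_cases hNI : NI A
  · left
    rw [← card_sym A hZ hNI]
    apply hfin
    intro x hx
    unfold sym at hx
    rw [Finset.mem_insert, Finset.mem_union, Finset.mem_neg] at hx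
    rcases hx with rfl | hx | ⟨y, hy, rfl⟩
    · exact K.zero_mem
    · exact hK x hx
    · exact K.neg_mem (hK y hy)
  · have : ∃ e ∈ A, e + e = 0 := by
      by_contra h
      push Not at h
      exact hNI h
    obtain ⟨e, he, he2⟩ := this
    have hsub : ∀ x ∈ A.subsetSum, x ∈ K := by
      intro x hx
      rw [Finset.mem_subsetSum_iff] at hx
      obtain ⟨B, hB, rfl⟩ := hx
      exact K.sum_mem (fun b hb => hK b (hB hb))
    have h1 := growth_two_all e he2 (A.erase e) {e} (by simp) (by simp) (by
      rw [Finset.singleton_union, Finset.insert_erase he]; exact hZ)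
    rw [Finset.singleton_union, Finset.insert_erase he, Finset.card_erase_of_mem he] at h1
    have h2 : 2 ≤ (({e} : Finset G).subsetSum).card := by
      have := card_lt_card_subsetSum ({e} : Finset G)
        (hZ.mono (Finset.singleton_subset_iff.2 he)).zero_notMem
      rwa [Finset.card_singleton] at this
    have hpos : 0 < A.card := Finset.card_pos.2 ⟨e, he⟩
    have h3 : 2 * A.card ≤ A.subsetSum.card := by omega
    have h4 := hfin A.subsetSum hsub
    by_cases h5 : 2 * A.card + 1 ≤ Nat.card K
    · left; exact h5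
    · right
      refine ⟨by omega, by omega, ?_, ?_⟩
      · by_contra h6
        have h7 : 2 < (A.erase e).card := by rw [Finset.card_erase_of_mem he]; omega
        rw [Finset.two_lt_card] at h7
        obtain ⟨b1, hb1, b2, hb2, b3, hb3, h12, h13, h23⟩ := h7
        have key : ∀ b ∈ A.erase e, ∀ b' ∈ A.erase e, b' ≠ b → b' = b + e := by
          intro b hb b' hb' hne
          rw [Finset.mem_erase] at hb hb'
          have hsubA : ({b', b, e} : Finset G) ⊆ A := by
            intro x hx
            simp only [Finset.mem_insert, Finset.mem_singleton] at hx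
            rcases hx with rfl | rfl | rfl
            · exact hb'.2
            · exact hb.2
            · exact he
          have hc3 : ({b', b, e} : Finset G).card = 3 := by
            rw [Finset.card_insert_of_notMem (by simp [hne, hb'.1]),
              Finset.card_insert_of_notMem (by simp [hb.1]), Finset.card_singleton]
          apply pair_diff e b b' he2 hb.1 hb'.1 hne (hZ.mono hsubA)
          have h8 := growth_two_all e he2 (A \ {b', b, e}) {b', b, e} Finset.disjoint_sdiff
            (by simp) (by rw [Finset.union_sdiff_of_subset hsubA]; exact hZ)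
          rw [Finset.union_sdiff_of_subset hsubA, Finset.card_sdiff_of_subset hsubA, hc3] at h8
          omega
        have e1 := key b1 hb1 b2 hb2 (Ne.symm h12)
        have e2 := key b1 hb1 b3 hb3 (Ne.symm h13)
        exact h23 (by rw [e1, e2])
      · intro d hd
        by_contra h6
        have h7 := hfin (insert d A.subsetSum) (by
          intro x hx
          rw [Finset.mem_insert] at hx
          rcases hx with rfl | hx
          · exact hd
          · exact hsub x hx)
        rw [Finset.card_insert_of_notMem h6] at h7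
        omega

end Pool.Agent.Helper398
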