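import Mathlib

set_option autoImplicit false
set_option linter.unusedSectionVars false

open Finset

namespace Pool.Agent.Helper398

/-- `Wq q x = ∑_{i = 1}^{x} ⌈i / q⌉` -/
def Wq (q x : ℕ) : ℕ := ∑ i ∈ range x, (i + q) / q

theorem Wq_succ (q x : ℕ) : Wq q (x + 1) = Wq q x + (x + q) / q := Finset.sum_range_succ _ _

theorem Wq_eq (q : ℕ) (hq : 0 < q) (x : ℕ) : ∃ k r, x = q * k + r ∧ r < q ∧
    2 * Wq q x = (k + 1) * (q * k + 2 * r) := by
  induction x with
  | zero => exact ⟨0, 0, by simp, hq, by simp [Wq]⟩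
  | succ x ih =>
    obtain ⟨k, r, h1, h2, h3⟩ := ih
    have h4 : (x + q) / q = k + 1 := by
      rw [h1]
      have : q * k + r + q = r + q * (k + 1) := by ring
      rw [this, Nat.add_mul_div_left _ _ hq, Nat.div_eq_of_lt h2, zero_add]
    by_cases h5 : r + 1 < q
    · refine ⟨k, r + 1, by omega, h5, ?_⟩
      rw [Wq_succ, h4, mul_add, h3]
      ring
    · have h6 : r + 1 = q := by omega
      refine ⟨k + 1, 0, ?_, hq, ?_⟩
      · rw [h1, add_assoc, h6]; ring
      · rw [Wq_succ, h4, mul_add, h3]
        rw [← h6]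
        ring

theorem Wq_id (q : ℕ) (hq : 0 < q) (x : ℕ) : ∃ k r, x = q * k + r ∧ r < q ∧
    2 * (q * Wq q x) = x ^ 2 + q * x + r * (q - r) := by
  obtain ⟨k, r, h1, h2, h3⟩ := Wq_eq q hq x
  refine ⟨k, r, h1, h2, ?_⟩
  obtain ⟨e, rfl⟩ : ∃ e, q = r + e := ⟨q - r, by omega⟩
  rw [Nat.add_sub_cancel_left]
  have : 2 * ((r + e) * Wq (r + e) x) = (r + e) * (2 * Wq (r + e) x) := by ring
  rw [this, h3, h1]
  ring

theorem Wq_ge (q : ℕ) (hq : 0 < q) (x : ℕ) : x ^ 2 + q * x ≤ 2 * (q * Wq q x) := by
  obtain ⟨k, r, h1, h2, h3⟩ := Wq_id q hq x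
  rw [h3]
  exact Nat.le_add_right _ _

variable {ι : Type*} [DecidableEq ι]

def SSn (u : ι → ℕ) (I : Finset ι) : Finset ℕ := I.powerset.image (fun J => ∑ i ∈ J, u i)

theorem mem_SSn (u : ι → ℕ) (I : Finset ι) (z : ℕ) :
    z ∈ SSn u I ↔ ∃ J ⊆ I, ∑ i ∈ J, u i = z := by
  simp only [SSn, Finset.mem_image, Finset.mem_powerset]

theorem card_SSn_ge (q : ℕ) (hq : 0 < q) (u : ι → ℕ) (n : ℕ) : ∀ I : Finset ι, I.card = n →
    (∀ i ∈ I, 1 ≤ u i) → (∀ j, (I.filter (fun i => u i = j)).card ≤ q) →
    1 + Wq q n ≤ (SSn u I).card := by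
  induction n with
  | zero =>
    intro I hI _ _
    rw [Finset.card_eq_zero] at hI
    subst hI
    have : (0 : ℕ) ∈ SSn u (∅ : Finset ι) := (mem_SSn _ _ _).2 ⟨∅, by simp, by simp⟩
    have := Finset.card_pos.2 ⟨0, this⟩
    simp only [Wq, Finset.range_zero, Finset.sum_empty]
    omega
  | succ n ih =>
    intro I hI hu hm
    have hne : I.Nonempty := by rw [← Finset.card_pos]; omega
    obtain ⟨i0, hi0, hmax⟩ := Finset.exists_max_image I u hne
    have h1 := ih (I.erase i0) (by rw [Finset.card_erase_of_mem hi0, hI]; rfl)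
      (fun i hi => hu i (Finset.erase_subset _ _ hi))
      (fun j => le_trans (Finset.card_le_card (Finset.filter_subset_filter _
        (Finset.erase_subset _ _))) (hm j))
    obtain ⟨w, hw⟩ : ∃ w, w = ∑ i ∈ I, u i := ⟨_, rfl⟩
    have hw2 : w = ∑ i ∈ I.erase i0, u i + u i0 := by
      rw [hw, Finset.sum_erase_add _ _ hi0]
    -- the new elements
    obtain ⟨V, hV⟩ : ∃ V, V = I.image u := ⟨_, rfl⟩
    have hVq : I.card ≤ V.card * q := by
      rw [hV, mul_comm]
      apply Finset.card_le_mul_card_image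
      intro j _
      exact hm j
    obtain ⟨N, hN⟩ : ∃ N, N = (insert 0 (V.erase (u i0))).image (fun s => w - s) := ⟨_, rfl⟩
    have huw : u i0 ≤ w := by rw [hw2]; omega
    have hu0 : u i0 ∈ V := by rw [hV]; exact Finset.mem_image_of_mem _ hi0
    have hlt : ∀ s ∈ insert 0 (V.erase (u i0)), s < u i0 := by
      intro s hs
      rw [Finset.mem_insert, Finset.mem_erase] at hs
      rcases hs with rfl | ⟨hs1, hs2⟩
      · exact hu i0 hi0
      · rw [hV, Finset.mem_image] at hs2
        obtain ⟨i, hi, rfl⟩ := hs2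
        exact lt_of_le_of_ne (hmax i hi) hs1
    have hNcard : N.card = V.card := by
      rw [hN, Finset.card_image_of_injOn, Finset.card_insert_of_notMem,
        Finset.card_erase_of_mem hu0]
      · have : 0 < V.card := Finset.card_pos.2 ⟨_, hu0⟩
        omega
      · intro h
        rw [Finset.mem_erase, hV, Finset.mem_image] at h
        obtain ⟨_, i, hi, hi0⟩ := h
        have := hu i hi
        omega
      · intro s hs t ht hst
        have h2 := hlt s hs
        have h3 := hlt t ht
        simp only at hst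
        omega
    have hdisj : Disjoint (SSn u (I.erase i0)) N := by
      rw [Finset.disjoint_left]
      intro z hz hzN
      rw [mem_SSn] at hz
      obtain ⟨J, hJ, hJz⟩ := hz
      have h2 : z ≤ ∑ i ∈ I.erase i0, u i := by
        rw [← hJz]; exact Finset.sum_le_sum_of_subset hJ
      rw [hN, Finset.mem_image] at hzN
      obtain ⟨s, hs, hsz⟩ := hzN
      have h3 := hlt s hs
      omega
    have hsub : SSn u (I.erase i0) ∪ N ⊆ SSn u I := by
      intro z hz
      rw [Finset.mem_union] at hz
      rw [mem_SSn]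
      rcases hz with hz | hz
      · rw [mem_SSn] at hz
        obtain ⟨J, hJ, hJz⟩ := hz
        exact ⟨J, hJ.trans (Finset.erase_subset _ _), hJz⟩
      · rw [hN, Finset.mem_image] at hz
        obtain ⟨s, hs, hsz⟩ := hz
        rw [Finset.mem_insert, Finset.mem_erase] at hs
        rcases hs with rfl | ⟨hs1, hs2⟩
        · exact ⟨I, Finset.Subset.refl _, by rw [← hsz, hw]; rfl⟩
        · rw [hV, Finset.mem_image] at hs2
          obtain ⟨i, hi, rfl⟩ := hs2
          refine ⟨I.erase i, Finset.erase_subset _ _, ?_⟩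
          have h4 := Finset.sum_erase_add I u hi
          rw [← hw] at h4
          omega
    have h2 := Finset.card_le_card hsub
    rw [Finset.card_union_of_disjoint hdisj, hNcard] at h2
    have h3 : (n + q) / q ≤ V.card := by
      rw [Nat.div_le_iff_le_mul_add_pred hq]
      rw [hI] at hVq
      have : q * V.card = V.card * q := mul_comm _ _
      omega
    rw [Wq_succ]
    omega

theorem wsum_ge (q : ℕ) (hq : 0 < q) (u : ι → ℕ) (I : Finset ι)
    (hu : ∀ i ∈ I, 1 ≤ u i) (hm : ∀ j, (I.filter (fun i => u i = j)).card ≤ q) :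
    Wq q I.card ≤ ∑ i ∈ I, u i := by
  have h1 := card_SSn_ge q hq u I.card I rfl hu hm
  have h2 : SSn u I ⊆ Finset.range (∑ i ∈ I, u i + 1) := by
    intro z hz
    rw [mem_SSn] at hz
    obtain ⟨J, hJ, hJz⟩ := hz
    rw [Finset.mem_range, ← hJz]
    have := Finset.sum_le_sum_of_subset (f := u) hJ
    omega
  have h3 := Finset.card_le_card h2
  rw [Finset.card_range] at h3
  omega

theorem wsum_ge_missing (q : ℕ) (hq : 0 < q) (u : ι → ℕ) (I : Finset ι)
    (hu : ∀ i ∈ I, 1 ≤ u i) (hm : ∀ j, (I.filter (fun i => u i = j)).card ≤ q)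
    (j : ℕ) (hj : 1 ≤ j) (hjm : (I.filter (fun i => u i = j)).card < q) :
    Wq q (I.card + 1) ≤ ∑ i ∈ I, u i + j := by
  have h1 := wsum_ge q hq (fun o : Option ι => o.elim j u) (Finset.insertNone I) (by
    intro o ho
    cases o with
    | none => exact hj
    | some i => exact hu i (by simpa using ho)) (by
    intro j'
    have hsub : (Finset.insertNone I).filter (fun o : Option ι => o.elim j u = j') ⊆
        if j' = j then Finset.insertNone (I.filter (fun i => u i = j')) else
          (I.filter (fun i => u i = j')).image some := by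
      intro o ho
      rw [Finset.mem_filter] at ho
      split_ifs with h
      · cases o with
        | none => simp
        | some i =>
          rw [Finset.some_mem_insertNone, Finset.mem_filter]
          exact ⟨by simpa using ho.1, ho.2⟩
      · cases o with
        | none => exact absurd ho.2.symm h
        | some i =>
          rw [Finset.mem_image]
          exact ⟨i, Finset.mem_filter.2 ⟨by simpa using ho.1, ho.2⟩, rfl⟩
    refine (Finset.card_le_card hsub).trans ?_
    split_ifs with h
    · rw [Finset.card_insertNone, h]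
      omega
    · exact Finset.card_image_le.trans (hm j'))
  rw [Finset.card_insertNone, Finset.sum_insertNone] at h1
  simp only [Option.elim] at h1
  omega

end Pool.Agent.Helper398
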