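import Mathlib
import Pool.Agent.Helper398.Crit
import Pool.Agent.Helper398.SmallZ
import Pool.Agent.Helper398.WqSum

set_option autoImplicit false
set_option linter.unusedSectionVars false

open Finset
open scoped Pointwise

namespace Pool.Agent.Helper398

variable {G : Type*} [AddCommGroup G] [Finite G] [DecidableEq G]

theorem len_lt (W : ℕ) (hW : 0 < W) (sn sp α c : ℤ)
    (H3 : ∀ y : ℤ, -sn + α ≤ y → y + α ≤ sp → ¬ (W : ℤ) ∣ (y + c)) :
    sp + sn - 2 * α + 1 < W := by
  by_contra hc
  push Not at hc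
  obtain ⟨lo, hlo⟩ : ∃ lo, lo = -sn + α := ⟨_, rfl⟩
  have hWz : (W : ℤ) ≠ 0 := by omega
  have e1 := Int.emod_nonneg (-c - lo) hWz
  have e2 := Int.emod_lt_of_pos (-c - lo) (show (0 : ℤ) < W by omega)
  apply H3 (lo + (-c - lo) % W) (by omega) (by omega)
  have e3 := Int.emod_add_mul_ediv (-c - lo) W
  have e4 : lo + (-c - lo) % W + c = (W : ℤ) * (-((-c - lo) / W)) := by linarith
  rw [e4]
  exact Dvd.intro _ rfl

/-- multiplicities are at most the order of the kernel -/
theorem mult_le {W : ℕ} (w : G →+ ZMod W) (v : G → ℤ) (hv : ∀ x, (v x : ZMod W) = w x)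
    (A : Finset G) (hZ : ZSF A) (j : ℤ) (hj : 1 ≤ j) :
    (A.filter (fun s => |v s| = j)).card ≤ Nat.card w.ker := by
  obtain ⟨φ, hφ⟩ : ∃ φ : G → G, φ = fun s => if v s = j then s else -s := ⟨_, rfl⟩
  have hinj : ∀ a ∈ A.filter (fun s => |v s| = j), ∀ b ∈ A.filter (fun s => |v s| = j),
      φ a = φ b → a = b := by
    intro a ha b hb hab
    rw [Finset.mem_filter] at ha hb
    by_contra hne
    have h1 : a + b ≠ 0 := by
      intro h
      apply hZ {a, b} (by intro x hx; simp at hx; rcases hx with rfl | rfl; exacts [ha.1, hb.1])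
        (by simp)
      rw [Finset.sum_pair hne, h]
    simp only [hφ] at hab
    split_ifs at hab with h2 h3 h3
    · exact hne hab
    · exact h1 (by rw [hab, neg_add_cancel])
    · exact h1 (by rw [← hab, add_neg_cancel])
    · exact hne (neg_injective hab)
  rw [← Finset.card_image_of_injOn (fun a ha b hb => hinj a ha b hb)]
  apply fiber_card w _ (j : ZMod W)
  intro x hx
  rw [Finset.mem_image] at hx
  obtain ⟨s, hs, rfl⟩ := hx
  rw [Finset.mem_filter] at hs
  simp only [hφ]
  split_ifs with h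
  · rw [← hv, h]
  · rw [map_neg, ← hv]
    have : v s = -j := by
      rcases (abs_eq (by omega)).1 hs.2 with h' | h'
      · exact absurd h' h
      · exact h'
    rw [this]
    push_cast
    ring

theorem crit_arith (t k r x m q Wx : ℕ) (ht1 : 1 ≤ t) (ht3 : t ≤ 3) (hq : q = 2 * t)
    (hx : x = q * k + r) (hr : r < q) (hm : m = x + t)
    (hW : 2 * (q * Wx) = x ^ 2 + q * x + r * (q - r)) : m ^ 2 / 2 + 2 ≤ q * (1 + Wx) := by
  subst hq
  subst hm
  have h1 : (x + t) ^ 2 = x ^ 2 + 2 * (t * x) + t ^ 2 := by ring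
  rw [h1]
  have h2 : 2 * t * (1 + Wx) = 2 * t + 2 * t * Wx := by ring
  rw [h2]
  have h3 : x ^ 2 = 4 * (t * t) * (k * k) + 4 * t * r * k + r * r := by rw [hx]; ring
  interval_cases t <;> interval_cases r <;> omega

theorem finish {W : ℕ} (hW : 0 < W) (w : G →+ ZMod W) (hsurj : Function.Surjective w)
    (v : G → ℤ) (hv : ∀ x, (v x : ZMod W) = w x) (hvW : ∀ x, 2 * |v x| ≤ W)
    (A S : Finset G) (hZ : ZSF A) (m q : ℕ) (hm : A.card = m) (hq : q = Nat.card w.ker)
    (hSA : S ⊆ A) (a : G) (ha : a ∈ A) (haS : a ∉ S) (hva : v a ≠ 0) (α : ℤ) (hα : 1 ≤ α)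
    (hIv : Iv w v S α) (l : ℕ) (hl : (l : ℤ) ≤ sp v S + sn v S - 2 * α + 1)
    (hbig : A.subsetSum.card < 2 * l * q)
    (hN : ∀ t : ℕ, t = (A.filter (fun x => v x = 0)).card → 2 * t + 1 ≤ q →
      2 * (q : ℤ) * (|v a| + 2 * α) + 4 ≤ m * ((q : ℤ) - 2 * t) - t * ((q : ℤ) - t))
    (hCr : q ≤ 6 → 100 * (q * α) ≤ m ∧ |v a| ≤ α) :
    m ^ 2 / 2 + 2 ≤ A.subsetSum.card := by
  have hqpos : 0 < q := by rw [hq]; exact Nat.card_pos
  obtain ⟨A0, hA0⟩ : ∃ A0, A0 = A.filter (fun x => v x = 0) := ⟨_, rfl⟩
  obtain ⟨A1, hA1⟩ : ∃ A1, A1 = A.filter (fun x => v x ≠ 0) := ⟨_, rfl⟩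
  have hA1A : A1 ⊆ A := by rw [hA1]; exact Finset.filter_subset _ _
  have hA0A : A0 ⊆ A := by rw [hA0]; exact Finset.filter_subset _ _
  have hcardA : A0.card + A1.card = m := by
    rw [hA0, hA1, ← hm]
    exact Finset.card_filter_add_card_filter_not _
  have hdisj01 : Disjoint A0 A1 := by
    rw [Finset.disjoint_left]
    intro x hx hx1
    rw [hA0, Finset.mem_filter] at hx
    rw [hA1, Finset.mem_filter] at hx1
    exact hx1.2 hx.2
  have hA0ker : ∀ x ∈ A0, x ∈ w.ker := by
    intro x hx
    rw [hA0, Finset.mem_filter] at hx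
    rw [AddMonoidHom.mem_ker, ← hv, hx.2, Int.cast_zero]
  have haA1 : a ∈ A1 := by rw [hA1, Finset.mem_filter]; exact ⟨ha, hva⟩
  -- the interval property of `A \ a`
  have hIv' : Iv w v (A.erase a) α := by
    have h1 := Iv_all w hsurj v A S α hIv hv hvW l hl (by rw [← hq]; exact hbig)
      (A.erase a \ S) Finset.disjoint_sdiff
    have h2 : S ∪ (A.erase a \ S) = A.erase a := by
      apply Finset.union_sdiff_of_subset
      intro x hx
      rw [Finset.mem_erase]
      exact ⟨fun h => haS (h ▸ hx), hSA hx⟩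
    rw [h2] at h1
    exact h1 (Finset.erase_subset _ _)
  have hH3 : ∀ y : ℤ, -sn v (A.erase a) + α ≤ y → y + α ≤ sp v (A.erase a) →
      ¬ (W : ℤ) ∣ (y + v a) := by
    intro y h1 h2 h3
    have h4 := hIv' (-a) y h1 h2 (by
      rw [map_neg, ← hv, eq_neg_iff_add_eq_zero]
      have : ((y + v a : ℤ) : ZMod W) = 0 := (ZMod.intCast_zmod_eq_zero_iff_dvd _ _).2 h3
      rw [← this]
      push_cast
      ring)
    refine neg_notMem_of_ZSF (A.erase a) a (Finset.notMem_erase _ _) ?_ h4
    rw [Finset.insert_erase ha]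
    exact hZ
  have hlen := len_lt W hW _ _ α (v a) hH3
  -- restriction to nonzero weights
  have hsnA1 : sn v (A1.erase a) = sn v (A.erase a) := by
    unfold sn
    apply Finset.sum_subset (Finset.erase_subset_erase _ hA1A)
    intro x hx hx1
    rw [Finset.mem_erase] at hx hx1
    have : v x = 0 := by
      by_contra hc
      exact hx1 ⟨hx.1, by rw [hA1, Finset.mem_filter]; exact ⟨hx.2, hc⟩⟩
    rw [this]; rfl
  have hspA1 : sp v (A1.erase a) = sp v (A.erase a) := by
    unfold sp
    apply Finset.sum_subset (Finset.erase_subset_erase _ hA1A)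
    intro x hx hx1
    rw [Finset.mem_erase] at hx hx1
    have : v x = 0 := by
      by_contra hc
      exact hx1 ⟨hx.1, by rw [hA1, Finset.mem_filter]; exact ⟨hx.2, hc⟩⟩
    rw [this]; rfl
  have hwA : sp v (A.erase a) + sn v (A.erase a) + |v a| = sp v A1 + sn v A1 := by
    rw [← hsnA1, ← hspA1, sp_add_sn, sp_add_sn, Finset.sum_erase_add _ _ haA1]
  -- counting
  have hcnt : (sp v A1 + sn v A1 - |v a| - 2 * α + 1) * q ≤ A.subsetSum.card := by
    by_cases hneg : sp v A1 + sn v A1 - |v a| - 2 * α + 1 ≤ 0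
    · have : (sp v A1 + sn v A1 - |v a| - 2 * α + 1) * q ≤ 0 :=
        mul_nonpos_of_nonpos_of_nonneg hneg (by positivity)
      have h0 : (0 : ℤ) ≤ A.subsetSum.card := by positivity
      omega
    push Not at hneg
    have h1 := count_fibers w hsurj
      (Finset.Icc (-sn v (A.erase a) + α) (sp v (A.erase a) - α)) A.subsetSum (by
        intro z hz x hx
        rw [Finset.mem_Icc] at hz
        exact subsetSum_mono (Finset.erase_subset _ _) (hIv' x z hz.1 (by omega) hx)) (by
        intro z hz z' hz' _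
        rw [Finset.mem_Icc] at hz hz'
        omega)
    rw [Int.card_Icc, ← hq] at h1
    have h2 : (((sp v (A.erase a) - α + 1 - (-sn v (A.erase a) + α)).toNat : ℕ) : ℤ) =
        sp v A1 + sn v A1 - |v a| - 2 * α + 1 := by omega
    rw [← h2]
    exact_mod_cast h1
  -- weights
  have hmul : ∀ j : ℕ, (A1.filter (fun i => (v i).natAbs = j)).card ≤ q := by
    intro j
    rcases Nat.eq_zero_or_pos j with hj | hj
    · have : A1.filter (fun i => (v i).natAbs = j) = ∅ := by
        rw [Finset.filter_eq_empty_iff]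
        intro x hx hc
        rw [hA1, Finset.mem_filter] at hx
        rw [hj, Int.natAbs_eq_zero] at hc
        exact hx.2 hc
      rw [this]; simp
    · rw [hq]
      refine le_trans (Finset.card_le_card ?_) (mult_le w v hv A hZ (j : ℤ) (by omega))
      intro x hx
      rw [Finset.mem_filter] at hx ⊢
      refine ⟨hA1A hx.1, ?_⟩
      rw [Int.abs_eq_natAbs, hx.2]
  have hpos1 : ∀ i ∈ A1, 1 ≤ (v i).natAbs := by
    intro i hi
    rw [hA1, Finset.mem_filter] at hi
    have := Int.natAbs_pos.2 hi.2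
    omega
  have hwsum : ((∑ i ∈ A1, (v i).natAbs : ℕ) : ℤ) = sp v A1 + sn v A1 := by
    rw [sp_add_sn]
    push_cast
    apply Finset.sum_congr rfl
    intro s _
    rfl
  obtain ⟨wA, hwAdef⟩ : ∃ wA : ℤ, wA = sp v A1 + sn v A1 := ⟨_, rfl⟩
  rw [← hwAdef] at hwA hcnt hwsum
  have hwge := wsum_ge q hqpos (fun i => (v i).natAbs) A1 hpos1 hmul
  have hwge' : (Wq q A1.card : ℤ) ≤ wA := by
    rw [← hwsum]; exact_mod_cast hwge
  obtain ⟨t, ht⟩ : ∃ t, t = A0.card := ⟨_, rfl⟩
  obtain ⟨x, hx⟩ : ∃ x, x = A1.card := ⟨_, rfl⟩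
  rw [← ht, ← hx] at hcardA
  rw [← hx] at hwge'
  rcases small_zsf w.ker A0 (hZ.mono hA0A) hA0ker with hcase | ⟨hc1, hc2, hc3, hc4⟩
  · -- the noncritical case
    rw [← hq, ← ht] at hcase
    have h1 := hN t (by rw [ht, hA0]) hcase
    have h2 := Wq_ge q hqpos x
    have h3 : (x : ℤ) ^ 2 + q * x ≤ 2 * (q * Wq q x) := by exact_mod_cast h2
    have h4 : (q : ℤ) * Wq q x ≤ q * wA := mul_le_mul_of_nonneg_left hwge' (by positivity)
    have h5 : (m : ℤ) = t + x := by exact_mod_cast hcardA.symm
    have h6 : (m : ℤ) ^ 2 + 4 ≤ 2 * A.subsetSum.card := by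
      have h7 : (wA - |v a| - 2 * α + 1) * q = q * wA - q * (|v a| + 2 * α) + q := by ring
      rw [h7] at hcnt
      have h8 : (m : ℤ) ^ 2 = (x : ℤ) ^ 2 + q * x - (m * ((q : ℤ) - 2 * t) - t * ((q : ℤ) - t)) := by
        rw [h5]; ring
      have h9 : (0 : ℤ) ≤ q := by positivity
      linarith
    have h7 : m ^ 2 + 4 ≤ 2 * A.subsetSum.card := by exact_mod_cast h6
    omega
  · rw [← hq, ← ht] at hc1
    rw [← ht] at hc2 hc3
    obtain ⟨hCr1, hCr2⟩ := hCr (by omega)
    obtain ⟨k, r, hk1, hk2, hk3⟩ := Wq_id q hqpos x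
    have hfin := crit_arith t k r x m q (Wq q x) hc2 hc3 hc1 hk1 hk2 (by omega) hk3
    refine hfin.trans ?_
    by_cases hwW : wA < W
    · -- distinct weights
      obtain ⟨Z, hZdef⟩ : ∃ Z : Finset ℤ, Z = A1.powerset.image (fun J => ∑ s ∈ J, v s) := ⟨_, rfl⟩
      have hmemZ : ∀ z, z ∈ Z ↔ ∃ J ⊆ A1, ∑ s ∈ J, v s = z := by
        intro z; rw [hZdef]; simp only [Finset.mem_image, Finset.mem_powerset]
      have h1 := count_fibers w hsurj Z A.subsetSum (by
        intro z hz y hy
        rw [hmemZ] at hz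
        obtain ⟨J, hJ, hJz⟩ := hz
        have h2 : y - ∑ s ∈ J, s ∈ w.ker := by
          rw [AddMonoidHom.mem_ker, map_sub, ← hy, ← hJz, map_sum]
          push_cast
          rw [sub_eq_zero]
          exact Finset.sum_congr rfl (fun s _ => hv s)
        have h3 := hc4 _ h2
        rw [Finset.mem_subsetSum_iff] at h3 ⊢
        obtain ⟨B, hB, hBs⟩ := h3
        refine ⟨B ∪ J, Finset.union_subset (hB.trans hA0A) (hJ.trans hA1A), ?_⟩
        rw [Finset.sum_union (Finset.disjoint_of_subset_left hB
          (Finset.disjoint_of_subset_right hJ hdisj01)), hBs]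
        abel) (by
        intro z hz z' hz' _
        rw [hmemZ] at hz hz'
        obtain ⟨J, hJ, hJz⟩ := hz
        obtain ⟨J', hJ', hJz'⟩ := hz'
        have e1 := sp_sub_sn v J
        have e2 := sp_sub_sn v J'
        have e3 : sn v J ≤ sn v A1 := Finset.sum_le_sum_of_subset_of_nonneg hJ
          (fun _ _ _ => le_max_right _ _)
        have e4 : sp v J' ≤ sp v A1 := Finset.sum_le_sum_of_subset_of_nonneg hJ'
          (fun _ _ _ => le_max_right _ _)
        have e5 := sn_nonneg v J'
        have e6 := sp_nonneg v J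
        omega)
      have h2 := card_SSn_ge q hqpos (fun i => (v i).natAbs) x A1 hx.symm hpos1 hmul
      have h3 : (SSn (fun i => (v i).natAbs) A1).card ≤ Z.card := by
        apply Finset.card_le_card_of_injOn (fun s : ℕ => (s : ℤ) - sn v A1)
        · intro s hs
          rw [Finset.mem_coe, mem_SSn] at hs
          obtain ⟨J, hJ, hJs⟩ := hs
          rw [Finset.mem_coe, hmemZ]
          refine ⟨A1.filter (fun s => if 0 < v s then s ∈ J else s ∉ J), Finset.filter_subset _ _, ?_⟩
          have e1 : ((s : ℕ) : ℤ) = ∑ i ∈ A1, if i ∈ J then ((v i).natAbs : ℤ) else 0 := by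
            rw [← hJs, ← Finset.sum_filter, Finset.filter_mem_eq_inter,
              Finset.inter_eq_right.2 hJ]
            push_cast
            rfl
          show _ = (s : ℤ) - sn v A1
          rw [e1]
          unfold sn
          rw [← Finset.sum_sub_distrib, Finset.sum_filter]
          apply Finset.sum_congr rfl
          intro i _
          by_cases h5 : 0 < v i
          · simp only [h5, if_true]
            have e2 : max (-v i) 0 = 0 := by omega
            have e3 : ((v i).natAbs : ℤ) = v i := by omega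
            rw [e2, e3, sub_zero]
          · simp only [h5, if_false]
            have e2 : max (-v i) 0 = -v i := by omega
            have e3 : ((v i).natAbs : ℤ) = -v i := by omega
            rw [e2, e3]
            by_cases h6 : i ∈ J
            · simp [h6]
            · simp [h6]
        · intro s _ s' _ hss
          simp only at hss
          omega
      rw [← hq] at h1
      calc q * (1 + Wq q x) ≤ q * Z.card := Nat.mul_le_mul_left _ (h2.trans h3)
        _ = Z.card * q := mul_comm _ _
        _ ≤ _ := h1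
    · push Not at hwW
      obtain ⟨w3, hw3⟩ : ∃ w3 : ℤ, w3 = 2 * α + |v a| := ⟨_, rfl⟩
      by_cases hH2 : ∀ j : ℤ, 1 ≤ j → j ≤ w3 → q ≤ (A1.filter (fun s => |v s| = j)).card
      · exfalso
        apply crit_false A1 v W hW a haA1 α w3 hα hva hw3 _ _ _ (by omega) _
        · intro J hJ hJne hdvd
          have h2 : -∑ s ∈ J, s ∈ w.ker := by
            rw [AddMonoidHom.mem_ker, map_neg, map_sum]
            have : ((∑ s ∈ J, v s : ℤ) : ZMod W) = 0 :=
              (ZMod.intCast_zmod_eq_zero_iff_dvd _ _).2 hdvd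
            push_cast at this
            rw [Finset.sum_congr rfl (fun s _ => (hv s).symm), this, neg_zero]
          have h3 := hc4 _ h2
          rw [Finset.mem_subsetSum_iff] at h3
          obtain ⟨B, hB, hBs⟩ := h3
          apply hZ (B ∪ J) (Finset.union_subset (hB.trans hA0A) (hJ.trans hA1A))
            (hJne.mono Finset.subset_union_right)
          rw [Finset.sum_union (Finset.disjoint_of_subset_left hB
            (Finset.disjoint_of_subset_right hJ hdisj01)), hBs, neg_add_cancel]
        · intro j hj1 hj2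
          have := hH2 j hj1 hj2
          omega
        · rw [hsnA1, hspA1]
          exact hH3
        · intro s hs
          rw [hA1, Finset.mem_filter] at hs
          exact hs.2
      · push Not at hH2
        obtain ⟨j, hj1, hj2, hj3⟩ := hH2
        have hmiss := wsum_ge_missing q hqpos (fun i => (v i).natAbs) A1 hpos1 hmul j.toNat
          (by omega) (by
            refine lt_of_le_of_lt (Finset.card_le_card ?_) hj3
            intro y hy
            rw [Finset.mem_filter] at hy ⊢
            refine ⟨hy.1, ?_⟩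
            rw [Int.abs_eq_natAbs]
            omega)
        rw [Wq_succ, ← hx] at hmiss
        have h1 : ((Wq q x : ℕ) : ℤ) + (((x + q) / q : ℕ) : ℤ) ≤ wA + j := by
          have h2 : ((Wq q x + (x + q) / q : ℕ) : ℤ) ≤
              ((∑ i ∈ A1, (v i).natAbs + j.toNat : ℕ) : ℤ) := by exact_mod_cast hmiss
          push_cast at h2 hwsum
          rw [hwsum] at h2
          have h3 : ((j.toNat : ℕ) : ℤ) = j := by omega
          push_cast
          omega
        have h2 : 6 * α ≤ (((x + q) / q : ℕ) : ℤ) := by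
          have h3 : (6 * α).toNat ≤ (x + q) / q := by
            rw [Nat.le_div_iff_mul_le hqpos]
            have h4 : (((6 * α).toNat * q : ℕ) : ℤ) ≤ ((x + q : ℕ) : ℤ) := by
              push_cast
              rw [Int.toNat_of_nonneg (by omega)]
              have h5 : (1 : ℤ) ≤ q * α := by
                have : (1 : ℤ) * 1 ≤ q * α := mul_le_mul (by omega) hα (by norm_num) (by omega)
                omega
              have h6 : 6 * α * (q : ℤ) = 6 * (q * α) := by ring
              rw [h6]
              omega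
            exact_mod_cast h4
          omega
        have h3 : (Wq q x : ℤ) + 1 ≤ wA - |v a| - 2 * α + 1 := by omega
        have h4 : (q : ℤ) * (1 + Wq q x) ≤ A.subsetSum.card := by
          have h5 := mul_le_mul_of_nonneg_right h3 (by positivity : (0 : ℤ) ≤ q)
          linarith
        exact_mod_cast h4

end Pool.Agent.Helper398
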