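import Mathlib
import Pool.Agent.Helper398.Crude

set_option autoImplicit false
set_option linter.unusedSectionVars false

open Finset
open scoped Pointwise

namespace Pool.Agent.Helper398

variable {G : Type*} [AddCommGroup G] [DecidableEq G]

theorem kappa_bound [Fintype G] (η : ℝ) (hη : 0 < η) (R : Finset G) (hR : ZSF R) (hn : NI R)
    (hu : 1440 / η ^ 2 ≤ (R.card : ℝ)) (H : AddSubgroup G) (HF : Finset G) (κ : ℕ)
    (hmem : ∀ x, x ∈ HF ↔ x ∈ H) (h1 : HF.card ≤ κ) (h2 : (sym R \ HF).card ≤ κ) :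
    2 * (R.card : ℝ) * (1 - η) ≤ κ := by
  obtain ⟨u, hud⟩ : ∃ u, u = R.card := ⟨_, rfl⟩
  rw [← hud] at hu ⊢
  have hu0 : (0 : ℝ) < u := lt_of_lt_of_le (by positivity) hu
  by_cases hκ : 2 * u ≤ κ
  · have : (2 : ℝ) * u ≤ κ := by exact_mod_cast hκ
    nlinarith
  push Not at hκ
  obtain ⟨RH, hRH⟩ : ∃ RH : Finset G, RH = R ∩ HF := ⟨_, rfl⟩
  have hZH : ZSF RH := hR.mono (by rw [hRH]; exact Finset.inter_subset_left)
  have hNH : NI RH := hn.mono (by rw [hRH]; exact Finset.inter_subset_left)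
  have h3 := crude_bound RH.card RH rfl hZH hNH
  have h4 : RH.subsetSum ⊆ HF := by
    intro x hx
    rw [hmem]
    have h5 := subsetSum_closure RH x hx
    have h6 : AddSubgroup.closure (RH : Set G) ≤ H := by
      rw [AddSubgroup.closure_le]
      intro y hy
      have : y ∈ RH := by simpa using hy
      rw [hRH, Finset.mem_inter] at this
      exact (hmem y).1 this.2
    exact h6 h5
  have h5 := Finset.card_le_card h4
  have h6 : RH.card ^ 2 < 576 * u := by omega
  have h7 : (RH.card : ℝ) ≤ η * u := by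
    by_contra hcon
    push Not at hcon
    have h8 : ((RH.card : ℝ)) ^ 2 < 576 * u := by exact_mod_cast h6
    have h9 : (η * u) ^ 2 < 576 * u := lt_of_le_of_lt (by
      apply pow_le_pow_left₀ (by positivity) hcon.le) h8
    rw [div_le_iff₀ (by positivity)] at hu
    nlinarith
  have h8 : sym R ∩ HF ⊆ sym RH := by
    intro x hx
    rw [Finset.mem_inter] at hx
    obtain ⟨hx1, hx2⟩ := hx
    simp only [sym, Finset.mem_insert, Finset.mem_union, Finset.mem_neg'] at hx1 ⊢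
    rcases hx1 with h | h | h
    · exact Or.inl h
    · right; left
      rw [hRH, Finset.mem_inter]
      exact ⟨h, hx2⟩
    · right; right
      rw [hRH, Finset.mem_inter]
      refine ⟨h, ?_⟩
      rw [hmem] at hx2 ⊢
      exact H.neg_mem hx2
  have h9 := Finset.card_le_card h8
  rw [card_sym RH hZH hNH] at h9
  have h10 := Finset.card_inter_add_card_sdiff (sym R) HF
  rw [card_sym R hR hn, ← hud] at h10
  have h11 : 2 * u ≤ κ + 2 * RH.card := by omega
  have h12 : (2 : ℝ) * u ≤ κ + 2 * RH.card := by exact_mod_cast h11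
  nlinarith

theorem growth_refined_half [Fintype G] (η : ℝ) (hη : 0 < η) (hη2 : η < 1 / 2)
    (R B : Finset G) (hR : ZSF R) (hn : NI R)
    (hgen : AddSubgroup.closure (R : Set G) = ⊤) (hu : 1440 / η ^ 2 ≤ (R.card : ℝ))
    (hB1 : 4 / η * R.card ≤ B.card)
    (hB : 2 * B.card ≤ Fintype.card G) : ∃ x ∈ R, (1 - 2 * η) * (R.card : ℝ) ≤ gr B x := by
  by_contra hcon
  push Not at hcon
  obtain ⟨n, hnd⟩ : ∃ n, n = B.card := ⟨_, rfl⟩
  obtain ⟨u, hud⟩ : ∃ u, u = R.card := ⟨_, rfl⟩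
  have hcs := card_sym R hR hn
  rw [← hud] at hcon hcs
  rw [← hnd] at hB
  have hu' := hu
  rw [← hud] at hu'
  rw [← hnd, ← hud] at hB1
  have hu0 : (0 : ℝ) < u := lt_of_lt_of_le (by positivity) hu'
  have hu1 : (1 : ℝ) ≤ u := by
    have : 0 < u := by exact_mod_cast hu0
    exact_mod_cast this
  have hB1' : 4 * (u : ℝ) ≤ η * n := by
    have := mul_le_mul_of_nonneg_left hB1 hη.le
    have h2 : η * (4 / η * (u : ℝ)) = 4 * u := by field_simp
    linarith
  have hn8 : 8 * (u : ℝ) ≤ n := by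
    have h0n : (0 : ℝ) ≤ n := Nat.cast_nonneg _
    nlinarith
  have hL0 : (0 : ℝ) ≤ (1 - 2 * η) * u := by nlinarith
  have hL := gr_sym B R ((1 - 2 * η) * u) hL0 (fun x hx => (hcon x hx).le)
  have hn8' : 8 * u ≤ n := by exact_mod_cast hn8
  have hT : sym R ≠ univ := by
    intro h
    rw [h, Finset.card_univ] at hcs
    have : 1 ≤ u := by exact_mod_cast hu1
    omega
  obtain ⟨H, HF, κ, hmem, -, hκ1, hκ2, hκ⟩ := iso_sym R hgen hT
  have hκu := kappa_bound η hη R hR hn hu H HF κ hmem hκ1 hκ2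
  rw [← hud] at hκu
  obtain ⟨k, hk⟩ : ∃ k : ℝ, k = 2 * u * (1 - η) := ⟨_, rfl⟩
  rw [← hk] at hκu
  have hk0 : 0 < k := by rw [hk]; nlinarith
  have hk2 : k ≤ 2 * u := by rw [hk]; nlinarith
  obtain ⟨J, hJ⟩ : ∃ J, J = ⌊(2 * (n : ℝ) - 1) / k⌋₊ := ⟨_, rfl⟩
  have hJ1 : (J : ℝ) * k ≤ 2 * n - 1 := by
    have : (J : ℝ) ≤ (2 * (n : ℝ) - 1) / k := by
      rw [hJ]
      apply Nat.floor_le
      apply div_nonneg _ hk0.le
      linarith
    rwa [le_div_iff₀ hk0] at this
  have hJ2 : 2 * (n : ℝ) - 1 ≤ J * k + k := by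
    have : (2 * (n : ℝ) - 1) / k < J + 1 := by
      rw [hJ]
      exact Nat.lt_floor_add_one _
    rw [div_lt_iff₀ hk0] at this
    linarith
  have hBr : 2 * (n : ℝ) ≤ Fintype.card G := by exact_mod_cast hB
  have hcard : ∀ j, j ≤ J → (1 : ℝ) + j * k ≤ (it (sym R) j).card := by
    intro j hj
    have hjr : (j : ℝ) ≤ J := by exact_mod_cast hj
    have hj0 : (0 : ℝ) ≤ j := Nat.cast_nonneg _
    rcases it_card (sym R) κ hκ (zero_mem_sym R) j with h | h
    · rw [h, Finset.card_univ]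
      have : (j : ℝ) * k ≤ J * k := mul_le_mul_of_nonneg_right hjr hk0.le
      linarith
    · have h2 : ((1 + j * κ : ℕ) : ℝ) ≤ (it (sym R) j).card := by exact_mod_cast h
      push_cast at h2
      have : (j : ℝ) * k ≤ j * κ := mul_le_mul_of_nonneg_left hκu hj0
      linarith
  have h3 := counting B (sym R) (zero_mem_sym R) _ hL J
  rw [← hnd] at h3
  have hsum : k * ((J : ℝ) * (J - 1) / 2) ≤ ∑ j ∈ range J, ((it (sym R) j).card : ℝ) := by
    have h4 : ∀ K, K ≤ J → k * ((K : ℝ) * (K - 1) / 2) ≤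
        ∑ j ∈ range K, ((it (sym R) j).card : ℝ) := by
      intro K hK
      induction K with
      | zero => simp
      | succ K ih =>
        rw [Finset.sum_range_succ]
        have h5 := ih (by omega)
        have h6 := hcard K (by omega)
        push_cast
        nlinarith
    exact h4 J le_rfl
  obtain ⟨L, hLd⟩ : ∃ L : ℝ, L = (1 - 2 * η) * u := ⟨_, rfl⟩
  rw [← hLd] at h3 hL0
  obtain ⟨ρ, hρ⟩ : ∃ ρ : ℝ, ρ = L / k := ⟨_, rfl⟩
  have hLk : L = ρ * k := by rw [hρ]; field_simp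
  have hρ0 : 0 ≤ ρ := by rw [hρ]; exact div_nonneg hL0 hk0.le
  have hρ1 : ρ ≤ (1 - η) / 2 := by
    rw [hρ, div_le_iff₀ hk0, hk, hLd]
    nlinarith [mul_nonneg hu0.le (sq_nonneg η)]
  obtain ⟨w, hw⟩ : ∃ w : ℝ, w = J * k := ⟨_, rfl⟩
  have hJL : (J : ℝ) * L = ρ * w := by rw [hLk, hw]; ring
  have hn0 : (0 : ℝ) < n := by linarith
  have hwn : w ≤ 2 * n := by rw [hw]; linarith
  have hw0 : 0 ≤ w := by rw [hw]; positivity
  have hpos : 0 ≤ (n : ℝ) - J * L := by
    rw [hJL]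
    nlinarith
  have hJc := hcard J le_rfl
  have h7 : ((1 : ℝ) + J * k) * (n - J * L) + L * (k * ((J : ℝ) * (J - 1) / 2)) ≤ (n : ℝ) ^ 2 := by
    refine le_trans ?_ h3
    apply add_le_add
    · exact mul_le_mul_of_nonneg_right hJc hpos
    · exact mul_le_mul_of_nonneg_left hsum hL0
  have h8 : w * (n - ρ * w / 2 - L / 2) ≤ (n : ℝ) ^ 2 := by
    have e1 : ((1 : ℝ) + J * k) * (n - J * L) + L * (k * ((J : ℝ) * (J - 1) / 2)) =
        (n - J * L) + w * (n - ρ * w / 2 - L / 2) := by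
      rw [hLk, hw]; ring
    linarith
  have hLn : L ≤ η * n / 4 := by
    rw [hLd]
    nlinarith
  have hwlow : n * (2 - 3 * η / 4) ≤ w := by
    rw [hw]
    nlinarith
  have hfac : n * (1 / 2 + 3 * η / 8) ≤ n - ρ * w / 2 - L / 2 := by
    have : ρ * w ≤ (1 - η) / 2 * (2 * n) := by
      apply mul_le_mul hρ1 hwn hw0 (by linarith)
    linarith
  have h9 : n * (2 - 3 * η / 4) * (n * (1 / 2 + 3 * η / 8)) ≤ w * (n - ρ * w / 2 - L / 2) := by
    apply mul_le_mul hwlow hfac (by positivity) hw0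
  have h10 : n * (2 - 3 * η / 4) * (n * (1 / 2 + 3 * η / 8)) =
      (n : ℝ) ^ 2 + (n : ℝ) ^ 2 * (3 * η / 8 - 9 * η ^ 2 / 32) := by ring
  have h11 : 0 < (n : ℝ) ^ 2 * (3 * η / 8 - 9 * η ^ 2 / 32) := by
    apply mul_pos (by positivity)
    nlinarith
  linarith

theorem growth_refined [Fintype G] (η : ℝ) (hη : 0 < η) (hη2 : η < 1 / 2)
    (R B : Finset G) (hR : ZSF R) (hn : NI R)
    (hgen : AddSubgroup.closure (R : Set G) = ⊤) (hu : 1440 / η ^ 2 ≤ (R.card : ℝ))
    (hB1 : 4 / η * R.card ≤ B.card) (hB2 : 4 / η * R.card ≤ Bᶜ.card) :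
    ∃ x ∈ R, (1 - 2 * η) * (R.card : ℝ) ≤ gr B x := by
  have hcc := Finset.card_add_card_compl B
  by_cases h : 2 * B.card ≤ Fintype.card G
  · exact growth_refined_half η hη hη2 R B hR hn hgen hu hB1 h
  · obtain ⟨x, hx, hx2⟩ := growth_refined_half η hη hη2 R Bᶜ hR hn hgen hu hB2 (by omega)
    exact ⟨x, hx, by rwa [gr_compl] at hx2⟩

theorem refined_step [Finite G] (η : ℝ) (hη : 0 < η) (hη2 : η < 1 / 2)
    (X R : Finset G) (hd : Disjoint X R) (h : ZSF (X ∪ R))
    (hn : NI (X ∪ R)) (hu : 1440 / η ^ 2 ≤ (R.card : ℝ))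
    (hB : 4 / η * R.card ≤ (inSub (AddSubgroup.closure (R : Set G)) X.subsetSum).card) :
    ∃ x ∈ R, (1 - 2 * η) * (R.card : ℝ) ≤ gr X.subsetSum x := by
  classical
  have : Fintype (AddSubgroup.closure (R : Set G)) := Fintype.ofFinite _
  have hZR : ZSF R := h.mono Finset.subset_union_right
  have hNR : NI R := hn.mono Finset.subset_union_right
  have h1 := ZSF.card_add_card X R hd h
  have h2 := crude_bound R.card R rfl hZR hNR
  have hcard1 : (toSub (AddSubgroup.closure (R : Set G)) R).card = R.card := by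
    rw [card_toSub, inSub_closure]
  rw [← card_toSub, Nat.card_eq_fintype_card] at h1
  rw [← card_toSub] at hB
  have hcc := Finset.card_add_card_compl (toSub (AddSubgroup.closure (R : Set G)) X.subsetSum)
  have hB2 : 4 / η * R.card ≤
      ((toSub (AddSubgroup.closure (R : Set G)) X.subsetSum)ᶜ).card := by
    have h3 : R.subsetSum.card ≤
      ((toSub (AddSubgroup.closure (R : Set G)) X.subsetSum)ᶜ).card + 1 := by omega
    have h4 : (R.subsetSum.card : ℝ) ≤
      ((toSub (AddSubgroup.closure (R : Set G)) X.subsetSum)ᶜ).card + 1 := by exact_mod_cast h3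
    have h5 : (R.card : ℝ) ^ 2 ≤ 288 * R.subsetSum.card := by exact_mod_cast h2
    have h6 : 1 ≤ 1 / η := by rw [le_div_iff₀ hη]; linarith
    have h7 : 2 ≤ 1 / η := by rw [le_div_iff₀ hη]; linarith
    have h8 : 1440 / η ^ 2 = 1440 * (1 / η) * (1 / η) := by field_simp
    rw [h8] at hu
    have h9 : 4 / η = 4 * (1 / η) := by ring
    rw [h9]
    have h10 : (0 : ℝ) ≤ R.card := Nat.cast_nonneg _
    have h11 : 2880 * (1 / η) ≤ R.card := by nlinarith
    have h12 : 2880 * (1 / η) * R.card ≤ (R.card : ℝ) ^ 2 := by nlinarith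
    have h13 : 5760 ≤ (R.card : ℝ) := by nlinarith
    nlinarith
  obtain ⟨x, hx, hx2⟩ := growth_refined η hη hη2 (toSub (AddSubgroup.closure (R : Set G)) R)
    (toSub (AddSubgroup.closure (R : Set G)) X.subsetSum) (ZSF_toSub _ R hZR) (NI_toSub _ R hNR)
    (closure_toSub R) (by rw [hcard1]; exact hu) (by rw [hcard1]; exact hB)
    (by rw [hcard1]; exact hB2)
  refine ⟨x, (mem_toSub _ R x).1 hx, ?_⟩
  have h3 := gr_toSub_le (AddSubgroup.closure (R : Set G)) X.subsetSum x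
  have h4 : (gr (toSub (AddSubgroup.closure (R : Set G)) X.subsetSum) x : ℝ) ≤
    gr X.subsetSum (x : G) := by exact_mod_cast h3
  rw [hcard1] at hx2
  linarith

end Pool.Agent.Helper398
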