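import Mathlib
import Pool.Agent.Helper398.Refined

set_option autoImplicit false
set_option linter.unusedSectionVars false

open Finset
open scoped Pointwise

namespace Pool.Agent.Helper398

variable {G : Type*} [AddCommGroup G] [DecidableEq G]

/-- threshold -/
noncomputable def thr (η : ℝ) : ℝ :=
  2880 / η ^ 2 + 1152 * (4 / η) + 288 * (4 / η) / (η / 2304) ^ 2 + 2 / (η / 2304)

/-- the linear loss constant -/
noncomputable def bet (η : ℝ) : ℝ := 4 / η + thr η

theorem split_bound (X R : Finset G) (_hd : Disjoint X R) (c : ℝ)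
    (hc : ((inSub (AddSubgroup.closure (R : Set G)) X.subsetSum).card : ℝ) ≤ c) :
    (X.subsetSum.card : ℝ) - c + R.subsetSum.card ≤ (X ∪ R).subsetSum.card := by
  have h1 : inSub (AddSubgroup.closure (R : Set G)) X.subsetSum ⊆ X.subsetSum := by
    intro x hx
    exact ((mem_inSub _ _ _).1 hx).1
  have h2 : Disjoint (X.subsetSum \ inSub (AddSubgroup.closure (R : Set G)) X.subsetSum)
      R.subsetSum := by
    rw [Finset.disjoint_left]
    intro x hx hx'
    rw [Finset.mem_sdiff, mem_inSub] at hx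
    exact hx.2 ⟨hx.1, subsetSum_closure R x hx'⟩
  have h3 : (X.subsetSum \ inSub (AddSubgroup.closure (R : Set G)) X.subsetSum) ∪
      R.subsetSum ⊆ (X ∪ R).subsetSum := by
    apply Finset.union_subset
    · exact Finset.sdiff_subset.trans (Finset.subsetSum_mono Finset.subset_union_left)
    · exact Finset.subsetSum_mono Finset.subset_union_right
  have h4 := Finset.card_le_card h3
  rw [Finset.card_union_of_disjoint h2] at h4
  have h5 := Finset.card_sdiff_add_card_eq_card h1
  have h6 : (X.subsetSum.card : ℝ) =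
      ((X.subsetSum \ inSub (AddSubgroup.closure (R : Set G)) X.subsetSum).card : ℝ) +
      ((inSub (AddSubgroup.closure (R : Set G)) X.subsetSum).card : ℝ) := by exact_mod_cast h5.symm
  have h7 : ((X.subsetSum \ inSub (AddSubgroup.closure (R : Set G)) X.subsetSum).card : ℝ) +
      R.subsetSum.card ≤ (X ∪ R).subsetSum.card := by exact_mod_cast h4
  linarith

theorem case_IIa [Finite G] (η : ℝ) (hη : 0 < η) (hη2 : η < 1 / 4) (u : ℕ)
    (hu : thr η < u) (R R' : Finset G) (hRu : R.card = u) (hsub : R' ⊆ R)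
    (hZ : ZSF R) (hN : NI R)
    (hne : AddSubgroup.closure (R' : Set G) ≠ AddSubgroup.closure (R : Set G))
    (hcard : (1 - 1 / 1152) * (u : ℝ) ≤ R'.card)
    (hQ : (1 / 2 - 2 * η) * (R'.card : ℝ) ^ 2 - bet η * R'.card ≤ R'.subsetSum.card) :
    (1 / 2 - 2 * η) * (u : ℝ) ^ 2 - bet η * u + 4 / η * u ≤ R.subsetSum.card := by
  have hd := doubling R R' hsub hne
  have hc := crude_bound u R hRu hZ hN
  have hd' : 2 * (R'.subsetSum.card : ℝ) ≤ R.subsetSum.card := by exact_mod_cast hd
  have hc' : (u : ℝ) ^ 2 ≤ 288 * R.subsetSum.card := by exact_mod_cast hc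
  have hle : (R'.card : ℝ) ≤ u := by
    rw [← hRu]; exact_mod_cast Finset.card_le_card hsub
  have hC0 : 0 < 4 / η := by positivity
  obtain ⟨C, hC⟩ : ∃ C, C = 4 / η := ⟨_, rfl⟩
  obtain ⟨β, hβ⟩ : ∃ β, β = bet η := ⟨_, rfl⟩
  have hthr : 1152 * C ≤ thr η := by
    unfold thr
    rw [← hC]
    have h1 : 0 ≤ 2880 / η ^ 2 := by positivity
    have h2 : 0 ≤ 288 * C / (η / 2304) ^ 2 := by rw [hC]; positivity
    have h3 : 0 ≤ 2 / (η / 2304) := by positivity
    linarith
  have hβC : C ≤ β := by
    rw [hβ, bet, ← hC]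
    have : 0 < C := by rw [hC]; exact hC0
    linarith
  rw [← hC] at hC0 ⊢
  rw [← hβ] at hQ ⊢
  have hu0 : (0 : ℝ) < u := by linarith
  obtain ⟨v, hv⟩ : ∃ v : ℝ, v = R'.card := ⟨_, rfl⟩
  rw [← hv] at hQ hle hcard
  obtain ⟨α, hα⟩ : ∃ α : ℝ, α = 1 / 2 - 2 * η := ⟨_, rfl⟩
  rw [← hα] at hQ ⊢
  have hα0 : 0 < α := by rw [hα]; linarith
  have hα1 : α ≤ 1 / 2 := by rw [hα]; linarith
  by_cases h : (α - 1 / 288) * u ≤ β - C
  · have : (u : ℝ) * ((α - 1 / 288) * u) ≤ u * (β - C) := mul_le_mul_of_nonneg_left h hu0.le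
    nlinarith
  · push Not at h
    have hv0 : 0 ≤ v := le_trans (by nlinarith) hcard
    have h1 : (1 - 1 / 288) * (u : ℝ) ^ 2 ≤ 2 * v ^ 2 - u ^ 2 := by
      have : ((1 - 1 / 1152) * (u : ℝ)) ^ 2 ≤ v ^ 2 := by
        apply pow_le_pow_left₀ _ hcard
        nlinarith
      nlinarith [sq_nonneg (u : ℝ)]
    have h2 : β + C ≤ α * (1 - 1 / 288) * u := by
      have : α * (1 - 1 / 288) * u ≥ (α - 1 / 288) * u + u / 576 := by nlinarith
      linarith
    have h3 : α * ((1 - 1 / 288) * (u : ℝ) ^ 2) ≤ α * (2 * v ^ 2 - u ^ 2) :=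
      mul_le_mul_of_nonneg_left h1 hα0.le
    have h4 : (u : ℝ) * (β + C) ≤ u * (α * (1 - 1 / 288) * u) :=
      mul_le_mul_of_nonneg_left h2 hu0.le
    have h5 : β * (2 * v - u) ≤ β * u := by
      apply mul_le_mul_of_nonneg_left _ (by linarith)
      linarith
    nlinarith

theorem case_IIb [Finite G] (η : ℝ) (hη : 0 < η) (hη2 : η < 1 / 4) (u : ℕ)
    (hu : thr η < u) (R : Finset G) (hRu : R.card = u)
    (hZ : ZSF R) (hN : NI R)
    (hgen : ∀ R' ⊆ R, (1 - 1 / 1152) * (u : ℝ) ≤ R'.card →
      AddSubgroup.closure (R' : Set G) = AddSubgroup.closure (R : Set G))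
    (hQ : ∀ n < u, ∀ X R' : Finset G, Disjoint X R' → ZSF (X ∪ R') → NI (X ∪ R') → R'.card = n →
      (X.subsetSum.card : ℝ) + (1 / 2 - 2 * η) * (n : ℝ) ^ 2 - bet η * n ≤
        (X ∪ R').subsetSum.card) :
    (1 / 2 - 2 * η) * (u : ℝ) ^ 2 - bet η * u + 4 / η * u ≤ R.subsetSum.card := by
  obtain ⟨C, hC⟩ : ∃ C, C = 4 / η := ⟨_, rfl⟩
  have hC0 : 0 < C := by rw [hC]; positivity
  rw [← hC]
  obtain ⟨D, hD⟩ : ∃ D, D = η / 2304 := ⟨_, rfl⟩
  have hD0 : 0 < D := by rw [hD]; positivity
  have hthr1 : 2880 / η ^ 2 ≤ thr η := by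
    unfold thr
    rw [← hC, ← hD]
    have h2 : 0 ≤ 288 * C / D ^ 2 := by positivity
    have h3 : 0 ≤ 2 / D := by positivity
    linarith
  have hthr2 : 288 * C / D ^ 2 ≤ thr η := by
    unfold thr
    rw [← hC, ← hD]
    have h2 : 0 ≤ 2880 / η ^ 2 := by positivity
    have h3 : 0 ≤ 2 / D := by positivity
    linarith
  have hthr3 : 2 / D ≤ thr η := by
    unfold thr
    rw [← hC, ← hD]
    have h2 : 0 ≤ 2880 / η ^ 2 := by positivity
    have h3 : 0 ≤ 288 * C / D ^ 2 := by positivity
    linarith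
  have hu0 : (0 : ℝ) < u := lt_of_le_of_lt (le_trans (by positivity) hthr1) hu
  have hsq : 288 * C * u ≤ (D * u) ^ 2 := by
    have h1 : 288 * C / D ^ 2 ≤ u := by linarith
    rw [div_le_iff₀ (by positivity)] at h1
    nlinarith
  have hDu : 2 ≤ D * u := by
    have h1 : 2 / D ≤ u := by linarith
    rw [div_le_iff₀ hD0] at h1
    linarith
  -- the size of the initial block
  obtain ⟨t, ht⟩ : ∃ t, t = ⌈D * (u : ℝ)⌉₊ := ⟨_, rfl⟩
  have ht1 : D * (u : ℝ) ≤ t := by rw [ht]; exact Nat.le_ceil _
  have ht2 : (t : ℝ) < D * u + 1 := by rw [ht]; exact Nat.ceil_lt_add_one (by positivity)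
  obtain ⟨n, hn⟩ : ∃ n, n = ⌈(1 - 1 / 1152) * (u : ℝ)⌉₊ := ⟨_, rfl⟩
  have hn1 : (1 - 1 / 1152) * (u : ℝ) ≤ n := by rw [hn]; exact Nat.le_ceil _
  have hn2 : (n : ℝ) < (1 - 1 / 1152) * u + 1 := by
    rw [hn]; exact Nat.ceil_lt_add_one (by nlinarith)
  have hDη : D * u = η * (1 / 1152) * u / 2 := by rw [hD]; ring
  have hδ : (16 : ℝ) ≤ u / 1152 := by nlinarith
  have htn : (t : ℝ) + n ≤ u := by nlinarith
  have htn' : t + n ≤ u := by exact_mod_cast htn
  have hnu : n < u := by
    have : (n : ℝ) < u := by linarith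
    exact_mod_cast this
  -- initial block
  obtain ⟨X0, hX0R, hX0c⟩ := Finset.exists_subset_card_eq (s := R) (n := t) (by omega)
  have hX0 : C * u ≤ X0.subsetSum.card := by
    have h1 := crude_bound t X0 hX0c (hZ.mono hX0R) (hN.mono hX0R)
    have h2 : (t : ℝ) ^ 2 ≤ 288 * X0.subsetSum.card := by exact_mod_cast h1
    have h3 : (D * u) ^ 2 ≤ (t : ℝ) ^ 2 := pow_le_pow_left₀ (by positivity) ht1 2
    linarith
  have hphase : ∀ k, t + k + n ≤ u → ∃ X ⊆ R, X.card = t + k ∧
      C * u + (1 / 2 - η) * (((u : ℝ) - t) ^ 2 - ((u : ℝ) - t - k) ^ 2) ≤ X.subsetSum.card := by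
    intro k
    induction k with
    | zero =>
      intro _
      refine ⟨X0, hX0R, by simpa using hX0c, ?_⟩
      simpa using hX0
    | succ k ih =>
      intro hk
      obtain ⟨X, hXR, hXc, hXs⟩ := ih (by omega)
      have hRc : (R \ X).card = u - t - k := by
        rw [Finset.card_sdiff_of_subset hXR, hRu, hXc]
        omega
      have hRcr : ((R \ X).card : ℝ) = (u : ℝ) - t - k := by
        rw [hRc]
        rw [Nat.cast_sub (by omega), Nat.cast_sub (by omega)]
      have hkr : (t : ℝ) + (k + 1) + n ≤ u := by exact_mod_cast hk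
      have hkge : (1 - 1 / 1152) * (u : ℝ) ≤ ((R \ X).card : ℝ) := by
        rw [hRcr]
        linarith
      have hg := hgen (R \ X) Finset.sdiff_subset hkge
      have hU : X ∪ (R \ X) = R := Finset.union_sdiff_of_subset hXR
      have hin : inSub (AddSubgroup.closure ((R \ X : Finset G) : Set G)) X.subsetSum
          = X.subsetSum := by
        rw [hg]
        apply inSub_subsetSum_of_le
        intro y hy
        exact AddSubgroup.subset_closure (by simpa using hXR hy)
      have hXs0 : C * u ≤ X.subsetSum.card := by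
        have h1 : (0 : ℝ) ≤ (1 / 2 - η) * (((u : ℝ) - t) ^ 2 - ((u : ℝ) - t - k) ^ 2) := by
          have h2 : (0 : ℝ) ≤ k := Nat.cast_nonneg _
          have h3 : (0 : ℝ) ≤ n := Nat.cast_nonneg _
          apply mul_nonneg (by linarith)
          nlinarith
        linarith
      obtain ⟨x, hx, hx2⟩ := refined_step η hη (by linarith) X (R \ X) Finset.disjoint_sdiff
        (by rw [hU]; exact hZ) (by rw [hU]; exact hN)
        (by
          refine le_trans ?_ hkge
          have h5 : 1440 / η ^ 2 = (2880 / η ^ 2) / 2 := by ring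
          rw [h5]
          linarith)
        (by
          rw [hin, ← hC]
          refine le_trans ?_ hXs0
          apply mul_le_mul_of_nonneg_left _ hC0.le
          rw [hRcr]
          have h2 : (0 : ℝ) ≤ k := Nat.cast_nonneg _
          have h3 : (0 : ℝ) ≤ t := Nat.cast_nonneg _
          linarith)
      have hxX : x ∉ X := (Finset.mem_sdiff.1 hx).2
      have hxS : x ∈ R := (Finset.mem_sdiff.1 hx).1
      refine ⟨insert x X, Finset.insert_subset hxS hXR, ?_, ?_⟩
      · rw [Finset.card_insert_of_notMem hxX, hXc]; omega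
      · rw [card_subsetSum_insert X x hxX]
        rw [hRcr] at hx2
        push_cast
        nlinarith
  obtain ⟨X, hXR, hXc, hXs⟩ := hphase (u - t - n) (by omega)
  have hU : X ∪ (R \ X) = R := Finset.union_sdiff_of_subset hXR
  have hRc : (R \ X).card = n := by
    rw [Finset.card_sdiff_of_subset hXR, hRu, hXc]
    omega
  have hQn := hQ n hnu X (R \ X) Finset.disjoint_sdiff (by rw [hU]; exact hZ)
    (by rw [hU]; exact hN) hRc
  rw [hU] at hQn
  have hcast : (((u - t - n : ℕ) : ℕ) : ℝ) = (u : ℝ) - t - n := by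
    rw [Nat.cast_sub (by omega), Nat.cast_sub (by omega)]
  rw [hcast] at hXs
  have hβ0 : 0 ≤ bet η := by
    unfold bet
    rw [← hC]
    have : 0 ≤ thr η := le_trans (by positivity) hthr1
    linarith
  have hβn : 0 ≤ bet η * (u - n) := mul_nonneg hβ0 (by linarith)
  have h1 : (u : ℝ) - t - ((u : ℝ) - t - n) = n := by ring
  rw [h1] at hXs
  have h2 : (0 : ℝ) ≤ η * (u ^ 2 - n ^ 2) - u * t := by
    have h3 : (u : ℝ) * (u / 1152 - 1) ≤ u ^ 2 - n ^ 2 := by nlinarith
    have h4 : η * ((u : ℝ) * (u / 1152 - 1)) ≤ η * (u ^ 2 - n ^ 2) :=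
      mul_le_mul_of_nonneg_left h3 hη.le
    have h5 : (t : ℝ) ≤ η * (u / 1152 - 1) := by nlinarith
    nlinarith
  nlinarith [sq_nonneg (t : ℝ), mul_nonneg (by linarith : (0:ℝ) ≤ 1 / 2 - η) (sq_nonneg (t : ℝ)),
    mul_nonneg hη.le (mul_nonneg hu0.le (Nat.cast_nonneg (α := ℝ) t))]

theorem main_ind [Finite G] (η : ℝ) (hη : 0 < η) (hη2 : η < 1 / 4) (u : ℕ) :
    ∀ X R : Finset G, Disjoint X R → ZSF (X ∪ R) → NI (X ∪ R) → R.card = u →
      (X.subsetSum.card : ℝ) + (1 / 2 - 2 * η) * (u : ℝ) ^ 2 - bet η * u ≤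
        (X ∪ R).subsetSum.card := by
  induction u using Nat.strong_induction_on with
  | _ u ih =>
    intro X R hd hZ hN hRu
    have hthr0 : 0 ≤ thr η := by unfold thr; positivity
    have hβthr : thr η ≤ bet η := by
      unfold bet
      have : 0 < 4 / η := by positivity
      linarith
    have hu0 : (0 : ℝ) ≤ u := Nat.cast_nonneg _
    by_cases hu : thr η < u
    swap
    · push Not at hu
      have h1 : (X.subsetSum.card : ℝ) ≤ (X ∪ R).subsetSum.card := by
        exact_mod_cast Finset.card_le_card (Finset.subsetSum_mono Finset.subset_union_left)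
      have h2 : (1 / 2 - 2 * η) * (u : ℝ) ≤ bet η := by nlinarith
      nlinarith
    have hupos : 0 < u := by
      have : (0 : ℝ) < u := lt_of_le_of_lt hthr0 hu
      exact_mod_cast this
    by_cases hI : 4 / η * (u : ℝ) ≤
        (inSub (AddSubgroup.closure (R : Set G)) X.subsetSum).card
    · -- growth step
      obtain ⟨x, hx, hx2⟩ := refined_step η hη (by linarith) X R hd hZ hN
        (by
          rw [hRu]
          refine le_trans ?_ hu.le
          unfold thr
          have h1 : 1440 / η ^ 2 ≤ 2880 / η ^ 2 := by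
            apply div_le_div_of_nonneg_right (by norm_num) (by positivity)
          have h2 : 0 ≤ 1152 * (4 / η) := by positivity
          have h3 : 0 ≤ 288 * (4 / η) / (η / 2304) ^ 2 := by positivity
          have h4 : 0 ≤ 2 / (η / 2304) := by positivity
          linarith)
        (by rw [hRu]; exact hI)
      have hxX : x ∉ X := fun h => Finset.disjoint_left.1 hd h hx
      have hU : insert x X ∪ R.erase x = X ∪ R := by
        ext y
        simp only [Finset.mem_union, Finset.mem_insert, Finset.mem_erase]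
        constructor
        · rintro ((rfl | h) | h)
          · exact Or.inr hx
          · exact Or.inl h
          · exact Or.inr h.2
        · rintro (h | h)
          · exact Or.inl (Or.inr h)
          · by_cases hyx : y = x
            · exact Or.inl (Or.inl hyx)
            · exact Or.inr ⟨hyx, h⟩
      have hd' : Disjoint (insert x X) (R.erase x) := by
        rw [Finset.disjoint_left]
        intro y hy hy'
        rw [Finset.mem_erase] at hy'
        rw [Finset.mem_insert] at hy
        rcases hy with h | h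
        · exact hy'.1 h
        · exact Finset.disjoint_left.1 hd h hy'.2
      have hc : (R.erase x).card = u - 1 := by
        rw [Finset.card_erase_of_mem hx, hRu]
      have h1 := ih (u - 1) (by omega) (insert x X) (R.erase x) hd' (by rw [hU]; exact hZ)
        (by rw [hU]; exact hN) hc
      rw [hU, card_subsetSum_insert X x hxX] at h1
      have h2 : ((u - 1 : ℕ) : ℝ) = (u : ℝ) - 1 := by
        rw [Nat.cast_sub (by omega), Nat.cast_one]
      rw [h2] at h1
      rw [hRu] at hx2
      push_cast at h1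
      have hβ0 : 0 ≤ bet η := le_trans hthr0 hβthr
      nlinarith
    · push Not at hI
      have hs := split_bound X R hd _ hI.le
      have hZR : ZSF R := hZ.mono Finset.subset_union_right
      have hNR : NI R := hN.mono Finset.subset_union_right
      suffices hR : (1 / 2 - 2 * η) * (u : ℝ) ^ 2 - bet η * u + 4 / η * u ≤ R.subsetSum.card by
        linarith
      by_cases hA : ∃ R' ⊆ R, (1 - 1 / 1152) * (u : ℝ) ≤ R'.card ∧
          AddSubgroup.closure (R' : Set G) ≠ AddSubgroup.closure (R : Set G)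
      · obtain ⟨R', hsub, hcard, hne⟩ := hA
        have hlt : R'.card < u := by
          rw [← hRu]
          apply Finset.card_lt_card
          refine ⟨hsub, fun h => hne ?_⟩
          rw [Finset.Subset.antisymm hsub h]
        have h1 := ih R'.card hlt ∅ R' (Finset.disjoint_empty_left _)
          (by rw [Finset.empty_union]; exact hZR.mono hsub)
          (by rw [Finset.empty_union]; exact hNR.mono hsub) rfl
        rw [Finset.empty_union] at h1
        apply case_IIa η hη hη2 u hu R R' hRu hsub hZR hNR hne hcard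
        have h2 : (0 : ℝ) ≤ ((∅ : Finset G).subsetSum.card : ℝ) := Nat.cast_nonneg _
        linarith
      · push Not at hA
        exact case_IIb η hη hη2 u hu R hRu hZR hNR (fun R' h1 h2 => hA R' h1 h2) ih

end Pool.Agent.Helper398
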