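import Mathlib
import Pool.Agent.Helper398.Main

set_option autoImplicit false
set_option linter.unusedSectionVars false

open Finset
open scoped Pointwise

namespace Pool.Agent.Helper398

variable {G : Type*} [AddCommGroup G] [DecidableEq G]

theorem cube_le (r : ℕ) : r ^ 3 ≤ 27 * 2 ^ r := by
  induction r with
  | zero => norm_num
  | succ r ih =>
    by_cases h : r ≤ 3
    · interval_cases r <;> norm_num
    · push Not at h
      have h1 : (r + 1) ^ 3 ≤ 2 * r ^ 3 := by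
        obtain ⟨s, rfl⟩ : ∃ s, r = s + 4 := ⟨r - 4, by omega⟩
        nlinarith [sq_nonneg s, Nat.zero_le (s ^ 3), Nat.zero_le (s ^ 2)]
      calc (r + 1) ^ 3 ≤ 2 * r ^ 3 := h1
        _ ≤ 2 * (27 * 2 ^ r) := by omega
        _ = 27 * 2 ^ (r + 1) := by ring

/-- involutions: all subset sums are distinct -/
theorem card_subsetSum_invol (I : Finset G) (hZ : ZSF I) (hI : ∀ x ∈ I, x + x = 0) :
    2 ^ I.card ≤ I.subsetSum.card := by
  rw [← Finset.card_powerset]
  unfold Finset.subsetSum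
  rw [Finset.card_image_of_injOn]
  intro B hB C hC hBC
  rw [Finset.mem_coe, Finset.mem_powerset] at hB hC
  simp only [id] at hBC
  by_contra hne
  have hneg : ∀ D ⊆ I, -(∑ x ∈ D, x) = ∑ x ∈ D, x := by
    intro D hD
    rw [← Finset.sum_neg_distrib]
    apply Finset.sum_congr rfl
    intro x hx
    exact neg_eq_of_add_eq_zero_left (hI x (hD hx))
  apply hZ ((B \ C) ∪ (C \ B))
  · apply Finset.union_subset
    · exact Finset.sdiff_subset.trans hB
    · exact Finset.sdiff_subset.trans hC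
  · rw [Finset.nonempty_iff_ne_empty]
    intro h0
    rw [Finset.union_eq_empty, Finset.sdiff_eq_empty_iff_subset,
      Finset.sdiff_eq_empty_iff_subset] at h0
    exact hne (Finset.Subset.antisymm h0.1 h0.2)
  · rw [Finset.sum_union (by
      rw [Finset.disjoint_left]
      intro x hx hx'
      exact (Finset.mem_sdiff.1 hx').2 (Finset.mem_sdiff.1 hx).1)]
    rw [← hneg (C \ B) (Finset.sdiff_subset.trans hC), ← sub_eq_add_neg]
    have h1 : ∑ x ∈ B, x = ∑ x ∈ B \ C, x + ∑ x ∈ B ∩ C, x := by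
      rw [add_comm, Finset.sum_inter_add_sum_sdiff]
    have h2 : ∑ x ∈ C, x = ∑ x ∈ C \ B, x + ∑ x ∈ B ∩ C, x := by
      rw [Finset.inter_comm B C, add_comm, Finset.sum_inter_add_sum_sdiff]
    rw [h1, h2] at hBC
    rw [add_right_cancel hBC, sub_self]

theorem lower_aux [Finite G] (c η : ℝ) (hc : 1 / 4 ≤ c) (hη : 0 < η) (hcη : c + 8 * η = 1 / 2)
    (S : Finset G) (hZ : ZSF S)
    (hm1 : bet η / (4 * η) ≤ S.card) (hm2 : 54 / η ^ 3 ≤ (S.card : ℝ)) :
    c * (S.card : ℝ) ^ 2 + 1 ≤ S.subsetSum.card := by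
  obtain ⟨m, hm⟩ : ∃ m, m = S.card := ⟨_, rfl⟩
  rw [← hm] at hm1 hm2 ⊢
  obtain ⟨I, hI⟩ : ∃ I : Finset G, I = S.filter (fun x => x + x = 0) := ⟨_, rfl⟩
  obtain ⟨S', hS'⟩ : ∃ S' : Finset G, S' = S.filter (fun x => ¬ (x + x = 0)) := ⟨_, rfl⟩
  have hcard : I.card + S'.card = m := by
    rw [hI, hS', hm]
    exact Finset.card_filter_add_card_filter_not _
  have hIS : I ⊆ S := by rw [hI]; exact Finset.filter_subset _ _
  have hSS : S' ⊆ S := by rw [hS']; exact Finset.filter_subset _ _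
  have h2r := card_subsetSum_invol I (hZ.mono hIS) (by
    intro x hx
    rw [hI, Finset.mem_filter] at hx
    exact hx.2)
  have hNI : NI S' := by
    intro x hx
    rw [hS', Finset.mem_filter] at hx
    exact hx.2
  have hη4 : η < 1 / 4 := by linarith
  have hmain := main_ind η hη hη4 S'.card ∅ S' (Finset.disjoint_empty_left _)
    (by rw [Finset.empty_union]; exact hZ.mono hSS)
    (by rw [Finset.empty_union]; exact hNI) rfl
  rw [Finset.empty_union] at hmain
  have h1 : (1 : ℝ) ≤ ((∅ : Finset G).subsetSum.card : ℝ) := by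
    have : 0 < (∅ : Finset G).subsetSum.card := Finset.card_pos.2 Finset.subsetSum_nonempty
    exact_mod_cast this
  have h2 : (I.subsetSum.card : ℝ) ≤ S.subsetSum.card := by
    exact_mod_cast Finset.card_le_card (Finset.subsetSum_mono hIS)
  have h3 : (S'.subsetSum.card : ℝ) ≤ S.subsetSum.card := by
    exact_mod_cast Finset.card_le_card (Finset.subsetSum_mono hSS)
  have hm0 : (0 : ℝ) < m := lt_of_lt_of_le (by positivity) hm2
  obtain ⟨r, hr⟩ : ∃ r : ℝ, r = I.card := ⟨_, rfl⟩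
  obtain ⟨v, hv⟩ : ∃ v : ℝ, v = S'.card := ⟨_, rfl⟩
  have hrv : r + v = m := by
    rw [hr, hv]; exact_mod_cast hcard
  have hr0 : 0 ≤ r := by rw [hr]; exact Nat.cast_nonneg _
  have hv0 : 0 ≤ v := by rw [hv]; exact Nat.cast_nonneg _
  rw [← hv] at hmain
  have hβ0 : 0 ≤ bet η := by
    unfold bet thr
    positivity
  by_cases hcase : r ≤ η * m
  · rw [div_le_iff₀ (by positivity)] at hm1
    have hv1 : (1 - η) * m ≤ v := by linarith
    have hvm : v ≤ m := by linarith
    have h4 : ((1 - η) * m) ^ 2 ≤ v ^ 2 := by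
      apply pow_le_pow_left₀ _ hv1
      nlinarith
    have h5 : (1 / 2 - 2 * η) * ((1 - η) * m) ^ 2 ≤ (1 / 2 - 2 * η) * v ^ 2 :=
      mul_le_mul_of_nonneg_left h4 (by linarith)
    have h6 : bet η * v ≤ bet η * m := mul_le_mul_of_nonneg_left hvm hβ0
    have h7 : bet η * m ≤ 4 * η * (m : ℝ) ^ 2 := by nlinarith
    have h8 : (c + 4 * η) * (m : ℝ) ^ 2 ≤ (1 / 2 - 2 * η) * ((1 - η) * m) ^ 2 := by
      have h9 : c + 4 * η ≤ (1 / 2 - 2 * η) * (1 - η) ^ 2 := by
        have hc2 : c = 1 / 2 - 8 * η := by linarith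
        rw [hc2]
        nlinarith [sq_nonneg η, mul_pos hη (mul_pos hη hη)]
      have h10 : (1 / 2 - 2 * η) * ((1 - η) * m) ^ 2 =
        ((1 / 2 - 2 * η) * (1 - η) ^ 2) * (m : ℝ) ^ 2 := by ring
      rw [h10]
      exact mul_le_mul_of_nonneg_right h9 (by positivity)
    nlinarith
  · push Not at hcase
    have h4 : (r : ℝ) ^ 3 ≤ 27 * I.subsetSum.card := by
      have h5 : ((I.card : ℝ)) ^ 3 ≤ 27 * 2 ^ I.card := by exact_mod_cast cube_le I.card
      have h6 : ((2 : ℝ)) ^ I.card ≤ I.subsetSum.card := by exact_mod_cast h2r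
      rw [hr]
      linarith
    have h5 : (η * m) ^ 3 ≤ r ^ 3 := pow_le_pow_left₀ (by positivity) hcase.le 3
    rw [div_le_iff₀ (by positivity)] at hm2
    have h6 : 54 * (m : ℝ) ^ 2 ≤ (η * m) ^ 3 := by
      have : (η * m) ^ 3 = (m * η ^ 3) * (m : ℝ) ^ 2 := by ring
      rw [this]
      exact mul_le_mul_of_nonneg_right hm2 (by positivity)
    have hm1' : (1 : ℝ) ≤ m := by
      have : 0 < m := by exact_mod_cast hm0
      exact_mod_cast this
    have h7 : (1 : ℝ) ≤ (m : ℝ) ^ 2 := by nlinarith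
    nlinarith

/-- The asymptotic lower bound, for all finite abelian groups simultaneously. -/
theorem lower (c : ℝ) (hc : c < 1 / 2) : ∃ M : ℕ, ∀ (G : Type) [AddCommGroup G] [Finite G]
    [DecidableEq G] (S : Finset G), M ≤ S.card → ZSF S →
    c * (S.card : ℝ) ^ 2 + 1 ≤ S.subsetSum.card := by
  obtain ⟨c', hc'⟩ : ∃ c' : ℝ, c' = max c (1 / 4) := ⟨_, rfl⟩
  have h1 : c ≤ c' := by rw [hc']; exact le_max_left _ _
  have h2 : 1 / 4 ≤ c' := by rw [hc']; exact le_max_right _ _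
  have h3 : c' < 1 / 2 := by rw [hc']; exact max_lt hc (by norm_num)
  obtain ⟨η, hη⟩ : ∃ η : ℝ, η = (1 / 2 - c') / 8 := ⟨_, rfl⟩
  have hη0 : 0 < η := by rw [hη]; linarith
  refine ⟨max ⌈bet η / (4 * η)⌉₊ ⌈54 / η ^ 3⌉₊, ?_⟩
  intro G _ _ _ S hS hZ
  have h4 := lower_aux c' η h2 hη0 (by rw [hη]; ring) S hZ
    (by
      refine le_trans (Nat.le_ceil _) ?_
      exact_mod_cast le_trans (le_max_left _ _) hS)
    (by
      refine le_trans (Nat.le_ceil _) ?_
      exact_mod_cast le_trans (le_max_right _ _) hS)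
  have h5 : c * (S.card : ℝ) ^ 2 ≤ c' * (S.card : ℝ) ^ 2 :=
    mul_le_mul_of_nonneg_right h1 (by positivity)
  linarith

end Pool.Agent.Helper398
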