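import Mathlib
import Pool.Agent.Helper398.Final

set_option autoImplicit false
set_option linter.unusedSectionVars false

open Finset

namespace Pool.Agent.Helper398

theorem exists_k (q : ℕ) (hq : 1 ≤ q) : ∃ k, q ^ 2 ≤ 2 ^ k ∧ 2 ^ k ≤ 2 * q ^ 2 := by
  refine ⟨Nat.clog 2 (q ^ 2), Nat.le_pow_clog (by norm_num) _, ?_⟩
  rcases Nat.eq_or_lt_of_le hq with h | h
  · subst h
    simp
  · have h1 : 1 < q ^ 2 := by nlinarith
    have h2 := Nat.pow_pred_clog_lt_self (b := 2) (by norm_num) h1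
    have h3 : 0 < Nat.clog 2 (q ^ 2) := Nat.clog_pos (by norm_num) h1
    obtain ⟨c, hc⟩ : ∃ c, Nat.clog 2 (q ^ 2) = c + 1 := ⟨_, (Nat.succ_pred_eq_of_pos h3).symm⟩
    rw [hc] at h2 ⊢
    simp only [Nat.pred_eq_sub_one, Nat.add_sub_cancel] at h2
    rw [pow_succ]
    omega

theorem k_small (q k : ℕ) (hk2 : 2 ^ k ≤ 2 * q ^ 2) (hq : q < 6 * 10 ^ 10) : k ≤ 73 := by
  by_contra h
  push Not at h
  have h1 : 2 ^ 74 ≤ 2 ^ k := Nat.pow_le_pow_right (by norm_num) h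
  have h2 : q ^ 2 ≤ (6 * 10 ^ 10) ^ 2 := Nat.pow_le_pow_left hq.le 2
  have h3 : (2 : ℕ) ^ 74 ≤ 2 * (6 * 10 ^ 10) ^ 2 := by omega
  norm_num at h3

theorem k_large (q k : ℕ) (hk2 : 2 ^ k ≤ 2 * q ^ 2) (hq : 6 * 10 ^ 10 ≤ q) : 1000 * k ≤ q := by
  have h1 := cube_le k
  have h2 : (1000 * k) ^ 3 ≤ q ^ 3 := by
    calc (1000 * k) ^ 3 = 10 ^ 9 * k ^ 3 := by ring
      _ ≤ 10 ^ 9 * (27 * 2 ^ k) := Nat.mul_le_mul_left _ h1
      _ ≤ 10 ^ 9 * (27 * (2 * q ^ 2)) := Nat.mul_le_mul_left _ (Nat.mul_le_mul_left _ hk2)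
      _ = (54 * 10 ^ 9) * q ^ 2 := by ring
      _ ≤ q * q ^ 2 := Nat.mul_le_mul_right _ (by omega)
      _ = q ^ 3 := by ring
  exact le_of_pow_le_pow_left₀ (by norm_num) (Nat.zero_le _) h2

theorem div_facts (q E : ℕ) (hq : 1 ≤ q) : q * (E / q) ≤ E ∧ 2 * E < (2 * E / q + 1) * q ∧
    (2 * E / q + 1) * q ≤ 2 * E + q ∧ 2 * E / q + 1 ≤ 2 * (E / q) + 2 := by
  refine ⟨Nat.mul_div_le E q, ?_, ?_, ?_⟩
  · have := Nat.lt_div_mul_add (a := 2 * E) (show 0 < q by omega)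
    rw [add_mul, one_mul]
    omega
  · have := Nat.div_mul_le_self (2 * E) q
    rw [add_mul, one_mul]
    omega
  · have h1 : 2 * E / q < 2 * (E / q) + 2 := by
      rw [Nat.div_lt_iff_lt_mul (by omega)]
      have := Nat.lt_div_mul_add (a := E) (show 0 < q by omega)
      have e : (2 * (E / q) + 2) * q = 2 * (E / q * q + q) := by ring
      omega
    omega

theorem num1 (m q L D k s : ℕ) (hm : 10 ^ 24 ≤ m) (hq : 1 ≤ q)
    (hk2 : 2 ^ k ≤ 2 * q ^ 2) (hL : q * L ≤ s + D) (hs : s ≤ q * L)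
    (hqL : 1000000 * (q * L) ≤ 1000001 * m) (hD : 500000 * D ≤ m) (hsm : 999999 * m ≤ 1000000 * s)
    (hL1 : 1 ≤ L) : 2 * (D + 2 * k) < q * L := by
  have hqL2 : q ≤ q * L := Nat.le_mul_of_pos_right _ hL1
  rcases Nat.lt_or_ge q (6 * 10 ^ 10) with h | h
  · have := k_small q k hk2 h
    omega
  · have := k_large q k hk2 h
    omega

theorem num2 (m q L D k s : ℕ) (hm : 10 ^ 24 ≤ m) (hq : 1 ≤ q)
    (hk2 : 2 ^ k ≤ 2 * q ^ 2) (hL : q * L ≤ s + D) (hs : s ≤ q * L)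
    (hqL : 1000000 * (q * L) ≤ 1000001 * m) (hD : 500000 * D ≤ m) (hsm : 999999 * m ≤ 1000000 * s)
    (hL1 : 1 ≤ L) : 16 * ((D + 2 * k) / q) + 21 ≤ L ∨ D + 2 * k + L ≤ q := by
  obtain ⟨h1, -, -, -⟩ := div_facts q (D + 2 * k) hq
  obtain ⟨μ, hμ⟩ : ∃ μ, μ = (D + 2 * k) / q := ⟨_, rfl⟩
  rw [← hμ] at h1 ⊢
  by_cases hL50 : 50 ≤ L
  · left
    have hqL2 : q * 50 ≤ q * L := Nat.mul_le_mul_left _ hL50
    have h2 : q * (16 * μ + 21) ≤ q * L := by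
      have e : q * (16 * μ + 21) = 16 * (q * μ) + 21 * q := by ring
      rw [e]
      rcases Nat.lt_or_ge q (6 * 10 ^ 10) with h | h
      · have := k_small q k hk2 h
        omega
      · have := k_large q k hk2 h
        omega
    exact Nat.le_of_mul_le_mul_left h2 (by omega)
  · right
    have hqL2 : q * L ≤ q * 50 := Nat.mul_le_mul_left _ (by omega)
    have h : 6 * 10 ^ 10 ≤ q := by omega
    have := k_large q k hk2 h
    omega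

theorem num3 (m q L D k s : ℕ) (hm : 10 ^ 24 ≤ m) (hq : 1 ≤ q)
    (hk2 : 2 ^ k ≤ 2 * q ^ 2) (hD : 500000 * D ≤ m) (hq0 : q < 6 * 10 ^ 10) :
    1000 * (q * (k * (2 * (D + 2 * k) / q + 1) + (2 * ((D + 2 * k) / q) + 3))) ≤ m := by
  obtain ⟨E, hE⟩ : ∃ E, E = D + 2 * k := ⟨_, rfl⟩
  rw [← hE]
  obtain ⟨h1, h2, h3, h4⟩ := div_facts q E hq
  obtain ⟨μ, hμ⟩ : ∃ μ, μ = E / q := ⟨_, rfl⟩
  obtain ⟨J, hJ⟩ : ∃ J, J = 2 * E / q + 1 := ⟨_, rfl⟩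
  rw [← hμ] at h1 ⊢
  rw [← hJ] at h3 ⊢
  have hk := k_small q k hk2 hq0
  have h5 : k * (J * q) ≤ 73 * (2 * E + q) := Nat.mul_le_mul hk h3
  have e : q * (k * J + (2 * μ + 3)) = k * (J * q) + 2 * (q * μ) + 3 * q := by ring
  rw [e]
  omega

theorem num4 (m q L D k : ℕ) (hm : 10 ^ 24 ≤ m) (hq : 1 ≤ q)
    (hk2 : 2 ^ k ≤ 2 * q ^ 2) (hqm : 1000000 * q ≤ 1000001 * m)
    (hD : 500000 * D ≤ m) (hq0 : 6 * 10 ^ 10 ≤ q) :
    700 * (k * (2 * (D + 2 * k) / q + 1) + (2 * ((D + 2 * k) / q) + 3)) ≤ m := by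
  obtain ⟨E, hE⟩ : ∃ E, E = D + 2 * k := ⟨_, rfl⟩
  rw [← hE]
  obtain ⟨h1, h2, h3, h4⟩ := div_facts q E hq
  obtain ⟨μ, hμ⟩ : ∃ μ, μ = E / q := ⟨_, rfl⟩
  obtain ⟨J, hJ⟩ : ∃ J, J = 2 * E / q + 1 := ⟨_, rfl⟩
  rw [← hμ] at h1 ⊢
  rw [← hJ] at h3 ⊢
  have hk := k_large q k hk2 hq0
  have h5 : 1000 * k * J ≤ q * J := Nat.mul_le_mul_right _ hk
  have h6 : 1000 * μ ≤ q * μ := Nat.mul_le_mul_right _ (by omega)
  have e : q * J = J * q := mul_comm _ _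
  have e2 : 1000 * k * J = 1000 * (k * J) := by ring
  omega

theorem numN (m q t : ℕ) (va α : ℤ) (hm : 10 ^ 24 ≤ m) (hq : 1 ≤ q) (hva : va ≤ α) (hα : 1 ≤ α)
    (hqm : 1000000 * q ≤ 1000001 * m)
    (hsmall : q < 6 * 10 ^ 10 → 1000 * (q * α) ≤ m)
    (hlarge : 6 * 10 ^ 10 ≤ q → 700 * α ≤ m ∧ 8 * t ≤ q) (ht : 2 * t + 1 ≤ q) :
    2 * (q : ℤ) * (va + 2 * α) + 4 ≤ m * ((q : ℤ) - 2 * t) - t * ((q : ℤ) - t) := by
  have hq0 : (0 : ℤ) < q := by omega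
  have h1 : 2 * (q : ℤ) * (va + 2 * α) ≤ 6 * (q * α) := by
    have : (q : ℤ) * va ≤ q * α := mul_le_mul_of_nonneg_left hva hq0.le
    linarith
  rcases Nat.lt_or_ge q (6 * 10 ^ 10) with h | h
  · have h2 := hsmall h
    have h3 : (m : ℤ) * 1 ≤ m * ((q : ℤ) - 2 * t) := mul_le_mul_of_nonneg_left (by omega) (by omega)
    have h4 : (t : ℤ) * ((q : ℤ) - t) ≤ (6 * 10 ^ 10) * (6 * 10 ^ 10) := by
      apply mul_le_mul <;> omega
    norm_num at h4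
    omega
  · obtain ⟨h2, h3⟩ := hlarge h
    have hq' : (6 * 10 ^ 10 : ℤ) ≤ q := by exact_mod_cast h
    have h4 : (q : ℤ) * (700 * α) ≤ q * m := mul_le_mul_of_nonneg_left h2 hq0.le
    have h5 : (m : ℤ) * (6 * q) ≤ m * (8 * ((q : ℤ) - 2 * t)) :=
      mul_le_mul_of_nonneg_left (by omega) (by omega)
    have h6 : 8 * ((t : ℤ) * ((q : ℤ) - t)) ≤ q * q := by
      have : 8 * (t : ℤ) * ((q : ℤ) - t) ≤ q * q := by
        apply mul_le_mul <;> omega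
      linarith
    have h7 : (q : ℤ) * (1000000 * q) ≤ q * (1000001 * m) :=
      mul_le_mul_of_nonneg_left (by exact_mod_cast hqm) hq0.le
    have h8 : (10 ^ 24 : ℤ) * 1 ≤ m * q := by
      apply mul_le_mul _ (by omega) (by norm_num) (by omega)
      exact_mod_cast hm
    nlinarith

theorem numB (m q s l w : ℕ) (α : ℤ) (T : ℕ) (hm : 10 ^ 24 ≤ m) (hq : 1 ≤ q) (hα : 1 ≤ α)
    (hqm : 1000000 * q ≤ 1000001 * m)
    (hsmall : q < 6 * 10 ^ 10 → 1000 * (q * α) ≤ m)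
    (hlarge : 6 * 10 ^ 10 ≤ q → 700 * α ≤ m) (hsm : 999999 * m ≤ 1000000 * s)
    (hw : s ^ 2 + q * s ≤ 2 * (q * w)) (hl : (w : ℤ) - 2 * α + 1 ≤ l)
    (hT : T ≤ m ^ 2 / 2 + 1) : T < 2 * l * q := by
  have hq0 : (0 : ℤ) < q := by omega
  have hmm : (10 ^ 24 : ℤ) * m ≤ m * m := by
    apply mul_le_mul_of_nonneg_right _ (by omega)
    exact_mod_cast hm
  have h1 : 700 * ((q : ℤ) * α) ≤ 2 * (m * m) := by
    rcases Nat.lt_or_ge q (6 * 10 ^ 10) with h | h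
    · have := hsmall h
      have hm' : (10 ^ 24 : ℤ) ≤ m := by exact_mod_cast hm
      linarith
    · have h2 := hlarge h
      have h3 : (q : ℤ) * (700 * α) ≤ q * m := mul_le_mul_of_nonneg_left h2 hq0.le
      have h4 : (1000000 * (q : ℤ)) * m ≤ (1000001 * m) * m :=
        mul_le_mul_of_nonneg_right (by exact_mod_cast hqm) (by omega)
      have hm' : (0 : ℤ) ≤ m * m := by positivity
      linarith
  have h2 : (999999 * (m : ℤ)) ^ 2 ≤ (1000000 * (s : ℤ)) ^ 2 := by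
    apply pow_le_pow_left₀ (by positivity)
    exact_mod_cast hsm
  have h3 : (s : ℤ) ^ 2 + q * s ≤ 2 * (q * w) := by exact_mod_cast hw
  have h4 : (q : ℤ) * ((w : ℤ) - 2 * α + 1) ≤ q * l := mul_le_mul_of_nonneg_left hl hq0.le
  have h5 : (2 * (T : ℤ)) ≤ m ^ 2 + 2 := by
    have : 2 * T ≤ m ^ 2 + 2 := by omega
    exact_mod_cast this
  have h6 : (T : ℤ) < 2 * l * q := by
    have h7 : (0 : ℤ) ≤ (q : ℤ) * s := by positivity
    have h8 : (10 ^ 24 : ℤ) * 10 ^ 24 ≤ m * m := by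
      apply mul_le_mul _ _ (by norm_num) (by positivity) <;> exact_mod_cast hm
    have e1 : (999999 * (m : ℤ)) ^ 2 = 999998000001 * (m * m) := by ring
    have e2 : (1000000 * (s : ℤ)) ^ 2 = 1000000000000 * s ^ 2 := by ring
    have e3 : (m : ℤ) ^ 2 = m * m := by ring
    rw [e1, e2] at h2
    rw [e3] at h5
    have e4 : (q : ℤ) * ((w : ℤ) - 2 * α + 1) = q * w - 2 * (q * α) + q := by ring
    rw [e4] at h4
    have e5 : 2 * (l : ℤ) * q = 2 * (q * l) := by ring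
    rw [e5]
    linarith
  exact_mod_cast h6

end Pool.Agent.Helper398
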