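import Mathlib
import Pool.Agent.Helper398.Finish
import Pool.Agent.Helper398.Numbers

set_option autoImplicit false
set_option linter.unusedSectionVars false

open Finset
open scoped Pointwise

namespace Pool.Agent.Helper398

variable {G : Type*} [AddCommGroup G] [Finite G] [DecidableEq G]

theorem card_le_mult {W : ℕ} (w : G →+ ZMod W) (v : G → ℤ) (hv : ∀ x, (v x : ZMod W) = w x)
    (A T : Finset G) (hZ : ZSF A) (hTA : T ⊆ A) (lo hi : ℕ)
    (hT : ∀ s ∈ T, (lo : ℤ) < |v s| ∧ |v s| ≤ hi) :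
    T.card ≤ Nat.card w.ker * (hi - lo) := by
  have h1 : T.card = ∑ i ∈ Finset.Ioc lo hi, (T.filter (fun s => (v s).natAbs = i)).card := by
    apply Finset.card_eq_sum_card_fiberwise
    intro s hs
    have := hT s hs
    rw [Finset.mem_coe, Finset.mem_Ioc]
    rw [Int.abs_eq_natAbs] at this
    show lo < (v s).natAbs ∧ (v s).natAbs ≤ hi
    omega
  rw [h1]
  calc ∑ i ∈ Finset.Ioc lo hi, (T.filter (fun s => (v s).natAbs = i)).card ≤
      ∑ i ∈ Finset.Ioc lo hi, Nat.card w.ker := by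
        apply Finset.sum_le_sum
        intro i hi
        rw [Finset.mem_Ioc] at hi
        refine le_trans (Finset.card_le_card ?_) (mult_le w v hv A hZ (i : ℤ) (by omega))
        intro x hx
        rw [Finset.mem_filter] at hx ⊢
        refine ⟨hTA hx.1, ?_⟩
        rw [Int.abs_eq_natAbs, hx.2]
    _ = Nat.card w.ker * (hi - lo) := by
        rw [Finset.sum_const, Nat.card_Ioc, smul_eq_mul, mul_comm]

theorem assemble {W : ℕ} (hW : 0 < W) (w : G →+ ZMod W) (hsurj : Function.Surjective w)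
    (A R : Finset G) (hZ : ZSF A) (hRA : R ⊆ A) (m q L : ℕ) (hm : A.card = m)
    (hM : 10 ^ 24 ≤ m) (hq : q = Nat.card w.ker) (hL0 : 0 < L) (hLW : L < W)
    (hR : ∀ t ∈ R, |(w t).valMinAbs| ≤ L) (hqL : 1000000 * (q * L) ≤ 1000001 * m)
    (hR1 : 9999999 * m ≤ 10000000 * (R.filter (fun x => w x ≠ 0)).card)
    (ht : 6 * 10 ^ 10 ≤ q → 8 * (A.filter (fun x => w x = 0)).card ≤ q)
    (hsum : A.subsetSum.card ≤ m ^ 2 / 2 + 1) : False := by
  have : NeZero W := ⟨by omega⟩
  have hqpos : 0 < q := by rw [hq]; exact Nat.card_pos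
  obtain ⟨v, hvdef⟩ : ∃ v : G → ℤ, v = fun x => (w x).valMinAbs := ⟨_, rfl⟩
  have hv : ∀ x, (v x : ZMod W) = w x := by
    intro x; rw [hvdef]; exact ZMod.coe_valMinAbs _
  have hvW : ∀ x, 2 * |v x| ≤ W := by
    intro x
    have h := ZMod.valMinAbs_mem_Ioc (w x)
    rw [Set.mem_Ioc] at h
    have h1 : v x = (w x).valMinAbs := by rw [hvdef]
    rw [← h1] at h
    rcases le_total 0 (v x) with h2 | h2
    · rw [abs_of_nonneg h2]; omega
    · rw [abs_of_nonpos h2]; omega
  have hv0 : ∀ x, v x = 0 ↔ w x = 0 := by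
    intro x; rw [hvdef]; exact ZMod.valMinAbs_eq_zero _
  obtain ⟨R1, hR1def⟩ : ∃ R1, R1 = R.filter (fun x => w x ≠ 0) := ⟨_, rfl⟩
  rw [← hR1def] at hR1
  have hR1A : R1 ⊆ A := by rw [hR1def]; exact (Finset.filter_subset _ _).trans hRA
  have hR1v : ∀ s ∈ R1, v s ≠ 0 ∧ |v s| ≤ L := by
    intro s hs
    rw [hR1def, Finset.mem_filter] at hs
    refine ⟨fun h => hs.2 ((hv0 s).1 h), ?_⟩
    have := hR s hs.1
    rw [hvdef]
    exact this
  have hR1le : R1.card ≤ q * L := by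
    have h := card_le_mult w v hv A R1 hZ hR1A 0 L (by
      intro s hs
      have h := hR1v s hs
      exact ⟨by have := abs_pos.2 h.1; simpa using this, h.2⟩)
    rw [hq]
    simpa using h
  obtain ⟨s, hs⟩ : ∃ s, s = R1.card - 1 := ⟨_, rfl⟩
  obtain ⟨D, hD⟩ : ∃ D, D = q * L - s := ⟨_, rfl⟩
  have hsL : q * L ≤ s + D := by omega
  have hsq : s ≤ q * L := by omega
  have hD5 : 500000 * D ≤ m := by omega
  have hsm : 999999 * m ≤ 1000000 * s := by omega
  obtain ⟨k, hk1, hk2⟩ := exists_k q hqpos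
  obtain ⟨h2E, h2E1, h2E2, h2E3⟩ := div_facts q (D + 2 * k) hqpos
  have hn1 := num1 m q L D k s hM hqpos hk2 hsL hsq hqL hD5 hsm hL0
  have hn2 := num2 m q L D k s hM hqpos hk2 hsL hsq hqL hD5 hsm hL0
  obtain ⟨J0, hJ0⟩ : ∃ J0, J0 = 2 * (D + 2 * k) / q + 1 := ⟨_, rfl⟩
  have hJ0L : J0 ≤ L := by
    rw [hJ0]
    have : 2 * (D + 2 * k) / q < L := by
      rw [Nat.div_lt_iff_lt_mul hqpos, mul_comm L q]
      exact hn1
    omega
  rw [← hJ0] at h2E1 h2E2 h2E3
  -- the small element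
  have hexa : ∃ a ∈ R1, |v a| ≤ J0 := by
    by_contra hcon
    push Not at hcon
    have h := card_le_mult w v hv A R1 hZ hR1A J0 L (fun s hs => ⟨hcon s hs, (hR1v s hs).2⟩)
    rw [← hq, Nat.mul_sub] at h
    have h3 : q * J0 = J0 * q := mul_comm _ _
    have h4 : q * J0 ≤ q * L := Nat.mul_le_mul_left _ hJ0L
    omega
  obtain ⟨a, haR1, haJ⟩ := hexa
  obtain ⟨S, hS⟩ : ∃ S, S = R1.erase a := ⟨_, rfl⟩
  have hScard : S.card = s := by rw [hS, Finset.card_erase_of_mem haR1, hs]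
  have hSR1 : S ⊆ R1 := by rw [hS]; exact Finset.erase_subset _ _
  have hasym : ∀ x ∈ S, ∀ y ∈ S, x ≠ y → x + y ≠ 0 := by
    intro x hx y hy hne h
    apply hZ {x, y} (by
      intro z hz; simp at hz; rcases hz with rfl | rfl
      · exact hR1A (hSR1 hx)
      · exact hR1A (hSR1 hy)) (by simp)
    rw [Finset.sum_pair hne, h]
  obtain ⟨αn, hαn⟩ : ∃ αn : ℕ, αn = k * J0 + (2 * ((D + 2 * k) / q) + 3) := ⟨_, rfl⟩
  have hIv := signed_cover w S v L D J0 k hW
    (fun x hx => ⟨(hR1v x (hSR1 hx)).1, (hR1v x (hSR1 hx)).2, hv x⟩) hasym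
    (by rw [← hq, hScard]; exact hsL) (by rw [← hq]; exact hk1) (by rw [← hq]; exact h2E1)
    hJ0L hLW (by rw [← hq]; exact hn2)
  rw [← hq, ← hαn] at hIv
  have hα1 : (1 : ℤ) ≤ (αn : ℤ) := by
    rw [hαn]
    push_cast
    have h1 : (0 : ℤ) ≤ k * J0 := by positivity
    have h2 : (0 : ℤ) ≤ ((D : ℤ) + 2 * k) / q := by positivity
    linarith
  have haα : |v a| ≤ (αn : ℤ) := by
    refine haJ.trans ?_
    have : J0 ≤ αn := by rw [hαn]; omega
    exact_mod_cast this
  have hqm : 1000000 * q ≤ 1000001 * m := by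
    have : q * 1 ≤ q * L := Nat.mul_le_mul_left _ hL0
    omega
  have hsmall : q < 6 * 10 ^ 10 → 1000 * ((q : ℤ) * (αn : ℤ)) ≤ m := by
    intro h
    have h1 := num3 m q L D k s hM hqpos hk2 hD5 h
    rw [← hJ0, ← hαn] at h1
    exact_mod_cast h1
  have hlarge : 6 * 10 ^ 10 ≤ q → 700 * (αn : ℤ) ≤ m := by
    intro h
    have h1 := num4 m q L D k hM hqpos hk2 hqm hD5 h
    rw [← hJ0, ← hαn] at h1
    exact_mod_cast h1
  -- the weight of S
  have hSv : ∀ i ∈ S, 1 ≤ (v i).natAbs := by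
    intro i hi
    have := Int.natAbs_pos.2 (hR1v i (hSR1 hi)).1
    omega
  have hmul : ∀ j : ℕ, (S.filter (fun i => (v i).natAbs = j)).card ≤ q := by
    intro j
    rcases Nat.eq_zero_or_pos j with hj | hj
    · have : S.filter (fun i => (v i).natAbs = j) = ∅ := by
        rw [Finset.filter_eq_empty_iff]
        intro x hx hc
        have := hSv x hx
        omega
      rw [this]; simp
    · rw [hq]
      refine le_trans (Finset.card_le_card ?_) (mult_le w v hv A hZ (j : ℤ) (by omega))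
      intro x hx
      rw [Finset.mem_filter] at hx ⊢
      refine ⟨hR1A (hSR1 hx.1), ?_⟩
      rw [Int.abs_eq_natAbs, hx.2]
  have hwS := wsum_ge q hqpos (fun i => (v i).natAbs) S hSv hmul
  have hwsum : ((∑ i ∈ S, (v i).natAbs : ℕ) : ℤ) = sp v S + sn v S := by
    rw [sp_add_sn]
    push_cast
    apply Finset.sum_congr rfl
    intro s _
    rfl
  rw [hScard] at hwS
  have hWq := Wq_ge q hqpos s
  obtain ⟨l, hl⟩ : ∃ l : ℕ, l = (sp v S + sn v S - 2 * (αn : ℤ) + 1).toNat := ⟨_, rfl⟩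
  have hwS' : (Wq q s : ℤ) ≤ sp v S + sn v S := by
    rw [← hwsum]; exact_mod_cast hwS
  have hbig : A.subsetSum.card < 2 * l * q := by
    apply numB m q s l (Wq q s) (αn : ℤ) A.subsetSum.card hM hqpos hα1 hqm hsmall hlarge hsm hWq _
      hsum
    omega
  have hlpos : (l : ℤ) ≤ sp v S + sn v S - 2 * (αn : ℤ) + 1 := by
    have : 0 < l := by
      rcases Nat.eq_zero_or_pos l with h | h
      · rw [h] at hbig; simp at hbig
      · exact h
    omega
  have hfin := finish hW w hsurj v hv hvW A S hZ m q hm hq (hSR1.trans hR1A) a (hR1A haR1)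
    (by rw [hS]; exact Finset.notMem_erase _ _) (hR1v a haR1).1 (αn : ℤ) hα1 hIv l hlpos hbig
    (by
      intro t ht2 ht3
      apply numN m q t (|v a|) (αn : ℤ) hM hqpos haα hα1 hqm hsmall _ ht3
      intro h
      refine ⟨hlarge h, ?_⟩
      have h1 := ht h
      have h2 : A.filter (fun x => w x = 0) = A.filter (fun x => v x = 0) := by
        ext x
        rw [Finset.mem_filter, Finset.mem_filter, hv0]
      rw [h2, ← ht2] at h1
      exact h1)
    (by
      intro h6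
      refine ⟨?_, haα⟩
      have h1 := hsmall (by omega)
      have h2 : (0 : ℤ) ≤ q * (αn : ℤ) := by positivity
      omega)
  omega

end Pool.Agent.Helper398
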