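import Mathlib
import Pool.Agent.Helper398.Final

set_option autoImplicit false

open Finset

namespace Pool.Agent.Helper398

/-- counting nonempty subset sums from all subset sums -/
theorem ncard_bridge {G : Type} [AddCommGroup G] [Finite G] [DecidableEq G] (A : Finset G)
    (T : Set G) (hT : ∀ s, s ∈ T ↔ ∃ B : Finset G, B ⊆ A ∧ B.Nonempty ∧ ∑ b ∈ B, b = s)
    (h0 : (0 : G) ∉ T) : T.ncard + 1 = A.subsetSum.card := by
  have h1 : (A.subsetSum : Set G) = insert 0 T := by
    ext s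
    rw [Finset.mem_coe, Finset.mem_subsetSum_iff, Set.mem_insert_iff, hT]
    constructor
    · rintro ⟨B, hB, rfl⟩
      by_cases hne : B.Nonempty
      · exact Or.inr ⟨B, hB, hne, rfl⟩
      · rw [Finset.not_nonempty_iff_eq_empty] at hne
        subst hne
        exact Or.inl Finset.sum_empty
    · rintro (rfl | ⟨B, hB, -, rfl⟩)
      · exact ⟨∅, Finset.empty_subset _, Finset.sum_empty⟩
      · exact ⟨B, hB, rfl⟩
  rw [← Set.ncard_coe_finset, h1, Set.ncard_insert_of_notMem h0 (Set.toFinite _)]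

theorem ZSF_of_notMem {G : Type} [AddCommGroup G] (A : Finset G)
    (T : Set G) (hT : ∀ s, s ∈ T ↔ ∃ B : Finset G, B ⊆ A ∧ B.Nonempty ∧ ∑ b ∈ B, b = s)
    (h0 : (0 : G) ∉ T) : ZSF A := by
  intro B hB hne hs
  exact h0 ((hT 0).2 ⟨B, hB, hne, hs⟩)

/-- the example {1, ..., m} in the cyclic group of order m(m+1)/2 + 1 -/
theorem example_card (m : ℕ) : ∃ A : Finset (ZMod (m * (m + 1) / 2 + 1)), A.card = m ∧
    ∀ B ⊆ A, B.Nonempty → ∑ b ∈ B, b ≠ 0 := by
  classical
  obtain ⟨N, hN⟩ : ∃ N, N = m * (m + 1) / 2 + 1 := ⟨_, rfl⟩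
  rw [← hN]
  have hsum : ∑ i ∈ Finset.Icc 1 m, i = N - 1 := by
    have h1 : ∑ i ∈ Finset.range (m + 1), i = m * (m + 1) / 2 := by
      rw [Finset.sum_range_id]
      rw [Nat.add_sub_cancel, mul_comm]
    have h2 : Finset.range (m + 1) = insert 0 (Finset.Icc 1 m) := by
      ext i
      simp only [Finset.mem_range, Finset.mem_insert, Finset.mem_Icc]
      omega
    rw [h2, Finset.sum_insert (by simp)] at h1
    omega
  have hmN : m < N := by
    have h3 : m ≤ ∑ i ∈ Finset.Icc 1 m, i := by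
      calc m = ∑ i ∈ Finset.Icc 1 m, 1 := by simp
        _ ≤ _ := Finset.sum_le_sum (fun i hi => (Finset.mem_Icc.1 hi).1)
    omega
  have hinj : Set.InjOn (fun i : ℕ => (i : ZMod N)) (Finset.Icc 1 m : Set ℕ) := by
    intro i hi j hj hij
    rw [Finset.mem_coe, Finset.mem_Icc] at hi hj
    simp only at hij
    rw [ZMod.natCast_eq_natCast_iff'] at hij
    rwa [Nat.mod_eq_of_lt (by omega), Nat.mod_eq_of_lt (by omega)] at hij
  refine ⟨(Finset.Icc 1 m).image (fun i : ℕ => (i : ZMod N)), ?_, ?_⟩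
  · rw [Finset.card_image_of_injOn hinj]
    simp
  · intro B hB hne h0
    rw [Finset.subset_image_iff] at hB
    obtain ⟨C, hC, rfl⟩ := hB
    have hCs : C ⊆ Finset.Icc 1 m := by exact_mod_cast hC
    rw [Finset.sum_image (fun x hx y hy h => hinj (hC hx) (hC hy) h), ← Nat.cast_sum,
      ZMod.natCast_eq_zero_iff] at h0
    have hCne : C.Nonempty := Finset.image_nonempty.1 hne
    have h4 : ∑ i ∈ C, i ≤ ∑ i ∈ Finset.Icc 1 m, i :=
      Finset.sum_le_sum_of_subset hCs
    have h5 : 0 < ∑ i ∈ C, i := by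
      apply Finset.sum_pos _ hCne
      intro i hi
      have := Finset.mem_Icc.1 (hCs hi)
      omega
    have h6 := Nat.le_of_dvd h5 h0
    omega

end Pool.Agent.Helper398
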