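import Mathlib
import Pool.Agent.Helper398.Growth

set_option autoImplicit false
set_option linter.unusedSectionVars false

open Finset
open scoped Pointwise ComplexConjugate

namespace Pool.Agent.Helper398

variable {G : Type*} [AddCommGroup G] [DecidableEq G]

/-- Parseval for real functions -/
theorem parseval [Fintype G] (f : G → ℝ) :
    ∑ ψ : AddChar G ℂ, ‖∑ w, (f w : ℂ) * ψ w‖ ^ 2 = Fintype.card G * ∑ w, f w ^ 2 := by
  have h1 : ∀ ψ : AddChar G ℂ, ((‖∑ w, (f w : ℂ) * ψ w‖ ^ 2 : ℝ) : ℂ) =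
      ∑ w, ∑ v, (f w : ℂ) * (f v : ℂ) * ψ (w - v) := by
    intro ψ
    have h2 := Complex.mul_conj' (∑ w, (f w : ℂ) * ψ w)
    push_cast
    rw [← h2, map_sum, Finset.sum_mul_sum]
    apply Finset.sum_congr rfl
    intro w _
    apply Finset.sum_congr rfl
    intro v _
    rw [map_mul, Complex.conj_ofReal, sub_eq_add_neg, AddChar.map_add_eq_mul,
      AddChar.map_neg_eq_conj]
    ring
  have h3 : ((∑ ψ : AddChar G ℂ, ‖∑ w, (f w : ℂ) * ψ w‖ ^ 2 : ℝ) : ℂ) =
      ((Fintype.card G * ∑ w, f w ^ 2 : ℝ) : ℂ) := by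
    rw [Complex.ofReal_sum]
    simp_rw [h1]
    rw [Finset.sum_comm]
    push_cast
    rw [Finset.mul_sum]
    apply Finset.sum_congr rfl
    intro w _
    rw [Finset.sum_comm]
    simp_rw [← Finset.mul_sum, AddChar.sum_apply_eq_ite, sub_eq_zero]
    simp only [mul_ite, mul_zero]
    rw [Finset.sum_ite_eq Finset.univ w]
    simp
    ring
  exact_mod_cast h3

/-- the tent function -/
noncomputable def tent (T : Finset G) (K : ℕ) (w : G) : ℝ :=
  ∑ k ∈ range K, if w ∈ it T k then (1 : ℝ) else 0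

theorem it_mono (T : Finset G) (h0 : (0 : G) ∈ T) {j k : ℕ} (h : j ≤ k) : it T j ⊆ it T k := by
  induction k with
  | zero =>
    have : j = 0 := by omega
    subst this; exact Finset.Subset.refl _
  | succ k ih =>
    rcases Nat.lt_or_ge j (k + 1) with h1 | h1
    · exact (ih (by omega)).trans (it_mono_succ T h0 k)
    · have : j = k + 1 := by omega
      subst this; exact Finset.Subset.refl _

theorem tent_nonneg (T : Finset G) (K : ℕ) (w : G) : 0 ≤ tent T K w := by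
  unfold tent
  apply Finset.sum_nonneg
  intro k _
  split_ifs <;> norm_num

theorem tent_zero_of_notMem (T : Finset G) (h0 : (0 : G) ∈ T) (K : ℕ) (w : G)
    (hw : w ∉ it T K) : tent T K w = 0 := by
  unfold tent
  apply Finset.sum_eq_zero
  intro k hk
  rw [Finset.mem_range] at hk
  rw [if_neg]
  intro h
  exact hw (it_mono T h0 hk.le h)

theorem tent_sub_le (T : Finset G) (K : ℕ) (w t : G) (ht : t ∈ T) :
    tent T K w - tent T K (w + t) ≤ 1 := by
  unfold tent
  cases K with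
  | zero => simp
  | succ K =>
    rw [Finset.sum_range_succ, Finset.sum_range_succ' (fun k => if w + t ∈ it T k then (1 : ℝ) else 0)]
    have h1 : ∑ k ∈ range K, (if w ∈ it T k then (1 : ℝ) else 0) ≤
        ∑ k ∈ range K, (if w + t ∈ it T (k + 1) then (1 : ℝ) else 0) := by
      apply Finset.sum_le_sum
      intro k _
      by_cases hw : w ∈ it T k
      · rw [if_pos hw, if_pos]
        exact Finset.add_mem_add hw ht
      · rw [if_neg hw]
        split_ifs <;> norm_num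
    have h2 : (if w ∈ it T K then (1 : ℝ) else 0) ≤ 1 := by split_ifs <;> norm_num
    have h3 : (0 : ℝ) ≤ (if w + t ∈ it T 0 then (1 : ℝ) else 0) := by split_ifs <;> norm_num
    linarith

theorem tent_lower (T : Finset G) (h0 : (0 : G) ∈ T) (K : ℕ) (w : G) (hw : w ∈ it T (K / 2)) :
    (K : ℝ) / 2 ≤ tent T K w := by
  unfold tent
  have h1 : range K = range (K / 2) ∪ (range K \ range (K / 2)) := by
    rw [Finset.union_sdiff_of_subset]
    apply Finset.range_subset_range.2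
    omega
  rw [h1, Finset.sum_union Finset.disjoint_sdiff]
  have h2 : (0 : ℝ) ≤ ∑ k ∈ range (K / 2), (if w ∈ it T k then (1 : ℝ) else 0) := by
    apply Finset.sum_nonneg
    intro k _
    split_ifs <;> norm_num
  have h3 : ∑ k ∈ range K \ range (K / 2), (if w ∈ it T k then (1 : ℝ) else 0) =
      ∑ k ∈ range K \ range (K / 2), (1 : ℝ) := by
    apply Finset.sum_congr rfl
    intro k hk
    rw [Finset.mem_sdiff, Finset.mem_range, Finset.mem_range] at hk
    rw [if_pos]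
    exact it_mono T h0 (by omega) hw
  rw [h3, Finset.sum_const, Finset.card_sdiff_of_subset (Finset.range_subset_range.2 (by omega)),
    Finset.card_range, Finset.card_range, nsmul_eq_mul, mul_one]
  have h4 : K ≤ 2 * (K - K / 2) := by omega
  have h5 : (K : ℝ) ≤ 2 * ((K - K / 2 : ℕ) : ℝ) := by exact_mod_cast h4
  linarith

/-- A set with moderate growth at some scale is almost annihilated by a nontrivial character. -/
theorem exists_char [Fintype G] (T : Finset G) (h0 : (0 : G) ∈ T) (hneg : ∀ t ∈ T, -t ∈ T)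
    (K : ℕ) (hK : 1 ≤ K) (hhalf : 2 * (it T K).card ≤ Fintype.card G) (C : ℝ)
    (hC : ((it T K).card : ℝ) ≤ C * (it T (K / 2)).card) :
    ∃ ψ : AddChar G ℂ, ψ ≠ 0 ∧ ∑ t ∈ T, ‖1 - ψ t‖ ^ 2 ≤ 8 * C * T.card / (K : ℝ) ^ 2 := by
  obtain ⟨f, hf⟩ : ∃ f, f = tent T K := ⟨_, rfl⟩
  obtain ⟨n, hn⟩ : ∃ n : ℝ, n = ((it T K).card : ℝ) := ⟨_, rfl⟩
  obtain ⟨N, hN⟩ : ∃ N : ℝ, N = (Fintype.card G : ℝ) := ⟨_, rfl⟩
  obtain ⟨S, hS⟩ : ∃ S : ℝ, S = ∑ w, f w ^ 2 := ⟨_, rfl⟩
  have hNpos : 0 < N := by rw [hN]; exact_mod_cast Fintype.card_pos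
  have hn2 : 2 * n ≤ N := by rw [hn, hN]; exact_mod_cast hhalf
  have hKr : (1 : ℝ) ≤ K := by exact_mod_cast hK
  -- the energy of f
  have hhalfcard : (0 : ℝ) < (it T (K / 2)).card := by
    have : (0 : G) ∈ it T (K / 2) := it_mono T h0 (Nat.zero_le _) (by simp [it])
    exact_mod_cast Finset.card_pos.2 ⟨0, this⟩
  have hSlow : ((it T (K / 2)).card : ℝ) * ((K : ℝ) / 2) ^ 2 ≤ S := by
    rw [hS, ← nsmul_eq_mul]
    have h1 : (it T (K / 2)).card • ((K : ℝ) / 2) ^ 2 ≤ ∑ w ∈ it T (K / 2), f w ^ 2 := by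
      apply Finset.card_nsmul_le_sum
      intro w hw
      apply pow_le_pow_left₀ (by positivity)
      rw [hf]
      exact tent_lower T h0 K w hw
    refine h1.trans (Finset.sum_le_sum_of_subset_of_nonneg (Finset.subset_univ _) ?_)
    intro w _ _
    positivity
  have hSpos : 0 < S := lt_of_lt_of_le (by positivity) hSlow
  -- differences
  have hdiff : ∀ t ∈ T, ∑ w, (f w - f (w - t)) ^ 2 ≤ n := by
    intro t ht
    have hz : ∀ w, w ∉ it T K → (f w - f (w - t)) ^ 2 = 0 := by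
      intro w hw
      have h1 : f w = 0 := by rw [hf]; exact tent_zero_of_notMem T h0 K w hw
      have h2 : f (w - t) = 0 := by
        rw [hf]
        unfold tent
        apply Finset.sum_eq_zero
        intro k hk
        rw [Finset.mem_range] at hk
        rw [if_neg]
        intro h
        apply hw
        have h3 : w ∈ it T (k + 1) := by
          have := Finset.add_mem_add h ht
          rwa [sub_add_cancel] at this
        exact it_mono T h0 (by omega) h3
      rw [h1, h2]; norm_num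
    rw [← Finset.sum_subset (Finset.subset_univ (it T K)) (fun w _ hw => hz w hw), hn]
    have h3 : ∑ w ∈ it T K, (f w - f (w - t)) ^ 2 ≤ ∑ w ∈ it T K, (1 : ℝ) := by
      apply Finset.sum_le_sum
      intro w _
      have h4 : f (w - t) - f w ≤ 1 := by
        have := tent_sub_le T K (w - t) t ht
        rw [sub_add_cancel, ← hf] at this
        exact this
      have h5 : f w - f (w - t) ≤ 1 := by
        have := tent_sub_le T K w (-t) (hneg t ht)
        rw [← sub_eq_add_neg, ← hf] at this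
        exact this
      nlinarith
    simpa using h3
  -- Fourier side of the differences
  have hfour : ∀ (t : G) (ψ : AddChar G ℂ), ∑ w, ((f w - f (w - t) : ℝ) : ℂ) * ψ w =
      (∑ w, (f w : ℂ) * ψ w) * (1 - ψ t) := by
    intro t ψ
    have h1 : ∑ w, ((f (w - t) : ℝ) : ℂ) * ψ w = ψ t * ∑ w, (f w : ℂ) * ψ w := by
      rw [Finset.mul_sum, ← Equiv.sum_comp (Equiv.addRight t)]
      apply Finset.sum_congr rfl
      intro w _
      simp only [Equiv.coe_addRight, add_sub_cancel_right, AddChar.map_add_eq_mul]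
      ring
    simp_rw [Complex.ofReal_sub, sub_mul]
    rw [Finset.sum_sub_distrib, h1]
    ring
  have hsumt : ∀ t ∈ T, ∑ ψ : AddChar G ℂ, ‖∑ w, (f w : ℂ) * ψ w‖ ^ 2 * ‖1 - ψ t‖ ^ 2 ≤ N * n := by
    intro t ht
    have h1 := parseval (fun w => f w - f (w - t))
    simp_rw [hfour t, norm_mul, mul_pow] at h1
    rw [h1, hN]
    exact mul_le_mul_of_nonneg_left (hdiff t ht) (by positivity)
  have htot : ∑ ψ : AddChar G ℂ, ‖∑ w, (f w : ℂ) * ψ w‖ ^ 2 * ∑ t ∈ T, ‖1 - ψ t‖ ^ 2 ≤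
      T.card * (N * n) := by
    simp_rw [Finset.mul_sum]
    rw [Finset.sum_comm, ← nsmul_eq_mul]
    exact Finset.sum_le_card_nsmul _ _ _ hsumt
  -- the trivial character
  have hpars := parseval f
  rw [← hN, ← hS] at hpars
  have htriv : ‖∑ w, (f w : ℂ) * (0 : AddChar G ℂ) w‖ ^ 2 ≤ n * S := by
    have h1 : ∑ w, (f w : ℂ) * (0 : AddChar G ℂ) w = ((∑ w ∈ it T K, f w : ℝ) : ℂ) := by
      simp only [AddChar.zero_apply, mul_one]
      push_cast
      rw [Finset.sum_subset (Finset.subset_univ (it T K))]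
      intro w _ hw
      rw [hf, tent_zero_of_notMem T h0 K w hw]
      simp
    rw [h1, Complex.norm_real, Real.norm_eq_abs, sq_abs, hn, hS]
    refine (sq_sum_le_card_mul_sum_sq (s := it T K) (f := f)).trans ?_
    apply mul_le_mul_of_nonneg_left _ (by positivity)
    exact Finset.sum_le_sum_of_subset_of_nonneg (Finset.subset_univ _)
      (fun w _ _ => by positivity)
  by_contra hcon
  push Not at hcon
  have hD0 : (0 : ℝ) ≤ 8 * C * T.card / (K : ℝ) ^ 2 := by
    have hC0 : 0 ≤ C := by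
      by_contra hC0
      push Not at hC0
      have : (0 : ℝ) ≤ (it T K).card := Nat.cast_nonneg _
      nlinarith
    positivity
  have hTpos : (0 : ℝ) < T.card := by exact_mod_cast Finset.card_pos.2 ⟨0, h0⟩
  have hlow : (8 * C * T.card / (K : ℝ) ^ 2) * (N * S - n * S) ≤ T.card * (N * n) := by
    refine le_trans ?_ htot
    have h1 : ∑ ψ : AddChar G ℂ, ‖∑ w, (f w : ℂ) * ψ w‖ ^ 2 * ∑ t ∈ T, ‖1 - ψ t‖ ^ 2 ≥
        ∑ ψ ∈ Finset.univ.erase (0 : AddChar G ℂ),
          ‖∑ w, (f w : ℂ) * ψ w‖ ^ 2 * (8 * C * T.card / (K : ℝ) ^ 2) := by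
      rw [← Finset.add_sum_erase Finset.univ _ (Finset.mem_univ (0 : AddChar G ℂ))]
      have h2 : (0 : ℝ) ≤ ‖∑ w, (f w : ℂ) * (0 : AddChar G ℂ) w‖ ^ 2 *
          ∑ t ∈ T, ‖1 - (0 : AddChar G ℂ) t‖ ^ 2 := by positivity
      have h3 : ∑ ψ ∈ Finset.univ.erase (0 : AddChar G ℂ),
          ‖∑ w, (f w : ℂ) * ψ w‖ ^ 2 * (8 * C * T.card / (K : ℝ) ^ 2) ≤
          ∑ ψ ∈ Finset.univ.erase (0 : AddChar G ℂ),
          ‖∑ w, (f w : ℂ) * ψ w‖ ^ 2 * ∑ t ∈ T, ‖1 - ψ t‖ ^ 2 := by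
        apply Finset.sum_le_sum
        intro ψ hψ
        apply mul_le_mul_of_nonneg_left _ (by positivity)
        exact (hcon ψ (Finset.ne_of_mem_erase hψ)).le
      linarith
    have h4 : ∑ ψ ∈ Finset.univ.erase (0 : AddChar G ℂ), ‖∑ w, (f w : ℂ) * ψ w‖ ^ 2 ≥
        N * S - n * S := by
      have h5 := Finset.add_sum_erase Finset.univ
        (fun ψ : AddChar G ℂ => ‖∑ w, (f w : ℂ) * ψ w‖ ^ 2) (Finset.mem_univ (0 : AddChar G ℂ))
      rw [hpars] at h5
      linarith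
    rw [← Finset.sum_mul] at h1
    have h6 := mul_le_mul_of_nonneg_right h4 hD0
    linarith
  -- strictness
  have hne : ∃ ψ : AddChar G ℂ, ψ ≠ 0 ∧ ‖∑ w, (f w : ℂ) * ψ w‖ ^ 2 ≠ 0 := by
    by_contra hall
    push Not at hall
    have h5 := Finset.add_sum_erase Finset.univ
      (fun ψ : AddChar G ℂ => ‖∑ w, (f w : ℂ) * ψ w‖ ^ 2) (Finset.mem_univ (0 : AddChar G ℂ))
    rw [hpars, Finset.sum_eq_zero (fun ψ hψ => hall ψ (Finset.ne_of_mem_erase hψ)), add_zero] at h5
    rw [h5] at htriv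
    nlinarith
  obtain ⟨ψ₀, hψ0, hψ1⟩ := hne
  have hlt : (8 * C * T.card / (K : ℝ) ^ 2) * (N * S - n * S) < T.card * (N * n) := by
    refine lt_of_lt_of_le ?_ htot
    have h1 : ∑ ψ ∈ Finset.univ.erase (0 : AddChar G ℂ),
          ‖∑ w, (f w : ℂ) * ψ w‖ ^ 2 * (8 * C * T.card / (K : ℝ) ^ 2) <
          ∑ ψ ∈ Finset.univ.erase (0 : AddChar G ℂ),
          ‖∑ w, (f w : ℂ) * ψ w‖ ^ 2 * ∑ t ∈ T, ‖1 - ψ t‖ ^ 2 := by
      apply Finset.sum_lt_sum
      · intro ψ hψ
        apply mul_le_mul_of_nonneg_left _ (by positivity)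
        exact (hcon ψ (Finset.ne_of_mem_erase hψ)).le
      · refine ⟨ψ₀, Finset.mem_erase.2 ⟨hψ0, Finset.mem_univ _⟩, ?_⟩
        apply mul_lt_mul_of_pos_left (hcon ψ₀ hψ0)
        exact lt_of_le_of_ne (by positivity) (Ne.symm hψ1)
    have h2 : (0 : ℝ) ≤ ‖∑ w, (f w : ℂ) * (0 : AddChar G ℂ) w‖ ^ 2 *
          ∑ t ∈ T, ‖1 - (0 : AddChar G ℂ) t‖ ^ 2 := by positivity
    have h3 := Finset.add_sum_erase Finset.univ
      (fun ψ : AddChar G ℂ => ‖∑ w, (f w : ℂ) * ψ w‖ ^ 2 * ∑ t ∈ T, ‖1 - ψ t‖ ^ 2)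
      (Finset.mem_univ (0 : AddChar G ℂ))
    have h4 : ∑ ψ ∈ Finset.univ.erase (0 : AddChar G ℂ), ‖∑ w, (f w : ℂ) * ψ w‖ ^ 2 ≥
        N * S - n * S := by
      have h5 := Finset.add_sum_erase Finset.univ
        (fun ψ : AddChar G ℂ => ‖∑ w, (f w : ℂ) * ψ w‖ ^ 2) (Finset.mem_univ (0 : AddChar G ℂ))
      rw [hpars] at h5
      linarith
    rw [← Finset.sum_mul] at h1
    have h6 := mul_le_mul_of_nonneg_right h4 hD0
    linarith
  -- conclusion
  have h7 : N * S - n * S ≥ N * S / 2 := by nlinarith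
  have h8 : (8 * C * T.card / (K : ℝ) ^ 2) * (N * S / 2) < T.card * (N * n) :=
    lt_of_le_of_lt (mul_le_mul_of_nonneg_left h7 hD0) hlt
  have h9 : (8 * C * T.card / (K : ℝ) ^ 2) * (N * S / 2) = T.card * N * (4 * C * S / (K : ℝ) ^ 2) := by
    field_simp
    ring
  rw [h9, ← mul_assoc] at h8
  have h10 : 4 * C * S / (K : ℝ) ^ 2 < n := lt_of_mul_lt_mul_left h8 (by positivity)
  rw [div_lt_iff₀ (by positivity)] at h10
  have hC0 : 0 ≤ C := by
    by_contra hC0
    push Not at hC0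
    have : (0 : ℝ) ≤ (it T K).card := Nat.cast_nonneg _
    nlinarith
  have h11 : C * (((it T (K / 2)).card : ℝ) * ((K : ℝ) / 2) ^ 2) ≤ C * S :=
    mul_le_mul_of_nonneg_left hSlow hC0
  have h12 : n * (K : ℝ) ^ 2 ≤ C * (it T (K / 2)).card * (K : ℝ) ^ 2 := by
    rw [hn]
    exact mul_le_mul_of_nonneg_right hC (by positivity)
  nlinarith

end Pool.Agent.Helper398
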