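import Mathlib
import Pool.Agent.Helper398.Four

set_option autoImplicit false
set_option linter.unusedSectionVars false

open Finset
open scoped Pointwise

namespace Pool.Agent.Helper398

/-- translating a finite set of integers by M gives at least as many new elements as there are
residue classes -/
theorem residues_le (S : Finset ℤ) (M : ℕ) (hM : 0 < M) :
    (S.image (fun x : ℤ => (x : ZMod M))).card ≤ (((M : ℤ) +ᵥ S) \ S).card := by
  have hsub : S.image (fun x : ℤ => (x : ZMod M)) ⊆
      (((M : ℤ) +ᵥ S) \ S).image (fun x : ℤ => (x : ZMod M)) := by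
    intro c hc
    rw [Finset.mem_image] at hc
    obtain ⟨x0, hx0, hx0c⟩ := hc
    obtain ⟨F, hF⟩ : ∃ F, F = S.filter (fun x : ℤ => (x : ZMod M) = c) := ⟨_, rfl⟩
    have hFne : F.Nonempty := ⟨x0, by rw [hF, Finset.mem_filter]; exact ⟨hx0, hx0c⟩⟩
    obtain ⟨x, hx, hxmax⟩ := Finset.exists_max_image F id hFne
    have hxS : x ∈ S ∧ ((x : ℤ) : ZMod M) = c := by rw [hF, Finset.mem_filter] at hx; exact hx
    rw [Finset.mem_image]
    refine ⟨(M : ℤ) + x, ?_, ?_⟩
    · rw [Finset.mem_sdiff]
      refine ⟨Finset.vadd_mem_vadd_finset hxS.1, ?_⟩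
      intro h
      have h1 : (M : ℤ) + x ∈ F := by
        rw [hF, Finset.mem_filter]
        refine ⟨h, ?_⟩
        push_cast
        simp [hxS.2]
      have h2 := hxmax _ h1
      simp only [id] at h2
      omega
    · push_cast
      simp [hxS.2]
  exact (Finset.card_le_card hsub).trans Finset.card_image_le

theorem residues_two (S W : Finset ℤ) (M : ℕ) (hM : 0 < M) (h0 : S ⊆ W)
    (h1 : ((M : ℤ) +ᵥ S) ⊆ W) (h2 : ((-M : ℤ) +ᵥ S) ⊆ W) :
    S.card + 2 * (S.image (fun x : ℤ => (x : ZMod M))).card ≤ W.card := by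
  obtain ⟨S', hS'⟩ : ∃ S', S' = S ∪ ((M : ℤ) +ᵥ S) := ⟨_, rfl⟩
  have ha := residues_le S M hM
  have hb : S'.card = S.card + (((M : ℤ) +ᵥ S) \ S).card := by
    rw [hS', ← Finset.union_sdiff_self_eq_union, Finset.card_union_of_disjoint Finset.disjoint_sdiff]
  -- the lower translates
  obtain ⟨S'', hS''⟩ : ∃ S'', S'' = ((-M : ℤ) +ᵥ S') := ⟨_, rfl⟩
  have hc := residues_le S'' M hM
  have hd : (M : ℤ) +ᵥ S'' = S' := by
    rw [hS'']
    rw [← add_vadd]
    simp
  rw [hd] at hc
  have he : (S' \ S'').card = (S'' \ S').card := by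
    have h5 : S'.card = S''.card := by rw [hS'', Finset.card_vadd_finset]
    have h3 := Finset.card_sdiff_add_card_inter S' S''
    have h4 := Finset.card_sdiff_add_card_inter S'' S'
    rw [Finset.inter_comm] at h4
    omega
  have hf : S.image (fun x : ℤ => (x : ZMod M)) ⊆ S''.image (fun x : ℤ => (x : ZMod M)) := by
    intro c hc
    rw [Finset.mem_image] at hc ⊢
    obtain ⟨x, hx, hxc⟩ := hc
    refine ⟨(-M : ℤ) + x, ?_, ?_⟩
    · rw [hS'']
      apply Finset.vadd_mem_vadd_finset
      rw [hS', Finset.mem_union]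
      exact Or.inl hx
    · push_cast
      simp [hxc]
  have hg := Finset.card_le_card hf
  have hh : S' ∪ (S'' \ S') ⊆ W := by
    apply Finset.union_subset
    · rw [hS']; exact Finset.union_subset h0 h1
    · intro x hx
      rw [Finset.mem_sdiff, hS'', hS'] at hx
      rw [Finset.vadd_finset_union, Finset.mem_union, Finset.mem_union] at hx
      rcases hx.1 with h | h
      · exact h2 h
      · rw [← add_vadd] at h
        simp only [neg_add_cancel, zero_vadd] at h
        exact h0 h
  have hi := Finset.card_le_card hh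
  rw [Finset.card_union_of_disjoint Finset.disjoint_sdiff] at hi
  omega

/-- very small doubling of a symmetric set -/
theorem symm_doubling {H : Type*} [AddCommGroup H] [DecidableEq H] (X : Finset H)
    (hneg : ∀ x ∈ X, -x ∈ X) (hd : 2 * (X + X).card < 3 * X.card) :
    ∀ x ∈ X + X, ∀ y ∈ X + X, x + y ∈ X + X := by
  have key : ∀ x ∈ X + X, X.card < 2 * (X ∩ (x +ᵥ X)).card := by
    intro x hx
    rw [Finset.mem_add] at hx
    obtain ⟨a, ha, b, hb, rfl⟩ := hx
    have h1 : (-a +ᵥ X) ⊆ X + X := by
      intro z hz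
      rw [Finset.mem_vadd_finset] at hz
      obtain ⟨w, hw, rfl⟩ := hz
      exact Finset.add_mem_add (hneg a ha) hw
    have h2 : (b +ᵥ X) ⊆ X + X := by
      intro z hz
      rw [Finset.mem_vadd_finset] at hz
      obtain ⟨w, hw, rfl⟩ := hz
      exact Finset.add_mem_add hb hw
    have h3 := Finset.card_le_card (Finset.union_subset h1 h2)
    have h4 := Finset.card_union_add_card_inter (-a +ᵥ X) (b +ᵥ X)
    rw [Finset.card_vadd_finset, Finset.card_vadd_finset] at h4
    have h5 : (X ∩ ((a + b) +ᵥ X)).card = ((-a +ᵥ X) ∩ (b +ᵥ X)).card := by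
      rw [← Finset.card_vadd_finset (-a) (X ∩ ((a + b) +ᵥ X)), Finset.vadd_finset_inter,
        ← add_vadd]
      congr 3
      abel
    omega
  intro x hx y hy
  have hx' := key x hx
  have hy' := key y hy
  have h1 : (X ∩ (-x +ᵥ X)).card = (X ∩ (x +ᵥ X)).card := by
    rw [← Finset.card_vadd_finset x (X ∩ (-x +ᵥ X)), Finset.vadd_finset_inter, vadd_neg_vadd,
      Finset.inter_comm]
  have h2 : ((X ∩ (-x +ᵥ X)) ∩ (X ∩ (y +ᵥ X))).Nonempty := by
    rw [← Finset.card_pos]
    have h3 := Finset.card_union_add_card_inter (X ∩ (-x +ᵥ X)) (X ∩ (y +ᵥ X))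
    have h4 := Finset.card_le_card (Finset.union_subset
      (Finset.inter_subset_left : X ∩ (-x +ᵥ X) ⊆ X) (Finset.inter_subset_left : X ∩ (y +ᵥ X) ⊆ X))
    omega
  obtain ⟨z, hz⟩ := h2
  rw [Finset.mem_inter, Finset.mem_inter, Finset.mem_inter, Finset.mem_vadd_finset,
    Finset.mem_vadd_finset] at hz
  obtain ⟨⟨hz1, u, hu, hu2⟩, hz2, v, hv, hv2⟩ := hz
  -- z = -x + u, z = y + v, so x + y = u - v
  have h3 : x + y = u + -v := by
    have e1 : u = x + z := by rw [← hu2, vadd_eq_add]; abel
    have e2 : v = -y + z := by rw [← hv2, vadd_eq_add]; abel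
    rw [e1, e2]; abel
  rw [h3]
  exact Finset.add_mem_add hu (hneg v hv)

theorem image_it {G H : Type*} [AddCommGroup G] [AddCommGroup H] [DecidableEq G] [DecidableEq H]
    (f : G →+ H) (T : Finset G) (j : ℕ) : (it T j).image f = it (T.image f) j := by
  induction j with
  | zero => simp [it]
  | succ j ih =>
    show (it T j + T).image f = it (T.image f) j + T.image f
    rw [Finset.image_add, ih]

/-- The structure of symmetric sets of integers with small iterated sumset. -/
theorem int_structure (U : Finset ℤ) (hneg : ∀ u ∈ U, -u ∈ U) (h0 : (0 : ℤ) ∈ U)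
    (hne : ∃ u ∈ U, u ≠ 0) (δ : ℝ) (hδ : 0 < δ) (hδ2 : δ < 1 / 4) (J : ℕ)
    (hJ : 1 + 4 * δ ≤ δ * J)
    (hU : ((it U J).card : ℝ) ≤ (1 + δ) * J * (U.card - 1)) :
    ∃ g h : ℕ, 0 < g ∧ (∀ u ∈ U, (g : ℤ) ∣ u ∧ |u| ≤ g * h) ∧
      2 * (h : ℝ) ≤ (1 + 2 * δ) * (U.card - 1) := by
  -- the largest element
  obtain ⟨M', hM'U, hM'max⟩ := Finset.exists_max_image U id ⟨0, h0⟩
  simp only [id] at hM'max
  have hM'pos : 0 < M' := by
    obtain ⟨u, hu, hu0⟩ := hne
    rcases lt_or_gt_of_ne hu0 with h | h
    · have := hM'max _ (hneg u hu)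
      omega
    · have := hM'max _ hu
      omega
  obtain ⟨M, hM⟩ : ∃ M : ℕ, (M : ℤ) = M' := ⟨M'.toNat, Int.toNat_of_nonneg hM'pos.le⟩
  subst hM
  have hMpos : 0 < M := by omega
  have : NeZero M := ⟨by omega⟩
  obtain ⟨π, hπ⟩ : ∃ π : ℤ →+ ZMod M, π = Int.castAddHom (ZMod M) := ⟨_, rfl⟩
  have hπe : ∀ S : Finset ℤ, S.image (fun x : ℤ => (x : ZMod M)) = S.image π := by
    intro S; rw [hπ]; rfl
  obtain ⟨X, hX⟩ : ∃ X, X = U.image π := ⟨_, rfl⟩
  have hX0 : (0 : ZMod M) ∈ X := by
    rw [hX, Finset.mem_image]; exact ⟨0, h0, map_zero π⟩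
  have hXneg : ∀ x ∈ X, -x ∈ X := by
    intro x hx
    rw [hX, Finset.mem_image] at hx ⊢
    obtain ⟨u, hu, rfl⟩ := hx
    exact ⟨-u, hneg u hu, map_neg π u⟩
  -- growth
  have hstep : ∀ j, (it U j).card + 2 * (it X j).card ≤ (it U (j + 1)).card := by
    intro j
    have h1 := residues_two (it U j) (it U (j + 1)) M hMpos (it_mono_succ U h0 j) (by
      intro z hz
      rw [Finset.mem_vadd_finset] at hz
      obtain ⟨y, hy, rfl⟩ := hz
      rw [vadd_eq_add, add_comm (M : ℤ) y]
      exact Finset.add_mem_add hy hM'U) (by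
      intro z hz
      rw [Finset.mem_vadd_finset] at hz
      obtain ⟨y, hy, rfl⟩ := hz
      rw [vadd_eq_add, add_comm (-M : ℤ) y]
      exact Finset.add_mem_add hy (hneg _ hM'U))
    rw [hπe, image_it, ← hX] at h1
    exact h1
  have hXU : U.card ≤ 2 * X.card + 1 := by
    -- each class contains at most two elements of U other than M
    have h1 : (U.erase (M : ℤ)).card ≤ 2 * X.card := by
      have h2 : ∀ c ∈ X, ((U.erase (M : ℤ)).filter (fun u => π u = c)).card ≤ 2 := by
        intro c _
        by_contra hcon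
        push Not at hcon
        obtain ⟨F, hF⟩ : ∃ F, F = (U.erase (M : ℤ)).filter (fun u => π u = c) := ⟨_, rfl⟩
        rw [← hF] at hcon
        have hFm : ∀ u ∈ F, (-M : ℤ) ≤ u ∧ u < M ∧ π u = c := by
          intro u hu
          rw [hF, Finset.mem_filter, Finset.mem_erase] at hu
          have h3 := hM'max u hu.1.2
          have h4 := hM'max (-u) (hneg u hu.1.2)
          refine ⟨by omega, lt_of_le_of_ne h3 hu.1.1, hu.2⟩
        obtain ⟨a, ha, b, hb, e, he, hab, hae, hbe⟩ := Finset.two_lt_card.1 hcon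
        have hpair : ∀ u ∈ F, ∀ v ∈ F, u ≠ v → u = v + M ∨ u = v - M := by
          intro u hu v hv huv
          have hu' := hFm u hu
          have hv' := hFm v hv
          have h6 : ((u : ℤ) : ZMod M) = ((v : ℤ) : ZMod M) := by
            have := hu'.2.2.trans hv'.2.2.symm
            rw [hπ] at this
            exact this
          rw [ZMod.intCast_eq_intCast_iff_dvd_sub] at h6
          obtain ⟨k, hk⟩ := h6
          have hk1 : k < 2 := by
            by_contra hc
            push Not at hc
            nlinarith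
          have hk2 : -2 < k := by
            by_contra hc
            push Not at hc
            nlinarith
          have hk3 : k ≠ 0 := by
            rintro rfl
            apply huv
            rw [mul_zero] at hk
            omega
          have hk4 : k = 1 ∨ k = -1 := by omega
          rcases hk4 with rfl | rfl
          · right; omega
          · left; omega
        have h7 := hpair a ha b hb hab
        have h8 := hpair a ha e he hae
        have h9 := hpair b hb e he hbe
        have ha' := hFm a ha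
        have hb' := hFm b hb
        have he' := hFm e he
        omega
      exact Finset.card_le_mul_card_image_of_maps_to (f := π) (t := X) (by
        intro u hu
        rw [hX]
        exact Finset.mem_image_of_mem _ (Finset.mem_of_mem_erase hu)) 2 h2
    have h2 := Finset.card_erase_add_one hM'U
    omega
  -- the sum over the levels
  have hit1 : (it X 1) = X := by
    show {0} + X = X
    rw [Finset.singleton_zero, zero_add]
  have hit2 : (it X 2) = X + X := by
    show it X 1 + X = X + X
    rw [hit1]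
  have hlev : ∀ i, 1 + 2 + 2 * X.card + 2 * i * (X + X).card ≤ (it U (i + 2)).card := by
    intro i
    induction i with
    | zero =>
      have h1 := hstep 0
      have h2 := hstep 1
      rw [hit1] at h2
      have h3 : (it U 0).card = 1 := by simp [it]
      have h4 : (it X 0).card = 1 := by simp [it]
      simp only [zero_add] at h1 h2 ⊢
      have h5 : (it U (1 + 1)).card = (it U 2).card := rfl
      omega
    | succ i ih =>
      have h1 := hstep (i + 2)
      have h2 : (X + X).card ≤ (it X (i + 2)).card := by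
        rw [← hit2]
        exact Finset.card_le_card (it_mono X hX0 (by omega))
      have e : 2 * (i + 1) * (X + X).card = 2 * i * (X + X).card + 2 * (X + X).card := by ring
      have e2 : i + 1 + 2 = i + 2 + 1 := by ring
      rw [e, e2]
      omega
  have hJ2 : 5 ≤ J := by
    by_contra hcon
    have h1 : J ≤ 4 := by omega
    have h2 : (J : ℝ) ≤ 4 := by exact_mod_cast h1
    nlinarith
  obtain ⟨i, hi⟩ : ∃ i, J = i + 2 := ⟨J - 2, by omega⟩
  have h1 := hlev i
  rw [← hi] at h1
  have h2 : (3 : ℝ) + 2 * X.card + 2 * i * (X + X).card ≤ (it U J).card := by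
    have : ((1 + 2 + 2 * X.card + 2 * i * (X + X).card : ℕ) : ℝ) ≤ (it U J).card := by
      exact_mod_cast h1
    push_cast at this
    linarith
  have h3 : (U.card : ℝ) ≤ 2 * X.card + 1 := by exact_mod_cast hXU
  obtain ⟨τ, hτ⟩ : ∃ τ : ℝ, τ = U.card - 1 := ⟨_, rfl⟩
  obtain ⟨D, hD⟩ : ∃ D : ℝ, D = ((X + X).card : ℝ) := ⟨_, rfl⟩
  obtain ⟨x, hx⟩ : ∃ x : ℝ, x = (X.card : ℝ) := ⟨_, rfl⟩
  rw [← hD, ← hx] at h2
  rw [← hx] at h3
  rw [← hτ] at hU ⊢
  have hJi : (J : ℝ) = i + 2 := by rw [hi]; push_cast; ring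
  have hτ0 : 0 < τ := by
    rw [hτ]
    have h4 : 1 < U.card := by
      obtain ⟨u, hu, hu0⟩ := hne
      exact Finset.one_lt_card.2 ⟨u, hu, 0, h0, hu0⟩
    have : (1 : ℝ) < U.card := by exact_mod_cast h4
    linarith
  have hi0 : (1 : ℝ) ≤ i := by
    have : 1 ≤ i := by omega
    exact_mod_cast this
  have h4 : 2 * i * D ≤ (1 + 2 * δ) * i * τ := by
    have h5 : (3 : ℝ) + τ + 2 * i * D ≤ (1 + δ) * J * τ := by linarith
    rw [hJi] at h5 hJ
    nlinarith
  have h5 : 2 * D ≤ (1 + 2 * δ) * τ := by
    have : (2 * D) * i ≤ ((1 + 2 * δ) * τ) * i := by linarith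
    exact le_of_mul_le_mul_right this (by linarith)
  have h6 : 2 * (X + X).card < 3 * X.card := by
    have h7 : τ ≤ 2 * x := by linarith
    have h8 : 2 * D < 3 * x := by nlinarith
    rw [hD, hx] at h8
    exact_mod_cast h8
  have hclosed := symm_doubling X hXneg h6
  -- the subgroup
  obtain ⟨Hs, hHs⟩ : ∃ Hs : AddSubgroup (ZMod M), ∀ z, z ∈ Hs ↔ z ∈ X + X :=
    ⟨{ carrier := {z | z ∈ X + X}
       zero_mem' := by
        show (0 : ZMod M) ∈ X + X
        simpa using Finset.add_mem_add hX0 hX0
       add_mem' := by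
        intro a b ha hb
        exact hclosed a ha b hb
       neg_mem' := by
        intro a ha
        show -a ∈ X + X
        have ha' : a ∈ X + X := ha
        rw [Finset.mem_add] at ha'
        obtain ⟨u, hu, v, hv, rfl⟩ := ha'
        rw [neg_add]
        exact Finset.add_mem_add (hXneg u hu) (hXneg v hv) }, fun z => Iff.rfl⟩
  obtain ⟨h, hh⟩ : ∃ h, h = (X + X).card := ⟨_, rfl⟩
  have hcardH : Nat.card Hs = h := by
    have h7 : (Hs : Set (ZMod M)) = ((X + X : Finset (ZMod M)) : Set (ZMod M)) := by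
      ext z
      rw [SetLike.mem_coe, hHs, Finset.mem_coe]
    have h8 : Nat.card Hs = Nat.card (Hs : Set (ZMod M)) := rfl
    rw [h8, h7, Nat.card_coe_set_eq, Set.ncard_coe_finset, hh]
  have hdvd : h ∣ M := by
    have h7 := AddSubgroup.card_addSubgroup_dvd_card Hs
    rw [hcardH, Nat.card_zmod] at h7
    exact h7
  obtain ⟨g, hg⟩ := hdvd
  have hg0 : 0 < g := by
    rcases Nat.eq_zero_or_pos g with h7 | h7
    · rw [h7, mul_zero] at hg; omega
    · exact h7
  have hh0 : 0 < h := by
    rcases Nat.eq_zero_or_pos h with h7 | h7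
    · rw [h7, zero_mul] at hg; omega
    · exact h7
  refine ⟨g, h, hg0, ?_, ?_⟩
  · intro u hu
    have h7 : π u ∈ Hs := by
      rw [hHs]
      have : π u ∈ X := by rw [hX]; exact Finset.mem_image_of_mem _ hu
      simpa using Finset.add_mem_add this hX0
    constructor
    · have h8 : h • (π u) = 0 := by
        have h9 : h • (⟨π u, h7⟩ : Hs) = 0 := by
          rw [← hcardH]
          exact card_nsmul_eq_zero'
        have h10 := congrArg (Subtype.val) h9
        simpa using h10
      rw [hπ] at h8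
      have h9 : (((h : ℤ) * u : ℤ) : ZMod M) = 0 := by
        push_cast
        simpa using h8
      rw [ZMod.intCast_zmod_eq_zero_iff_dvd, hg] at h9
      push_cast at h9
      exact Int.dvd_of_mul_dvd_mul_left (by omega) h9
    · have h8 := hM'max u hu
      have h9 := hM'max (-u) (hneg u hu)
      rw [abs_le]
      have h10 : (M : ℤ) = g * h := by rw [hg]; push_cast; ring
      omega
  · have : (h : ℝ) = D := by rw [hh, hD]
    rw [this]
    exact h5

end Pool.Agent.Helper398
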