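import Mathlib
import Pool.Agent.Helper398.NS2

set_option autoImplicit false
set_option linter.unusedSectionVars false

open Finset
open scoped Pointwise

namespace Pool.Agent.Helper398

variable {G : Type*} [AddCommGroup G] [DecidableEq G]

/-- threshold -/
noncomputable def thr' (η : ℝ) : ℝ :=
  5760 / η ^ 2 + 1152 * (4 / η) + 288 * (4 / η) / (η / 4608) ^ 2 + 2 / (η / 4608)

/-- the linear loss constant -/
noncomputable def bet' (η : ℝ) : ℝ := 4 / η + thr' η

/-- every subset of R has a wide symmetric set -/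
def Wide (θ : ℝ) (R : Finset G) : Prop :=
  ∀ R' ⊆ R, 2 * (θ * (R'.card : ℝ)) + 1 ≤ ((sym R').card : ℝ)

theorem Wide.mono {θ : ℝ} {S R : Finset G} (h : Wide θ S) (hRS : R ⊆ S) : Wide θ R :=
  fun R' hR' => h R' (hR'.trans hRS)

/-! pure arithmetic -/

theorem ar1 (θ x : ℝ) (hθ : 1 / 2 ≤ θ) (hx : 0 ≤ x) : x ≤ 2 * (θ * x) := by nlinarith

theorem ar2 (θ x : ℝ) (hθ : θ ≤ 1) (hx : 0 ≤ x) : θ * x ≤ x := by nlinarith

theorem ar3 (θ x u p : ℝ) (hθ : 1 / 2 ≤ θ) (hx : 0 ≤ x) (hu : 0 ≤ u)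
    (h : (1 - 1 / 1152) * u ≤ x) (hp : p ≤ u) : p / 4 ≤ θ * x := by nlinarith

theorem ar4 (a b : ℝ) (ha : 0 ≤ a) (hb : a ≤ b) : 0 ≤ b ^ 2 - (b - a) ^ 2 := by nlinarith

theorem ar5 (u n : ℝ) (hu : 0 ≤ u) (hn0 : 0 ≤ n) (hn : n ≤ (1 - 1 / 1152) * u + 1)
    (h16 : 16 ≤ u / 1152) : u * (u / 1152 - 1) ≤ u ^ 2 - n ^ 2 := by nlinarith

theorem ar6 (η θ u t : ℝ) (hη : 0 < η) (hη2 : η < 1 / 4) (hθ : 1 / 2 ≤ θ)
    (ht : t ≤ η * (1 / 1152) * u / 4 + 1) (h2 : 2 ≤ η * (1 / 1152) * u / 4) (hu : 1 ≤ u / 1152) :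
    t ≤ η * θ * (u / 1152 - 1) := by
  have h6 : η * (1 / 2) * (u / 1152 - 1) ≤ η * θ * (u / 1152 - 1) := by
    apply mul_le_mul_of_nonneg_right _ (by linarith)
    apply mul_le_mul_of_nonneg_left hθ hη.le
  nlinarith

theorem ar7 (a u t : ℝ) (ha : 0 ≤ a) (ha2 : 2 * a ≤ 1) (hu : 0 ≤ u) (ht : 0 ≤ t) :
    a * (u - t) ^ 2 ≥ a * u ^ 2 - u * t := by
  have h11 : 0 ≤ a * t ^ 2 := mul_nonneg ha (sq_nonneg _)
  have h13 : 2 * a * (u * t) ≤ 1 * (u * t) := mul_le_mul_of_nonneg_right ha2 (mul_nonneg hu ht)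
  nlinarith

theorem ar8 (u v : ℝ) (hv : (1 - 1 / 1152) * u ≤ v) (hu : 0 ≤ u) :
    (1 - 1 / 288) * u ^ 2 ≤ 2 * v ^ 2 - u ^ 2 := by
  have : ((1 - 1 / 1152) * u) ^ 2 ≤ v ^ 2 := by
    apply pow_le_pow_left₀ _ hv
    nlinarith
  nlinarith [sq_nonneg u]

theorem ar9 (α u : ℝ) (hα : α ≤ 1 / 2) (hu : 0 ≤ u) :
    (α - 1 / 288) * u + u / 576 ≤ α * (1 - 1 / 288) * u := by nlinarith

theorem ar10 (θ η : ℝ) (hθ : 1 / 2 ≤ θ) (hθ2 : θ ≤ 1) (hη : 0 < η) (hη2 : η < 1 / 4) :
    θ * (1 / 2 - 2 * η) ≤ 1 / 2 := by nlinarith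

theorem split_bound' (X R : Finset G) (hd : Disjoint X R) (c : G) (hc : c ∈ X.subsetSum) (e : ℝ)
    (hc2 : ((toSub (AddSubgroup.closure (R : Set G)) (-c +ᵥ X.subsetSum)).card : ℝ) ≤ e) :
    (X.subsetSum.card : ℝ) - e + R.subsetSum.card ≤ (X ∪ R).subsetSum.card := by
  classical
  obtain ⟨Bc, hBc⟩ : ∃ Bc : Finset G, Bc = X.subsetSum.filter
    (fun y => -c + y ∈ AddSubgroup.closure (R : Set G)) := ⟨_, rfl⟩
  have h1 : Bc ⊆ X.subsetSum := by rw [hBc]; exact Finset.filter_subset _ _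
  have hBcc : Bc.card = (toSub (AddSubgroup.closure (R : Set G)) (-c +ᵥ X.subsetSum)).card := by
    rw [card_toSub]
    have : inSub (AddSubgroup.closure (R : Set G)) (-c +ᵥ X.subsetSum) = -c +ᵥ Bc := by
      ext y
      rw [mem_inSub, Finset.mem_vadd_finset, Finset.mem_vadd_finset]
      constructor
      · rintro ⟨⟨z, hz, rfl⟩, hy⟩
        refine ⟨z, ?_, rfl⟩
        rw [hBc, Finset.mem_filter]
        exact ⟨hz, hy⟩
      · rintro ⟨z, hz, rfl⟩
        rw [hBc, Finset.mem_filter] at hz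
        exact ⟨⟨z, hz.1, rfl⟩, hz.2⟩
    rw [this, Finset.card_vadd_finset]
  have h2 : Disjoint (X.subsetSum \ Bc) (c +ᵥ R.subsetSum) := by
    rw [Finset.disjoint_left]
    intro x hx hx'
    rw [Finset.mem_sdiff, hBc, Finset.mem_filter] at hx
    rw [Finset.mem_vadd_finset] at hx'
    obtain ⟨z, hz, rfl⟩ := hx'
    apply hx.2
    refine ⟨hx.1, ?_⟩
    have := subsetSum_closure R z hz
    simpa using this
  have h3 : (X.subsetSum \ Bc) ∪ (c +ᵥ R.subsetSum) ⊆ (X ∪ R).subsetSum := by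
    apply Finset.union_subset
    · exact Finset.sdiff_subset.trans (Finset.subsetSum_mono Finset.subset_union_left)
    · intro x hx
      rw [Finset.mem_vadd_finset] at hx
      obtain ⟨z, hz, rfl⟩ := hx
      rw [subsetSum_union X R hd]
      exact Finset.add_mem_add hc hz
  have h4 := Finset.card_le_card h3
  rw [Finset.card_union_of_disjoint h2, Finset.card_vadd_finset] at h4
  have h5 := Finset.card_sdiff_add_card_eq_card h1
  have h6 : (X.subsetSum.card : ℝ) =
      ((X.subsetSum \ Bc).card : ℝ) + (Bc.card : ℝ) := by exact_mod_cast h5.symm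
  have h7 : ((X.subsetSum \ Bc).card : ℝ) +
      R.subsetSum.card ≤ (X ∪ R).subsetSum.card := by exact_mod_cast h4
  rw [hBcc] at h6
  linarith

theorem case_IIa' [Finite G] (η θ : ℝ) (hη : 0 < η) (hη2 : η < 1 / 4) (hθ : 1 / 2 ≤ θ)
    (hθ2 : θ ≤ 1) (u : ℕ)
    (hu : thr' η < u) (R R' : Finset G) (hRu : R.card = u) (hsub : R' ⊆ R)
    (hZ : NS R)
    (hne : AddSubgroup.closure (R' : Set G) ≠ AddSubgroup.closure (R : Set G))
    (hcard : (1 - 1 / 1152) * (u : ℝ) ≤ R'.card)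
    (hQ : θ * (1 / 2 - 2 * η) * (R'.card : ℝ) ^ 2 - bet' η * R'.card ≤ R'.subsetSum.card) :
    θ * (1 / 2 - 2 * η) * (u : ℝ) ^ 2 - bet' η * u + 4 / η * u ≤ R.subsetSum.card := by
  have hd := doubling R R' hsub hne
  have hc := crude_bound' u R hRu hZ
  have hd' : 2 * (R'.subsetSum.card : ℝ) ≤ R.subsetSum.card := by exact_mod_cast hd
  have hc' : (u : ℝ) ^ 2 ≤ 288 * R.subsetSum.card := by exact_mod_cast hc
  have hle : (R'.card : ℝ) ≤ u := by
    rw [← hRu]; exact_mod_cast Finset.card_le_card hsub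
  have hC0 : 0 < 4 / η := by positivity
  obtain ⟨C, hC⟩ : ∃ C, C = 4 / η := ⟨_, rfl⟩
  obtain ⟨β, hβ⟩ : ∃ β, β = bet' η := ⟨_, rfl⟩
  have hthr : 1152 * C ≤ thr' η := by
    unfold thr'
    rw [← hC]
    have h1 : 0 ≤ 5760 / η ^ 2 := by positivity
    have h2 : 0 ≤ 288 * C / (η / 4608) ^ 2 := by rw [hC]; positivity
    have h3 : 0 ≤ 2 / (η / 4608) := by positivity
    linarith
  have hβC : C ≤ β := by
    rw [hβ, bet', ← hC]
    have : 0 < C := by rw [hC]; exact hC0
    linarith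
  rw [← hC] at hC0 ⊢
  rw [← hβ] at hQ ⊢
  have hu0 : (0 : ℝ) < u := by linarith
  obtain ⟨v, hv⟩ : ∃ v : ℝ, v = R'.card := ⟨_, rfl⟩
  rw [← hv] at hQ hle hcard
  obtain ⟨α, hα⟩ : ∃ α : ℝ, α = θ * (1 / 2 - 2 * η) := ⟨_, rfl⟩
  rw [← hα] at hQ ⊢
  have hα0 : 0 ≤ α := by rw [hα]; apply mul_nonneg <;> linarith
  have hα1 : α ≤ 1 / 2 := by rw [hα]; exact ar10 θ η hθ hθ2 hη hη2
  by_cases h : (α - 1 / 288) * u ≤ β - C
  · have h1 : (u : ℝ) * ((α - 1 / 288) * u) ≤ u * (β - C) := mul_le_mul_of_nonneg_left h hu0.le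
    have e1 : (u : ℝ) * ((α - 1 / 288) * u) = α * (u : ℝ) ^ 2 - (u : ℝ) ^ 2 / 288 := by ring
    have e2 : (u : ℝ) * (β - C) = β * u - C * u := by ring
    linarith
  · push Not at h
    have h1 : (1 - 1 / 288) * (u : ℝ) ^ 2 ≤ 2 * v ^ 2 - u ^ 2 := ar8 u v hcard hu0.le
    have h2 : β + C ≤ α * (1 - 1 / 288) * u := by
      have := ar9 α u hα1 hu0.le
      linarith
    have h3 : α * ((1 - 1 / 288) * (u : ℝ) ^ 2) ≤ α * (2 * v ^ 2 - u ^ 2) :=
      mul_le_mul_of_nonneg_left h1 hα0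
    have h4 : (u : ℝ) * (β + C) ≤ u * (α * (1 - 1 / 288) * u) :=
      mul_le_mul_of_nonneg_left h2 hu0.le
    have h5 : β * (2 * v - u) ≤ β * u := by
      apply mul_le_mul_of_nonneg_left _ (by linarith)
      linarith
    have e1 : α * (2 * v ^ 2 - (u : ℝ) ^ 2) = 2 * (α * v ^ 2) - α * (u : ℝ) ^ 2 := by ring
    have e2 : (u : ℝ) * (β + C) = β * u + C * u := by ring
    have e3 : (u : ℝ) * (α * (1 - 1 / 288) * u) = α * ((1 - 1 / 288) * (u : ℝ) ^ 2) := by ring
    have e4 : β * (2 * v - u) = 2 * (β * v) - β * u := by ring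
    linarith

theorem case_IIb' [Finite G] (η θ : ℝ) (hη : 0 < η) (hη2 : η < 1 / 4) (hθ : 1 / 2 ≤ θ)
    (hθ2 : θ ≤ 1) (u : ℕ)
    (hu : thr' η < u) (R : Finset G) (hRu : R.card = u)
    (hZ : NS R) (hN : Wide θ R)
    (hgen : ∀ R' ⊆ R, (1 - 1 / 1152) * (u : ℝ) ≤ R'.card →
      AddSubgroup.closure (R' : Set G) = AddSubgroup.closure (R : Set G))
    (hQ : ∀ n < u, ∀ X R' : Finset G, Disjoint X R' → NS (X ∪ R') → Wide θ (X ∪ R') → R'.card = n →
      (X.subsetSum.card : ℝ) + θ * (1 / 2 - 2 * η) * (n : ℝ) ^ 2 - bet' η * n ≤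
        (X ∪ R').subsetSum.card) :
    θ * (1 / 2 - 2 * η) * (u : ℝ) ^ 2 - bet' η * u + 4 / η * u ≤ R.subsetSum.card := by
  obtain ⟨C, hC⟩ : ∃ C, C = 4 / η := ⟨_, rfl⟩
  have hC0 : 0 < C := by rw [hC]; positivity
  rw [← hC]
  obtain ⟨D, hD⟩ : ∃ D, D = η / 4608 := ⟨_, rfl⟩
  have hD0 : 0 < D := by rw [hD]; positivity
  have hthr1 : 5760 / η ^ 2 ≤ thr' η := by
    unfold thr'
    rw [← hC, ← hD]
    have h2 : 0 ≤ 288 * C / D ^ 2 := by positivity
    have h3 : 0 ≤ 2 / D := by positivity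
    linarith
  have hthr2 : 288 * C / D ^ 2 ≤ thr' η := by
    unfold thr'
    rw [← hC, ← hD]
    have h2 : 0 ≤ 5760 / η ^ 2 := by positivity
    have h3 : 0 ≤ 2 / D := by positivity
    linarith
  have hthr3 : 2 / D ≤ thr' η := by
    unfold thr'
    rw [← hC, ← hD]
    have h2 : 0 ≤ 5760 / η ^ 2 := by positivity
    have h3 : 0 ≤ 288 * C / D ^ 2 := by positivity
    linarith
  have hu0 : (0 : ℝ) < u := lt_of_le_of_lt (le_trans (by positivity) hthr1) hu
  have hsq : 288 * C * u ≤ (D * u) ^ 2 := by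
    have h1 : 288 * C / D ^ 2 ≤ u := by linarith
    rw [div_le_iff₀ (by positivity)] at h1
    have h2 := mul_le_mul_of_nonneg_right h1 hu0.le
    have e : (D * (u : ℝ)) ^ 2 = (u : ℝ) * D ^ 2 * u := by ring
    rw [e]
    exact h2
  have hDle : D * u ≤ (1 / 18432) * u := by
    apply mul_le_mul_of_nonneg_right _ hu0.le
    rw [hD]
    linarith
  have hDu : 2 ≤ D * u := by
    have h1 : 2 / D ≤ u := by linarith
    rw [div_le_iff₀ hD0] at h1
    linarith
  -- the size of the initial block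
  obtain ⟨t, ht⟩ : ∃ t, t = ⌈D * (u : ℝ)⌉₊ := ⟨_, rfl⟩
  have ht1 : D * (u : ℝ) ≤ t := by rw [ht]; exact Nat.le_ceil _
  have ht2 : (t : ℝ) < D * u + 1 := by rw [ht]; exact Nat.ceil_lt_add_one (by positivity)
  obtain ⟨n, hn⟩ : ∃ n, n = ⌈(1 - 1 / 1152) * (u : ℝ)⌉₊ := ⟨_, rfl⟩
  have hn1 : (1 - 1 / 1152) * (u : ℝ) ≤ n := by rw [hn]; exact Nat.le_ceil _
  have hn2 : (n : ℝ) < (1 - 1 / 1152) * u + 1 := by
    rw [hn]; exact Nat.ceil_lt_add_one (mul_nonneg (by norm_num) hu0.le)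
  have hDη : D * u = η * (1 / 1152) * u / 4 := by rw [hD]; ring
  have hδ : (16 : ℝ) ≤ u / 1152 := by linarith
  have htn : (t : ℝ) + n ≤ u := by linarith
  have htn' : t + n ≤ u := by exact_mod_cast htn
  have hnu : n < u := by
    have : (n : ℝ) < u := by linarith
    exact_mod_cast this
  -- initial block
  obtain ⟨X0, hX0R, hX0c⟩ := Finset.exists_subset_card_eq (s := R) (n := t) (by omega)
  have hX0 : C * u ≤ X0.subsetSum.card := by
    have h1 := crude_bound' t X0 hX0c (hZ.mono hX0R)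
    have h2 : (t : ℝ) ^ 2 ≤ 288 * X0.subsetSum.card := by exact_mod_cast h1
    have h3 : (D * u) ^ 2 ≤ (t : ℝ) ^ 2 := pow_le_pow_left₀ (by positivity) ht1 2
    linarith
  have hphase : ∀ k, t + k + n ≤ u → ∃ X ⊆ R, X.card = t + k ∧
      C * u + θ * (1 / 2 - η) * (((u : ℝ) - t) ^ 2 - ((u : ℝ) - t - k) ^ 2) ≤
        X.subsetSum.card := by
    intro k
    induction k with
    | zero =>
      intro _
      refine ⟨X0, hX0R, by simpa using hX0c, ?_⟩
      simpa using hX0
    | succ k ih =>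
      intro hk
      obtain ⟨X, hXR, hXc, hXs⟩ := ih (by omega)
      have hRc : (R \ X).card = u - t - k := by
        rw [Finset.card_sdiff_of_subset hXR, hRu, hXc]
        omega
      have hRcr : ((R \ X).card : ℝ) = (u : ℝ) - t - k := by
        rw [hRc]
        rw [Nat.cast_sub (by omega), Nat.cast_sub (by omega)]
      have hkr : (t : ℝ) + (k + 1) + n ≤ u := by exact_mod_cast hk
      have hkge : (1 - 1 / 1152) * (u : ℝ) ≤ ((R \ X).card : ℝ) := by
        rw [hRcr]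
        linarith
      have hkle : ((R \ X).card : ℝ) ≤ u := by
        rw [hRcr]
        have h2 : (0 : ℝ) ≤ k := Nat.cast_nonneg _
        have h3 : (0 : ℝ) ≤ t := Nat.cast_nonneg _
        linarith
      have hkpos : (0 : ℝ) ≤ ((R \ X).card : ℝ) := Nat.cast_nonneg _
      have hg := hgen (R \ X) Finset.sdiff_subset hkge
      have hU : X ∪ (R \ X) = R := Finset.union_sdiff_of_subset hXR
      have hRXne : (R \ X).Nonempty := by
        rw [← Finset.card_pos]
        have : (0 : ℝ) < ((R \ X).card : ℝ) := lt_of_lt_of_le (by linarith) hkge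
        exact_mod_cast this
      obtain ⟨c, hc, hcard⟩ := exists_coset X (R \ X) Finset.disjoint_sdiff
        (by rw [hU]; exact hZ) hRXne
      have hXK : ∀ b ∈ X.subsetSum, b ∈ AddSubgroup.closure (R : Set G) := by
        intro b hb
        have h1 := subsetSum_closure X b hb
        exact AddSubgroup.closure_mono (by exact_mod_cast hXR) h1
      have hin : (toSub (AddSubgroup.closure ((R \ X : Finset G) : Set G))
          (-c +ᵥ X.subsetSum)).card = X.subsetSum.card := by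
        rw [card_toSub_of_le, Finset.card_vadd_finset]
        intro b hb
        rw [hg]
        rw [Finset.mem_vadd_finset] at hb
        obtain ⟨y, hy, rfl⟩ := hb
        exact AddSubgroup.add_mem _ (AddSubgroup.neg_mem _ (hXK c hc)) (hXK y hy)
      have hXs0 : C * u ≤ X.subsetSum.card := by
        have h1 : (0 : ℝ) ≤ θ * (1 / 2 - η) * (((u : ℝ) - t) ^ 2 - ((u : ℝ) - t - k) ^ 2) := by
          have h2 : (0 : ℝ) ≤ k := Nat.cast_nonneg _
          have h3 : (0 : ℝ) ≤ n := Nat.cast_nonneg _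
          apply mul_nonneg (mul_nonneg (by linarith) (by linarith))
          exact ar4 k ((u : ℝ) - t) h2 (by linarith)
        linarith
      obtain ⟨x, hx, hx2⟩ := refined_step' η (θ * ((R \ X).card : ℝ)) hη (by linarith) X (R \ X) c
        (hZ.mono Finset.sdiff_subset) (hN _ Finset.sdiff_subset)
        (ar1 θ _ hθ hkpos) (ar2 θ _ hθ2 hkpos)
        (by
          have h5 : 1440 / η ^ 2 = (5760 / η ^ 2) / 4 := by ring
          rw [h5]
          have h6 : 5760 / η ^ 2 < u := by linarith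
          exact ar3 θ _ u _ hθ hkpos hu0.le hkge h6.le)
        hcard
        (by
          rw [hin, ← hC]
          refine le_trans ?_ hXs0
          apply mul_le_mul_of_nonneg_left _ hC0.le
          exact le_trans (ar2 θ _ hθ2 hkpos) hkle)
      have hxX : x ∉ X := (Finset.mem_sdiff.1 hx).2
      have hxS : x ∈ R := (Finset.mem_sdiff.1 hx).1
      refine ⟨insert x X, Finset.insert_subset hxS hXR, ?_, ?_⟩
      · rw [Finset.card_insert_of_notMem hxX, hXc]; omega
      · rw [card_subsetSum_insert X x hxX]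
        rw [hRcr] at hx2
        push_cast
        have h8 : θ * (1 / 2 - η) * (((u : ℝ) - t) ^ 2 - ((u : ℝ) - t - (k + 1)) ^ 2) =
          θ * (1 / 2 - η) * (((u : ℝ) - t) ^ 2 - ((u : ℝ) - t - k) ^ 2) +
          ((1 - 2 * η) * (θ * ((u : ℝ) - t - k)) - θ * (1 / 2 - η)) := by ring
        have h9 : 0 ≤ θ * (1 / 2 - η) := mul_nonneg (by linarith) (by linarith)
        rw [h8]
        linarith
  obtain ⟨X, hXR, hXc, hXs⟩ := hphase (u - t - n) (by omega)
  have hU : X ∪ (R \ X) = R := Finset.union_sdiff_of_subset hXR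
  have hRc : (R \ X).card = n := by
    rw [Finset.card_sdiff_of_subset hXR, hRu, hXc]
    omega
  have hQn := hQ n hnu X (R \ X) Finset.disjoint_sdiff (by rw [hU]; exact hZ)
    (by rw [hU]; exact hN) hRc
  rw [hU] at hQn
  have hcast : (((u - t - n : ℕ) : ℕ) : ℝ) = (u : ℝ) - t - n := by
    rw [Nat.cast_sub (by omega), Nat.cast_sub (by omega)]
  rw [hcast] at hXs
  have hβ0 : 0 ≤ bet' η := by
    unfold bet'
    rw [← hC]
    have : 0 ≤ thr' η := le_trans (by positivity) hthr1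
    linarith
  have hβn : 0 ≤ bet' η * (u - n) := mul_nonneg hβ0 (by linarith)
  have h1 : (u : ℝ) - t - ((u : ℝ) - t - n) = n := by ring
  rw [h1] at hXs
  have ht0 : (0 : ℝ) ≤ t := Nat.cast_nonneg _
  have h5 : (t : ℝ) ≤ η * θ * (u / 1152 - 1) :=
    ar6 η θ u t hη hη2 hθ (by linarith) (by linarith) (by linarith)
  have hn0 : (0 : ℝ) ≤ n := Nat.cast_nonneg _
  have h2 : (0 : ℝ) ≤ η * θ * (u ^ 2 - n ^ 2) - u * t := by
    have h3 : (u : ℝ) * (u / 1152 - 1) ≤ u ^ 2 - n ^ 2 := ar5 u n hu0.le hn0 hn2.le hδ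
    have h4 : η * θ * ((u : ℝ) * (u / 1152 - 1)) ≤ η * θ * (u ^ 2 - n ^ 2) :=
      mul_le_mul_of_nonneg_left h3 (mul_nonneg hη.le (by linarith))
    have h7 : (u : ℝ) * t ≤ u * (η * θ * (u / 1152 - 1)) := mul_le_mul_of_nonneg_left h5 hu0.le
    have e : (u : ℝ) * (η * θ * (u / 1152 - 1)) = η * θ * ((u : ℝ) * (u / 1152 - 1)) := by ring
    linarith
  have h10 : θ * (1 / 2 - η) * ((u : ℝ) - t) ^ 2 ≥ θ * (1 / 2 - η) * (u : ℝ) ^ 2 - u * t := by
    apply ar7 _ _ _ (mul_nonneg (by linarith) (by linarith)) _ hu0.le ht0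
    have := ar2 θ (1 - 2 * η) hθ2 (by linarith)
    linarith
  have e1 : θ * (1 / 2 - η) * (((u : ℝ) - t) ^ 2 - (n : ℝ) ^ 2) =
    θ * (1 / 2 - η) * ((u : ℝ) - t) ^ 2 - θ * (1 / 2 - η) * (n : ℝ) ^ 2 := by ring
  have e2 : θ * (1 / 2 - 2 * η) * (u : ℝ) ^ 2 = θ * (1 / 2 - η) * (u : ℝ) ^ 2 -
    η * θ * (u : ℝ) ^ 2 := by ring
  have e3 : θ * (1 / 2 - 2 * η) * (n : ℝ) ^ 2 = θ * (1 / 2 - η) * (n : ℝ) ^ 2 -
    η * θ * (n : ℝ) ^ 2 := by ring
  have e4 : η * θ * ((u : ℝ) ^ 2 - (n : ℝ) ^ 2) = η * θ * (u : ℝ) ^ 2 - η * θ * (n : ℝ) ^ 2 := by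
    ring
  have e5 : bet' η * ((u : ℝ) - n) = bet' η * u - bet' η * n := by ring
  linarith

theorem main_ind' [Finite G] (η θ : ℝ) (hη : 0 < η) (hη2 : η < 1 / 4) (hθ : 1 / 2 ≤ θ)
    (hθ2 : θ ≤ 1) (u : ℕ) :
    ∀ X R : Finset G, Disjoint X R → NS (X ∪ R) → Wide θ (X ∪ R) → R.card = u →
      (X.subsetSum.card : ℝ) + θ * (1 / 2 - 2 * η) * (u : ℝ) ^ 2 - bet' η * u ≤
        (X ∪ R).subsetSum.card := by
  induction u using Nat.strong_induction_on with
  | _ u ih =>
    intro X R hd hZ hN hRu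
    have hthr0 : 0 ≤ thr' η := by unfold thr'; positivity
    have hβthr : thr' η ≤ bet' η := by
      unfold bet'
      have : 0 < 4 / η := by positivity
      linarith
    have hu0 : (0 : ℝ) ≤ u := Nat.cast_nonneg _
    have hα0 : 0 ≤ θ * (1 / 2 - 2 * η) := mul_nonneg (by linarith) (by linarith)
    have hα1 : θ * (1 / 2 - 2 * η) ≤ 1 / 2 := ar10 θ η hθ hθ2 hη hη2
    by_cases hu : thr' η < u
    swap
    · push Not at hu
      have h1 : (X.subsetSum.card : ℝ) ≤ (X ∪ R).subsetSum.card := by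
        exact_mod_cast Finset.card_le_card (Finset.subsetSum_mono Finset.subset_union_left)
      have h2 : θ * (1 / 2 - 2 * η) * (u : ℝ) ≤ bet' η := by
        have := mul_le_mul_of_nonneg_right hα1 hu0
        linarith
      have h3 := mul_le_mul_of_nonneg_right h2 hu0
      have e : θ * (1 / 2 - 2 * η) * (u : ℝ) ^ 2 = θ * (1 / 2 - 2 * η) * (u : ℝ) * u := by ring
      linarith
    have hupos : 0 < u := by
      have : (0 : ℝ) < u := lt_of_le_of_lt hthr0 hu
      exact_mod_cast this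
    have hRne : R.Nonempty := by rw [← Finset.card_pos, hRu]; exact hupos
    have hRr : (R.card : ℝ) = u := by rw [hRu]
    obtain ⟨c, hc, hcard⟩ := exists_coset X R hd hZ hRne
    by_cases hI : 4 / η * (θ * (u : ℝ)) ≤
        (toSub (AddSubgroup.closure (R : Set G)) (-c +ᵥ X.subsetSum)).card
    · -- growth step
      obtain ⟨x, hx, hx2⟩ := refined_step' η (θ * (u : ℝ)) hη (by linarith) X R c
        (hZ.mono Finset.subset_union_right)
        (by rw [← hRr]; exact hN _ Finset.subset_union_right)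
        (by rw [hRr]; exact ar1 θ _ hθ hu0) (by rw [hRr]; exact ar2 θ _ hθ2 hu0)
        (by
          have h5 : 1440 / η ^ 2 = (5760 / η ^ 2) / 4 := by ring
          rw [h5]
          have h6 : 5760 / η ^ 2 ≤ thr' η := by
            unfold thr'
            have h2 : 0 ≤ 1152 * (4 / η) := by positivity
            have h3 : 0 ≤ 288 * (4 / η) / (η / 4608) ^ 2 := by positivity
            have h4 : 0 ≤ 2 / (η / 4608) := by positivity
            linarith
          exact ar3 θ _ u _ hθ hu0 hu0 (by linarith) (by linarith))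
        hcard hI
      have hxX : x ∉ X := fun h => Finset.disjoint_left.1 hd h hx
      have hU : insert x X ∪ R.erase x = X ∪ R := by
        ext y
        simp only [Finset.mem_union, Finset.mem_insert, Finset.mem_erase]
        constructor
        · rintro ((rfl | h) | h)
          · exact Or.inr hx
          · exact Or.inl h
          · exact Or.inr h.2
        · rintro (h | h)
          · exact Or.inl (Or.inr h)
          · by_cases hyx : y = x
            · exact Or.inl (Or.inl hyx)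
            · exact Or.inr ⟨hyx, h⟩
      have hd' : Disjoint (insert x X) (R.erase x) := by
        rw [Finset.disjoint_left]
        intro y hy hy'
        rw [Finset.mem_erase] at hy'
        rw [Finset.mem_insert] at hy
        rcases hy with h | h
        · exact hy'.1 h
        · exact Finset.disjoint_left.1 hd h hy'.2
      have hcc : (R.erase x).card = u - 1 := by
        rw [Finset.card_erase_of_mem hx, hRu]
      have h1 := ih (u - 1) (by omega) (insert x X) (R.erase x) hd' (by rw [hU]; exact hZ)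
        (by rw [hU]; exact hN) hcc
      rw [hU, card_subsetSum_insert X x hxX] at h1
      have h2 : ((u - 1 : ℕ) : ℝ) = (u : ℝ) - 1 := by
        rw [Nat.cast_sub (by omega), Nat.cast_one]
      rw [h2] at h1
      push_cast at h1
      have hβ0 : 0 ≤ bet' η := le_trans hthr0 hβthr
      have h3 : θ * (1 / 2 - 2 * η) * ((u : ℝ) - 1) ^ 2 =
        θ * (1 / 2 - 2 * η) * (u : ℝ) ^ 2 - (1 - 2 * η) * (θ * u) + 2 * η * (θ * u) +
          θ * (1 / 2 - 2 * η) := by ring
      rw [h3] at h1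
      have h4 : 0 ≤ 2 * η * (θ * u) := by positivity
      linarith
    · push Not at hI
      have hs := split_bound' X R hd c hc _ hI.le
      have hZR : NS R := hZ.mono Finset.subset_union_right
      have hNR : Wide θ R := hN.mono Finset.subset_union_right
      have hloss : 4 / η * (θ * (u : ℝ)) ≤ 4 / η * u := by
        apply mul_le_mul_of_nonneg_left _ (by positivity)
        exact ar2 θ _ hθ2 hu0
      suffices hR : θ * (1 / 2 - 2 * η) * (u : ℝ) ^ 2 - bet' η * u + 4 / η * u ≤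
          R.subsetSum.card by
        linarith
      by_cases hA : ∃ R' ⊆ R, (1 - 1 / 1152) * (u : ℝ) ≤ R'.card ∧
          AddSubgroup.closure (R' : Set G) ≠ AddSubgroup.closure (R : Set G)
      · obtain ⟨R', hsub, hcard', hne⟩ := hA
        have hlt : R'.card < u := by
          rw [← hRu]
          apply Finset.card_lt_card
          refine ⟨hsub, fun h => hne ?_⟩
          rw [Finset.Subset.antisymm hsub h]
        have h1 := ih R'.card hlt ∅ R' (Finset.disjoint_empty_left _)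
          (by rw [Finset.empty_union]; exact hZR.mono hsub)
          (by rw [Finset.empty_union]; exact hNR.mono hsub) rfl
        rw [Finset.empty_union] at h1
        apply case_IIa' η θ hη hη2 hθ hθ2 u hu R R' hRu hsub hZR hne hcard'
        have h2 : (0 : ℝ) ≤ ((∅ : Finset G).subsetSum.card : ℝ) := Nat.cast_nonneg _
        linarith
      · push Not at hA
        exact case_IIb' η θ hη hη2 hθ hθ2 u hu R hRu hZR hNR (fun R' h1 h2 => hA R' h1 h2) ih

theorem wide_asym (R : Finset G) (h : Asym R) : Wide 1 R := by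
  intro R' hR'
  rw [card_sym_asym R' (h.mono hR')]
  push_cast
  linarith

theorem wide_half (R : Finset G) (h : (0 : G) ∉ R) : Wide (1 / 2) R := by
  intro R' hR'
  have h1 := card_sym_ge R' (fun h0 => h (hR' h0))
  have h2 : (R'.card : ℝ) + 1 ≤ (sym R').card := by exact_mod_cast h1
  linarith

/-- asymmetric sets with no element stabilising the subset sums -/
theorem lower_asym [Finite G] (η : ℝ) (hη : 0 < η) (hη2 : η < 1 / 4) (R : Finset G)
    (h1 : NS R) (h2 : Asym R) :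
    (1 / 2 - 2 * η) * (R.card : ℝ) ^ 2 - bet' η * R.card ≤ R.subsetSum.card := by
  have h := main_ind' η 1 hη hη2 (by norm_num) le_rfl R.card ∅ R (Finset.disjoint_empty_left _)
    (by rw [Finset.empty_union]; exact h1) (by rw [Finset.empty_union]; exact wide_asym R h2) rfl
  rw [Finset.empty_union, one_mul] at h
  have h3 : (0 : ℝ) ≤ ((∅ : Finset G).subsetSum.card : ℝ) := Nat.cast_nonneg _
  linarith

/-- arbitrary sets with no element stabilising the subset sums -/
theorem lower_gen [Finite G] (η : ℝ) (hη : 0 < η) (hη2 : η < 1 / 4) (R : Finset G)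
    (h1 : NS R) :
    (1 / 4 - η) * (R.card : ℝ) ^ 2 - bet' η * R.card ≤ R.subsetSum.card := by
  have h := main_ind' η (1 / 2) hη hη2 le_rfl (by norm_num) R.card ∅ R
    (Finset.disjoint_empty_left _)
    (by rw [Finset.empty_union]; exact h1)
    (by rw [Finset.empty_union]; exact wide_half R h1.zero_notMem) rfl
  rw [Finset.empty_union] at h
  have h3 : (0 : ℝ) ≤ ((∅ : Finset G).subsetSum.card : ℝ) := Nat.cast_nonneg _
  have h4 : (1 : ℝ) / 2 * (1 / 2 - 2 * η) = 1 / 4 - η := by ring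
  rw [h4] at h
  linarith

end Pool.Agent.Helper398
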