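import Mathlib
import Pool.Agent.Helper398.NS3

set_option autoImplicit false
set_option linter.unusedSectionVars false

open Finset
open scoped Pointwise

namespace Pool.Agent.Helper398

variable {G : Type*} [AddCommGroup G] [DecidableEq G]

/-- the stabiliser of a finite set -/
def stab (F : Finset G) : AddSubgroup G where
  carrier := {x | x +ᵥ F = F}
  zero_mem' := zero_vadd _ _
  add_mem' := by
    intro a b ha hb
    show (a + b) +ᵥ F = F
    rw [add_vadd, show b +ᵥ F = F from hb, show a +ᵥ F = F from ha]
  neg_mem' := by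
    intro a ha
    show -a +ᵥ F = F
    nth_rewrite 1 [← show a +ᵥ F = F from ha]
    rw [neg_vadd_vadd]

theorem mem_stab (F : Finset G) (x : G) : x ∈ stab F ↔ x +ᵥ F = F := Iff.rfl

theorem stab_mono (A X : Finset G) (hX : X ⊆ A) (a : G)
    (h : a +ᵥ X.subsetSum = X.subsetSum) : a ∈ stab A.subsetSum := by
  rw [mem_stab]
  have h1 : A = X ∪ (A \ X) := (Finset.union_sdiff_of_subset hX).symm
  rw [h1, subsetSum_union _ _ Finset.disjoint_sdiff, ← vadd_add_assoc, h]

theorem NS_outside [Fintype G] (A : Finset G) (HF : Finset G)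
    (hHF : ∀ x, x ∈ HF ↔ x ∈ stab A.subsetSum) : NS (A \ HF) := by
  intro x hx hst
  rw [Finset.mem_sdiff] at hx
  exact hx.2 ((hHF x).2 (stab_mono A (A \ HF) Finset.sdiff_subset x hst))

theorem coset_count [Fintype G] (A : Finset G) (HF : Finset G)
    (hHF : ∀ x, x ∈ HF ↔ x ∈ stab A.subsetSum) :
    HF.card * ((A \ HF).card + 1) ≤ A.subsetSum.card := by
  have hHF0 : (0 : G) ∈ HF := (hHF 0).2 (AddSubgroup.zero_mem _)
  have key : ∀ k, ∀ X ⊆ A \ HF, X.card = k → HF.card * (k + 1) ≤ (HF + X.subsetSum).card := by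
    intro k
    induction k with
    | zero =>
      intro X _ hX0
      rw [Finset.card_eq_zero] at hX0
      subst hX0
      have : HF ⊆ HF + (∅ : Finset G).subsetSum := by
        intro x hx
        simpa using Finset.add_mem_add hx (Finset.zero_mem_subsetSum (A := (∅ : Finset G)))
      have := Finset.card_le_card this
      omega
    | succ k ih =>
      intro X hX hXk
      obtain ⟨a, ha⟩ : X.Nonempty := by rw [← Finset.card_pos]; omega
      obtain ⟨Y, hY⟩ : ∃ Y, Y = X.erase a := ⟨_, rfl⟩
      have haY : a ∉ Y := by rw [hY]; exact Finset.notMem_erase a X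
      have hXY : X = insert a Y := by rw [hY, Finset.insert_erase ha]
      have hYk : Y.card = k := by rw [hY, Finset.card_erase_of_mem ha, hXk]; rfl
      have hYs : Y ⊆ A \ HF := by rw [hY]; exact (Finset.erase_subset _ _).trans hX
      have h1 := ih Y hYs hYk
      obtain ⟨C, hC⟩ : ∃ C, C = HF + Y.subsetSum := ⟨_, rfl⟩
      have hCX : HF + X.subsetSum = C ∪ (a +ᵥ C) := by
        rw [hXY, subsetSum_insert' Y a haY, Finset.add_union, hC]
        congr 1
        ext z
        simp only [Finset.mem_add, Finset.mem_vadd_finset]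
        constructor
        · rintro ⟨p, hp, _, ⟨q, hq, rfl⟩, rfl⟩
          exact ⟨p + q, ⟨p, hp, q, hq, rfl⟩, by simp only [vadd_eq_add]; abel⟩
        · rintro ⟨_, ⟨p, hp, q, hq, rfl⟩, rfl⟩
          exact ⟨p, hp, a +ᵥ q, ⟨q, hq, rfl⟩, by simp only [vadd_eq_add]; abel⟩
      have haA : a ∈ A \ HF := hX ha
      have hne : a +ᵥ C ≠ C := by
        intro hst
        rw [Finset.mem_sdiff, hHF] at haA
        apply haA.2
        rw [mem_stab]
        have hYA : Y ⊆ A := hYs.trans Finset.sdiff_subset
        have hF : A.subsetSum = C + (A \ Y).subsetSum := by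
          have h2 : A.subsetSum = Y.subsetSum + (A \ Y).subsetSum := by
            rw [← subsetSum_union _ _ Finset.disjoint_sdiff, Finset.union_sdiff_of_subset hYA]
          rw [hC, add_assoc, ← h2]
          apply Finset.Subset.antisymm
          · intro z hz
            simpa using Finset.add_mem_add hHF0 hz
          · intro z hz
            rw [Finset.mem_add] at hz
            obtain ⟨p, hp, q, hq, rfl⟩ := hz
            rw [hHF, mem_stab] at hp
            rw [← hp, Finset.mem_vadd_finset]
            exact ⟨q, hq, rfl⟩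
        rw [hF, ← vadd_add_assoc, hst]
      have hnsub : ¬ (a +ᵥ C ⊆ C) := by
        intro hsub
        exact hne (Finset.eq_of_subset_of_card_le hsub (by rw [Finset.card_vadd_finset]))
      rw [Finset.not_subset] at hnsub
      obtain ⟨z, hz1, hz2⟩ := hnsub
      have hCinv : ∀ p ∈ HF, ∀ y ∈ C, p + y ∈ C := by
        intro p hp y hy
        rw [hC, Finset.mem_add] at hy ⊢
        obtain ⟨p', hp', q, hq, rfl⟩ := hy
        refine ⟨p + p', ?_, q, hq, by abel⟩
        rw [hHF] at hp hp' ⊢
        exact AddSubgroup.add_mem _ hp hp'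
      have hdis : Disjoint C (z +ᵥ HF) := by
        rw [Finset.disjoint_left]
        intro y hy hy'
        rw [Finset.mem_vadd_finset] at hy'
        obtain ⟨p, hp, rfl⟩ := hy'
        apply hz2
        have hnp : -p ∈ HF := by
          rw [hHF] at hp ⊢
          exact AddSubgroup.neg_mem _ hp
        have := hCinv (-p) hnp _ hy
        rw [vadd_eq_add] at this
        have e : -p + (z + p) = z := by abel
        rwa [e] at this
      have hsub2 : C ∪ (z +ᵥ HF) ⊆ C ∪ (a +ᵥ C) := by
        apply Finset.union_subset Finset.subset_union_left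
        intro y hy
        rw [Finset.mem_vadd_finset] at hy
        obtain ⟨p, hp, rfl⟩ := hy
        apply Finset.mem_union_right
        rw [Finset.mem_vadd_finset] at hz1 ⊢
        obtain ⟨w, hw, rfl⟩ := hz1
        refine ⟨p + w, hCinv p hp w hw, ?_⟩
        simp only [vadd_eq_add]; abel
      have h3 := Finset.card_le_card hsub2
      rw [Finset.card_union_of_disjoint hdis, Finset.card_vadd_finset] at h3
      rw [hCX]
      rw [← hC] at h1
      have : HF.card * (k + 1 + 1) = HF.card * (k + 1) + HF.card := by ring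
      omega
  have h1 := key _ (A \ HF) (Finset.Subset.refl _) rfl
  refine le_trans h1 (Finset.card_le_card ?_)
  intro z hz
  rw [Finset.mem_add] at hz
  obtain ⟨p, hp, q, hq, rfl⟩ := hz
  rw [hHF, mem_stab] at hp
  rw [← hp, Finset.mem_vadd_finset]
  exact ⟨q, Finset.subsetSum_mono Finset.sdiff_subset hq, rfl⟩

/-- summary of the structure of the set of subset sums -/
theorem structure_asym [Fintype G] (A : Finset G) (hA : Asym A) : ∃ (h : ℕ),
    h ∣ Fintype.card G ∧ ∃ r : ℕ, A.card ≤ r + (h - 1) / 2 ∧ h * (r + 1) ≤ A.subsetSum.card ∧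
      ∀ η : ℝ, 0 < η → η < 1 / 4 →
        (1 / 2 - 2 * η) * (r : ℝ) ^ 2 - bet' η * r ≤ A.subsetSum.card := by
  classical
  obtain ⟨HF, hHFd⟩ : ∃ HF : Finset G, HF = univ.filter (fun x => x ∈ stab A.subsetSum) := ⟨_, rfl⟩
  have hHF : ∀ x, x ∈ HF ↔ x ∈ stab A.subsetSum := by
    intro x; rw [hHFd]; simp
  refine ⟨HF.card, ?_, (A \ HF).card, ?_, coset_count A HF hHF, ?_⟩
  · have h1 : HF.card = Nat.card (stab A.subsetSum) := by
      rw [Nat.card_eq_fintype_card, Fintype.card_subtype, hHFd]
    rw [h1, ← Nat.card_eq_fintype_card]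
    exact AddSubgroup.card_addSubgroup_dvd_card _
  · have h2 : sym (A ∩ HF) ⊆ HF := by
      intro x hx
      simp only [sym, Finset.mem_insert, Finset.mem_union, Finset.mem_neg', Finset.mem_inter] at hx
      rcases hx with h | h | h
      · rw [h, hHF]; exact AddSubgroup.zero_mem _
      · exact h.2
      · rw [hHF] at h ⊢
        have := AddSubgroup.neg_mem _ h.2
        simpa using this
    have h3 := Finset.card_le_card h2
    rw [card_sym_asym _ (hA.mono Finset.inter_subset_left)] at h3
    have h4 := Finset.card_inter_add_card_sdiff A HF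
    omega
  · intro η hη hη2
    have h5 := lower_asym η hη hη2 (A \ HF) (NS_outside A HF hHF) (hA.mono Finset.sdiff_subset)
    have h6 : ((A \ HF).subsetSum.card : ℝ) ≤ A.subsetSum.card := by
      exact_mod_cast Finset.card_le_card (Finset.subsetSum_mono Finset.sdiff_subset)
    linarith

/-- structure of the set of subset sums of a generating set without zero -/
theorem structure_gen [Fintype G] (A : Finset G) (hA : (0 : G) ∉ A)
    (hgen : AddSubgroup.closure (A : Set G) = ⊤) : A.subsetSum.card = Fintype.card G ∨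
    ∃ (h : ℕ), h ∣ Fintype.card G ∧ h < Fintype.card G ∧ ∃ r : ℕ, 1 ≤ r ∧ A.card + 1 ≤ r + h ∧
      h * (r + 1) ≤ A.subsetSum.card ∧
      ∀ η : ℝ, 0 < η → η < 1 / 4 →
        (1 / 4 - η) * (r : ℝ) ^ 2 - bet' η * r ≤ A.subsetSum.card := by
  classical
  obtain ⟨HF, hHFd⟩ : ∃ HF : Finset G, HF = univ.filter (fun x => x ∈ stab A.subsetSum) := ⟨_, rfl⟩
  have hHF : ∀ x, x ∈ HF ↔ x ∈ stab A.subsetSum := by
    intro x; rw [hHFd]; simp
  have hHF0 : (0 : G) ∈ HF := (hHF 0).2 (AddSubgroup.zero_mem _)
  by_cases hsub : A ⊆ HF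
  · left
    have h1 : AddSubgroup.closure (A : Set G) ≤ stab A.subsetSum := by
      rw [AddSubgroup.closure_le]
      intro x hx
      exact (hHF x).1 (hsub (by simpa using hx))
    rw [hgen, top_le_iff] at h1
    rw [← Finset.card_univ]
    congr 1
    rw [Finset.eq_univ_iff_forall]
    intro x
    have h2 : x ∈ stab A.subsetSum := by rw [h1]; exact AddSubgroup.mem_top x
    rw [mem_stab] at h2
    rw [← h2, Finset.mem_vadd_finset]
    exact ⟨0, Finset.zero_mem_subsetSum, by simp⟩
  · right
    rw [Finset.not_subset] at hsub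
    obtain ⟨a, ha, haH⟩ := hsub
    refine ⟨HF.card, ?_, ?_, (A \ HF).card, ?_, ?_, coset_count A HF hHF, ?_⟩
    · have h1 : HF.card = Nat.card (stab A.subsetSum) := by
        rw [Nat.card_eq_fintype_card, Fintype.card_subtype, hHFd]
      rw [h1, ← Nat.card_eq_fintype_card]
      exact AddSubgroup.card_addSubgroup_dvd_card _
    · rw [← Finset.card_univ]
      apply Finset.card_lt_card
      refine ⟨Finset.subset_univ _, fun h => haH (h (Finset.mem_univ a))⟩
    · exact Finset.card_pos.2 ⟨a, Finset.mem_sdiff.2 ⟨ha, haH⟩⟩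
    · have h2 : insert 0 (A ∩ HF) ⊆ HF := by
        intro x hx
        rw [Finset.mem_insert, Finset.mem_inter] at hx
        rcases hx with rfl | h
        · exact hHF0
        · exact h.2
      have h3 := Finset.card_le_card h2
      rw [Finset.card_insert_of_notMem (fun h => hA (Finset.mem_inter.1 h).1)] at h3
      have h4 := Finset.card_inter_add_card_sdiff A HF
      omega
    · intro η hη hη2
      have h5 := lower_gen η hη hη2 (A \ HF) (NS_outside A HF hHF)
      have h6 : ((A \ HF).subsetSum.card : ℝ) ≤ A.subsetSum.card := by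
        exact_mod_cast Finset.card_le_card (Finset.subsetSum_mono Finset.sdiff_subset)
      linarith

end Pool.Agent.Helper398
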