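import Mathlib
import Pool.Agent.Helper398.IntStr
import Pool.Agent.Helper398.Stab

set_option autoImplicit false
set_option linter.unusedSectionVars false

open Finset
open scoped Pointwise

namespace Pool.Agent.Helper398

section iso

variable {G : Type*} [AddCommGroup G] [DecidableEq G]

theorem neg_mem_it (T : Finset G) (hneg : ∀ t ∈ T, -t ∈ T) (j : ℕ) : ∀ x ∈ it T j, -x ∈ it T j := by
  induction j with
  | zero =>
    intro x hx
    simp only [it, Finset.mem_singleton] at hx ⊢
    rw [hx, neg_zero]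
  | succ j ih =>
    intro x hx
    simp only [it, Finset.mem_add] at hx
    obtain ⟨a, ha, t, ht, rfl⟩ := hx
    rw [neg_add]
    exact Finset.add_mem_add (ih a ha) (hneg t ht)

theorem zero_mem_it (T : Finset G) (h0 : (0 : G) ∈ T) (j : ℕ) : (0 : G) ∈ it T j :=
  it_mono T h0 (Nat.zero_le j) (by simp [it])

theorem coset_growth [Fintype G] (H : AddSubgroup G) (HF Y T : Finset G)
    (hHF : ∀ x, x ∈ HF ↔ x ∈ H) (hY : Y.Nonempty) (hinv : ∀ x ∈ H, ∀ y ∈ Y, x + y ∈ Y)
    (h0 : (0 : G) ∈ T) (hgen : AddSubgroup.closure (T : Set G) = ⊤) (hne : Y + T ≠ univ) :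
    Y.card + HF.card ≤ (Y + T).card := by
  have hsub : Y ⊆ Y + T := fun y hy => by simpa using Finset.add_mem_add hy h0
  have hnsub : ¬ (Y + T ⊆ Y) := by
    intro h
    apply hne
    have h1 : Y + T = Y := Finset.Subset.antisymm h hsub
    have h2 : AddSubgroup.closure (T : Set G) ≤ stab Y := by
      rw [AddSubgroup.closure_le]
      intro t ht
      show t +ᵥ Y = Y
      apply Finset.eq_of_subset_of_card_le
      · intro z hz
        rw [Finset.mem_vadd_finset] at hz
        obtain ⟨y, hy, rfl⟩ := hz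
        apply h
        rw [vadd_eq_add, add_comm t y]
        exact Finset.add_mem_add hy (by simpa using ht)
      · rw [Finset.card_vadd_finset]
    rw [hgen, top_le_iff] at h2
    rw [h1, Finset.eq_univ_iff_forall]
    intro x
    obtain ⟨y, hy⟩ := hY
    have h3 : x - y ∈ stab Y := by rw [h2]; exact AddSubgroup.mem_top _
    rw [mem_stab] at h3
    rw [← h3, Finset.mem_vadd_finset]
    exact ⟨y, hy, by simp⟩
  rw [Finset.not_subset] at hnsub
  obtain ⟨z, hz1, hz2⟩ := hnsub
  have hdis : Disjoint Y (z +ᵥ HF) := by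
    rw [Finset.disjoint_left]
    intro y hy hy'
    rw [Finset.mem_vadd_finset] at hy'
    obtain ⟨p, hp, rfl⟩ := hy'
    apply hz2
    rw [hHF] at hp
    have := hinv (-p) (H.neg_mem hp) _ hy
    rw [vadd_eq_add] at this
    have e : -p + (z + p) = z := by abel
    rwa [e] at this
  have hsub2 : Y ∪ (z +ᵥ HF) ⊆ Y + T := by
    apply Finset.union_subset hsub
    intro y hy
    rw [Finset.mem_vadd_finset] at hy
    obtain ⟨p, hp, rfl⟩ := hy
    rw [Finset.mem_add] at hz1 ⊢
    obtain ⟨a, ha, t, ht, rfl⟩ := hz1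
    rw [hHF] at hp
    exact ⟨p + a, hinv p hp a ha, t, ht, by rw [vadd_eq_add]; abel⟩
  have h3 := Finset.card_le_card hsub2
  rwa [Finset.card_union_of_disjoint hdis, Finset.card_vadd_finset] at h3

/-- the isoperimetric constant of an iterated sumset -/
theorem it_iso [Fintype G] (T : Finset G) (hneg : ∀ t ∈ T, -t ∈ T) (h0 : (0 : G) ∈ T)
    (hgen : AddSubgroup.closure (T : Set G) = ⊤) (K : ℕ) (hK : it T K ≠ univ) :
    ∃ ν : ℕ, K * (it T K).card ≤ (K + 1) * ν ∧
      ∀ A : Finset G, A.Nonempty → A + it T K ≠ univ → A.card + ν ≤ (A + it T K).card := by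
  obtain ⟨H, HF, hHF, hne, hA⟩ := isoperimetric (it T K) (neg_mem_it T hneg K) hK
    (zero_mem_it T h0 K)
  have hmem : ∀ x, x ∈ HF ↔ x ∈ H := fun x => by
    have : x ∈ (HF : Set G) ↔ x ∈ (H : Set G) := by rw [hHF]
    simpa using this
  have h0H : (0 : G) ∈ HF := (hmem 0).2 H.zero_mem
  have hinv : ∀ j, ∀ x ∈ H, ∀ y ∈ HF + it T j, x + y ∈ HF + it T j := by
    intro j x hx y hy
    rw [Finset.mem_add] at hy ⊢
    obtain ⟨a, ha, b, hb, rfl⟩ := hy
    exact ⟨x + a, (hmem _).2 (H.add_mem hx ((hmem _).1 ha)), b, hb, by abel⟩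
  have hstep : ∀ j ≤ K, (j + 1) * HF.card ≤ (HF + it T j).card := by
    intro j
    induction j with
    | zero =>
      intro _
      simp [it]
    | succ j ih =>
      intro hj
      have h1 := ih (by omega)
      have h2 : HF + it T (j + 1) = (HF + it T j) + T := by
        show HF + (it T j + T) = _
        rw [add_assoc]
      have h3 : (HF + it T j) + T ≠ univ := by
        intro hu
        apply hne
        rw [← h2] at hu
        rw [Finset.eq_univ_iff_forall]
        intro x
        have : x ∈ HF + it T (j + 1) := by rw [hu]; exact Finset.mem_univ x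
        exact Finset.add_subset_add_left (it_mono T h0 hj) this
      have h4 := coset_growth H HF (HF + it T j) T hmem
        ⟨0 + 0, Finset.add_mem_add h0H (zero_mem_it T h0 j)⟩ (hinv j) h0 hgen h3
      rw [h2]
      nlinarith
  have h1 := hstep K le_rfl
  have h2 : (it T K).card ≤ (HF + it T K).card := by
    apply Finset.card_le_card
    intro x hx
    simpa using Finset.add_mem_add h0H hx
  have h3 : HF.card ≤ (HF + it T K).card := by
    have : HF.card ≤ (K + 1) * HF.card := Nat.le_mul_of_pos_left _ (by omega)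
    omega
  obtain ⟨ν, hν⟩ : ∃ ν, (HF + it T K).card = HF.card + ν := ⟨_, (Nat.add_sub_of_le h3).symm⟩
  refine ⟨ν, ?_, ?_⟩
  · rw [hν] at h1 h2
    by_cases hc : HF.card ≤ ν
    · have h4 : K * HF.card ≤ ν := by nlinarith
      nlinarith
    · have h4 : K * HF.card ≤ ν := by nlinarith
      nlinarith
  · intro A hA1 hA2
    have := hA A hA1 hA2
    omega

end iso

/-- four-fold sumset smaller than twice the set -/
theorem closed_of_four {Q : Type*} [AddCommGroup Q] [DecidableEq Q] (X : Finset Q)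
    (hneg : ∀ x ∈ X, -x ∈ X) (h0 : (0 : Q) ∈ X) (h4 : (it X 4).card < 2 * X.card) :
    ∀ x ∈ it X 2, ∀ y ∈ it X 2, x + y ∈ it X 2 := by
  have h1 : it X 1 = X := by
    show {0} + X = X
    rw [Finset.singleton_zero, zero_add]
  have h2 : it X 2 = X + X := by
    show it X 1 + X = X + X
    rw [h1]
  have h32 : it X 3 ⊆ it X 2 := by
    intro z hz
    have ha : (z +ᵥ X) ⊆ it X 4 := by
      intro y hy
      rw [Finset.mem_vadd_finset] at hy
      obtain ⟨w, hw, rfl⟩ := hy
      exact Finset.add_mem_add hz hw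
    have hb : X ⊆ it X 4 := by
      have := it_mono X h0 (show 1 ≤ 4 by norm_num)
      rwa [h1] at this
    have hint : ¬ Disjoint (z +ᵥ X) X := by
      intro hd
      have h5 := Finset.card_le_card (Finset.union_subset ha hb)
      rw [Finset.card_union_of_disjoint hd, Finset.card_vadd_finset] at h5
      omega
    rw [Finset.not_disjoint_iff] at hint
    obtain ⟨y, hy1, hy2⟩ := hint
    rw [Finset.mem_vadd_finset] at hy1
    obtain ⟨w, hw, rfl⟩ := hy1
    rw [h2]
    have e : z = (z +ᵥ w) + -w := by rw [vadd_eq_add]; abel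
    rw [e]
    exact Finset.add_mem_add hy2 (hneg w hw)
  intro x hx y hy
  have h42 : it X 2 + it X 2 ⊆ it X 4 := by
    have e : it X 4 = it X 2 + (X + X) := by
      show it X 2 + X + X = _
      rw [add_assoc]
    rw [e, h2]
  have h43 : it X 4 ⊆ it X 3 := by
    show it X 3 + X ⊆ it X 2 + X
    exact Finset.add_subset_add_right h32
  exact h32 (h43 (h42 (Finset.add_mem_add hx hy)))

section residues

variable {Γ Q : Type*} [AddCommGroup Γ] [AddCommGroup Q] [DecidableEq Γ] [DecidableEq Q]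

theorem gres_le (φ : Γ →+ ℝ) (π : Γ →+ Q) (τ : Γ) (hτ : 0 < φ τ) (hπ : π τ = 0)
    (S : Finset Γ) : (S.image π).card ≤ ((τ +ᵥ S) \ S).card := by
  have hsub : S.image π ⊆ ((τ +ᵥ S) \ S).image π := by
    intro c hc
    rw [Finset.mem_image] at hc
    obtain ⟨x0, hx0, hx0c⟩ := hc
    obtain ⟨F, hF⟩ : ∃ F, F = S.filter (fun x => π x = c) := ⟨_, rfl⟩
    have hFne : F.Nonempty := ⟨x0, by rw [hF, Finset.mem_filter]; exact ⟨hx0, hx0c⟩⟩
    obtain ⟨x, hx, hxmax⟩ := Finset.exists_max_image F φ hFne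
    have hxS : x ∈ S ∧ π x = c := by rw [hF, Finset.mem_filter] at hx; exact hx
    rw [Finset.mem_image]
    refine ⟨τ + x, ?_, ?_⟩
    · rw [Finset.mem_sdiff]
      refine ⟨Finset.vadd_mem_vadd_finset hxS.1, ?_⟩
      intro h
      have h1 : τ + x ∈ F := by
        rw [hF, Finset.mem_filter]
        exact ⟨h, by rw [map_add, hπ, zero_add]; exact hxS.2⟩
      have h2 := hxmax _ h1
      rw [map_add] at h2
      linarith
    · rw [map_add, hπ, zero_add]; exact hxS.2
  exact (Finset.card_le_card hsub).trans Finset.card_image_le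

theorem gres_two (φ : Γ →+ ℝ) (π : Γ →+ Q) (τ : Γ) (hτ : 0 < φ τ) (hπ : π τ = 0)
    (S W : Finset Γ) (h0 : S ⊆ W) (h1 : (τ +ᵥ S) ⊆ W) (h2 : (-τ +ᵥ S) ⊆ W) :
    S.card + 2 * (S.image π).card ≤ W.card := by
  obtain ⟨S', hS'⟩ : ∃ S', S' = S ∪ (τ +ᵥ S) := ⟨_, rfl⟩
  have ha := gres_le φ π τ hτ hπ S
  have hb : S'.card = S.card + ((τ +ᵥ S) \ S).card := by
    rw [hS', ← Finset.union_sdiff_self_eq_union, Finset.card_union_of_disjoint Finset.disjoint_sdiff]
  obtain ⟨S'', hS''⟩ : ∃ S'', S'' = (-τ +ᵥ S') := ⟨_, rfl⟩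
  have hc := gres_le φ π τ hτ hπ S''
  have hd : τ +ᵥ S'' = S' := by
    rw [hS'', ← add_vadd]
    simp
  rw [hd] at hc
  have he : (S' \ S'').card = (S'' \ S').card := by
    have h5 : S'.card = S''.card := by rw [hS'', Finset.card_vadd_finset]
    have h3 := Finset.card_sdiff_add_card_inter S' S''
    have h4 := Finset.card_sdiff_add_card_inter S'' S'
    rw [Finset.inter_comm] at h4
    omega
  have hf : S.image π ⊆ S''.image π := by
    intro c hc
    rw [Finset.mem_image] at hc ⊢
    obtain ⟨x, hx, hxc⟩ := hc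
    refine ⟨-τ + x, ?_, ?_⟩
    · rw [hS'']
      apply Finset.vadd_mem_vadd_finset
      rw [hS', Finset.mem_union]
      exact Or.inl hx
    · rw [map_add, map_neg, hπ, neg_zero, zero_add]; exact hxc
  have hg := Finset.card_le_card hf
  have hh : S' ∪ (S'' \ S') ⊆ W := by
    apply Finset.union_subset
    · rw [hS']; exact Finset.union_subset h0 h1
    · intro x hx
      rw [Finset.mem_sdiff, hS'', hS'] at hx
      rw [Finset.vadd_finset_union, Finset.mem_union, Finset.mem_union] at hx
      rcases hx.1 with h | h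
      · exact h2 h
      · rw [← add_vadd] at h
        simp only [neg_add_cancel, zero_vadd] at h
        exact h0 h
  have hi := Finset.card_le_card hh
  rw [Finset.card_union_of_disjoint Finset.disjoint_sdiff] at hi
  omega

theorem gres_sum (φ : Γ →+ ℝ) (π : Γ →+ Q) (τ : Γ) (hτ : 0 < φ τ) (hπ : π τ = 0)
    (T : Finset Γ) (h0 : (0 : Γ) ∈ T) (h1 : τ ∈ T) (h2 : -τ ∈ T) (i : ℕ) :
    2 * i * (it (T.image π) 4).card ≤ (it T (i + 4)).card := by
  induction i with
  | zero => simp
  | succ i ih =>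
    have h3 := gres_two φ π τ hτ hπ (it T (i + 4)) (it T (i + 4 + 1)) (it_mono_succ T h0 _) (by
      intro z hz
      rw [Finset.mem_vadd_finset] at hz
      obtain ⟨y, hy, rfl⟩ := hz
      rw [vadd_eq_add, add_comm τ y]
      exact Finset.add_mem_add hy h1) (by
      intro z hz
      rw [Finset.mem_vadd_finset] at hz
      obtain ⟨y, hy, rfl⟩ := hz
      rw [vadd_eq_add, add_comm (-τ) y]
      exact Finset.add_mem_add hy h2)
    rw [image_it] at h3
    have hX0 : (0 : Q) ∈ T.image π := by
      rw [Finset.mem_image]; exact ⟨0, h0, map_zero π⟩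
    have h4 := Finset.card_le_card (it_mono (T.image π) hX0 (show 4 ≤ i + 4 by omega))
    have e : i + 1 + 4 = i + 4 + 1 := by ring
    rw [e]
    nlinarith

end residues

end Pool.Agent.Helper398
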