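import Mathlib
import Pool.Agent.Helper398.GIso
import Pool.Agent.Helper398.ArgChar

set_option autoImplicit false
set_option linter.unusedSectionVars false

open Finset
open scoped Pointwise

namespace Pool.Agent.Helper398

/-- the second half of the lattice argument: constructing the homomorphism to a cyclic group -/
theorem lattice_aux {G : Type} [AddCommGroup G] [Finite G] (Γ' : AddSubgroup (G × ℝ))
    (β : ℝ) (hβ : 0 < β) (L : ℕ) (hL : 0 < L) (τ : G × ℝ) (hτ : τ ∈ Γ') (hτβ : τ.2 = L * β)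
    (hint : ∀ x ∈ Γ', ∃ k : ℤ, x.2 = k * β) (u : G × ℝ) (hu : u ∈ Γ') (huβ : u.2 = β)
    (hsurj : ∀ x : G, ∃ r : ℝ, (x, r) ∈ Γ') :
    ∃ (W : ℕ) (w : G →+ ZMod W), 0 < W ∧ Function.Surjective w ∧
      (∀ (x : G) (k : ℤ), ((x, (k : ℝ) * β) : G × ℝ) ∈ Γ' → w x = (k : ZMod W)) ∧
      (∀ x : G, w x = 0 → ((x, (0 : ℝ)) : G × ℝ) ∈ Γ') := by
  obtain ⟨NW, hNW⟩ : ∃ NW : AddSubgroup ℤ, ∀ k, k ∈ NW ↔ ((0, (k : ℝ) * β) : G × ℝ) ∈ Γ' :=
    ⟨{ carrier := {k | ((0, (k : ℝ) * β) : G × ℝ) ∈ Γ'}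
       zero_mem' := by
        show ((0, ((0 : ℤ) : ℝ) * β) : G × ℝ) ∈ Γ'
        have : ((0, ((0 : ℤ) : ℝ) * β) : G × ℝ) = 0 := by
          rw [Int.cast_zero, zero_mul]; rfl
        rw [this]; exact Γ'.zero_mem
       add_mem' := by
        intro a b ha hb
        show ((0, ((a + b : ℤ) : ℝ) * β) : G × ℝ) ∈ Γ'
        have h1 := Γ'.add_mem (show ((0, (a : ℝ) * β) : G × ℝ) ∈ Γ' from ha)
          (show ((0, (b : ℝ) * β) : G × ℝ) ∈ Γ' from hb)
        rw [Prod.mk_add_mk, add_zero] at h1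
        have e : ((a + b : ℤ) : ℝ) * β = (a : ℝ) * β + (b : ℝ) * β := by push_cast; ring
        rw [e]; exact h1
       neg_mem' := by
        intro a ha
        show ((0, ((-a : ℤ) : ℝ) * β) : G × ℝ) ∈ Γ'
        have h1 := Γ'.neg_mem (show ((0, (a : ℝ) * β) : G × ℝ) ∈ Γ' from ha)
        rw [Prod.neg_mk, neg_zero] at h1
        have e : ((-a : ℤ) : ℝ) * β = -((a : ℝ) * β) := by push_cast; ring
        rw [e]; exact h1 }, fun k => Iff.rfl⟩
  obtain ⟨W0, hW0⟩ := Int.subgroup_cyclic NW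
  have hmemW : ∀ k : ℤ, k ∈ NW ↔ W0 ∣ k := by
    intro k
    rw [hW0, AddSubgroup.mem_closure_singleton]
    constructor
    · rintro ⟨n, hn⟩
      exact ⟨n, by rw [← hn, smul_eq_mul, mul_comm]⟩
    · rintro ⟨n, hn⟩
      exact ⟨n, by rw [hn, smul_eq_mul, mul_comm]⟩
  obtain ⟨W, hW⟩ : ∃ W : ℕ, W = W0.natAbs := ⟨_, rfl⟩
  have hmemW' : ∀ k : ℤ, k ∈ NW ↔ (W : ℤ) ∣ k := by
    intro k
    rw [hmemW, hW, Int.natAbs_dvd]
  -- W is nonzero
  have hcard : 0 < Nat.card G := Nat.card_pos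
  have hmem1 : ((Nat.card G * L : ℕ) : ℤ) ∈ NW := by
    rw [hNW]
    have h1 := Γ'.nsmul_mem hτ (Nat.card G)
    have h2 : (Nat.card G) • τ = ((0, (((Nat.card G * L : ℕ) : ℤ) : ℝ) * β) : G × ℝ) := by
      apply Prod.ext
      · show (Nat.card G) • τ.1 = 0
        exact card_nsmul_eq_zero'
      · show (Nat.card G) • τ.2 = _
        rw [hτβ, nsmul_eq_mul]
        push_cast
        ring
    rwa [h2] at h1
  have hWpos : 0 < W := by
    rcases Nat.eq_zero_or_pos W with h | h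
    · exfalso
      rw [hmemW', h] at hmem1
      have h1 : ((Nat.card G * L : ℕ) : ℤ) = 0 := by
        have := zero_dvd_iff.1 (by exact_mod_cast hmem1 : (0 : ℤ) ∣ ((Nat.card G * L : ℕ) : ℤ))
        exact this
      have h2 : Nat.card G * L = 0 := by exact_mod_cast h1
      have h3 : 0 < Nat.card G * L := Nat.mul_pos hcard hL
      omega
    · exact h
  have hlift : ∀ x : G, ∃ k : ℤ, ((x, (k : ℝ) * β) : G × ℝ) ∈ Γ' := by
    intro x
    obtain ⟨r, hr⟩ := hsurj x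
    obtain ⟨k, hk⟩ := hint _ hr
    refine ⟨k, ?_⟩
    simp only at hk
    rwa [← hk]
  choose κ hκ using hlift
  have huniq : ∀ (x : G) (k l : ℤ), ((x, (k : ℝ) * β) : G × ℝ) ∈ Γ' →
      ((x, (l : ℝ) * β) : G × ℝ) ∈ Γ' → (k : ZMod W) = (l : ZMod W) := by
    intro x k l hk hl
    have h1 := Γ'.sub_mem hl hk
    rw [Prod.mk_sub_mk, sub_self] at h1
    have e : (l : ℝ) * β - (k : ℝ) * β = ((l - k : ℤ) : ℝ) * β := by push_cast; ring
    rw [e, ← hNW, hmemW'] at h1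
    exact (ZMod.intCast_eq_intCast_iff_dvd_sub _ _ _).2 h1
  have hadd : ∀ x y : G, ((κ (x + y) : ℤ) : ZMod W) = ((κ x : ℤ) : ZMod W) + ((κ y : ℤ) : ZMod W) := by
    intro x y
    rw [← Int.cast_add]
    apply huniq (x + y) _ _ (hκ (x + y))
    have h1 := Γ'.add_mem (hκ x) (hκ y)
    rw [Prod.mk_add_mk] at h1
    have e : (κ x : ℝ) * β + (κ y : ℝ) * β = ((κ x + κ y : ℤ) : ℝ) * β := by push_cast; ring
    rwa [e] at h1
  have hprop : ∀ (x : G) (k : ℤ), ((x, (k : ℝ) * β) : G × ℝ) ∈ Γ' →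
      (AddMonoidHom.mk' (fun x : G => ((κ x : ℤ) : ZMod W)) hadd) x = (k : ZMod W) := by
    intro x k hk
    exact huniq x _ _ (hκ x) hk
  refine ⟨W, AddMonoidHom.mk' (fun x : G => ((κ x : ℤ) : ZMod W)) hadd, hWpos, ?_, hprop, ?_⟩
  · intro c
    obtain ⟨k, rfl⟩ := ZMod.intCast_surjective c
    refine ⟨k • u.1, ?_⟩
    apply hprop
    have h1 := Γ'.zsmul_mem hu k
    have h2 : k • u = ((k • u.1, (k : ℝ) * β) : G × ℝ) := by
      apply Prod.ext
      · rfl
      · show k • u.2 = _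
        rw [huβ, zsmul_eq_mul]
    rwa [h2] at h1
  · intro x hx
    have h1 : ((κ x : ℤ) : ZMod W) = 0 := hx
    rw [ZMod.intCast_zmod_eq_zero_iff_dvd, ← hmemW', hNW] at h1
    have h2 := Γ'.sub_mem (hκ x) h1
    rw [Prod.mk_sub_mk, sub_self, sub_zero] at h2
    exact h2

theorem lattice {G : Type} [AddCommGroup G] [Fintype G] [DecidableEq G] (T : Finset G)
    (hneg : ∀ t ∈ T, -t ∈ T) (h0 : (0 : G) ∈ T) (hgen : AddSubgroup.closure (T : Set G) = ⊤)
    (ψ : AddChar G ℂ) (hψ : ψ ≠ 0) (J : ℕ) (hJ : 5 ≤ J) (D : ℝ)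
    (hD : ∀ t ∈ T, ‖1 - ψ t‖ ^ 2 ≤ D) (hDJ : D * (J : ℝ) ^ 2 ≤ 1) (H : ℝ)
    (hH : 3 * H < 2 * T.card) (hcount : ((it T J).card : ℝ) ≤ 2 * ((J : ℝ) - 4) * H) :
    ∃ (W L : ℕ) (w : G →+ ZMod W), 0 < W ∧ 0 < L ∧ Function.Surjective w ∧
      ((Nat.card w.ker : ℝ)) * L ≤ H ∧ ∀ t ∈ T, |(w t).valMinAbs| ≤ L := by
  classical
  have hnorm : ∀ x : G, ‖ψ x‖ = 1 := fun x => AddChar.norm_apply ψ x
  obtain ⟨f, hf⟩ : ∃ f : G → ℝ, f = fun t => ph (ψ t) := ⟨_, rfl⟩
  have hfexp : ∀ t, ψ t = Complex.exp (Complex.I * ((2 * Real.pi * f t : ℝ) : ℂ)) := by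
    intro t; rw [hf]; exact ph_exp _ (hnorm t)
  have hJr : (5 : ℝ) ≤ J := by exact_mod_cast hJ
  have hfb : ∀ t ∈ T, 4 * (J : ℝ) * |f t| ≤ 1 := by
    intro t ht
    have h1 := (ph_small (ψ t) (hnorm t)).trans (hD t ht)
    have h2 : (4 * (J : ℝ) * |f t|) ^ 2 ≤ 1 ^ 2 := by
      rw [mul_pow, mul_pow, sq_abs, hf]
      have h3 := mul_le_mul_of_nonneg_right h1 (sq_nonneg (J : ℝ))
      nlinarith
    exact le_of_sq_le_sq h2 (by norm_num)
  have hfb2 : ∀ t ∈ T, |f t| < 1 / 2 := by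
    intro t ht
    have h1 := hfb t ht
    have h2 : 0 ≤ |f t| := abs_nonneg _
    nlinarith
  have hf0 : f 0 = 0 := by
    rw [hf]
    simp [ph]
  have hfneg : ∀ t ∈ T, f (-t) = - f t := by
    intro t ht
    have h1 := hfb2 t ht
    rw [hf] at h1 ⊢
    exact ph_neg ψ t h1
  obtain ⟨T', hT'⟩ : ∃ T' : Finset (G × ℝ), T' = T.image (fun t => (t, f t)) := ⟨_, rfl⟩
  have hmemT' : ∀ x, x ∈ T' ↔ x.1 ∈ T ∧ x.2 = f x.1 := by
    intro x
    rw [hT', Finset.mem_image]
    constructor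
    · rintro ⟨t, ht, rfl⟩
      exact ⟨ht, rfl⟩
    · rintro ⟨h1, h2⟩
      exact ⟨x.1, h1, by rw [← h2]⟩
  have hT'0 : (0 : G × ℝ) ∈ T' := by
    rw [hmemT']
    exact ⟨h0, hf0.symm⟩
  have hT'neg : ∀ x ∈ T', -x ∈ T' := by
    intro x hx
    rw [hmemT'] at hx ⊢
    refine ⟨hneg _ hx.1, ?_⟩
    show -x.2 = f (-x.1)
    rw [hfneg _ hx.1, hx.2]
  have hcardT' : T'.card = T.card := by
    rw [hT']
    apply Finset.card_image_of_injective
    intro a b hab
    exact (Prod.mk.inj hab).1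
  obtain ⟨φ, hφ⟩ : ∃ φ : G × ℝ →+ ℝ, φ = AddMonoidHom.snd G ℝ := ⟨_, rfl⟩
  have hφe : ∀ x, φ x = x.2 := fun x => by rw [hφ]; rfl
  -- bounds on the iterated sumsets
  have hitb : ∀ j : ℕ, ∀ x ∈ it T' j, 4 * (J : ℝ) * |x.2| ≤ j ∧
      ψ x.1 = Complex.exp (Complex.I * ((2 * Real.pi * x.2 : ℝ) : ℂ)) := by
    intro j
    induction j with
    | zero =>
      intro x hx
      simp only [it, Finset.mem_singleton] at hx
      subst hx
      simp
    | succ j ih =>
      intro x hx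
      simp only [it, Finset.mem_add] at hx
      obtain ⟨a, ha, t, ht, rfl⟩ := hx
      have h1 := ih a ha
      rw [hmemT'] at ht
      have h2 := hfb _ ht.1
      rw [← ht.2] at h2
      constructor
      · have h3 : |(a + t).2| ≤ |a.2| + |t.2| := abs_add_le a.2 t.2
        have h4 := mul_le_mul_of_nonneg_left h3 (by positivity : (0 : ℝ) ≤ 4 * J)
        push_cast
        nlinarith [h1.1]
      · show ψ (a.1 + t.1) = _
        rw [AddChar.map_add_eq_mul, h1.2, hfexp t.1, ← ht.2, ← Complex.exp_add]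
        congr 1
        show _ = Complex.I * ((2 * Real.pi * (a.2 + t.2) : ℝ) : ℂ)
        push_cast
        ring
  have hcardit : (it T' J).card ≤ (it T J).card := by
    have h1 : T'.image (AddMonoidHom.fst G ℝ) = T := by
      ext x
      rw [Finset.mem_image]
      constructor
      · rintro ⟨y, hy, rfl⟩
        exact ((hmemT' y).1 hy).1
      · intro hx
        exact ⟨(x, f x), (hmemT' _).2 ⟨hx, rfl⟩, rfl⟩
    have h2 : (it T' J).image (AddMonoidHom.fst G ℝ) = it T J := by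
      rw [image_it, h1]
    rw [← h2, Finset.card_image_of_injOn]
    intro x hx y hy hxy
    rw [Finset.mem_coe] at hx hy
    have h3 := hitb J x hx
    have h4 := hitb J y hy
    have hxy' : x.1 = y.1 := hxy
    have h5 : x.2 = y.2 := by
      apply ph_inj
      · rw [← h3.2, ← h4.2, hxy']
      · have h6 : |x.2 - y.2| ≤ |x.2| + |y.2| := abs_sub x.2 y.2
        nlinarith [h3.1, h4.1]
    exact Prod.ext hxy' h5
  -- the largest element
  obtain ⟨t0, ht0, ht0max⟩ := Finset.exists_max_image T f ⟨0, h0⟩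
  obtain ⟨α, hα⟩ : ∃ α, α = f t0 := ⟨_, rfl⟩
  have hαmax : ∀ t ∈ T, |f t| ≤ α := by
    intro t ht
    rw [abs_le, hα]
    constructor
    · have := ht0max _ (hneg t ht)
      rw [hfneg t ht] at this
      linarith
    · exact ht0max t ht
  have hαpos : 0 < α := by
    by_contra hcon
    push Not at hcon
    apply hψ
    have h1 : AddSubgroup.closure (T : Set G) ≤ ψ.toAddMonoidHom.ker := by
      rw [AddSubgroup.closure_le]
      intro t ht
      have h2 : |f t| ≤ 0 := (hαmax t (by simpa using ht)).trans hcon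
      have h3 : f t = 0 := abs_nonpos_iff.1 h2
      show ψ.toAddMonoidHom t = 0
      have h4 : ψ t = 1 := by rw [hfexp, h3]; simp
      exact h4
    rw [hgen, top_le_iff] at h1
    ext x
    have h2 : x ∈ ψ.toAddMonoidHom.ker := by rw [h1]; exact AddSubgroup.mem_top x
    have h3 : ψ.toAddMonoidHom x = 0 := h2
    have h4 : ψ x = 1 := h3
    rw [h4]; simp
  obtain ⟨τ, hτ⟩ : ∃ τ : G × ℝ, τ = (t0, α) := ⟨_, rfl⟩
  have hτT' : τ ∈ T' := by rw [hmemT', hτ]; exact ⟨ht0, hα⟩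
  have hφτ : φ τ = α := by rw [hφe, hτ]
  obtain ⟨π, hπ⟩ : ∃ π : G × ℝ →+ (G × ℝ) ⧸ AddSubgroup.zmultiples τ,
    π = QuotientAddGroup.mk' (AddSubgroup.zmultiples τ) := ⟨_, rfl⟩
  have hπker : ∀ x, π x = 0 ↔ ∃ n : ℤ, n • τ = x := by
    intro x
    rw [hπ, QuotientAddGroup.mk'_apply, QuotientAddGroup.eq_zero_iff,
      AddSubgroup.mem_zmultiples_iff]
  have hπτ : π τ = 0 := (hπker τ).2 ⟨1, one_zsmul _⟩
  obtain ⟨X, hX⟩ : ∃ X, X = T'.image π := ⟨_, rfl⟩
  have hX0 : (0 : (G × ℝ) ⧸ AddSubgroup.zmultiples τ) ∈ X := by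
    rw [hX, Finset.mem_image]; exact ⟨0, hT'0, map_zero π⟩
  have hXneg : ∀ x ∈ X, -x ∈ X := by
    intro x hx
    rw [hX, Finset.mem_image] at hx ⊢
    obtain ⟨y, hy, rfl⟩ := hx
    exact ⟨-y, hT'neg y hy, map_neg π y⟩
  -- the four-fold sumset of X
  obtain ⟨i, hi⟩ : ∃ i, J = i + 4 := ⟨J - 4, by omega⟩
  have hir : (1 : ℝ) ≤ i := by
    have : 1 ≤ i := by omega
    exact_mod_cast this
  have hX4 : ((it X 4).card : ℝ) ≤ H := by
    have h1 := gres_sum φ π τ (by rw [hφτ]; exact hαpos) hπτ T' hT'0 hτT' (hT'neg _ hτT') i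
    rw [← hX, ← hi] at h1
    have h2 : (2 : ℝ) * i * (it X 4).card ≤ (it T J).card := by
      exact_mod_cast h1.trans hcardit
    have h3 : ((J : ℝ) - 4) = i := by rw [hi]; push_cast; ring
    rw [h3] at hcount
    have h4 : (2 * (i : ℝ)) * (it X 4).card ≤ (2 * i) * H := by linarith
    exact le_of_mul_le_mul_left h4 (by positivity)
  -- fibres
  have hTX : T.card ≤ 3 * X.card := by
    rw [← hcardT']
    apply Finset.card_le_mul_card_image_of_maps_to (f := π) (t := X)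
    · intro x hx
      rw [hX]
      exact Finset.mem_image_of_mem _ hx
    · intro c hc
      obtain ⟨F, hF⟩ : ∃ F, F = T'.filter (fun x => π x = c) := ⟨_, rfl⟩
      rw [← hF]
      rcases F.eq_empty_or_nonempty with h | h
      · rw [h]; simp
      obtain ⟨x0, hx0, hmin⟩ := Finset.exists_min_image F φ h
      have hsub : F ⊆ {x0, x0 + τ, x0 + (2 : ℤ) • τ} := by
        intro x hx
        have h1 := hmin x hx
        rw [hF, Finset.mem_filter] at hx hx0
        have h2 : π (x - x0) = 0 := by rw [map_sub, hx.2, hx0.2, sub_self]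
        rw [hπker] at h2
        obtain ⟨n, hn⟩ := h2
        have h3 : (n : ℝ) * α = x.2 - x0.2 := by
          have := congrArg φ hn
          rw [map_zsmul, map_sub, hφτ, hφe, hφe, zsmul_eq_mul] at this
          exact this
        rw [hφe, hφe] at h1
        have h4 := hαmax _ ((hmemT' x).1 hx.1).1
        have h5 := hαmax _ ((hmemT' x0).1 hx0.1).1
        rw [← ((hmemT' x).1 hx.1).2, abs_le] at h4
        rw [← ((hmemT' x0).1 hx0.1).2, abs_le] at h5
        have h6 : (0 : ℝ) ≤ n := by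
          by_contra hc
          push Not at hc
          nlinarith
        have h7 : (n : ℝ) ≤ 2 := by
          by_contra hc
          push Not at hc
          nlinarith
        have h8 : 0 ≤ n := by exact_mod_cast h6
        have h9 : n ≤ 2 := by exact_mod_cast h7
        have h10 : x = x0 + n • τ := by rw [hn]; abel
        have h11 : n = 0 ∨ n = 1 ∨ n = 2 := by omega
        rw [Finset.mem_insert, Finset.mem_insert, Finset.mem_singleton]
        rcases h11 with rfl | rfl | rfl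
        · left; rw [h10]; simp
        · right; left; rw [h10]; simp
        · right; right; exact h10
      exact (Finset.card_le_card hsub).trans Finset.card_le_three
  have hTXr : (T.card : ℝ) ≤ 3 * X.card := by exact_mod_cast hTX
  have h42 : (it X 4).card < 2 * X.card := by
    have : ((it X 4).card : ℝ) < 2 * X.card := by linarith
    exact_mod_cast this
  have hclosed := closed_of_four X hXneg hX0 h42
  obtain ⟨Qs, hQs⟩ : ∃ Qs : AddSubgroup ((G × ℝ) ⧸ AddSubgroup.zmultiples τ),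
      ∀ z, z ∈ Qs ↔ z ∈ it X 2 :=
    ⟨{ carrier := {z | z ∈ it X 2}
       zero_mem' := zero_mem_it X hX0 2
       add_mem' := by
        intro a b ha hb
        exact hclosed a ha b hb
       neg_mem' := by
        intro a ha
        exact neg_mem_it X hXneg 2 a ha }, fun z => Iff.rfl⟩
  obtain ⟨h, hh⟩ : ∃ h, h = (it X 2).card := ⟨_, rfl⟩
  have hhpos : 0 < h := by rw [hh]; exact Finset.card_pos.2 ⟨0, zero_mem_it X hX0 2⟩
  have hhH : (h : ℝ) ≤ H := by
    refine le_trans ?_ hX4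
    rw [hh]
    exact_mod_cast Finset.card_le_card (it_mono X hX0 (by norm_num))
  have hQcard : Nat.card Qs = h := by
    have h7 : (Qs : Set ((G × ℝ) ⧸ AddSubgroup.zmultiples τ)) =
        ((it X 2 : Finset ((G × ℝ) ⧸ AddSubgroup.zmultiples τ)) : Set _) := by
      ext z
      rw [SetLike.mem_coe, hQs, Finset.mem_coe]
    have h8 : Nat.card Qs = Nat.card (Qs : Set ((G × ℝ) ⧸ AddSubgroup.zmultiples τ)) := rfl
    rw [h8, h7, Nat.card_coe_set_eq, Set.ncard_coe_finset, hh]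
  -- the generated subgroup
  obtain ⟨Γ', hΓ'⟩ : ∃ Γ' : AddSubgroup (G × ℝ), Γ' = AddSubgroup.closure (T' : Set (G × ℝ)) :=
    ⟨_, rfl⟩
  have hT'Γ : ∀ x ∈ T', x ∈ Γ' := by
    intro x hx
    rw [hΓ']
    exact AddSubgroup.subset_closure (by simpa using hx)
  have hΓQ : ∀ x ∈ Γ', π x ∈ Qs := by
    intro x hx
    have h1 : Γ' ≤ Qs.comap π := by
      rw [hΓ', AddSubgroup.closure_le]
      intro y hy
      show π y ∈ Qs
      rw [hQs]
      have h2 : π y ∈ it X 1 := by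
        show π y ∈ {0} + X
        rw [Finset.singleton_zero, zero_add, hX]
        exact Finset.mem_image_of_mem _ (by simpa using hy)
      exact it_mono X hX0 (by norm_num) h2
    exact h1 hx
  have hhx : ∀ x ∈ Γ', ∃ n : ℤ, (h : ℝ) * x.2 = n * α := by
    intro x hx
    have h1 : h • π x = 0 := by
      have h2 : h • (⟨π x, hΓQ x hx⟩ : Qs) = 0 := by
        rw [← hQcard]; exact card_nsmul_eq_zero'
      have h3 := congrArg Subtype.val h2
      simpa using h3
    rw [← map_nsmul, hπker] at h1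
    obtain ⟨n, hn⟩ := h1
    refine ⟨n, ?_⟩
    have := congrArg φ hn
    rw [map_zsmul, map_nsmul, hφτ, hφe, zsmul_eq_mul, nsmul_eq_mul] at this
    exact this.symm
  obtain ⟨N, hN⟩ : ∃ N : AddSubgroup ℤ, ∀ n, n ∈ N ↔ ∃ x ∈ Γ', (h : ℝ) * x.2 = n * α :=
    ⟨{ carrier := {n | ∃ x ∈ Γ', (h : ℝ) * x.2 = n * α}
       zero_mem' := ⟨0, Γ'.zero_mem, by simp⟩
       add_mem' := by
        rintro a b ⟨x, hx, hx2⟩ ⟨y, hy, hy2⟩
        refine ⟨x + y, Γ'.add_mem hx hy, ?_⟩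
        show (h : ℝ) * (x.2 + y.2) = _
        push_cast
        linarith
       neg_mem' := by
        rintro a ⟨x, hx, hx2⟩
        refine ⟨-x, Γ'.neg_mem hx, ?_⟩
        show (h : ℝ) * (-x.2) = _
        push_cast
        linarith }, fun n => Iff.rfl⟩
  obtain ⟨g0, hg0⟩ := Int.subgroup_cyclic N
  obtain ⟨g, hg⟩ : ∃ g : ℕ, g = g0.natAbs := ⟨_, rfl⟩
  have hmemN : ∀ k : ℤ, k ∈ N ↔ (g : ℤ) ∣ k := by
    intro k
    rw [hg, Int.natAbs_dvd, hg0, AddSubgroup.mem_closure_singleton]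
    constructor
    · rintro ⟨n, hn⟩
      exact ⟨n, by rw [← hn, smul_eq_mul, mul_comm]⟩
    · rintro ⟨n, hn⟩
      exact ⟨n, by rw [hn, smul_eq_mul, mul_comm]⟩
  have hτΓ : τ ∈ Γ' := hT'Γ τ hτT'
  have hτ2 : τ.2 = α := by rw [hτ]
  have hhN : (h : ℤ) ∈ N := by
    rw [hN]
    exact ⟨τ, hτΓ, by rw [hτ2]; push_cast; ring⟩
  rw [hmemN] at hhN
  obtain ⟨L, hL⟩ : ∃ L : ℕ, h = g * L := by
    have : g ∣ h := by exact_mod_cast hhN
    exact this
  have hLpos : 0 < L := by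
    rcases Nat.eq_zero_or_pos L with h1 | h1
    · rw [h1, mul_zero] at hL; omega
    · exact h1
  have hgpos : 0 < g := by
    rcases Nat.eq_zero_or_pos g with h1 | h1
    · rw [h1, zero_mul] at hL; omega
    · exact h1
  have hLr : (0 : ℝ) < L := by exact_mod_cast hLpos
  have hgr : (0 : ℝ) < g := by exact_mod_cast hgpos
  have hhr : (h : ℝ) = g * L := by rw [hL]; push_cast; ring
  obtain ⟨β, hβ⟩ : ∃ β : ℝ, β = α / L := ⟨_, rfl⟩
  have hβpos : 0 < β := by rw [hβ]; positivity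
  have hαβ : α = L * β := by rw [hβ]; field_simp
  have hint : ∀ x ∈ Γ', ∃ k : ℤ, x.2 = k * β := by
    intro x hx
    obtain ⟨n, hn⟩ := hhx x hx
    have h1 : n ∈ N := (hN n).2 ⟨x, hx, hn⟩
    rw [hmemN] at h1
    obtain ⟨k, hk⟩ := h1
    refine ⟨k, ?_⟩
    rw [hk, hhr, hαβ] at hn
    push_cast at hn
    have h2 : ((g : ℝ) * L) * x.2 = ((g : ℝ) * L) * (k * β) := by linarith
    exact mul_left_cancel₀ (by positivity) h2
  have hu : ∃ u ∈ Γ', u.2 = β := by
    have h1 : (g : ℤ) ∈ N := (hmemN _).2 (dvd_refl _)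
    rw [hN] at h1
    obtain ⟨x, hx, hx2⟩ := h1
    refine ⟨x, hx, ?_⟩
    rw [hhr, hαβ] at hx2
    push_cast at hx2
    have h2 : ((g : ℝ) * L) * x.2 = ((g : ℝ) * L) * β := by linarith
    exact mul_left_cancel₀ (by positivity) h2
  obtain ⟨u, huΓ, huβ⟩ := hu
  have hsurj : ∀ x : G, ∃ r : ℝ, (x, r) ∈ Γ' := by
    intro x
    have h1 : AddSubgroup.closure (T : Set G) ≤ Γ'.map (AddMonoidHom.fst G ℝ) := by
      rw [AddSubgroup.closure_le]
      intro t ht
      exact ⟨(t, f t), hT'Γ _ ((hmemT' _).2 ⟨by simpa using ht, rfl⟩), rfl⟩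
    have h2 : x ∈ Γ'.map (AddMonoidHom.fst G ℝ) := h1 (by rw [hgen]; exact AddSubgroup.mem_top x)
    obtain ⟨y, hy, hyx⟩ := h2
    refine ⟨y.2, ?_⟩
    have h3 : (x, y.2) = y := by
      rw [← hyx]; rfl
    rw [h3]; exact hy
  obtain ⟨W, w, hW, hwsurj, hw1, hw2⟩ := lattice_aux Γ' β hβpos L hLpos τ hτΓ
    (by rw [hτ2]; exact hαβ) hint u huΓ huβ hsurj
  refine ⟨W, L, w, hW, hLpos, hwsurj, ?_, ?_⟩
  · -- counting the kernel
    have hcnt : Nat.card w.ker * L ≤ h := by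
      have h1 : Nat.card w.ker * L = Nat.card (w.ker × Fin L) := by
        rw [Nat.card_prod, Nat.card_eq_fintype_card (α := Fin L), Fintype.card_fin]
      rw [h1, ← hQcard]
      have hfin : Finite Qs := Nat.finite_of_card_ne_zero (by rw [hQcard]; omega)
      have hker : ∀ x : w.ker, (((x : G), (0 : ℝ)) : G × ℝ) ∈ Γ' := fun x => hw2 x x.2
      apply Nat.card_le_card_of_injective
        (fun p : w.ker × Fin L => (⟨π ((((p.1 : G), (0 : ℝ)) : G × ℝ) + (p.2 : ℕ) • u),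
          hΓQ _ (Γ'.add_mem (hker p.1) (Γ'.nsmul_mem huΓ _))⟩ : Qs))
      rintro ⟨x, i⟩ ⟨y, j⟩ hxy
      have h2 := congrArg Subtype.val hxy
      simp only at h2
      rw [← sub_eq_zero, ← map_sub, hπker] at h2
      obtain ⟨n, hn⟩ := h2
      have h3 := congrArg φ hn
      rw [map_zsmul, hφτ, map_sub, map_add, map_add, map_nsmul, map_nsmul, hφe, hφe, hφe, huβ,
        zsmul_eq_mul, nsmul_eq_mul, nsmul_eq_mul, hαβ] at h3
      simp only [zero_add] at h3
      have h4 : ((n : ℝ) * L) * β = (((i : ℕ) : ℝ) - ((j : ℕ) : ℝ)) * β := by linarith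
      have h5 : (n : ℝ) * L = ((i : ℕ) : ℝ) - ((j : ℕ) : ℝ) := mul_right_cancel₀ hβpos.ne' h4
      have h6 : n * (L : ℤ) = ((i : ℕ) : ℤ) - ((j : ℕ) : ℤ) := by exact_mod_cast h5
      have hi := i.2
      have hj := j.2
      have h7 : n = 0 := by
        by_contra hne
        rcases lt_or_gt_of_ne hne with h8 | h8
        · have : n * (L : ℤ) ≤ -1 * L := mul_le_mul_of_nonneg_right (by omega) (by omega)
          omega
        · have : 1 * (L : ℤ) ≤ n * L := mul_le_mul_of_nonneg_right (by omega) (by omega)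
          omega
      rw [h7, zero_mul] at h6
      have h8 : (i : ℕ) = (j : ℕ) := by omega
      rw [h7, zero_zsmul, h8] at hn
      have h9 : (((x : G), (0 : ℝ)) : G × ℝ) = ((y : G), (0 : ℝ)) := by
        have h10 : (((x : G), (0 : ℝ)) : G × ℝ) - ((y : G), (0 : ℝ)) = 0 := by
          rw [hn]; abel
        exact sub_eq_zero.1 h10
      have h10 : (x : G) = (y : G) := (Prod.mk.inj h9).1
      exact Prod.ext (Subtype.ext h10) (Fin.ext h8)
    have : ((Nat.card w.ker : ℝ)) * L ≤ h := by exact_mod_cast hcnt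
    linarith
  · intro t ht
    obtain ⟨k, hk⟩ := hint (t, f t) (hT'Γ _ ((hmemT' _).2 ⟨ht, rfl⟩))
    simp only at hk
    have h1 : w t = (k : ZMod W) := by
      apply hw1
      rw [← hk]
      exact hT'Γ _ ((hmemT' _).2 ⟨ht, rfl⟩)
    have h2 := hαmax t ht
    rw [hk, abs_mul, abs_of_pos hβpos, hαβ] at h2
    have h3 : |(k : ℝ)| ≤ L := le_of_mul_le_mul_right h2 hβpos
    have h4 : |k| ≤ L := by exact_mod_cast h3
    have : NeZero W := ⟨by omega⟩
    rw [h1]
    -- valMinAbs is minimal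
    have h5 : ((k : ZMod W).valMinAbs).natAbs ≤ k.natAbs := by
      apply ZMod.natAbs_min_of_le_div_two W
      · rw [ZMod.coe_valMinAbs]
      · exact ZMod.natAbs_valMinAbs_le _
    rw [Int.abs_eq_natAbs] at h4 ⊢
    omega

end Pool.Agent.Helper398
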