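import Mathlib
import Pool.Agent.Helper398.Four
import Pool.Agent.Helper398.NS3

set_option autoImplicit false
set_option linter.unusedSectionVars false

open Finset
open scoped Pointwise

namespace Pool.Agent.Helper398

variable {G : Type*} [AddCommGroup G] [DecidableEq G]

/-- if all translates by elements of T' move B by at most μ, then T' has at most about 2μ elements
(in the sense of its isoperimetric constant ν) -/
theorem lin_growth [Fintype G] (B T' : Finset G) (ν : ℕ)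
    (hκ : ∀ A : Finset G, A.Nonempty → A + T' ≠ univ → A.card + ν ≤ (A + T').card)
    (h0 : (0 : G) ∈ T') (μ θ : ℝ) (hμ : 0 < μ) (hL : ∀ t ∈ T', (gr B t : ℝ) ≤ μ)
    (hθ : 0 < θ) (hθ2 : θ ≤ 1 / 4) (hμb : μ ≤ θ ^ 2 * B.card)
    (hb : (B.card : ℝ) < θ * Fintype.card G) : (ν : ℝ) ≤ 2 * (1 + 4 * θ ^ 2) * μ := by
  obtain ⟨b, hbd⟩ : ∃ b : ℝ, b = (B.card : ℝ) := ⟨_, rfl⟩
  have hcount := counting B T' h0 μ hL
  rw [← hbd] at hμb hb hcount
  have hb0 : 0 < b := by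
    have : 0 < θ ^ 2 * b := lt_of_lt_of_le hμ hμb
    by_contra hc
    push Not at hc
    have h1 := mul_nonpos_of_nonneg_of_nonpos (sq_nonneg θ) hc
    linarith
  obtain ⟨i, hi⟩ : ∃ i : ℕ, i = ⌊(1 - θ) * b / μ⌋₊ := ⟨_, rfl⟩
  obtain ⟨v, hv⟩ : ∃ v : ℝ, v = i * μ := ⟨_, rfl⟩
  have hθ1 : 0 < 1 - θ := by linarith
  have hi1 : (i : ℝ) ≤ (1 - θ) * b / μ := by
    rw [hi]; exact Nat.floor_le (by positivity)
  have hi2 : (1 - θ) * b / μ < i + 1 := by
    rw [hi]; exact Nat.lt_floor_add_one _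
  rw [le_div_iff₀ hμ] at hi1
  rw [div_lt_iff₀ hμ] at hi2
  have hv1 : v ≤ (1 - θ) * b := by rw [hv]; exact hi1
  have hv2 : (1 - θ) * b < v + μ := by rw [hv]; linarith
  have hnu : it T' i ≠ univ := by
    intro hu
    have h1 := hcount i
    rw [hu, Finset.card_univ, ← hv] at h1
    have h2 : 0 ≤ μ * ∑ j ∈ range i, ((it T' j).card : ℝ) := by positivity
    have h3 : θ * b ≤ b - v := by linarith
    have h4 : (Fintype.card G : ℝ) * (θ * b) ≤ Fintype.card G * (b - v) :=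
      mul_le_mul_of_nonneg_left h3 (by positivity)
    have h5 : b * b < b * (θ * Fintype.card G) := mul_lt_mul_of_pos_left hb hb0
    rw [sq] at h1
    linarith
  have hnj : ∀ j ≤ i, it T' j ≠ univ := by
    intro j hj hu
    apply hnu
    rw [Finset.eq_univ_iff_forall]
    intro x
    apply it_mono T' h0 hj
    rw [hu]; exact Finset.mem_univ x
  have hcardj : ∀ j ≤ i, (1 : ℝ) + j * ν ≤ ((it T' j).card : ℝ) := by
    intro j hj
    rcases it_card T' ν hκ h0 j with h | h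
    · exact absurd h (hnj j hj)
    · exact_mod_cast h
  have h1 := hcount i
  rw [← hv] at h1
  have h2 : ∑ j ∈ range i, ((1 : ℝ) + j * ν) ≤ ∑ j ∈ range i, ((it T' j).card : ℝ) := by
    apply Finset.sum_le_sum
    intro j hj
    rw [Finset.mem_range] at hj
    exact hcardj j hj.le
  have h3 : ∑ j ∈ range i, ((1 : ℝ) + j * ν) = i + ν * (i * (i - 1) / 2) := by
    have : ∀ k : ℕ, ∑ j ∈ range k, ((1 : ℝ) + j * ν) = k + ν * (k * (k - 1) / 2) := by
      intro k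
      induction k with
      | zero => simp
      | succ k ih =>
        rw [Finset.sum_range_succ, ih]
        push_cast
        ring
    exact this i
  rw [h3] at h2
  have h4 := hcardj i le_rfl
  have hν0 : (0 : ℝ) ≤ ν := Nat.cast_nonneg _
  have hi0 : (0 : ℝ) ≤ i := Nat.cast_nonneg _
  have hθb : 0 ≤ θ * b := mul_nonneg hθ.le hb0.le
  have hθ2b : 0 ≤ θ ^ 2 * b := mul_nonneg (sq_nonneg θ) hb0.le
  have hbv : 0 ≤ b - v := by linarith
  have h5 : (1 + i * ν) * (b - v) + μ * (i + ν * (i * (i - 1) / 2)) ≤ b ^ 2 := by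
    have h6 := mul_le_mul_of_nonneg_right h4 hbv
    have h7 := mul_le_mul_of_nonneg_left h2 hμ.le
    linarith
  have h6 : (i : ℝ) * ν * (b - v) + μ * (ν * (i * (i - 1) / 2)) ≤ b ^ 2 := by
    have h8 : 0 ≤ μ * i := by positivity
    linarith
  have h7 : ν * (v * (b - v / 2 - μ / 2)) ≤ μ * b ^ 2 := by
    have h8 := mul_le_mul_of_nonneg_left h6 hμ.le
    have h9 : μ * ((i : ℝ) * ν * (b - v) + μ * (ν * (i * (i - 1) / 2))) =
        ν * (v * (b - v / 2 - μ / 2)) := by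
      rw [hv]; ring
    linarith
  -- lower bound for v (b - v/2 - μ/2)
  obtain ⟨v0, hv0⟩ : ∃ v0 : ℝ, v0 = (1 - θ - θ ^ 2) * b := ⟨_, rfl⟩
  have hθsq : θ ^ 2 ≤ 1 / 16 := by
    have h := mul_le_mul hθ2 hθ2 hθ.le (by norm_num : (0 : ℝ) ≤ 1 / 4)
    rw [sq]; linarith
  have hθcu : θ ^ 3 ≤ 1 / 16 := by
    have h := mul_le_mul_of_nonneg_right hθ2 (sq_nonneg θ)
    have e : θ ^ 3 = θ * θ ^ 2 := by ring
    rw [e]
    linarith
  have h8 : v0 ≤ v := by rw [hv0]; linarith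
  have hv00 : 0 ≤ v0 := by
    rw [hv0]
    apply mul_nonneg _ hb0.le
    linarith
  have h9 : v0 * (b * (1 + θ) / 2) ≤ v * (b - v / 2 - μ / 2) := by
    have h10 : v * (b - v / 2 - θ ^ 2 * b / 2) ≤ v * (b - v / 2 - μ / 2) := by
      apply mul_le_mul_of_nonneg_left _ (le_trans hv00 h8)
      linarith
    have h11 : v0 * (b * (1 + θ) / 2) = v0 * (b - v0 / 2 - θ ^ 2 * b / 2) := by
      rw [hv0]; ring
    have h12 : v * (b - v / 2 - θ ^ 2 * b / 2) - v0 * (b - v0 / 2 - θ ^ 2 * b / 2) =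
        (v - v0) * (b - (v + v0) / 2 - θ ^ 2 * b / 2) := by ring
    have h13 : 0 ≤ (v - v0) * (b - (v + v0) / 2 - θ ^ 2 * b / 2) := by
      apply mul_nonneg (by linarith)
      have h14 : v0 ≤ (1 - θ) * b := by
        rw [hv0]
        linarith
      have h15 : θ ^ 2 * b ≤ 1 / 4 * (θ * b) := by
        have h := mul_le_mul_of_nonneg_right hθ2 hθb
        have e : θ ^ 2 * b = θ * (θ * b) := by ring
        rw [e]; exact h
      linarith
    linarith
  have h10 : 1 ≤ (1 - θ - θ ^ 2) * (1 + θ) * (1 + 4 * θ ^ 2) := by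
    have e : (1 - θ - θ ^ 2) * (1 + θ) * (1 + 4 * θ ^ 2) =
        1 + θ ^ 2 * (2 - θ - 8 * θ ^ 2 - 4 * θ ^ 3) := by ring
    rw [e]
    have h11 : 0 ≤ 2 - θ - 8 * θ ^ 2 - 4 * θ ^ 3 := by
      linarith
    linarith [mul_nonneg (sq_nonneg θ) h11]
  have h11 : b ^ 2 ≤ 2 * (1 + 4 * θ ^ 2) * (v0 * (b * (1 + θ) / 2)) := by
    have e : 2 * (1 + 4 * θ ^ 2) * (v0 * (b * (1 + θ) / 2)) =
      b ^ 2 * ((1 - θ - θ ^ 2) * (1 + θ) * (1 + 4 * θ ^ 2)) := by rw [hv0]; ring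
    rw [e]
    have h := mul_le_mul_of_nonneg_left h10 (sq_nonneg b)
    linarith
  have h12 : ν * b ^ 2 ≤ 2 * (1 + 4 * θ ^ 2) * μ * b ^ 2 := by
    calc (ν : ℝ) * b ^ 2 ≤ ν * (2 * (1 + 4 * θ ^ 2) * (v0 * (b * (1 + θ) / 2))) :=
          mul_le_mul_of_nonneg_left h11 hν0
      _ ≤ ν * (2 * (1 + 4 * θ ^ 2) * (v * (b - v / 2 - μ / 2))) := by
          apply mul_le_mul_of_nonneg_left _ hν0
          exact mul_le_mul_of_nonneg_left h9 (by positivity)
      _ = 2 * (1 + 4 * θ ^ 2) * (ν * (v * (b - v / 2 - μ / 2))) := by ring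
      _ ≤ 2 * (1 + 4 * θ ^ 2) * (μ * b ^ 2) := mul_le_mul_of_nonneg_left h7 (by positivity)
      _ = _ := by ring
  exact le_of_mul_le_mul_right h12 (by positivity)

/-- the greedy process -/
theorem exists_stage (A X0 : Finset G) (hX0 : X0 ⊆ A) (lam : ℝ) (I : ℕ) :
    (∃ X, X0 ⊆ X ∧ X ⊆ A ∧ X.card < X0.card + I ∧ ∀ y ∈ A \ X, (gr X.subsetSum y : ℝ) ≤ lam) ∨
    (∃ X, X0 ⊆ X ∧ X ⊆ A ∧ X.card = X0.card + I ∧ I * lam ≤ (X.subsetSum.card : ℝ)) := by
  induction I with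
  | zero =>
    right
    exact ⟨X0, Finset.Subset.refl _, hX0, rfl, by simp⟩
  | succ I ih =>
    rcases ih with ⟨X, h1, h2, h3, h4⟩ | ⟨X, h1, h2, h3, h4⟩
    · left
      exact ⟨X, h1, h2, by omega, h4⟩
    · by_cases h : ∀ y ∈ A \ X, (gr X.subsetSum y : ℝ) ≤ lam
      · left
        exact ⟨X, h1, h2, by omega, h⟩
      · right
        push Not at h
        obtain ⟨y, hy, hy2⟩ := h
        rw [Finset.mem_sdiff] at hy
        refine ⟨insert y X, h1.trans (Finset.subset_insert _ _),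
          Finset.insert_subset hy.1 h2, ?_, ?_⟩
        · rw [Finset.card_insert_of_notMem hy.2]; omega
        · rw [card_subsetSum_insert X y hy.2]
          push_cast
          linarith

end Pool.Agent.Helper398
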