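import Mathlib
import Pool.Agent.Helper398.Lattice
import Pool.Agent.Helper398.Near
import Pool.Agent.Helper398.Crude

set_option autoImplicit false
set_option linter.unusedSectionVars false

open Finset
open scoped Pointwise

namespace Pool.Agent.Helper398

theorem closure_sym {G : Type*} [AddCommGroup G] [DecidableEq G] (R : Finset G)
    (h : AddSubgroup.closure (R : Set G) = ⊤) : AddSubgroup.closure (sym R : Set G) = ⊤ := by
  rw [eq_top_iff, ← h]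
  apply AddSubgroup.closure_mono
  intro x hx
  exact_mod_cast subset_sym R (by exact_mod_cast hx)

/-- iterated sumsets cannot be everything when the growth is small -/
theorem it_ne_univ {G : Type} [AddCommGroup G] [Fintype G] [DecidableEq G] (B T : Finset G)
    (lam θ : ℝ) (hL : ∀ t ∈ T, (gr B t : ℝ) ≤ lam) (K : ℕ) (hθ : 0 < θ) (hθ2 : θ ≤ 1 / 4)
    (hK : K * lam ≤ θ ^ 2 * B.card) (hb0 : 0 < B.card)
    (hb : (B.card : ℝ) < θ * Fintype.card G) : it T K ≠ univ := by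
  intro hu
  have h1 : ∀ y : G, (gr B y : ℝ) ≤ θ ^ 2 * B.card := by
    intro y
    have h := gr_it B T lam hL K y (by rw [hu]; exact Finset.mem_univ _)
    linarith
  have h2 := sum_inter B
  have h3 : ∀ y : G, ((1 - θ ^ 2) * B.card : ℝ) ≤ (B ∩ (y +ᵥ B)).card := by
    intro y
    have h4 := card_inter_add_gr B y
    have h5 : ((B ∩ (y +ᵥ B)).card : ℝ) + gr B y = B.card := by exact_mod_cast h4
    have := h1 y
    linarith
  have h4 : (∑ y : G, (B ∩ (y +ᵥ B)).card : ℝ) = (B.card : ℝ) ^ 2 := by exact_mod_cast h2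
  have h5 : (∑ y : G, ((1 - θ ^ 2) * B.card : ℝ)) ≤ ∑ y : G, ((B ∩ (y +ᵥ B)).card : ℝ) :=
    Finset.sum_le_sum (fun y _ => h3 y)
  rw [h4, Finset.sum_const, Finset.card_univ, nsmul_eq_mul] at h5
  have hb0' : (0 : ℝ) < B.card := by exact_mod_cast hb0
  have h6 : (Fintype.card G : ℝ) * (1 - θ ^ 2) ≤ B.card := by
    have : (Fintype.card G : ℝ) * (1 - θ ^ 2) * B.card ≤ B.card * B.card := by
      have e : (Fintype.card G : ℝ) * (1 - θ ^ 2) * B.card =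
        Fintype.card G * ((1 - θ ^ 2) * B.card) := by ring
      rw [e, ← sq]
      exact h5
    exact le_of_mul_le_mul_right this hb0'
  have hG : (0 : ℝ) < Fintype.card G := by
    by_contra hc
    push Not at hc
    have : θ * (Fintype.card G : ℝ) ≤ 0 := mul_nonpos_of_nonneg_of_nonpos hθ.le hc
    linarith
  have h7 : θ ^ 2 ≤ 1 / 16 := by
    have h := mul_le_mul hθ2 hθ2 hθ.le (by norm_num : (0 : ℝ) ≤ 1 / 4)
    rw [sq]; linarith
  have h8 := mul_le_mul_of_nonneg_right hθ2 hG.le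
  have h9 := mul_le_mul_of_nonneg_right h7 hG.le
  linarith

/-- linear growth of iterated sumsets -/
theorem it_linear {G : Type} [AddCommGroup G] [Fintype G] [DecidableEq G] (B T : Finset G)
    (hneg : ∀ t ∈ T, -t ∈ T) (h0 : (0 : G) ∈ T)
    (hgen : AddSubgroup.closure (T : Set G) = ⊤)
    (lam θ : ℝ) (hlam : 0 < lam) (hL : ∀ t ∈ T, (gr B t : ℝ) ≤ lam) (K : ℕ) (hK0 : 0 < K)
    (hθ : 0 < θ) (hθ2 : θ ≤ 1 / 4)
    (hK : K * lam ≤ θ ^ 2 * B.card) (hb0 : 0 < B.card)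
    (hb : (B.card : ℝ) < θ * Fintype.card G) :
    ((it T K).card : ℝ) ≤ 2 * (K + 1) * (1 + 4 * θ ^ 2) * lam := by
  have hne := it_ne_univ B T lam θ hL K hθ hθ2 hK hb0 hb
  obtain ⟨ν, h1, h2⟩ := it_iso T hneg h0 hgen K hne
  have hKr : (0 : ℝ) < K := by exact_mod_cast hK0
  have h3 := lin_growth B (it T K) ν h2 (zero_mem_it T h0 K) (K * lam) θ (by positivity)
    (gr_it B T lam hL K) hθ hθ2 hK hb
  have h4 : (K : ℝ) * (it T K).card ≤ (K + 1) * ν := by exact_mod_cast h1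
  have h5 : ((K : ℝ) + 1) * ν ≤ (K + 1) * (2 * (1 + 4 * θ ^ 2) * (K * lam)) :=
    mul_le_mul_of_nonneg_left h3 (by positivity)
  have h6 : (K : ℝ) * (it T K).card ≤ K * (2 * (K + 1) * (1 + 4 * θ ^ 2) * lam) := by
    calc (K : ℝ) * (it T K).card ≤ (K + 1) * ν := h4
      _ ≤ _ := h5
      _ = _ := by ring
  exact le_of_mul_le_mul_left h6 hKr

theorem core_arith1 (δ : ℝ) (hδ : 0 < δ) (hδ2 : δ ≤ 1 / 10) (J lam x : ℝ) (hlam : 0 < lam)
    (hJ : 6 ≤ J * δ) (hJ5 : 5 ≤ J)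
    (hx : x ≤ 2 * (J + 1) * (1 + 4 * (δ / 16) ^ 2) * lam) :
    x ≤ 2 * (J - 4) * ((1 + δ) * lam) := by
  have h1 : (J + 1) * (1 + 4 * (δ / 16) ^ 2) ≤ (J - 4) * (1 + δ) := by
    have h2 : 4 * (δ / 16) ^ 2 ≤ δ / 640 := by nlinarith
    have h3 : (J + 1) * (1 + 4 * (δ / 16) ^ 2) ≤ (J + 1) * (1 + δ / 640) :=
      mul_le_mul_of_nonneg_left (by linarith) (by linarith)
    nlinarith
  have h4 := mul_le_mul_of_nonneg_right h1 hlam.le
  nlinarith

theorem core (δ c : ℝ) (hδ : 0 < δ) (hδ2 : δ ≤ 1 / 10) (hc : 0 < c) : ∃ M : ℕ,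
    ∀ (G : Type) [AddCommGroup G] [Fintype G] [DecidableEq G] (R B : Finset G) (n : ℕ) (lam : ℝ),
    AddSubgroup.closure (R : Set G) = ⊤ → M ≤ n → R.card ≤ n → 0 < lam → lam ≤ 2 * n →
    20 * lam ≤ 11 * (sym R).card → c * (n : ℝ) ^ 2 ≤ B.card →
    (B.card : ℝ) < δ / 16 * Fintype.card G → (∀ y ∈ R, (gr B y : ℝ) ≤ lam) →
    ∃ (W L : ℕ) (w : G →+ ZMod W), 0 < W ∧ 0 < L ∧ Function.Surjective w ∧
      ((Nat.card w.ker : ℝ)) * L ≤ (1 + δ) * lam ∧ ∀ t ∈ R, |(w t).valMinAbs| ≤ L := by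
  obtain ⟨θ, hθ⟩ : ∃ θ : ℝ, θ = δ / 16 := ⟨_, rfl⟩
  have hθ0 : 0 < θ := by rw [hθ]; positivity
  have hθ4 : θ ≤ 1 / 160 := by rw [hθ]; linarith
  obtain ⟨J, hJ⟩ : ∃ J : ℕ, J = ⌈6 / δ⌉₊ := ⟨_, rfl⟩
  have hJ1 : 6 / δ ≤ (J : ℝ) := by rw [hJ]; exact Nat.le_ceil _
  have hJ6 : 6 ≤ (J : ℝ) * δ := by rwa [div_le_iff₀ hδ] at hJ1
  have hJ60 : (5 : ℝ) ≤ J := by
    have h := mul_le_mul_of_nonneg_left hδ2 (Nat.cast_nonneg (α := ℝ) J)
    linarith
  have hJ5 : 5 ≤ J := by exact_mod_cast hJ60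
  refine ⟨⌈3072 * (J : ℝ) ^ 2 / (θ ^ 4 * c ^ 2) + 2 * J / (θ ^ 2 * c) + 16 / (θ ^ 2 * c) + 1⌉₊, ?_⟩
  intro G _ _ _ R B n lam hgen hM hRn hlam hlamn hT hBn hBG hgr
  have hM' : 3072 * (J : ℝ) ^ 2 / (θ ^ 4 * c ^ 2) + 2 * J / (θ ^ 2 * c) + 16 / (θ ^ 2 * c) + 1 ≤
    (n : ℝ) := le_trans (Nat.le_ceil _) (by exact_mod_cast hM)
  have hp1 : 0 ≤ 3072 * (J : ℝ) ^ 2 / (θ ^ 4 * c ^ 2) := by positivity
  have hp2 : 0 ≤ 2 * (J : ℝ) / (θ ^ 2 * c) := by positivity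
  have hp3 : 0 ≤ 16 / (θ ^ 2 * c) := by positivity
  have hn1 : (1 : ℝ) ≤ n := by linarith
  have hn0 : (0 : ℝ) < n := by linarith
  have hq1 : 3072 * (J : ℝ) ^ 2 ≤ θ ^ 4 * c ^ 2 * n := by
    have : 3072 * (J : ℝ) ^ 2 / (θ ^ 4 * c ^ 2) ≤ n := by linarith
    rw [div_le_iff₀ (by positivity)] at this
    linarith
  have hq2 : 2 * (J : ℝ) ≤ θ ^ 2 * c * n := by
    have : 2 * (J : ℝ) / (θ ^ 2 * c) ≤ n := by linarith
    rw [div_le_iff₀ (by positivity)] at this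
    linarith
  have hq3 : 16 ≤ θ ^ 2 * c * n := by
    have : 16 / (θ ^ 2 * c) ≤ n := by linarith
    rw [div_le_iff₀ (by positivity)] at this
    linarith
  obtain ⟨b, hb⟩ : ∃ b : ℝ, b = B.card := ⟨_, rfl⟩
  rw [← hb] at hBn hBG
  have hb0 : 0 < b := lt_of_lt_of_le (by positivity) hBn
  have hBc : 0 < B.card := by
    have : (0 : ℝ) < B.card := by rw [← hb]; exact hb0
    exact_mod_cast this
  obtain ⟨T, hTdef⟩ : ∃ T, T = sym R := ⟨_, rfl⟩
  have hT0 : (0 : G) ∈ T := by rw [hTdef]; exact zero_mem_sym R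
  have hTneg : ∀ t ∈ T, -t ∈ T := by rw [hTdef]; exact neg_mem_sym R
  have hTgen : AddSubgroup.closure (T : Set G) = ⊤ := by rw [hTdef]; exact closure_sym R hgen
  have hTgr : ∀ t ∈ T, (gr B t : ℝ) ≤ lam := by rw [hTdef]; exact gr_sym B R lam hlam.le hgr
  have hTle : T.card ≤ 2 * n + 1 := by
    rw [hTdef]
    have h1 : (sym R).card ≤ (R ∪ -R).card + 1 := Finset.card_insert_le _ _
    have h2 : (R ∪ -R).card ≤ R.card + (-R).card := Finset.card_union_le _ _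
    rw [Finset.card_neg] at h2
    omega
  rw [← hTdef] at hT
  have hTle' : (T.card : ℝ) ≤ 3 * n := by
    have : (T.card : ℝ) ≤ 2 * n + 1 := by exact_mod_cast hTle
    linarith
  have hθb : 2 * (n : ℝ) * J ≤ θ ^ 2 * b := by
    have h1 : θ ^ 2 * (c * (n : ℝ) ^ 2) ≤ θ ^ 2 * b := mul_le_mul_of_nonneg_left hBn (by positivity)
    have h2 : 2 * (J : ℝ) * n ≤ θ ^ 2 * c * n * n := mul_le_mul_of_nonneg_right hq2 hn0.le
    linarith
  have hbG' : (B.card : ℝ) < θ * Fintype.card G := by rw [← hb, hθ]; exact hBG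
  -- the J-fold sumset
  have hJlam : (J : ℝ) * lam ≤ θ ^ 2 * B.card := by
    rw [← hb]
    have : (J : ℝ) * lam ≤ J * (2 * n) := mul_le_mul_of_nonneg_left hlamn (by linarith)
    linarith
  have hJcard := it_linear B T hTneg hT0 hTgen lam θ hlam hTgr J (by omega) hθ0 (by linarith)
    hJlam hBc hbG'
  rw [hθ] at hJcard
  have hcount := core_arith1 δ hδ hδ2 J lam _ hlam hJ6 hJ60 hJcard
  -- the K-fold sumset
  obtain ⟨K, hK⟩ : ∃ K : ℕ, K = ⌊θ ^ 2 * b / lam⌋₊ := ⟨_, rfl⟩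
  have hK1 : (K : ℝ) ≤ θ ^ 2 * b / lam := by rw [hK]; exact Nat.floor_le (by positivity)
  have hK2 : θ ^ 2 * b / lam < K + 1 := by rw [hK]; exact Nat.lt_floor_add_one _
  have hKlam : (K : ℝ) * lam ≤ θ ^ 2 * b := by rwa [le_div_iff₀ hlam] at hK1
  have hKbig : θ ^ 2 * c * n / 4 ≤ K := by
    have h1 : θ ^ 2 * c * n / 2 ≤ θ ^ 2 * b / lam := by
      rw [le_div_iff₀ hlam]
      have h2 : θ ^ 2 * c * n / 2 * lam ≤ θ ^ 2 * c * n / 2 * (2 * n) :=
        mul_le_mul_of_nonneg_left hlamn (by positivity)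
      have h3 : θ ^ 2 * (c * (n : ℝ) ^ 2) ≤ θ ^ 2 * b :=
        mul_le_mul_of_nonneg_left hBn (by positivity)
      linarith
    linarith
  have hK4 : (7 : ℝ) ≤ K := by
    have h1 : θ ^ 2 * c * n / 2 ≤ θ ^ 2 * b / lam := by
      rw [le_div_iff₀ hlam]
      have h2 : θ ^ 2 * c * n / 2 * lam ≤ θ ^ 2 * c * n / 2 * (2 * n) :=
        mul_le_mul_of_nonneg_left hlamn (by positivity)
      have h3 : θ ^ 2 * (c * (n : ℝ) ^ 2) ≤ θ ^ 2 * b :=
        mul_le_mul_of_nonneg_left hBn (by positivity)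
      linarith
    linarith
  have hKpos : 0 < K := by
    have : (0 : ℝ) < K := by linarith
    exact_mod_cast this
  have hKcard := it_linear B T hTneg hT0 hTgen lam θ hlam hTgr K hKpos hθ0 (by linarith)
    (by rw [← hb]; exact hKlam) hBc hbG'
  have hKcard2 : ((it T K).card : ℝ) ≤ 5 / 2 * (K + 1) * lam := by
    refine hKcard.trans ?_
    have h1 : 1 + 4 * θ ^ 2 ≤ 5 / 4 := by
      have h := mul_le_mul_of_nonneg_right hθ4 hθ0.le
      rw [sq]; linarith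
    have h2 : 2 * ((K : ℝ) + 1) * (1 + 4 * θ ^ 2) ≤ 2 * (K + 1) * (5 / 4) :=
      mul_le_mul_of_nonneg_left h1 (by positivity)
    have h3 := mul_le_mul_of_nonneg_right h2 hlam.le
    linarith
  have hKne := it_ne_univ B T lam θ hTgr K hθ0 (by linarith) (by rw [← hb]; exact hKlam) hBc hbG'
  have hGb : b ≤ θ * Fintype.card G := by rw [hb]; exact hbG'.le
  have hGpos : (0 : ℝ) < Fintype.card G := by exact_mod_cast Fintype.card_pos
  have hhalf : 2 * (it T K).card ≤ Fintype.card G := by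
    have h1 : 5 / 2 * ((K : ℝ) + 1) * lam ≤ 5 * (θ ^ 2 * b) := by
      have h2 : lam ≤ K * lam := le_mul_of_one_le_left hlam.le (by linarith)
      linarith
    have h2 : θ ^ 2 * b ≤ θ ^ 2 * (θ * Fintype.card G) :=
      mul_le_mul_of_nonneg_left hGb (by positivity)
    have h3 : θ ^ 3 ≤ 1 / 160 := by
      have h4 : θ * θ ≤ 1 / 160 * θ := mul_le_mul_of_nonneg_right hθ4 hθ0.le
      have h5 := mul_le_mul_of_nonneg_right hθ4 (by positivity : (0 : ℝ) ≤ θ ^ 2)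
      have e : θ ^ 3 = θ * θ ^ 2 := by ring
      rw [e]
      rw [sq] at h5 ⊢
      linarith
    have h4 : θ ^ 2 * (θ * Fintype.card G) ≤ 1 / 160 * Fintype.card G := by
      have := mul_le_mul_of_nonneg_right h3 hGpos.le
      linarith
    have h5 : (2 : ℝ) * (it T K).card ≤ Fintype.card G := by linarith
    exact_mod_cast h5
  have hT1ne : sym R ≠ univ := by
    intro h
    have h1 : it T 1 = univ := by
      show ({0} : Finset G) + T = univ
      rw [Finset.singleton_zero, zero_add, hTdef]; exact h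
    apply hKne
    have h2 := it_mono T hT0 (show 1 ≤ K by omega)
    rw [h1] at h2
    exact Finset.univ_subset_iff.1 h2
  obtain ⟨H, HF, κ, -, hκ1, -, -, hκ⟩ := iso_sym R hgen hT1ne
  rw [← hTdef] at hκ hκ1
  have hlow : 1 + (K / 2) * κ ≤ (it T (K / 2)).card := by
    rcases it_card T κ hκ hT0 (K / 2) with h | h
    · exfalso
      apply hKne
      have h2 := it_mono T hT0 (show K / 2 ≤ K by omega)
      rw [h] at h2
      exact Finset.univ_subset_iff.1 h2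
    · exact h
  have hdoub : ((it T K).card : ℝ) ≤ 8 * (it T (K / 2)).card := by
    have h1 : (1 : ℝ) + ((K / 2 : ℕ) : ℝ) * κ ≤ (it T (K / 2)).card := by exact_mod_cast hlow
    have h2 : ((K : ℝ) - 1) / 2 ≤ ((K / 2 : ℕ) : ℝ) := by
      have h3 : K ≤ 2 * (K / 2) + 1 := by omega
      have h4 : (K : ℝ) ≤ 2 * ((K / 2 : ℕ) : ℝ) + 1 := by exact_mod_cast h3
      linarith
    have h3 : (T.card : ℝ) ≤ 2 * κ := by exact_mod_cast hκ1
    have h4 : 10 / 11 * lam ≤ κ := by linarith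
    have h5 : ((K : ℝ) - 1) / 2 * (10 / 11 * lam) ≤ ((K / 2 : ℕ) : ℝ) * κ := by
      apply mul_le_mul h2 h4 (by positivity)
      positivity
    have h6 : 5 / 2 * ((K : ℝ) + 1) * lam ≤ 8 * (((K : ℝ) - 1) / 2 * (10 / 11 * lam)) := by
      have h7 : 5 / 2 * ((K : ℝ) + 1) ≤ 8 * (((K : ℝ) - 1) / 2 * (10 / 11)) := by linarith
      have h8 := mul_le_mul_of_nonneg_right h7 hlam.le
      linarith
    linarith
  obtain ⟨ψ, hψ, hsum⟩ := exists_char T hT0 hTneg K (by omega) hhalf 8 hdoub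
  obtain ⟨D, hD⟩ : ∃ D : ℝ, D = 8 * 8 * T.card / (K : ℝ) ^ 2 := ⟨_, rfl⟩
  rw [← hD] at hsum
  have hKr : (0 : ℝ) < K := by linarith
  have hDt : ∀ t ∈ T, ‖1 - ψ t‖ ^ 2 ≤ D := by
    intro t ht
    exact (Finset.single_le_sum (f := fun t => ‖1 - ψ t‖ ^ 2) (fun i _ => by positivity) ht).trans
      hsum
  have hDJ : D * (J : ℝ) ^ 2 ≤ 1 := by
    rw [hD, div_mul_eq_mul_div, div_le_one (by positivity)]
    have h1 : (θ ^ 2 * c * n / 4) ^ 2 ≤ (K : ℝ) ^ 2 := pow_le_pow_left₀ (by positivity) hKbig 2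
    have h2 : 8 * 8 * (T.card : ℝ) * (J : ℝ) ^ 2 ≤ 8 * 8 * (3 * n) * (J : ℝ) ^ 2 := by
      have := mul_le_mul_of_nonneg_right hTle' (by positivity : (0 : ℝ) ≤ 64 * (J : ℝ) ^ 2)
      linarith
    have h3 : 3072 * (J : ℝ) ^ 2 * n ≤ θ ^ 4 * c ^ 2 * n * n :=
      mul_le_mul_of_nonneg_right hq1 hn0.le
    have h4 : (θ ^ 2 * c * n / 4) ^ 2 = θ ^ 4 * c ^ 2 * n * n / 16 := by ring
    rw [h4] at h1
    linarith
  obtain ⟨W, L, w, h1, h2, h3, h4, h5⟩ := lattice T hTneg hT0 hTgen ψ hψ J hJ5 D hDt hDJ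
    ((1 + δ) * lam) (by
      have h0 : (1 + δ) * lam ≤ 11 / 10 * lam := mul_le_mul_of_nonneg_right (by linarith) hlam.le
      have h1 : 3 * ((1 + δ) * lam) ≤ 3 * (11 / 10 * lam) := by linarith
      have h2 : 0 < T.card := Finset.card_pos.2 ⟨0, hT0⟩
      have h3 : (0 : ℝ) < T.card := by exact_mod_cast h2
      linarith) hcount
  exact ⟨W, L, w, h1, h2, h3, h4, fun t ht => h5 t (by rw [hTdef]; exact subset_sym R ht)⟩

end Pool.Agent.Helper398
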