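import Mathlib
import Pool.Agent.Helper398.Stab

set_option autoImplicit false
set_option linter.unusedSectionVars false

open Finset
open scoped Pointwise

namespace Pool.Agent.Helper398

theorem quad_large (c β l T δ : ℝ) (hc : 0 < c) (hβ : 0 ≤ β) (hl : 0 < l) (hT : 0 < T)
    (hδ : 0 < δ) (h : c * l ^ 2 * T = 1 + δ) : ∃ N : ℕ, ∀ n : ℕ, N ≤ n → ∀ m : ℕ,
    T * n ≤ (m : ℝ) ^ 2 → ∀ r : ℝ, l * m ≤ r → (n : ℝ) ≤ c * r ^ 2 - β * r := by
  obtain ⟨M, hM⟩ : ∃ M : ℝ, M = β / (c * l) + β * (1 + δ) / (c * l * δ) := ⟨_, rfl⟩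
  have hM0 : 0 ≤ M := by rw [hM]; positivity
  refine ⟨⌈M ^ 2 / T⌉₊, fun n hn m hm r hr => ?_⟩
  have hn' : M ^ 2 / T ≤ n := le_trans (Nat.le_ceil _) (by exact_mod_cast hn)
  rw [div_le_iff₀ hT] at hn'
  have hMm : M ≤ m := by
    apply le_of_sq_le_sq _ (Nat.cast_nonneg _) |> fun h => h
    nlinarith
  have h1 : β ≤ c * l * m := by
    have : β / (c * l) ≤ m := by
      have h2 : 0 ≤ β * (1 + δ) / (c * l * δ) := by positivity
      linarith
    rw [div_le_iff₀ (by positivity)] at this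
    linarith
  have h2 : β * (1 + δ) ≤ c * l * δ * m := by
    have : β * (1 + δ) / (c * l * δ) ≤ m := by
      have h2 : 0 ≤ β / (c * l) := by positivity
      linarith
    rw [div_le_iff₀ (by positivity)] at this
    linarith
  have hm0 : (0 : ℝ) ≤ m := Nat.cast_nonneg _
  have h3 : l * m * (c * (l * m) - β) ≤ r * (c * r - β) := by
    apply mul_le_mul hr
    · have := mul_le_mul_of_nonneg_left hr hc.le
      linarith
    · nlinarith
    · exact le_trans (by positivity) hr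
  have h4 : (n : ℝ) * (1 + δ) ≤ c * l ^ 2 * (m : ℝ) ^ 2 := by
    have h5 : c * l ^ 2 * (T * n) ≤ c * l ^ 2 * (m : ℝ) ^ 2 :=
      mul_le_mul_of_nonneg_left hm (by positivity)
    have h6 : c * l ^ 2 * (T * n) = (c * l ^ 2 * T) * n := by ring
    rw [h6, h] at h5
    linarith
  have h5 : l * m * (β * (1 + δ)) ≤ l * m * (c * l * δ * m) :=
    mul_le_mul_of_nonneg_left h2 (by positivity)
  have h6 : (n : ℝ) * (1 + δ) ≤ (l * m * (c * (l * m) - β)) * (1 + δ) := by nlinarith
  have h7 : (n : ℝ) ≤ l * m * (c * (l * m) - β) := le_of_mul_le_mul_right h6 (by linarith)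
  nlinarith

theorem asym_lower (ε : ℝ) (hε : 0 < ε) : ∃ N : ℕ, ∀ n : ℕ, N ≤ n → ∀ m : ℕ, 2 * m < n →
    (9 / 2 + ε) * n ≤ (m : ℝ) ^ 2 → ∀ A : Finset (ZMod n), A.card = m → Asym A →
    ∃ d, d ∣ n ∧ m ≤ d + (d - 1) / 2 ∧ d * (1 + (m - (d - 1) / 2)) ≤ A.subsetSum.card := by
  obtain ⟨η, hη⟩ : ∃ η : ℝ, η = ε / (36 + 8 * ε) := ⟨_, rfl⟩
  have hη0 : 0 < η := by rw [hη]; positivity
  have hη1 : η * (36 + 8 * ε) = ε := by rw [hη]; field_simp
  have hη4 : η < 1 / 4 := by nlinarith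
  have hη8 : η < 1 / 8 := by nlinarith
  have hβ : 0 ≤ bet' η := by unfold bet' thr'; positivity
  obtain ⟨N, hN⟩ := quad_large (1 / 2 - 2 * η) (bet' η) (2 / 3) (9 / 2 + ε) (ε / 9)
    (by linarith) hβ (by norm_num) (by linarith) (by linarith) (by nlinarith)
  refine ⟨max N 1, fun n hn m hm2 hm A hA hAs => ?_⟩
  have hn1 : 1 ≤ n := le_trans (le_max_right _ _) hn
  have : NeZero n := ⟨by omega⟩
  obtain ⟨h, hdvd, r, hr1, hr2, hr3⟩ := structure_asym A hAs
  rw [ZMod.card] at hdvd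
  rw [hA] at hr1
  by_cases hcase : m ≤ h + (h - 1) / 2
  · refine ⟨h, hdvd, hcase, le_trans ?_ hr2⟩
    apply Nat.mul_le_mul_left
    omega
  · refine ⟨n, dvd_rfl, by omega, ?_⟩
    have h1 : m - (n - 1) / 2 = 0 := by omega
    rw [h1]
    have h2 : 2 * m ≤ 3 * r := by omega
    have h3 : (2 / 3 : ℝ) * m ≤ r := by
      have : (2 : ℝ) * m ≤ 3 * r := by exact_mod_cast h2
      linarith
    have h4 := hN n (le_trans (le_max_left _ _) hn) m hm r h3
    have h5 := hr3 η hη0 hη4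
    have h6 : (n : ℝ) ≤ A.subsetSum.card := le_trans h4 h5
    have h7 : n ≤ A.subsetSum.card := by exact_mod_cast h6
    omega

theorem gen_lower (ε : ℝ) (hε : 0 < ε) : ∃ N : ℕ, ∀ n : ℕ, N ≤ n → ∀ m : ℕ,
    (16 + ε) * n ≤ (m : ℝ) ^ 2 → ∀ A : Finset (ZMod n), A.card = m → (0 : ZMod n) ∉ A →
    AddSubgroup.closure (A : Set (ZMod n)) = ⊤ →
    n ≤ A.subsetSum.card ∨
    ∃ d, d ∣ n ∧ d < n ∧ m + 1 ≤ 2 * d ∧ d * (1 + max 1 (m + 1 - d)) ≤ A.subsetSum.card := by
  obtain ⟨η, hη⟩ : ∃ η : ℝ, η = ε / (128 + 8 * ε) := ⟨_, rfl⟩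
  have hη0 : 0 < η := by rw [hη]; positivity
  have hη1 : η * (128 + 8 * ε) = ε := by rw [hη]; field_simp
  have hη8 : η < 1 / 8 := by nlinarith
  have hβ : 0 ≤ bet' η := by unfold bet' thr'; positivity
  obtain ⟨N, hN⟩ := quad_large (1 / 4 - η) (bet' η) (1 / 2) (16 + ε) (ε / 32)
    (by linarith) hβ (by norm_num) (by linarith) (by linarith) (by nlinarith)
  refine ⟨max N 1, fun n hn m hm A hA hA0 hgen => ?_⟩
  have hn1 : 1 ≤ n := le_trans (le_max_right _ _) hn
  have : NeZero n := ⟨by omega⟩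
  rcases structure_gen A hA0 hgen with h | ⟨h, hdvd, hlt, r, hr0, hr1, hr2, hr3⟩
  · left
    rw [ZMod.card] at h
    omega
  · rw [ZMod.card] at hdvd hlt
    rw [hA] at hr1
    by_cases hcase : m + 1 ≤ 2 * h
    · right
      refine ⟨h, hdvd, hlt, hcase, le_trans ?_ hr2⟩
      apply Nat.mul_le_mul_left
      omega
    · left
      have h2 : m ≤ 2 * r := by omega
      have h3 : (1 / 2 : ℝ) * m ≤ r := by
        have : (m : ℝ) ≤ 2 * r := by exact_mod_cast h2
        linarith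
      have h4 := hN n (le_trans (le_max_left _ _) hn) m hm r h3
      have h5 := hr3 η hη0 (by linarith)
      have h6 : (n : ℝ) ≤ A.subsetSum.card := le_trans h4 h5
      exact_mod_cast h6

/-- upper bound for the number of subset sums of a set contained in H and 1 + H -/
theorem constr_card (n q d : ℕ) (hn : n = q * d) (hd : 0 < d) (A A1 : Finset (ZMod n))
    (h0 : ∀ a ∈ A, a ∉ A1 → ∃ i : ℕ, a = ((q * i : ℕ) : ZMod n))
    (h1 : ∀ a ∈ A1, ∃ i : ℕ, a = 1 + ((q * i : ℕ) : ZMod n)) :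
    A.subsetSum.card ≤ (A1.card + 1) * d := by
  have hsub : A.subsetSum ⊆ ((Finset.range (A1.card + 1)) ×ˢ (Finset.range d)).image
      (fun p => ((p.1 : ZMod n) + ((q * p.2 : ℕ) : ZMod n))) := by
    intro s hs
    rw [Finset.mem_subsetSum_iff] at hs
    obtain ⟨B, hB, rfl⟩ := hs
    have hP0 : ∃ i : ℕ, ∑ b ∈ B \ A1, b = ((q * i : ℕ) : ZMod n) := by
      apply Finset.sum_induction (fun b => b) (fun x => ∃ i : ℕ, x = ((q * i : ℕ) : ZMod n))
      · rintro a b ⟨i, rfl⟩ ⟨j, rfl⟩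
        exact ⟨i + j, by push_cast; ring⟩
      · exact ⟨0, by simp⟩
      · intro b hb
        rw [Finset.mem_sdiff] at hb
        exact h0 b (hB hb.1) hb.2
    have hP1 : ∃ i : ℕ, ∑ b ∈ B ∩ A1, (b - 1) = ((q * i : ℕ) : ZMod n) := by
      apply Finset.sum_induction (fun b => b - 1) (fun x => ∃ i : ℕ, x = ((q * i : ℕ) : ZMod n))
      · rintro a b ⟨i, rfl⟩ ⟨j, rfl⟩
        exact ⟨i + j, by push_cast; ring⟩
      · exact ⟨0, by simp⟩
      · intro b hb
        rw [Finset.mem_inter] at hb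
        obtain ⟨i, hi⟩ := h1 b hb.2
        exact ⟨i, by rw [hi]; ring⟩
    obtain ⟨i, hi⟩ := hP0
    obtain ⟨j, hj⟩ := hP1
    rw [Finset.sum_sub_distrib, Finset.sum_const, nsmul_eq_mul, mul_one] at hj
    have hj' : ∑ b ∈ B ∩ A1, b = ((B ∩ A1).card : ZMod n) + ((q * j : ℕ) : ZMod n) := by
      rw [← hj]; ring
    have hsum : ∑ b ∈ B, b = ((B ∩ A1).card : ZMod n) + ((q * (i + j) : ℕ) : ZMod n) := by
      rw [← Finset.sum_inter_add_sum_sdiff B A1, hi, hj']
      push_cast; ring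
    rw [Finset.mem_image]
    refine ⟨((B ∩ A1).card, (i + j) % d), ?_, ?_⟩
    · rw [Finset.mem_product, Finset.mem_range, Finset.mem_range]
      exact ⟨Nat.lt_succ_of_le (Finset.card_le_card Finset.inter_subset_right),
        Nat.mod_lt _ hd⟩
    · show ((B ∩ A1).card : ZMod n) + ((q * ((i + j) % d) : ℕ) : ZMod n) = ∑ b ∈ B, b
      rw [hsum]
      congr 1
      have h2 : q * (i + j) = q * ((i + j) % d) + n * ((i + j) / d) := by
        rw [hn, mul_assoc, ← mul_add, Nat.mod_add_div]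
      rw [h2]
      push_cast
      simp
  refine le_trans (Finset.card_le_card hsub) (le_trans Finset.card_image_le ?_)
  rw [Finset.card_product, Finset.card_range, Finset.card_range]

theorem natCast_inj_of_lt {n a b : ℕ} (ha : a < n) (hb : b < n)
    (h : (a : ZMod n) = (b : ZMod n)) : a = b := by
  rw [ZMod.natCast_eq_natCast_iff'] at h
  rwa [Nat.mod_eq_of_lt ha, Nat.mod_eq_of_lt hb] at h

/-- sets of multiples of q -/
theorem exists_asym_zero (n q d m : ℕ) (hn : n = q * d) (hq : 0 < q) (hd : 0 < d)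
    (hm : m ≤ (d - 1) / 2) :
    ∃ A : Finset (ZMod n), A.card = m ∧ Asym A ∧ A.subsetSum.card ≤ d := by
  obtain ⟨A, hA⟩ : ∃ A : Finset (ZMod n), A = (Finset.range m).image
    (fun i => ((q * (i + 1) : ℕ) : ZMod n)) := ⟨_, rfl⟩
  have hlt : ∀ i < m, q * (i + 1) < n := by
    intro i hi
    rw [hn]
    exact Nat.mul_lt_mul_of_pos_left (by omega) hq
  refine ⟨A, ?_, ?_, ?_⟩
  · rw [hA, Finset.card_image_of_injOn, Finset.card_range]
    intro i hi j hj hij
    rw [Finset.mem_coe, Finset.mem_range] at hi hj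
    have := natCast_inj_of_lt (hlt i hi) (hlt j hj) hij
    have h2 := Nat.eq_of_mul_eq_mul_left hq this
    omega
  · intro a ha hna
    rw [hA, Finset.mem_image] at ha hna
    obtain ⟨i, hi, rfl⟩ := ha
    obtain ⟨j, hj, hij⟩ := hna
    rw [Finset.mem_range] at hi hj
    have h1 : ((q * (i + 1) + q * (j + 1) : ℕ) : ZMod n) = 0 := by
      rw [Nat.cast_add, hij]; ring
    rw [ZMod.natCast_eq_zero_iff, ← mul_add, hn] at h1
    have h2 := Nat.dvd_of_mul_dvd_mul_left hq h1
    have h3 := Nat.le_of_dvd (by omega) h2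
    omega
  · have := constr_card n q d hn hd A ∅ (by
      intro a ha _
      rw [hA, Finset.mem_image] at ha
      obtain ⟨i, _, rfl⟩ := ha
      exact ⟨i + 1, rfl⟩) (by simp)
    simpa using this

theorem exists_asym_one (n q d s r : ℕ) (hn : n = q * d) (hq : 3 ≤ q) (hd : 0 < d)
    (hs : s ≤ (d - 1) / 2) (hr : r ≤ d) :
    ∃ A : Finset (ZMod n), A.card = s + r ∧ Asym A ∧ A.subsetSum.card ≤ d * (1 + r) := by
  obtain ⟨A0, hA0⟩ : ∃ A : Finset (ZMod n), A = (Finset.range s).image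
    (fun i => ((q * (i + 1) : ℕ) : ZMod n)) := ⟨_, rfl⟩
  obtain ⟨A1, hA1⟩ : ∃ A : Finset (ZMod n), A = (Finset.range r).image
    (fun i => ((1 + q * i : ℕ) : ZMod n)) := ⟨_, rfl⟩
  have hlt0 : ∀ i < s, q * (i + 1) < n := by
    intro i hi
    rw [hn]
    exact Nat.mul_lt_mul_of_pos_left (by omega) (by omega)
  have hlt1 : ∀ i < r, 1 + q * i < n := by
    intro i hi
    rw [hn]
    have : q * (i + 1) ≤ q * d := Nat.mul_le_mul_left _ (by omega)
    have e : q * (i + 1) = q * i + q := by ring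
    omega
  have hc0 : A0.card = s := by
    rw [hA0, Finset.card_image_of_injOn, Finset.card_range]
    intro i hi j hj hij
    rw [Finset.mem_coe, Finset.mem_range] at hi hj
    have := natCast_inj_of_lt (hlt0 i hi) (hlt0 j hj) hij
    have h2 := Nat.eq_of_mul_eq_mul_left (by omega) this
    omega
  have hc1 : A1.card = r := by
    rw [hA1, Finset.card_image_of_injOn, Finset.card_range]
    intro i hi j hj hij
    rw [Finset.mem_coe, Finset.mem_range] at hi hj
    have := natCast_inj_of_lt (hlt1 i hi) (hlt1 j hj) hij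
    have h2 := Nat.eq_of_mul_eq_mul_left (show 0 < q by omega) (show q * i = q * j by omega)
    omega
  have hdis : Disjoint A0 A1 := by
    rw [Finset.disjoint_left]
    intro a ha ha'
    rw [hA0, Finset.mem_image] at ha
    rw [hA1, Finset.mem_image] at ha'
    obtain ⟨i, hi, rfl⟩ := ha
    obtain ⟨j, hj, hij⟩ := ha'
    rw [Finset.mem_range] at hi hj
    have h1 := natCast_inj_of_lt (hlt1 j hj) (hlt0 i hi) hij
    have h2 : q ∣ 1 := by
      have h3 : q ∣ 1 + q * j := by rw [h1]; exact dvd_mul_right _ _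
      exact (Nat.dvd_add_left (dvd_mul_right q j)).1 h3
    have := Nat.le_of_dvd (by norm_num) h2
    omega
  refine ⟨A0 ∪ A1, ?_, ?_, ?_⟩
  · rw [Finset.card_union_of_disjoint hdis, hc0, hc1]
  · have key : ∀ x y : ℕ, ((∃ i < s, x = q * (i + 1)) ∨ (∃ i < r, x = 1 + q * i)) →
        ((∃ i < s, y = q * (i + 1)) ∨ (∃ i < r, y = 1 + q * i)) →
        ((x + y : ℕ) : ZMod n) ≠ 0 := by
      intro x y hx hy h0
      rw [ZMod.natCast_eq_zero_iff, hn] at h0
      have hq0 : q ∣ x + y := (dvd_mul_right q d).trans h0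
      rcases hx with ⟨i, hi, rfl⟩ | ⟨i, hi, rfl⟩
      · rcases hy with ⟨j, hj, rfl⟩ | ⟨j, hj, rfl⟩
        · rw [← mul_add] at h0
          have h2 := Nat.dvd_of_mul_dvd_mul_left (by omega) h0
          have h3 := Nat.le_of_dvd (by omega) h2
          omega
        · have e : q * (i + 1) + (1 + q * j) = 1 + q * (i + 1 + j) := by ring
          rw [e] at hq0
          have h2 := (Nat.dvd_add_left (dvd_mul_right q _)).1 hq0
          have := Nat.le_of_dvd (by norm_num) h2
          omega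
      · rcases hy with ⟨j, hj, rfl⟩ | ⟨j, hj, rfl⟩
        · have e : (1 + q * i) + q * (j + 1) = 1 + q * (i + 1 + j) := by ring
          rw [e] at hq0
          have h2 := (Nat.dvd_add_left (dvd_mul_right q _)).1 hq0
          have := Nat.le_of_dvd (by norm_num) h2
          omega
        · have e : (1 + q * i) + (1 + q * j) = 2 + q * (i + j) := by ring
          rw [e] at hq0
          have h2 := (Nat.dvd_add_left (dvd_mul_right q _)).1 hq0
          have := Nat.le_of_dvd (by norm_num) h2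
          omega
    have hform : ∀ a ∈ A0 ∪ A1, ∃ x : ℕ, a = (x : ZMod n) ∧
        ((∃ i < s, x = q * (i + 1)) ∨ (∃ i < r, x = 1 + q * i)) := by
      intro a ha
      rw [Finset.mem_union, hA0, hA1, Finset.mem_image, Finset.mem_image] at ha
      rcases ha with ⟨i, hi, rfl⟩ | ⟨i, hi, rfl⟩
      · exact ⟨_, rfl, Or.inl ⟨i, Finset.mem_range.1 hi, rfl⟩⟩
      · exact ⟨_, rfl, Or.inr ⟨i, Finset.mem_range.1 hi, rfl⟩⟩
    intro a ha hna
    obtain ⟨x, hx, hx2⟩ := hform a ha
    obtain ⟨y, hy, hy2⟩ := hform _ hna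
    apply key x y hx2 hy2
    rw [Nat.cast_add, ← hx, ← hy]
    ring
  · have := constr_card n q d hn hd (A0 ∪ A1) A1 (by
      intro a ha ha1
      rw [Finset.mem_union] at ha
      have ha0 := ha.resolve_right ha1
      rw [hA0, Finset.mem_image] at ha0
      obtain ⟨i, _, rfl⟩ := ha0
      exact ⟨i + 1, rfl⟩) (by
      intro a ha
      rw [hA1, Finset.mem_image] at ha
      obtain ⟨i, _, rfl⟩ := ha
      exact ⟨i, by push_cast; ring⟩)
    rw [hc1] at this
    calc _ ≤ (r + 1) * d := this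
      _ = d * (1 + r) := by ring

/-- the upper bound for every admissible divisor -/
theorem asym_upper (n m d : ℕ) (hn : 0 < n) (hm : 2 * m < n) (hd : d ∣ n)
    (hmd : m ≤ d + (d - 1) / 2) :
    ∃ A : Finset (ZMod n), A.card = m ∧ Asym A ∧
      A.subsetSum.card ≤ d * (1 + (m - (d - 1) / 2)) := by
  obtain ⟨q, hq⟩ := hd
  have hd0 : 0 < d := by
    rcases Nat.eq_zero_or_pos d with h | h
    · rw [h, zero_mul] at hq; omega
    · exact h
  have hq0 : 0 < q := by
    rcases Nat.eq_zero_or_pos q with h | h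
    · rw [h, mul_zero] at hq; omega
    · exact h
  have hnq : n = q * d := by rw [hq]; ring
  by_cases hc : m ≤ (d - 1) / 2
  · obtain ⟨A, h1, h2, h3⟩ := exists_asym_zero n q d m hnq hq0 hd0 hc
    refine ⟨A, h1, h2, le_trans h3 ?_⟩
    nlinarith [Nat.zero_le (m - (d - 1) / 2)]
  · push Not at hc
    by_cases hq3 : 3 ≤ q
    · obtain ⟨A, h1, h2, h3⟩ := exists_asym_one n q d ((d - 1) / 2) (m - (d - 1) / 2) hnq hq3 hd0
        le_rfl (by omega)
      exact ⟨A, by omega, h2, h3⟩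
    · have hq2 : q = 1 ∨ q = 2 := by omega
      rcases hq2 with rfl | rfl
      · omega
      · obtain ⟨A, h1, h2, h3⟩ := exists_asym_zero n 1 n m (by ring) (by norm_num) hn (by omega)
        refine ⟨A, h1, h2, le_trans h3 ?_⟩
        have : 1 ≤ m - (d - 1) / 2 := by omega
        rw [hnq]
        nlinarith

end Pool.Agent.Helper398
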