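import Mathlib

set_option autoImplicit false
set_option linter.unusedSectionVars false

open Finset
open scoped Pointwise

namespace Pool.Agent.Helper398

/-- every nontrivial character of the integers modulo n is given by a nonzero residue -/
theorem char_zmod (n : ℕ) [NeZero n] (ψ : AddChar (ZMod n) ℂ) (hψ : ψ ≠ 0) :
    ∃ c : ZMod n, c ≠ 0 ∧ ∀ x : ZMod n,
      ψ x = Complex.exp (Complex.I * ((2 * Real.pi * ((c * x).valMinAbs / n) : ℝ) : ℂ)) := by
  obtain ⟨c, rfl⟩ := (AddChar.zmodAddEquiv (n := n)).surjective ψ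
  refine ⟨c, ?_, ?_⟩
  · rintro rfl
    exact hψ (map_zero _)
  · intro x
    rw [AddChar.zmodAddEquiv_apply]
    have h1 : (AddChar.circleEquivComplex (AddChar.zmod n c)) x =
        ((AddChar.zmod n c x : Circle) : ℂ) := rfl
    rw [h1]
    have h2 : AddChar.zmod n c x = AddChar.zmod n 1 (c * x) := by
      simp [AddChar.zmod]
    have h3 : AddChar.zmod n 1 (c * x) =
        AddChar.zmod n ((1 : ℤ) : ZMod n) (((c * x).valMinAbs : ℤ) : ZMod n) := by
      rw [ZMod.coe_valMinAbs]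
      norm_num
    rw [h2, h3, AddChar.zmod_intCast, Circle.coe_exp]
    congr 1
    push_cast
    ring

theorem char_small (n : ℕ) (hn : 0 < n) (y : ℤ) (hy : |2 * y| ≤ n) (D : ℝ)
    (h : ‖1 - Complex.exp (Complex.I * ((2 * Real.pi * ((y : ℝ) / n) : ℝ) : ℂ))‖ ^ 2 ≤ D) :
    16 * (y : ℝ) ^ 2 ≤ D * (n : ℝ) ^ 2 := by
  rw [norm_sub_rev, Complex.norm_exp_I_mul_ofReal_sub_one] at h
  have hn' : (0 : ℝ) < n := by exact_mod_cast hn
  have h1 : 2 * Real.pi * ((y : ℝ) / n) / 2 = Real.pi * (y / n) := by ring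
  rw [h1, Real.norm_eq_abs, sq_abs] at h
  have hy' : |2 * (y : ℝ)| ≤ n := by exact_mod_cast hy
  have h2 : |Real.pi * ((y : ℝ) / n)| ≤ Real.pi / 2 := by
    rw [abs_mul, abs_of_pos Real.pi_pos, abs_div, abs_of_pos hn']
    rw [abs_mul] at hy'
    have : |(y : ℝ)| / n ≤ 1 / 2 := by
      rw [div_le_iff₀ hn']
      have h3 : |(2 : ℝ)| = 2 := by norm_num
      rw [h3] at hy'
      linarith
    nlinarith [Real.pi_pos]
  have h3 := Real.mul_abs_le_abs_sin h2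
  have h4 : 2 / Real.pi * |Real.pi * ((y : ℝ) / n)| = 2 * |(y : ℝ) / n| := by
    rw [abs_mul, abs_of_pos Real.pi_pos]
    field_simp
  rw [h4] at h3
  have h5 : (2 * |(y : ℝ) / n|) ^ 2 ≤ Real.sin (Real.pi * (y / n)) ^ 2 := by
    rw [← sq_abs (Real.sin _)]
    exact pow_le_pow_left₀ (by positivity) h3 2
  have h6 : (2 * |(y : ℝ) / n|) ^ 2 = 4 * (y : ℝ) ^ 2 / (n : ℝ) ^ 2 := by
    rw [mul_pow, sq_abs]
    field_simp
    ring
  rw [h6] at h5
  have h7 : 16 * (y : ℝ) ^ 2 / (n : ℝ) ^ 2 ≤ D := by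
    calc 16 * (y : ℝ) ^ 2 / (n : ℝ) ^ 2 = 4 * (4 * (y : ℝ) ^ 2 / (n : ℝ) ^ 2) := by ring
      _ ≤ 4 * Real.sin (Real.pi * (y / n)) ^ 2 := by linarith
      _ = (2 * Real.sin (Real.pi * (y / n))) ^ 2 := by ring
      _ ≤ D := h
  rwa [div_le_iff₀ (by positivity)] at h7

end Pool.Agent.Helper398
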