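import Mathlib
import Pool.Agent.Helper398.IntStr
import Pool.Agent.Helper398.ZChar

set_option autoImplicit false
set_option linter.unusedSectionVars false

open Finset
open scoped Pointwise

namespace Pool.Agent.Helper398

theorem cd_kappa (p : ℕ) (hp : p.Prime) [NeZero p] (T : Finset (ZMod p)) (hT : T.Nonempty)
    (A : Finset (ZMod p)) (hA : A.Nonempty) (hne : A + T ≠ univ) :
    A.card + (T.card - 1) ≤ (A + T).card := by
  have h1 := ZMod.cauchy_davenport hp hA hT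
  have h2 : (A + T).card < p := by
    have h3 : (A + T).card ≤ Fintype.card (ZMod p) := Finset.card_le_univ _
    rw [ZMod.card] at h3
    rcases Nat.lt_or_ge (A + T).card p with h | h
    · exact h
    · exfalso
      apply hne
      rw [← Finset.card_eq_iff_eq_univ, ZMod.card]
      omega
  have h4 : 0 < T.card := Finset.card_pos.2 hT
  have h5 := min_le_iff.1 h1
  omega

theorem valMinAbs_of_small (p : ℕ) [NeZero p] (w : ℤ) (h1 : 2 * |w| < p) :
    ((w : ZMod p)).valMinAbs = w := by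
  rw [ZMod.valMinAbs_spec]
  refine ⟨rfl, ?_, ?_⟩
  · have := neg_abs_le w; omega
  · have := le_abs_self w; omega

theorem it_bound (U : Finset ℤ) (H : ℤ) (hU : ∀ u ∈ U, |u| ≤ H) (j : ℕ) :
    ∀ x ∈ it U j, |x| ≤ j * H := by
  induction j with
  | zero =>
    intro x hx
    simp only [it, Finset.mem_singleton] at hx
    subst hx; simp
  | succ j ih =>
    intro x hx
    simp only [it, Finset.mem_add] at hx
    obtain ⟨a, ha, t, ht, rfl⟩ := hx
    have h1 := ih a ha
    have h2 := hU t ht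
    have h3 := abs_add_le a t
    push_cast
    linarith

/-- from a character that is nearly constant on T to a good dilation -/
theorem dilate (p : ℕ) (hp : p.Prime) (T : Finset (ZMod p)) (hneg : ∀ t ∈ T, -t ∈ T)
    (h0 : (0 : ZMod p) ∈ T) (hne : ∃ t ∈ T, t ≠ 0) (c : ZMod p) (hc : c ≠ 0) (δ D : ℝ)
    (hδ : 0 < δ) (hδ2 : δ < 1 / 4) (J : ℕ) (hJ : 1 + 4 * δ ≤ δ * J)
    (hD : ∀ t ∈ T, 16 * (((c * t).valMinAbs : ℤ) : ℝ) ^ 2 ≤ D * (p : ℝ) ^ 2)
    (hDJ : D * (J : ℝ) ^ 2 ≤ 1)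
    (hT : ((it T J).card : ℝ) ≤ (1 + δ) * J * (T.card - 1)) :
    ∃ (b : ZMod p) (h : ℕ), b ≠ 0 ∧ (∀ t ∈ T, |(b * t).valMinAbs| ≤ h) ∧
      2 * (h : ℝ) ≤ (1 + 2 * δ) * (T.card - 1) := by
  have : Fact p.Prime := ⟨hp⟩
  have : NeZero p := ⟨hp.ne_zero⟩
  have hp0 : (0 : ℝ) < p := by exact_mod_cast hp.pos
  have hJ1 : (1 : ℝ) ≤ J := by
    have : 1 ≤ J := by
      by_contra hcon
      have h1 : J = 0 := by omega
      rw [h1] at hJ
      norm_num at hJ
      linarith
    exact_mod_cast this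
  -- the smallness
  have hsmall : ∀ t ∈ T, 4 * (J : ℝ) * |(((c * t).valMinAbs : ℤ) : ℝ)| ≤ p := by
    intro t ht
    have h1 := hD t ht
    have h2 : (4 * (J : ℝ) * |(((c * t).valMinAbs : ℤ) : ℝ)|) ^ 2 ≤ (p : ℝ) ^ 2 := by
      rw [mul_pow, mul_pow, sq_abs]
      have h3 : (J : ℝ) ^ 2 * (16 * (((c * t).valMinAbs : ℤ) : ℝ) ^ 2) ≤
          (J : ℝ) ^ 2 * (D * (p : ℝ) ^ 2) := mul_le_mul_of_nonneg_left h1 (by positivity)
      have h4 : (D * (J : ℝ) ^ 2) * (p : ℝ) ^ 2 ≤ 1 * (p : ℝ) ^ 2 :=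
        mul_le_mul_of_nonneg_right hDJ (by positivity)
      nlinarith
    exact le_of_sq_le_sq h2 hp0.le
  obtain ⟨f, hf⟩ : ∃ f : ZMod p → ℤ, f = fun t => (c * t).valMinAbs := ⟨_, rfl⟩
  obtain ⟨U, hU⟩ : ∃ U : Finset ℤ, U = T.image f := ⟨_, rfl⟩
  have hfcast : ∀ t, ((f t : ℤ) : ZMod p) = c * t := by
    intro t; rw [hf]; exact ZMod.coe_valMinAbs _
  have hfb : ∀ t ∈ T, 4 * (J : ℤ) * |f t| ≤ p := by
    intro t ht
    have h1 := hsmall t ht
    rw [hf]
    exact_mod_cast h1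
  have hJ1z : (1 : ℤ) ≤ J := by exact_mod_cast hJ1
  have hfb2 : ∀ t ∈ T, 4 * |f t| ≤ p := by
    intro t ht
    have h1 := hfb t ht
    have h2 : |f t| * 1 ≤ |f t| * J := mul_le_mul_of_nonneg_left hJ1z (abs_nonneg _)
    nlinarith
  have hpz : (0 : ℤ) < p := by exact_mod_cast hp.pos
  have hfneg : ∀ t ∈ T, f (-t) = -f t := by
    intro t ht
    have h1 := hfb2 t ht
    have h2 : ((-f t : ℤ) : ZMod p) = c * (-t) := by
      push_cast
      rw [hfcast]; ring
    have h3 := valMinAbs_of_small p (-f t) (by rw [abs_neg]; omega)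
    rw [h2] at h3
    rw [hf] at h3 ⊢
    exact h3
  have hUneg : ∀ u ∈ U, -u ∈ U := by
    intro u hu
    rw [hU, Finset.mem_image] at hu ⊢
    obtain ⟨t, ht, rfl⟩ := hu
    exact ⟨-t, hneg t ht, hfneg t ht⟩
  have hU0 : (0 : ℤ) ∈ U := by
    rw [hU, Finset.mem_image]
    refine ⟨0, h0, ?_⟩
    rw [hf]; simp
  have hfinj : Function.Injective f := by
    intro a b hab
    have h1 := congrArg (fun z : ℤ => (z : ZMod p)) hab
    simp only [hfcast] at h1
    exact mul_left_cancel₀ hc h1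
  have hUcard : U.card = T.card := by
    rw [hU, Finset.card_image_of_injective _ hfinj]
  have hUne : ∃ u ∈ U, u ≠ 0 := by
    obtain ⟨t, ht, ht0⟩ := hne
    refine ⟨f t, by rw [hU]; exact Finset.mem_image_of_mem _ ht, ?_⟩
    intro h1
    apply ht0
    apply hfinj
    rw [h1, hf]; simp
  -- comparison of iterated sumsets
  obtain ⟨φ, hφ⟩ : ∃ φ : ℤ →+ ZMod p, φ = (AddMonoidHom.mulLeft c⁻¹).comp (Int.castAddHom (ZMod p)) :=
    ⟨_, rfl⟩
  have hφe : ∀ z : ℤ, φ z = c⁻¹ * (z : ZMod p) := by intro z; rw [hφ]; rfl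
  have hφU : U.image φ = T := by
    rw [hU, Finset.image_image]
    have h1 : ∀ t ∈ T, (φ ∘ f) t = t := by
      intro t _
      simp only [Function.comp]
      rw [hφe, hfcast, ← mul_assoc, inv_mul_cancel₀ hc, one_mul]
    ext x
    rw [Finset.mem_image]
    constructor
    · rintro ⟨t, ht, rfl⟩
      rw [h1 t ht]; exact ht
    · intro hx
      exact ⟨x, hx, h1 x hx⟩
  have hUb : ∀ u ∈ U, 4 * (J : ℤ) * |u| ≤ p := by
    intro u hu
    rw [hU, Finset.mem_image] at hu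
    obtain ⟨t, ht, rfl⟩ := hu
    exact hfb t ht
  have hitb : ∀ x ∈ it U J, 4 * |x| ≤ p := by
    -- bound through the maximum
    obtain ⟨um, hum, hmax⟩ := Finset.exists_max_image U (fun u => |u|) ⟨0, hU0⟩
    intro x hx
    have h1 := it_bound U |um| hmax J x hx
    have h2 := hUb um hum
    nlinarith
  have hcardit : (it U J).card ≤ (it T J).card := by
    have h1 : (it U J).image φ = it T J := by rw [image_it, hφU]
    rw [← h1, Finset.card_image_of_injOn]
    intro x hx y hy hxy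
    rw [Finset.mem_coe] at hx hy
    have h2 := hitb x hx
    have h3 := hitb y hy
    rw [hφe, hφe] at hxy
    have h4 : (x : ZMod p) = y := mul_left_cancel₀ (inv_ne_zero hc) hxy
    have h5 := valMinAbs_of_small p x (by omega)
    have h6 := valMinAbs_of_small p y (by omega)
    rw [← h5, ← h6, h4]
  have hUit : ((it U J).card : ℝ) ≤ (1 + δ) * J * (U.card - 1) := by
    rw [hUcard]
    have : ((it U J).card : ℝ) ≤ (it T J).card := by exact_mod_cast hcardit
    linarith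
  obtain ⟨g, h, hg0, hgh, hh⟩ := int_structure U hUneg hU0 hUne δ hδ hδ2 J hJ hUit
  -- g is not divisible by p
  have hgp : (g : ZMod p) ≠ 0 := by
    intro h1
    rw [ZMod.natCast_eq_zero_iff] at h1
    obtain ⟨u, hu, hu0⟩ := hUne
    have h2 := (hgh u hu).1
    have h3 := hUb u hu
    have h4 : (p : ℤ) ∣ u := (by exact_mod_cast h1 : (p : ℤ) ∣ g).trans h2
    have h5 := Int.le_of_dvd (abs_pos.2 hu0) ((dvd_abs _ _).2 h4)
    have h6 : 0 < |u| := abs_pos.2 hu0
    nlinarith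
  refine ⟨(g : ZMod p)⁻¹ * c, h, mul_ne_zero (inv_ne_zero hgp) hc, ?_, ?_⟩
  · intro t ht
    have htU : f t ∈ U := by rw [hU]; exact Finset.mem_image_of_mem _ ht
    obtain ⟨⟨w, hw⟩, hle⟩ := hgh (f t) htU
    have hgz : (1 : ℤ) ≤ g := by exact_mod_cast hg0
    have h1 : (g : ZMod p)⁻¹ * c * t = ((w : ℤ) : ZMod p) := by
      rw [mul_assoc, ← hfcast, hw]
      push_cast
      rw [← mul_assoc, inv_mul_cancel₀ hgp, one_mul]
    have h2 := hfb2 t ht
    rw [hw, abs_mul, abs_of_nonneg (by omega : (0 : ℤ) ≤ g)] at h2 hle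
    have h3 : |w| ≤ g * |w| := by nlinarith [abs_nonneg w]
    rw [h1, valMinAbs_of_small p w (by omega)]
    exact le_of_mul_le_mul_left hle (by omega)
  · rw [← hUcard]; exact hh

end Pool.Agent.Helper398
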