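import Mathlib
import Pool.Agent.Helper398.Stage
import Pool.Agent.Helper398.Main

set_option autoImplicit false
set_option linter.unusedSectionVars false

open Finset
open scoped Pointwise

namespace Pool.Agent.Helper398

/-- near equality forces a stage with small growth -/
theorem near_eq_abs (d : ℝ) (hd : 0 < d) (hd2 : d ≤ 1 / 8) (bt : ℝ) (hbt0 : 0 ≤ bt) : ∃ M : ℕ,
    ∀ (G : Type) [AddCommGroup G] [DecidableEq G] (θ : ℝ), 1 / 2 ≤ θ → θ ≤ 1 →
    ∀ A : Finset G, (∀ X ⊆ A, (X.subsetSum.card : ℝ) +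
      θ * (1 / 2 - 2 * (d ^ 2 / 64)) * ((A \ X).card : ℝ) ^ 2 -
      bt * (A \ X).card ≤ A.subsetSum.card) → M ≤ A.card →
    (A.subsetSum.card : ℝ) ≤ (1 + d ^ 2 / 16) * (θ / 2) * (A.card : ℝ) ^ 2 →
    ∃ X ⊆ A, ∃ rho : ℕ, d ^ 2 / 32 * A.card ≤ X.card ∧ rho ≤ (A \ X).card ∧
      (1 - 2 * d) * A.card ≤ rho ∧ (∀ y ∈ A \ X, (gr X.subsetSum y : ℝ) ≤ (1 + d) * θ * rho) ∧
      (X.subsetSum.card : ℝ) ≤ 3 * d * θ * (A.card : ℝ) ^ 2 := by
  obtain ⟨η, hη⟩ : ∃ η : ℝ, η = d ^ 2 / 64 := ⟨_, rfl⟩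
  have hη0 : 0 < η := by rw [hη]; positivity
  have hη4 : η < 1 / 4 := by rw [hη]; nlinarith
  refine ⟨⌈(2 + 4 * bt) * 4 / d ^ 2 + 32 / d ^ 2 + bt * 32 / d + 1⌉₊, ?_⟩
  intro G _ _ θ hθ hθ2 A hind hM htot
  rw [← hη] at hind
  obtain ⟨n, hn⟩ : ∃ n, n = A.card := ⟨_, rfl⟩
  rw [← hn] at hM htot ⊢
  have hM' : (2 + 4 * bt) * 4 / d ^ 2 + 32 / d ^ 2 + bt * 32 / d + 1 ≤ (n : ℝ) :=
    le_trans (Nat.le_ceil _) (by exact_mod_cast hM)
  have hp1 : 0 < (2 + 4 * bt) * 4 / d ^ 2 := by positivity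
  have hp2 : 0 < 32 / d ^ 2 := by positivity
  have hp3 : 0 ≤ bt * 32 / d := by positivity
  have hn0 : (0 : ℝ) < n := by linarith
  have hb1 : (2 + 4 * bt) < d ^ 2 / 4 * n := by
    have : (2 + 4 * bt) * 4 / d ^ 2 < n := by linarith
    rw [div_lt_iff₀ (by positivity)] at this
    linarith
  have hb2 : 1 ≤ d ^ 2 / 32 * n := by
    have : 32 / d ^ 2 ≤ n := by linarith
    rw [div_le_iff₀ (by positivity)] at this
    linarith
  have hb3 : bt ≤ d / 32 * n := by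
    have : bt * 32 / d ≤ n := by linarith
    rw [div_le_iff₀ (by positivity)] at this
    linarith
  -- the initial set
  obtain ⟨k, hk⟩ : ∃ k : ℕ, k = ⌈d ^ 2 / 32 * n⌉₊ := ⟨_, rfl⟩
  have hk1 : d ^ 2 / 32 * n ≤ k := by rw [hk]; exact Nat.le_ceil _
  have hk2 : (k : ℝ) < d ^ 2 / 32 * n + 1 := by rw [hk]; exact Nat.ceil_lt_add_one (by positivity)
  obtain ⟨I, hI⟩ : ∃ I : ℕ, I = ⌊d * n⌋₊ := ⟨_, rfl⟩
  have hI1 : (I : ℝ) ≤ d * n := by rw [hI]; exact Nat.floor_le (by positivity)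
  have hI2 : d * n < I + 1 := by rw [hI]; exact Nat.lt_floor_add_one _
  have hd3 : d ^ 2 ≤ 1 / 8 * d := by
    rw [sq]; exact mul_le_mul_of_nonneg_right hd2 hd.le
  have hd4 : d ^ 2 * n ≤ 1 / 8 * d * n := mul_le_mul_of_nonneg_right hd3 hn0.le
  have hd5 : d * n ≤ 1 / 8 * n := mul_le_mul_of_nonneg_right hd2 hn0.le
  have hd6 : 0 ≤ d * n := mul_nonneg hd.le hn0.le
  have hkI : (k : ℝ) + I ≤ 2 * d * n := by linarith
  have hkI2 : (k : ℝ) + I ≤ 1 / 4 * n := by linarith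
  have hkIn : k + I ≤ n := by
    have : ((k + I : ℕ) : ℝ) ≤ n := by push_cast; linarith
    exact_mod_cast this
  obtain ⟨X0, hX0A, hX0⟩ := Finset.exists_subset_card_eq (show k ≤ A.card by omega)
  obtain ⟨rho, hrho⟩ : ∃ rho : ℕ, rho = n - k - I := ⟨_, rfl⟩
  have hrho' : (rho : ℝ) = n - k - I := by
    have : rho + k + I = n := by omega
    have h2 : ((rho + k + I : ℕ) : ℝ) = n := by rw [this]
    push_cast at h2
    linarith
  rcases exists_stage A X0 hX0A ((1 + d) * θ * rho) I with ⟨X, h1, h2, h3, h4⟩ | ⟨X, h1, h2, h3, h4⟩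
  · refine ⟨X, h2, rho, ?_, ?_, ?_, h4, ?_⟩
    · have : (k : ℝ) ≤ X.card := by
        rw [← hX0]
        exact_mod_cast Finset.card_le_card h1
      linarith
    · rw [Finset.card_sdiff_of_subset h2]
      omega
    · rw [hrho']; linarith
    · have h5 := hind X h2
      have h6 : (rho : ℝ) ≤ (A \ X).card := by
        have : rho ≤ (A \ X).card := by
          rw [Finset.card_sdiff_of_subset h2]
          omega
        exact_mod_cast this
      have h7 : ((A \ X).card : ℝ) ≤ n := by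
        have : (A \ X).card ≤ A.card := Finset.card_le_card Finset.sdiff_subset
        rw [hn]
        exact_mod_cast this
      have h8 : (rho : ℝ) ≥ (1 - 2 * d) * n := by rw [hrho']; linarith
      have h9 : ((1 - 2 * d) * (n : ℝ)) ^ 2 ≤ ((A \ X).card : ℝ) ^ 2 := by
        apply pow_le_pow_left₀ _ (by linarith)
        apply mul_nonneg _ hn0.le
        linarith
      have h10 : θ * (1 / 2 - 2 * η) * ((1 - 2 * d) * (n : ℝ)) ^ 2 ≤
          θ * (1 / 2 - 2 * η) * ((A \ X).card : ℝ) ^ 2 := by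
        apply mul_le_mul_of_nonneg_left h9
        apply mul_nonneg (by linarith)
        linarith
      have h11 : bt * (A \ X).card ≤ bt * n := mul_le_mul_of_nonneg_left h7 hbt0
      have h12 : bt * n ≤ d / 32 * n * n := mul_le_mul_of_nonneg_right hb3 hn0.le
      have h13 : (X.subsetSum.card : ℝ) ≤ (1 + d ^ 2 / 16) * (θ / 2) * (n : ℝ) ^ 2 -
          θ * (1 / 2 - 2 * η) * ((1 - 2 * d) * (n : ℝ)) ^ 2 + d / 32 * n * n := by linarith
      refine le_trans h13 ?_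
      have h14 : (1 + d ^ 2 / 16) * (θ / 2) * (n : ℝ) ^ 2 -
          θ * (1 / 2 - 2 * η) * ((1 - 2 * d) * (n : ℝ)) ^ 2 + d / 32 * n * n =
          (n : ℝ) ^ 2 * (θ / 2 * ((1 + d ^ 2 / 16) - (1 - 4 * η) * (1 - 2 * d) ^ 2) + d / 32) := by
        ring
      rw [h14]
      have h15 : (1 + d ^ 2 / 16) - (1 - 4 * η) * (1 - 2 * d) ^ 2 ≤ 5 * d := by
        have h16 : (1 - 4 * η) * (1 - 2 * d) ^ 2 ≥ 1 - 4 * d - 4 * η := by
          have e17 : (1 - 2 * d) ^ 2 = 1 - 4 * d + 4 * d ^ 2 := by ring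
          have h17 : (1 - 2 * d) ^ 2 ≤ 1 := by rw [e17]; linarith
          have h18 := mul_le_mul_of_nonneg_left h17 hη0.le
          have e18 : (1 - 4 * η) * (1 - 2 * d) ^ 2 = (1 - 2 * d) ^ 2 - 4 * (η * (1 - 2 * d) ^ 2) := by
            ring
          have h19 : 0 ≤ d ^ 2 := sq_nonneg d
          rw [e18]
          linarith
        rw [hη] at h16 ⊢
        linarith
      have h16 : θ / 2 * ((1 + d ^ 2 / 16) - (1 - 4 * η) * (1 - 2 * d) ^ 2) ≤ θ / 2 * (5 * d) :=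
        mul_le_mul_of_nonneg_left h15 (by linarith)
      have h17 : θ / 2 * ((1 + d ^ 2 / 16) - (1 - 4 * η) * (1 - 2 * d) ^ 2) + d / 32 ≤
          3 * d * θ := by
        have h18 : d * (1 / 2) ≤ d * θ := mul_le_mul_of_nonneg_left hθ hd.le
        linarith
      calc (n : ℝ) ^ 2 * (θ / 2 * ((1 + d ^ 2 / 16) - (1 - 4 * η) * (1 - 2 * d) ^ 2) + d / 32) ≤
          (n : ℝ) ^ 2 * (3 * d * θ) := mul_le_mul_of_nonneg_left h17 (by positivity)
        _ = _ := by ring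
  · exfalso
    have h5 := hind X h2
    have h6 : (A \ X).card = rho := by
      rw [Finset.card_sdiff_of_subset h2]
      omega
    rw [h6] at h5
    apply stage_arith d (k / n) (I / n) η (d ^ 2 / 16) θ n bt A.subsetSum.card I rho hd hd2 hn0 hθ
      (by positivity) _ _ _ (by positivity) hη rfl hbt0 hb1 _ _ _ htot
    · rw [div_le_iff₀ hn0]; linarith
    · rw [div_le_iff₀ hn0]; exact hI1
    · rw [le_div_iff₀ hn0]
      have : (d - 1 / n) * n = d * n - 1 := by field_simp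
      linarith
    · field_simp
    · rw [hrho']; field_simp
    · linarith

end Pool.Agent.Helper398
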