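import Mathlib
import Pool.Agent.Helper398.MainEE

set_option autoImplicit false
set_option linter.unusedSectionVars false

open Finset
open scoped Pointwise

namespace Pool.Agent.Helper398

/-- Every zero-sum-free set `A` of large cardinality has at least `⌊|A|²/2⌋ + 2` subset sums
(the empty sum included). -/
theorem main_exact : ∃ M : ℕ, ∀ (G : Type) [AddCommGroup G] [Finite G] [DecidableEq G]
    (A : Finset G), ZSF A → M ≤ A.card → A.card ^ 2 / 2 + 2 ≤ A.subsetSum.card := by
  obtain ⟨M, hM⟩ := main_top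
  refine ⟨M, ?_⟩
  intro G _ _ _ A hZ hA
  have h1 := hM (AddSubgroup.closure (A : Set G)) (toSub (AddSubgroup.closure (A : Set G)) A)
    (closure_toSub A) (ZSF_toSub _ A hZ)
  have h2 : (toSub (AddSubgroup.closure (A : Set G)) A).card = A.card := by
    rw [card_toSub, inSub_closure]
  rw [h2] at h1
  refine (h1 hA).trans ?_
  apply Finset.card_le_card_of_injOn (fun x : AddSubgroup.closure (A : Set G) => (x : G))
  · intro x hx
    rw [Finset.mem_coe, Finset.mem_subsetSum_iff] at hx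
    obtain ⟨B, hB, rfl⟩ := hx
    rw [Finset.mem_coe, Finset.mem_subsetSum_iff]
    refine ⟨B.map (Function.Embedding.subtype _), ?_, (sum_coe_sub _ B).symm⟩
    intro y hy
    rw [Finset.mem_map] at hy
    obtain ⟨z, hz, rfl⟩ := hy
    exact (mem_toSub _ _ _).1 (hB hz)
  · intro x _ y _ hxy
    exact Subtype.ext hxy

/-- The example `{(1,0),…,(a,0)} ∪ {(0,1),…,(b,1)}` in `Z_N × Z_2`. -/
theorem example_upper (m : ℕ) : ∃ A : Finset (ZMod (m ^ 2 + 1) × ZMod 2), A.card = m ∧
    (∀ B ⊆ A, B.Nonempty → ∑ b ∈ B, b ≠ 0) ∧ A.subsetSum.card ≤ m ^ 2 / 2 + 2 := by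
  classical
  rcases Nat.eq_zero_or_pos m with hm0 | hm0
  · subst hm0
    refine ⟨∅, rfl, ?_, ?_⟩
    · intro B hB hne
      rw [Finset.subset_empty] at hB
      rw [hB] at hne
      exact absurd hne (by simp)
    · decide
  obtain ⟨N, hN⟩ : ∃ N, N = m ^ 2 + 1 := ⟨_, rfl⟩
  rw [← hN]
  have hNm : m < N := by rw [hN]; nlinarith
  have : NeZero N := ⟨by omega⟩
  obtain ⟨a, ha⟩ : ∃ a, a = (m - 1) / 2 := ⟨_, rfl⟩
  obtain ⟨b, hb⟩ : ∃ b, b = m / 2 := ⟨_, rfl⟩
  obtain ⟨I, hI⟩ : ∃ I : Finset (ℕ × ℕ), I = (Finset.Icc 1 a).image (fun i => (i, 0)) ∪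
    (Finset.range (b + 1)).image (fun i => (i, 1)) := ⟨_, rfl⟩
  obtain ⟨φ, hφ⟩ : ∃ φ : ℕ × ℕ → ZMod N × ZMod 2, φ = fun p => ((p.1 : ZMod N), (p.2 : ZMod 2)) :=
    ⟨_, rfl⟩
  have hmemI : ∀ p ∈ I, p.1 < N ∧ p.2 < 2 ∧ (p.2 = 0 → 1 ≤ p.1) := by
    intro p hp
    rw [hI, Finset.mem_union, Finset.mem_image, Finset.mem_image] at hp
    rcases hp with ⟨i, hi, rfl⟩ | ⟨i, hi, rfl⟩
    · rw [Finset.mem_Icc] at hi
      exact ⟨by omega, by norm_num, fun _ => hi.1⟩
    · rw [Finset.mem_range] at hi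
      exact ⟨by simp only; omega, by norm_num, by simp⟩
  have hinj : ∀ p ∈ I, ∀ p' ∈ I, φ p = φ p' → p = p' := by
    intro p hp p' hp' h
    rw [hφ] at h
    simp only [Prod.mk.injEq] at h
    have h1 := hmemI p hp
    have h2 := hmemI p' hp'
    have h3 : p.1 = p'.1 := by
      have := congrArg ZMod.val h.1
      rwa [ZMod.val_natCast_of_lt h1.1, ZMod.val_natCast_of_lt h2.1] at this
    have h4 : p.2 = p'.2 := by
      have := congrArg ZMod.val h.2
      rwa [ZMod.val_natCast_of_lt h1.2.1, ZMod.val_natCast_of_lt h2.2.1] at this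
    exact Prod.ext h3 h4
  have hdisj : Disjoint ((Finset.Icc 1 a).image (fun i => ((i, 0) : ℕ × ℕ)))
      ((Finset.range (b + 1)).image (fun i => ((i, 1) : ℕ × ℕ))) := by
    rw [Finset.disjoint_left]
    intro p hp hp'
    rw [Finset.mem_image] at hp hp'
    obtain ⟨i, _, rfl⟩ := hp
    obtain ⟨j, _, hj⟩ := hp'
    simp at hj
  have hIcard : I.card = m := by
    rw [hI, Finset.card_union_of_disjoint hdisj, Finset.card_image_of_injective,
      Finset.card_image_of_injective, Nat.card_Icc, Finset.card_range]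
    · omega
    · intro i j h; simpa using h
    · intro i j h; simpa using h
  -- the total first weight
  have htri : ∀ n : ℕ, 2 * ∑ i ∈ Finset.range (n + 1), i = n * (n + 1) := by
    intro n
    have := Finset.sum_range_id_mul_two (n + 1)
    rw [Nat.add_sub_cancel] at this
    have e : (n + 1) * n = n * (n + 1) := mul_comm _ _
    omega
  have htri1 : 2 * ∑ i ∈ Finset.Icc 1 a, i = a * (a + 1) := by
    rw [← htri a]
    have h2 : Finset.range (a + 1) = insert 0 (Finset.Icc 1 a) := by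
      ext i
      simp only [Finset.mem_range, Finset.mem_insert, Finset.mem_Icc]
      omega
    rw [h2, Finset.sum_insert (by simp), zero_add]
  obtain ⟨S, hS⟩ : ∃ S, S = ∑ p ∈ I, p.1 := ⟨_, rfl⟩
  have hS2 : 2 * S = a * (a + 1) + b * (b + 1) := by
    rw [hS, hI, Finset.sum_union hdisj, Finset.sum_image (by intro i _ j _ h; simpa using h),
      Finset.sum_image (by intro i _ j _ h; simpa using h), mul_add, htri, htri1]
  have hS3 : 2 * S = m ^ 2 / 2 := by
    rw [hS2]
    rcases Nat.even_or_odd' m with ⟨c, hc | hc⟩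
    · have h1 : b = c := by omega
      have h2 : a = c - 1 := by omega
      obtain ⟨e, rfl⟩ : ∃ e, c = e + 1 := ⟨c - 1, by omega⟩
      rw [h1, h2, hc, Nat.add_sub_cancel]
      have : (2 * (e + 1)) ^ 2 = 2 * (e * (e + 1) + (e + 1) * (e + 1 + 1)) := by ring
      rw [this, Nat.mul_div_cancel_left _ (by norm_num)]
    · have h1 : b = c := by omega
      have h2 : a = c := by omega
      rw [h1, h2, hc]
      have : (2 * c + 1) ^ 2 = 2 * (c * (c + 1) + c * (c + 1)) + 1 := by ring
      rw [this]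
      omega
  have hSN : S < N := by rw [hN]; omega
  -- sums over subsets
  have hsub : ∀ J ⊆ I, (∑ p ∈ J, φ p).1 = ((∑ p ∈ J, p.1 : ℕ) : ZMod N) ∧
      (∑ p ∈ J, φ p).2 = ((∑ p ∈ J, p.2 : ℕ) : ZMod 2) := by
    intro J _
    rw [Prod.fst_sum, Prod.snd_sum, hφ]
    push_cast
    exact ⟨rfl, rfl⟩
  have hpull : ∀ B ⊆ I.image φ, ∃ J ⊆ I, B = J.image φ ∧ ∑ b ∈ B, b = ∑ p ∈ J, φ p := by
    intro B hB
    obtain ⟨J, hJ, rfl⟩ := Finset.subset_image_iff.1 hB
    refine ⟨J, hJ, rfl, ?_⟩
    rw [Finset.sum_image (fun p hp p' hp' h => hinj p (hJ hp) p' (hJ hp') h)]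
  refine ⟨I.image φ, ?_, ?_, ?_⟩
  · rw [Finset.card_image_of_injOn (fun p hp p' hp' h => hinj p hp p' hp' h), hIcard]
  · intro B hB hne hsum
    obtain ⟨J, hJ, hBJ, hJs⟩ := hpull B hB
    rw [hJs] at hsum
    obtain ⟨h1, h2⟩ := hsub J hJ
    rw [hsum] at h1 h2
    have hJne : J.Nonempty := by
      rw [hBJ] at hne
      exact Finset.image_nonempty.1 hne
    have hle : ∑ p ∈ J, p.1 ≤ S := by rw [hS]; exact Finset.sum_le_sum_of_subset hJ
    have h3 : ∑ p ∈ J, p.1 = 0 := by
      have := congrArg ZMod.val h1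
      rw [ZMod.val_natCast_of_lt (by omega)] at this
      rw [← this]; simp
    have h4 : ∀ p ∈ J, p = (0, 1) := by
      intro p hp
      have h5 : p.1 = 0 := by
        have := Finset.sum_eq_zero_iff.1 h3 p hp
        exact this
      have h6 := hmemI p (hJ hp)
      have h7 : p.2 = 1 := by
        rcases Nat.eq_zero_or_pos p.2 with h | h
        · have := h6.2.2 h
          omega
        · omega
      exact Prod.ext h5 h7
    have h5 : J = {(0, 1)} := by
      ext p
      rw [Finset.mem_singleton]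
      constructor
      · exact h4 p
      · rintro rfl
        obtain ⟨p', hp'⟩ := hJne
        rw [h4 p' hp'] at hp'
        exact hp'
    rw [h5] at h2
    simp at h2
  · have hsubset : (I.image φ).subsetSum ⊆
        (Finset.range (S + 1) ×ˢ (Finset.univ : Finset (ZMod 2))).image
          (fun p => ((p.1 : ZMod N), p.2)) := by
      intro x hx
      rw [Finset.mem_subsetSum_iff] at hx
      obtain ⟨B, hB, rfl⟩ := hx
      obtain ⟨J, hJ, hBJ, hJs⟩ := hpull B hB
      obtain ⟨h1, h2⟩ := hsub J hJ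
      rw [Finset.mem_image]
      refine ⟨(∑ p ∈ J, p.1, (∑ b ∈ B, b).2), ?_, ?_⟩
      · rw [Finset.mem_product, Finset.mem_range]
        refine ⟨?_, Finset.mem_univ _⟩
        have : ∑ p ∈ J, p.1 ≤ S := by rw [hS]; exact Finset.sum_le_sum_of_subset hJ
        simp only
        omega
      · apply Prod.ext
        · simp only
          rw [hJs, h1]
        · rfl
    have h1 := (Finset.card_le_card hsubset).trans Finset.card_image_le
    rw [Finset.card_product, Finset.card_range, Finset.card_univ, ZMod.card] at h1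
    omega

end Pool.Agent.Helper398
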