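import Mathlib
set_option autoImplicit false

namespace Pool.Agent.Helper398

theorem sa_plow (n bt q P : ℝ) (hn : 0 < n) (hnbt : 40 * bt ≤ n) (h1 : (1 / 4 - 1 / 40) * n ^ 2 - bt * n ≤ q)
    (h2 : q ≤ P) : n ^ 2 / 5 ≤ P := by
  have h3 : 40 * bt * n ≤ n * n := mul_le_mul_of_nonneg_right hnbt hn.le
  nlinarith

theorem sa_bp (n d θ b P : ℝ) (hθ0 : 0 < θ) (hn : 0 < n) (hd : d = θ / 16)
    (hX5 : b ≤ 3 * d * (1 / 2) * n ^ 2) (hplow : n ^ 2 / 5 ≤ P) : b < θ * P := by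
  have h1 : 3 * d * (1 / 2) * n ^ 2 = 3 / 32 * (θ * n ^ 2) := by rw [hd]; ring
  rw [h1] at hX5
  have h2 : θ * (n ^ 2 / 5) ≤ θ * P := mul_le_mul_of_nonneg_left hplow hθ0.le
  have h3 : 0 < θ * n ^ 2 := by positivity
  have h4 : θ * (n ^ 2 / 5) = 1 / 5 * (θ * n ^ 2) := by ring
  rw [h4] at h2
  linarith

theorem sa_b (d c2 n x b : ℝ) (hn : 0 < n) (hd : 0 < d) (hc2 : c2 = (d ^ 2 / 32) ^ 2 / 288)
    (hX1 : d ^ 2 / 32 * n ≤ x) (h2 : x ^ 2 ≤ 288 * b) : c2 * n ^ 2 ≤ b := by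
  have h3 : (d ^ 2 / 32 * n) ^ 2 ≤ x ^ 2 := pow_le_pow_left₀ (by positivity) hX1 2
  have h4 : c2 * n ^ 2 = (d ^ 2 / 32 * n) ^ 2 / 288 := by rw [hc2]; ring
  rw [h4]
  linarith

theorem sa_fac (δ θ d : ℝ) (hδ0 : 0 < δ) (hδ8 : δ ≤ 1 / 8) (hθ : θ = δ / 8) (hd : d = θ / 16) :
    (1 + 4 * θ ^ 2) * (1 + d) ≤ 1 + δ / 8 := by
  have hθ2 : 4 * θ ^ 2 ≤ δ / 100 := by
    rw [hθ]
    nlinarith
  have hd2 : d ≤ δ / 100 := by rw [hd, hθ]; linarith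
  have hd0 : 0 ≤ d := by rw [hd, hθ]; linarith
  have h1 : (1 + 4 * θ ^ 2) * (1 + d) ≤ (1 + δ / 100) * (1 + δ / 100) := by
    apply mul_le_mul (by linarith) (by linarith) (by linarith) (by linarith)
  nlinarith

theorem sa_TJ (δ J rho τ c c' : ℝ) (hδ0 : 0 < δ) (hJ1 : 1 + 4 * δ ≤ δ * J)
    (h1 : c' ≤ (1 + δ / 8) * J * rho) (h2 : c ≤ c' + 1) (hτrho : rho ≤ τ) (h7 : 2 ≤ rho)
    (hJ : 0 < J) : c ≤ (1 + δ) * J * τ := by
  have h4 : (1 + δ / 8) * J * rho ≤ (1 + δ / 8) * J * τ :=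
    mul_le_mul_of_nonneg_left hτrho (by positivity)
  have h8 : 2 * (δ * J) ≤ τ * (δ * J) := mul_le_mul_of_nonneg_right (by linarith) (by positivity)
  have e1 : (1 + δ / 8) * J * τ = J * τ + 1 / 8 * (τ * (δ * J)) := by ring
  have e2 : (1 + δ) * J * τ = J * τ + τ * (δ * J) := by ring
  rw [e1] at h4
  rw [e2]
  linarith

theorem sa_Krho (d K rho lam v : ℝ) (hd : 0 ≤ d) (hK : 0 ≤ K) (hrho : 0 ≤ rho)
    (hlam : lam = (1 + d) * (1 / 2) * rho) (hK1 : K * lam ≤ v) : K * rho ≤ 2 * v := by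
  have h1 : 0 ≤ K * rho := by positivity
  have h2 : K * lam = 1 / 2 * (K * rho) + 1 / 2 * (d * (K * rho)) := by rw [hlam]; ring
  have h3 : 0 ≤ d * (K * rho) := by positivity
  linarith

theorem sa_half (δ θ b P y c : ℝ) (hδ : 0 < δ) (hδ8 : δ ≤ 1 / 8) (hθ0 : 0 < θ)
    (hθ64 : θ ≤ 1 / 64) (hP : 12 ≤ P) (hbp : b < θ * P) (hy0 : 0 ≤ y) (hy : y ≤ 2 * (θ ^ 2 * b))
    (hc : c ≤ 1 + (1 + δ / 8) * y) : 2 * c ≤ P := by
  have h2 : (1 + δ / 8) * y ≤ 2 * y := mul_le_mul_of_nonneg_right (by linarith) hy0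
  have h4 : θ ^ 2 * b ≤ θ ^ 2 * (θ * P) := mul_le_mul_of_nonneg_left hbp.le (sq_nonneg θ)
  have h5 : θ ^ 2 ≤ (1 / 64) ^ 2 := pow_le_pow_left₀ hθ0.le hθ64 2
  have h6 : θ * P ≤ 1 / 64 * P := mul_le_mul_of_nonneg_right hθ64 (by linarith)
  have h7 : θ ^ 2 * (θ * P) ≤ (1 / 64) ^ 2 * (1 / 64 * P) := by
    apply mul_le_mul h5 h6 (by positivity) (by positivity)
  linarith

theorem sa_ratio (δ K k rho τ c c' : ℝ) (hδ : 0 < δ) (hδ8 : δ ≤ 1 / 8) (hK : 0 ≤ K)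
    (hk : 0 ≤ k) (hrho : 0 ≤ rho)
    (hτ : rho ≤ τ) (h2 : 3 * K ≤ 8 * k) (hc : c ≤ 1 + (1 + δ / 8) * K * rho)
    (hc' : 1 + k * τ ≤ c') : c ≤ 5 * c' := by
  have h3 : k * rho ≤ k * τ := mul_le_mul_of_nonneg_left hτ hk
  have h4 : 3 * K * rho ≤ 8 * k * rho := mul_le_mul_of_nonneg_right h2 hrho
  have h6 : 0 ≤ K * rho := by positivity
  have h5 : (1 + δ / 8) * (K * rho) ≤ 9 / 8 * (K * rho) :=
    mul_le_mul_of_nonneg_right (by linarith) h6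
  have e : (1 + δ / 8) * K * rho = (1 + δ / 8) * (K * rho) := by ring
  have e3 : 3 * K * rho = 3 * (K * rho) := by ring
  have e4 : 8 * k * rho = 8 * (k * rho) := by ring
  rw [e] at hc
  rw [e3, e4] at h4
  linarith

theorem sa_final (ε δ τ rho n h : ℝ) (hδ : δ = ε / 4) (hε : 0 < ε) (hε1 : ε ≤ 1 / 2)
    (hτup : τ ≤ (1 + δ / 8) * rho) (hrho : rho ≤ n) (hn : 0 < n)
    (hb : 2 * h ≤ (1 + 2 * δ) * τ) : 2 * h ≤ (1 + ε) * n := by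
  have hδ0 : 0 < δ := by rw [hδ]; positivity
  have h4 : (1 + 2 * δ) * τ ≤ (1 + 2 * δ) * ((1 + δ / 8) * rho) :=
    mul_le_mul_of_nonneg_left hτup (by positivity)
  have h5 : (1 + 2 * δ) * ((1 + δ / 8) * rho) ≤ (1 + 2 * δ) * ((1 + δ / 8) * n) := by
    apply mul_le_mul_of_nonneg_left _ (by positivity)
    exact mul_le_mul_of_nonneg_left hrho (by positivity)
  have h6 : (1 + 2 * δ) * (1 + δ / 8) ≤ 1 + ε := by rw [hδ]; nlinarith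
  have h7 := mul_le_mul_of_nonneg_right h6 hn.le
  linarith

theorem struct_arith (n s J K D : ℝ) (hs : 0 < s) (hn : 0 < n)
    (hK : s * n / 2 ≤ K) (hbig : 480 * J ^ 2 / s ^ 2 ≤ n) (hD : D ≤ 40 * (3 * n) / K ^ 2) :
    D * J ^ 2 ≤ 1 := by
  have hK0 : 0 < K := lt_of_lt_of_le (by positivity) hK
  rw [div_le_iff₀ (by positivity)] at hbig
  have h1 : (s * n / 2) ^ 2 ≤ K ^ 2 := pow_le_pow_left₀ (by positivity) hK 2
  have h2 : 40 * (3 * n) / K ^ 2 ≤ 40 * (3 * n) / (s * n / 2) ^ 2 :=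
    div_le_div_of_nonneg_left (by positivity) (by positivity) h1
  have h3 : 40 * (3 * n) / (s * n / 2) ^ 2 = 480 / (s ^ 2 * n) := by
    field_simp
    norm_num
  rw [h3] at h2
  have h4 : D * J ^ 2 ≤ 480 / (s ^ 2 * n) * J ^ 2 :=
    mul_le_mul_of_nonneg_right (hD.trans h2) (by positivity)
  refine h4.trans ?_
  rw [div_mul_eq_mul_div, div_le_one (by positivity)]
  linarith

end Pool.Agent.Helper398
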