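import Mathlib
import Pool.Agent.Helper398.Dil
import Pool.Agent.Helper398.Stage
import Pool.Agent.Helper398.Stab
import Pool.Agent.Helper398.SArith

set_option autoImplicit false
set_option linter.unusedSectionVars false

open Finset
open scoped Pointwise

namespace Pool.Agent.Helper398

theorem NS_prime (p : ℕ) (hp : p.Prime) (A : Finset (ZMod p)) (h0 : (0 : ZMod p) ∉ A)
    (hx : ∃ x : ZMod p, x ∉ A.subsetSum) : NS A := by
  have : Fact p.Prime := ⟨hp⟩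
  intro a ha hst
  obtain ⟨x, hx⟩ := hx
  apply hx
  have h1 : stab A.subsetSum = ⊤ := by
    have hpc : Fact (Nat.card (ZMod p)).Prime := by rw [Nat.card_zmod]; exact ⟨hp⟩
    rcases AddSubgroup.eq_bot_or_eq_top_of_prime_card (stab A.subsetSum) with h | h
    · exfalso
      have h2 : a ∈ stab A.subsetSum := hst
      rw [h, AddSubgroup.mem_bot] at h2
      rw [h2] at ha
      exact h0 ha
    · exact h
  have h2 : x ∈ stab A.subsetSum := by rw [h1]; exact AddSubgroup.mem_top x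
  rw [mem_stab] at h2
  rw [← h2, Finset.mem_vadd_finset]
  exact ⟨0, Finset.zero_mem_subsetSum, by simp⟩

/-- The structure theorem for non-spanning sets of nearly critical size modulo a prime. -/
theorem struct_prime (ε : ℝ) (hε : 0 < ε) (hε1 : ε ≤ 1 / 2) : ∃ ξ : ℝ, 0 < ξ ∧ ∃ M : ℕ,
    ∀ p : ℕ, p.Prime → ∀ A : Finset (ZMod p), (0 : ZMod p) ∉ A →
    (∃ x : ZMod p, x ∉ A.subsetSum) → M ≤ A.card →
    (p : ℝ) ≤ (1 + ξ) * ((A.card : ℝ) ^ 2 / 4) →
    ∃ (b : ZMod p) (R : Finset (ZMod p)) (h : ℕ), b ≠ 0 ∧ R ⊆ A ∧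
      (1 - ε) * A.card ≤ R.card ∧ 2 * (h : ℝ) ≤ (1 + ε) * A.card ∧
      ∀ a ∈ R, |(b * a).valMinAbs| ≤ h := by
  obtain ⟨δ, hδ⟩ : ∃ δ : ℝ, δ = ε / 4 := ⟨_, rfl⟩
  obtain ⟨θ, hθ⟩ : ∃ θ : ℝ, θ = δ / 8 := ⟨_, rfl⟩
  obtain ⟨d, hd⟩ : ∃ d : ℝ, d = θ / 16 := ⟨_, rfl⟩
  have hδ0 : 0 < δ := by rw [hδ]; positivity
  have hδ8 : δ ≤ 1 / 8 := by rw [hδ]; linarith
  have hθ0 : 0 < θ := by rw [hθ]; positivity
  have hθ64 : θ ≤ 1 / 64 := by rw [hθ]; linarith
  have hd0 : 0 < d := by rw [hd]; positivity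
  have hd8 : d ≤ 1 / 1024 := by rw [hd]; linarith
  obtain ⟨M1, hM1⟩ := near_eq d hd0 (by linarith)
  obtain ⟨c2, hc2⟩ : ∃ c2 : ℝ, c2 = (d ^ 2 / 32) ^ 2 / 288 := ⟨_, rfl⟩
  have hc20 : 0 < c2 := by rw [hc2]; positivity
  obtain ⟨s, hs⟩ : ∃ s : ℝ, s = θ ^ 2 * c2 := ⟨_, rfl⟩
  have hs0 : 0 < s := by rw [hs]; positivity
  obtain ⟨bt, hbt⟩ : ∃ bt : ℝ, bt = bet' (1 / 40) := ⟨_, rfl⟩
  have hbt0 : 0 ≤ bt := by rw [hbt]; unfold bet' thr'; positivity
  obtain ⟨J, hJ⟩ : ∃ J : ℕ, J = ⌈(1 + 4 * δ) / δ⌉₊ := ⟨_, rfl⟩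
  have hJ1 : 1 + 4 * δ ≤ δ * J := by
    have h1 : (1 + 4 * δ) / δ ≤ J := by rw [hJ]; exact Nat.le_ceil _
    rw [div_le_iff₀ hδ0] at h1
    linarith
  have hJ2 : (8 : ℝ) ≤ J := by nlinarith
  refine ⟨d ^ 2 / 16, by positivity,
    max M1 ⌈40 * bt + J / s + 4 / s + 480 * (J : ℝ) ^ 2 / s ^ 2 + 8⌉₊, ?_⟩
  intro p hp A hA0 hAx hM hpA
  have : Fact p.Prime := ⟨hp⟩
  have : NeZero p := ⟨hp.ne_zero⟩
  obtain ⟨n, hn⟩ : ∃ n : ℕ, n = A.card := ⟨_, rfl⟩
  rw [← hn] at hM hpA ⊢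
  have hp0 : (0 : ℝ) < p := by exact_mod_cast hp.pos
  have hnM : 40 * bt + J / s + 4 / s + 480 * (J : ℝ) ^ 2 / s ^ 2 + 8 ≤ (n : ℝ) :=
    le_trans (Nat.le_ceil _) (by exact_mod_cast le_trans (le_max_right _ _) hM)
  have q1 : 0 ≤ J / s := by positivity
  have q2 : 0 ≤ 4 / s := by positivity
  have q3 : 0 ≤ 480 * (J : ℝ) ^ 2 / s ^ 2 := by positivity
  have hn8 : (8 : ℝ) ≤ n := by linarith
  have hn0 : (0 : ℝ) < n := by linarith
  have hnbt : 40 * bt ≤ n := by linarith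
  have hnJ : (J : ℝ) ≤ s * n := by
    have : J / s ≤ n := by linarith
    rw [div_le_iff₀ hs0] at this
    linarith
  have hn4 : 4 ≤ s * n := by
    have : 4 / s ≤ n := by linarith
    rw [div_le_iff₀ hs0] at this
    linarith
  have hnJ2 : 480 * (J : ℝ) ^ 2 / s ^ 2 ≤ n := by linarith
  have hNS := NS_prime p hp A hA0 hAx
  have hcardp : ∀ B : Finset (ZMod p), (B.card : ℝ) ≤ p := by
    intro B
    have := Finset.card_le_univ B
    rw [ZMod.card] at this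
    exact_mod_cast this
  -- lower bound for p
  have hplow : (n : ℝ) ^ 2 / 5 ≤ p := by
    have h1 := lower_gen (1 / 40) (by norm_num) (by norm_num) A hNS
    rw [← hn, ← hbt] at h1
    exact sa_plow n bt _ p hn0 hnbt h1 (hcardp A.subsetSum)
  -- the stage
  obtain ⟨X, hXA, rho, hX1, hX2, hX3, hX4, hX5⟩ := hM1 (ZMod p) (1 / 2) le_rfl (by norm_num) A hNS
    (wide_half A hA0) (by rw [← hn]; exact le_trans (le_max_left _ _) hM) (by
      rw [← hn]
      have := hcardp A.subsetSum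
      linarith)
  rw [← hn] at hX1 hX3 hX5
  obtain ⟨R, hR⟩ : ∃ R, R = A \ X := ⟨_, rfl⟩
  rw [← hR] at hX2 hX4
  have hRA : R ⊆ A := by rw [hR]; exact Finset.sdiff_subset
  have hR0 : (0 : ZMod p) ∉ R := fun h => hA0 (hRA h)
  obtain ⟨B, hB⟩ : ∃ B, B = X.subsetSum := ⟨_, rfl⟩
  rw [← hB] at hX4 hX5
  obtain ⟨b, hb⟩ : ∃ b : ℝ, b = (B.card : ℝ) := ⟨_, rfl⟩
  rw [← hb] at hX5
  have hrho0 : (0 : ℝ) < rho := by
    have h1 : 0 < (1 - 2 * d) * (n : ℝ) := mul_pos (by linarith) hn0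
    linarith
  have hrho2 : (2 : ℝ) ≤ rho := by
    have h1 : 1 / 2 * (n : ℝ) ≤ (1 - 2 * d) * (n : ℝ) :=
      mul_le_mul_of_nonneg_right (by linarith) hn0.le
    linarith
  have hRcard : (R.card : ℝ) ≤ n := by
    rw [hn]; exact_mod_cast Finset.card_le_card hRA
  have hrhoR : (rho : ℝ) ≤ R.card := by exact_mod_cast hX2
  have hrhon : (rho : ℝ) ≤ n := by linarith
  obtain ⟨lam, hlam⟩ : ∃ lam : ℝ, lam = (1 + d) * (1 / 2) * rho := ⟨_, rfl⟩
  rw [← hlam] at hX4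
  have hlam0 : 0 < lam := by rw [hlam]; positivity
  have hlamn : lam ≤ n := by
    rw [hlam]
    have h1 : (1 + d) * (1 / 2) * (rho : ℝ) ≤ 1 * rho :=
      mul_le_mul_of_nonneg_right (by linarith) hrho0.le
    linarith
  -- b is quadratic
  have hbX : c2 * (n : ℝ) ^ 2 ≤ b := by
    have h1 := crude_bound' X.card X rfl (hNS.mono hXA)
    have h2 : (X.card : ℝ) ^ 2 ≤ 288 * b := by rw [hb, hB]; exact_mod_cast h1
    exact sa_b d c2 n X.card b hn0 hd0 hc2 hX1 h2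
  have hb0 : 0 < b := lt_of_lt_of_le (by positivity) hbX
  have hbp : b < θ * p := sa_bp n d θ b p hθ0 hn0 hd hX5 hplow
  -- the symmetric set
  obtain ⟨T, hT⟩ : ∃ T, T = sym R := ⟨_, rfl⟩
  have hT0 : (0 : ZMod p) ∈ T := by rw [hT]; exact zero_mem_sym R
  have hTneg : ∀ t ∈ T, -t ∈ T := by rw [hT]; exact neg_mem_sym R
  have hTgr : ∀ t ∈ T, (gr B t : ℝ) ≤ lam := by
    rw [hT]; exact gr_sym B R lam hlam0.le hX4
  have hTcard1 : R.card + 1 ≤ T.card := by rw [hT]; exact card_sym_ge R hR0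
  have hTcard2 : T.card ≤ 2 * R.card + 1 := by rw [hT]; exact card_sym_le R
  obtain ⟨τ, hτ⟩ : ∃ τ : ℕ, τ = T.card - 1 := ⟨_, rfl⟩
  have hτT : T.card = τ + 1 := by omega
  have hτrho : (rho : ℝ) ≤ τ := by
    have : R.card ≤ τ := by omega
    have h2 : (R.card : ℝ) ≤ τ := by exact_mod_cast this
    linarith
  have hfac : (1 + 4 * θ ^ 2) * (1 + d) ≤ 1 + δ / 8 := sa_fac δ θ d hδ0 hδ8 hθ hd
  have hlin : ∀ K : ℕ, 1 ≤ K → K * lam ≤ θ ^ 2 * b →
      (((it T K).card - 1 : ℕ) : ℝ) ≤ (1 + δ / 8) * K * rho := by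
    intro K hK1 hK
    have hKr : (1 : ℝ) ≤ K := by exact_mod_cast hK1
    have hz : (0 : ZMod p) ∈ it T K := it_mono T hT0 (Nat.zero_le K) (by simp [it])
    have h1 := lin_growth B (it T K) ((it T K).card - 1)
      (fun A' hA' hne => cd_kappa p hp (it T K) ⟨0, hz⟩ A' hA' hne) hz (K * lam) θ
      (by positivity) (gr_it B T lam hTgr K) hθ0 (by linarith) (by rw [← hb]; exact hK)
      (by rw [← hb, ZMod.card]; exact hbp)
    refine h1.trans ?_
    have h2 : 2 * (1 + 4 * θ ^ 2) * (K * lam) = (1 + 4 * θ ^ 2) * (1 + d) * (K * rho) := by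
      rw [hlam]; ring
    rw [h2]
    have h3 := mul_le_mul_of_nonneg_right hfac (by positivity : (0 : ℝ) ≤ K * rho)
    linarith
  have hθb : s * (n : ℝ) ^ 2 ≤ θ ^ 2 * b := by
    rw [hs]
    have := mul_le_mul_of_nonneg_left hbX (sq_nonneg θ)
    linarith
  -- upper bound for τ
  have hτup : (τ : ℝ) ≤ (1 + δ / 8) * rho := by
    have h1 := hlin 1 le_rfl (by
      rw [Nat.cast_one, one_mul]
      have h3 : (1 : ℝ) * n ≤ (s * n) * n := mul_le_mul_of_nonneg_right (by linarith) hn0.le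
      have h4 : s * (n : ℝ) ^ 2 = (s * n) * n := by ring
      linarith)
    have h2 : it T 1 = T := by
      show {0} + T = T
      rw [Finset.singleton_zero, zero_add]
    rw [h2, ← hτ, Nat.cast_one, mul_one] at h1
    exact h1
  -- the J-fold sumset
  have hTJ : ((it T J).card : ℝ) ≤ (1 + δ) * J * (T.card - 1) := by
    have h1 := hlin J (by
      have : (1 : ℝ) ≤ J := by linarith
      exact_mod_cast this) (by
      have h3 : (J : ℝ) * lam ≤ (s * n) * n := by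
        apply mul_le_mul hnJ hlamn hlam0.le (by positivity)
      have h4 : s * (n : ℝ) ^ 2 = (s * n) * n := by ring
      linarith)
    have h2 : ((it T J).card : ℝ) ≤ (((it T J).card - 1 : ℕ) : ℝ) + 1 := by
      have : (it T J).card ≤ ((it T J).card - 1) + 1 := by omega
      exact_mod_cast this
    have h3 : (T.card : ℝ) - 1 = τ := by rw [hτT]; push_cast; ring
    rw [h3]
    exact sa_TJ δ J rho τ _ _ hδ0 hJ1 h1 h2 hτrho hrho2 (by linarith)
  -- the scale for the Fourier argument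
  obtain ⟨K, hK⟩ : ∃ K : ℕ, K = ⌊θ ^ 2 * b / lam⌋₊ := ⟨_, rfl⟩
  have hK1 : (K : ℝ) * lam ≤ θ ^ 2 * b := by
    have : (K : ℝ) ≤ θ ^ 2 * b / lam := by rw [hK]; exact Nat.floor_le (by positivity)
    rwa [le_div_iff₀ hlam0] at this
  have hK2 : s * n - 1 < K := by
    have h1 : θ ^ 2 * b / lam < K + 1 := by rw [hK]; exact Nat.lt_floor_add_one _
    have h2 : s * n ≤ θ ^ 2 * b / lam := by
      rw [le_div_iff₀ hlam0]
      have : s * n * lam ≤ s * n * n := mul_le_mul_of_nonneg_left hlamn (by positivity)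
      have h4 : s * (n : ℝ) ^ 2 = (s * n) * n := by ring
      linarith
    linarith
  have hK3 : (3 : ℝ) < K := by linarith
  have hK3' : 4 ≤ K := by
    have : 3 < K := by exact_mod_cast hK3
    omega
  have hKup := hlin K (by omega) hK1
  have hKup2 : ((it T K).card : ℝ) ≤ 1 + (1 + δ / 8) * K * rho := by
    have : (it T K).card ≤ ((it T K).card - 1) + 1 := by omega
    have h2 : ((it T K).card : ℝ) ≤ (((it T K).card - 1 : ℕ) : ℝ) + 1 := by exact_mod_cast this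
    linarith
  have hKrho : (K : ℝ) * rho ≤ 2 * (θ ^ 2 * b) :=
    sa_Krho d K rho lam _ hd0.le (Nat.cast_nonneg _) hrho0.le hlam hK1
  have hp12 : (12 : ℝ) ≤ p := by
    have h1 : (8 : ℝ) ^ 2 ≤ (n : ℝ) ^ 2 := pow_le_pow_left₀ (by norm_num) hn8 2
    norm_num at h1
    linarith
  have hhalf : 2 * (it T K).card ≤ Fintype.card (ZMod p) := by
    rw [ZMod.card]
    have h1 : 2 * ((it T K).card : ℝ) ≤ p := by
      apply sa_half δ θ b p (K * rho) _ hδ0 hδ8 hθ0 hθ64 hp12 hbp (by positivity) hKrho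
      rw [← mul_assoc]; exact hKup2
    exact_mod_cast h1
  have hnotuniv : it T (K / 2) ≠ univ := by
    intro hu
    have h1 := Finset.card_le_card (it_mono T hT0 (show K / 2 ≤ K by omega))
    rw [hu, Finset.card_univ] at h1
    have h2 : 0 < Fintype.card (ZMod p) := Fintype.card_pos
    omega
  have hlow : 1 + (K / 2 : ℕ) * τ ≤ (it T (K / 2)).card := by
    rcases it_card T τ (fun A' hA' hne => by
      rw [hτ]; exact cd_kappa p hp T ⟨0, hT0⟩ A' hA' hne) hT0 (K / 2) with h | h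
    · exact absurd h hnotuniv
    · exact h
  have hratio : ((it T K).card : ℝ) ≤ 5 * (it T (K / 2)).card := by
    have h1 : (1 : ℝ) + ((K / 2 : ℕ) : ℝ) * τ ≤ (it T (K / 2)).card := by exact_mod_cast hlow
    have h2 : (3 : ℝ) * K ≤ 8 * ((K / 2 : ℕ) : ℝ) := by
      have : 3 * K ≤ 8 * (K / 2) := by omega
      exact_mod_cast this
    exact sa_ratio δ K ((K / 2 : ℕ) : ℝ) rho τ _ _ hδ0 hδ8 (Nat.cast_nonneg _)
      (Nat.cast_nonneg _) hrho0.le hτrho h2 hKup2 h1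
  obtain ⟨ψ, hψ0, hψ⟩ := exists_char T hT0 hTneg K (by omega) hhalf 5 hratio
  obtain ⟨c, hc0, hc⟩ := char_zmod p ψ hψ0
  obtain ⟨D, hD⟩ : ∃ D : ℝ, D = 40 * T.card / (K : ℝ) ^ 2 := ⟨_, rfl⟩
  have hDt : ∀ t ∈ T, 16 * (((c * t).valMinAbs : ℤ) : ℝ) ^ 2 ≤ D * (p : ℝ) ^ 2 := by
    intro t ht
    apply char_small p hp.pos
    · have h1 := ZMod.valMinAbs_mem_Ioc (c * t)
      rw [abs_le]
      constructor
      · have := h1.1; omega
      · have := h1.2; omega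
    · rw [← hc t]
      have h2 : ‖1 - ψ t‖ ^ 2 ≤ ∑ t ∈ T, ‖1 - ψ t‖ ^ 2 :=
        Finset.single_le_sum (f := fun t => ‖1 - ψ t‖ ^ 2) (fun _ _ => by positivity) ht
      refine h2.trans (hψ.trans (le_of_eq ?_))
      rw [hD]; ring
  have hDJ : D * (J : ℝ) ^ 2 ≤ 1 := by
    apply struct_arith n s J K D hs0 hn0 (by linarith) hnJ2
    rw [hD]
    apply div_le_div_of_nonneg_right _ (by positivity)
    have h1 : (T.card : ℝ) ≤ 2 * R.card + 1 := by exact_mod_cast hTcard2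
    linarith
  obtain ⟨b', h, hb'0, hb'1, hb'2⟩ := dilate p hp T hTneg hT0 (by
    have : 0 < R.card := by
      have : (0 : ℝ) < R.card := by linarith
      exact_mod_cast this
    obtain ⟨r, hr⟩ := Finset.card_pos.1 this
    refine ⟨r, by rw [hT]; exact subset_sym R hr, ?_⟩
    rintro rfl
    exact hR0 hr) c hc0 δ D hδ0 (by linarith) J hJ1 hDt hDJ hTJ
  refine ⟨b', R, h, hb'0, hRA, ?_, ?_, ?_⟩
  · have h1 : 2 * d ≤ ε := by rw [hd, hθ, hδ]; linarith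
    have h2 : (1 - ε) * (n : ℝ) ≤ (1 - 2 * d) * n :=
      mul_le_mul_of_nonneg_right (by linarith) hn0.le
    linarith
  · have h3 : (T.card : ℝ) - 1 = τ := by rw [hτT]; push_cast; ring
    rw [h3] at hb'2
    exact sa_final ε δ τ rho n h hδ hε hε1 hτup hrhon hn0 hb'2
  · intro a ha
    exact hb'1 a (by rw [hT]; exact subset_sym R ha)

end Pool.Agent.Helper398
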