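import Mathlib
import Pool.Agent.Helper398.Struct
import Pool.Agent.Helper398.Final

set_option autoImplicit false
set_option linter.unusedSectionVars false

open Finset
open scoped Pointwise

namespace Pool.Agent.Helper398

theorem floor_facts (p m : ℕ) (hp : 2 ≤ p) (hm : m = ⌊2 * Real.sqrt ((p : ℝ) - 2)⌋₊) :
    (m : ℝ) ^ 2 ≤ 4 * ((p : ℝ) - 2) ∧ 4 * ((p : ℝ) - 2) < ((m : ℝ) + 1) ^ 2 := by
  have hp2 : (0 : ℝ) ≤ (p : ℝ) - 2 := by
    have : (2 : ℝ) ≤ p := by exact_mod_cast hp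
    linarith
  obtain ⟨x, hx⟩ : ∃ x, x = Real.sqrt ((p : ℝ) - 2) := ⟨_, rfl⟩
  have hx0 : 0 ≤ x := by rw [hx]; exact Real.sqrt_nonneg _
  have hxx : x ^ 2 = (p : ℝ) - 2 := by rw [hx]; exact Real.sq_sqrt hp2
  rw [← hx] at hm
  have h1 : (m : ℝ) ≤ 2 * x := by rw [hm]; exact Nat.floor_le (by positivity)
  have h2 : 2 * x < m + 1 := by rw [hm]; exact Nat.lt_floor_add_one _
  have hm0 : (0 : ℝ) ≤ m := Nat.cast_nonneg _
  constructor <;> nlinarith

theorem p_large (p m K : ℕ) (h : 4 * ((p : ℝ) - 2) < ((m : ℝ) + 1) ^ 2) (hK : K ^ 2 + 2 < p) :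
    K ≤ m := by
  by_contra hcon
  push Not at hcon
  have h1 : (m : ℝ) + 1 ≤ K := by exact_mod_cast hcon
  have h2 : ((K ^ 2 + 2 : ℕ) : ℝ) < p := by exact_mod_cast hK
  push_cast at h2
  have h3 : ((m : ℝ) + 1) ^ 2 ≤ (K : ℝ) ^ 2 := pow_le_pow_left₀ (by positivity) h1 2
  have h4 : (0 : ℝ) ≤ (K : ℝ) ^ 2 := by positivity
  linarith

/-- (S) -/
theorem structure_S (eps : ℝ) (heps : 0 < eps) : ∃ p0 : ℕ, ∀ p : ℕ, p.Prime → p0 < p →
    ∀ A : Finset (ZMod p), A.card = ⌊2 * Real.sqrt ((p : ℝ) - 2)⌋₊ →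
    (∃ x : ZMod p, ∀ B : Finset (ZMod p), B ⊆ A → B.sum id ≠ x) →
    ∃ (b : ZMod p) (R : Finset (ZMod p)) (L : ℕ), b ≠ 0 ∧ R ⊆ A ∧ (0 : ZMod p) ∉ R ∧
      (1 - eps) * A.card ≤ R.card ∧ 2 * (L : ℝ) ≤ (1 + eps) * A.card ∧
      ∀ a ∈ R, |(b * a).valMinAbs| ≤ (L : ℤ) := by
  obtain ⟨e, he⟩ : ∃ e : ℝ, e = min (eps / 2) (1 / 2) := ⟨_, rfl⟩
  have he0 : 0 < e := by rw [he]; exact lt_min (by positivity) (by norm_num)
  have he1 : e ≤ 1 / 2 := by rw [he]; exact min_le_right _ _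
  have he2 : e ≤ eps / 2 := by rw [he]; exact min_le_left _ _
  obtain ⟨ξ, hξ, M, hM⟩ := struct_prime e he0 he1
  obtain ⟨K, hK⟩ : ∃ K : ℕ, K = ⌈(M : ℝ) + 2 / eps + 100 / ξ + 100⌉₊ := ⟨_, rfl⟩
  refine ⟨K ^ 2 + 2, ?_⟩
  intro p hp hpK A hA hx
  obtain ⟨m, hm⟩ : ∃ m, m = A.card := ⟨_, rfl⟩
  obtain ⟨f1, f2⟩ := floor_facts p m hp.two_le (by rw [hm]; exact hA)
  have hKm := p_large p m K f2 hpK
  have hKr : (M : ℝ) + 2 / eps + 100 / ξ + 100 ≤ m := by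
    have h1 : (M : ℝ) + 2 / eps + 100 / ξ + 100 ≤ K := by rw [hK]; exact Nat.le_ceil _
    have h2 : (K : ℝ) ≤ m := by exact_mod_cast hKm
    linarith
  have q1 : 0 < 2 / eps := by positivity
  have q2 : 0 < 100 / ξ := by positivity
  have q3 : (0 : ℝ) ≤ M := Nat.cast_nonneg _
  have hm100 : (100 : ℝ) ≤ m := by linarith
  have hmeps : 2 ≤ eps * m := by
    have : 2 / eps ≤ m := by linarith
    rw [div_le_iff₀ heps] at this
    linarith
  obtain ⟨n, hn⟩ : ∃ n, n = (A.erase 0).card := ⟨_, rfl⟩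
  have hnm : m ≤ n + 1 := by
    rw [hn, hm]
    have := Finset.pred_card_le_card_erase (s := A) (a := (0 : ZMod p))
    omega
  have hnm2 : n ≤ m := by
    rw [hn, hm]; exact Finset.card_le_card (Finset.erase_subset _ _)
  have hnmr : (m : ℝ) ≤ n + 1 := by exact_mod_cast hnm
  have hnmr2 : (n : ℝ) ≤ m := by exact_mod_cast hnm2
  have hnξ : 90 / ξ ≤ n := by
    have : 90 / ξ ≤ 100 / ξ := div_le_div_of_nonneg_right (by norm_num) hξ.le
    linarith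
  rw [div_le_iff₀ hξ] at hnξ
  have hMn : M ≤ n := by
    have : (M : ℝ) ≤ n := by linarith
    exact_mod_cast this
  obtain ⟨b, R, h, hb, hR, h1, h2, h3⟩ := hM p hp (A.erase 0) (Finset.notMem_erase _ _) (by
    obtain ⟨x, hx⟩ := hx
    refine ⟨x, ?_⟩
    intro hmem
    rw [Finset.mem_subsetSum_iff] at hmem
    obtain ⟨B, hB, hBx⟩ := hmem
    exact hx B (hB.trans (Finset.erase_subset _ _)) (by simpa using hBx)) (by rw [← hn]; exact hMn)
    (by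
      rw [← hn]
      have hn90 : (90 : ℝ) ≤ n := by linarith
      have h4 : 4 * ((p : ℝ) - 2) < ((n : ℝ) + 2) ^ 2 := by
        refine lt_of_lt_of_le f2 ?_
        exact pow_le_pow_left₀ (by positivity) (by linarith) 2
      have h5 : 90 * (n : ℝ) ≤ n * ξ * n := mul_le_mul_of_nonneg_right hnξ (by positivity)
      nlinarith)
  rw [← hn] at h1 h2
  rw [← hm]
  refine ⟨b, R, h, hb, hR.trans (Finset.erase_subset _ _), fun h0 => Finset.notMem_erase _ _ (hR h0),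
    ?_, ?_, h3⟩
  · have h4 : (1 - e) * ((m : ℝ) - 1) ≤ (1 - e) * n :=
      mul_le_mul_of_nonneg_left (by linarith) (by linarith)
    have h5 : (eps / 2) * (m : ℝ) ≤ (eps - e) * m :=
      mul_le_mul_of_nonneg_right (by linarith) (by positivity)
    nlinarith
  · have h4 : (1 + e) * (n : ℝ) ≤ (1 + e) * m := mul_le_mul_of_nonneg_left hnmr2 (by linarith)
    have h5 : (1 + e) * (m : ℝ) ≤ (1 + eps) * m :=
      mul_le_mul_of_nonneg_right (by linarith) (by positivity)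
    linarith

/-- (Z) -/
theorem zero_Z : ∃ p0 : ℕ, ∀ p : ℕ, p.Prime → p0 < p → ∀ A : Finset (ZMod p),
    A.card = ⌊2 * Real.sqrt ((p : ℝ) - 2)⌋₊ →
    ∃ B : Finset (ZMod p), B ⊆ A ∧ B.Nonempty ∧ B.sum id = 0 := by
  obtain ⟨M, hM⟩ := lower (1 / 3) (by norm_num)
  refine ⟨(M + 100) ^ 2 + 2, ?_⟩
  intro p hp hpK A hA
  have : NeZero p := ⟨hp.ne_zero⟩
  obtain ⟨m, hm⟩ : ∃ m, m = A.card := ⟨_, rfl⟩
  obtain ⟨f1, f2⟩ := floor_facts p m hp.two_le (by rw [hm]; exact hA)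
  have hKm := p_large p m (M + 100) f2 hpK
  by_contra hcon
  push Not at hcon
  have hZ : ZSF A := fun B hB hne h => hcon B hB hne (by simpa using h)
  have h1 := hM (ZMod p) A (by omega) hZ
  rw [← hm] at h1
  have h2 : (A.subsetSum.card : ℝ) ≤ p := by
    have := Finset.card_le_univ A.subsetSum
    rw [ZMod.card] at this
    exact_mod_cast this
  have h3 : (100 : ℝ) ≤ m := by
    have : 100 ≤ m := by omega
    exact_mod_cast this
  nlinarith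

end Pool.Agent.Helper398
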