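import Mathlib

set_option autoImplicit false

/-! Poles (graphs with three dangling edges), even vectors, weights, and the substitution of
nine poles into the Petersen graph. -/

namespace Pool.Agent.Helper398.SccA

open Finset

/-- A finite multigraph with three dangling edges. -/
structure Pole where
  V : Type
  E : Type
  fV : Fintype V
  dV : DecidableEq V
  fE : Fintype E
  src : E → V
  tgt : E → V
  t : Fin 3 → V

attribute [instance] Pole.fV Pole.dV Pole.fE

/-- Even edge sets of the closed graph (dangling edges joined to one root vertex), tested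
against all functions on the vertices. -/
def IsEven (A : Pole) (c : A.E → ZMod 2) (r : Fin 3 → ZMod 2) : Prop :=
  ∀ f : A.V → ZMod 2, ∑ e, c e * (f (A.src e) + f (A.tgt e)) + ∑ j, r j * f (A.t j) = 0

/-- Number of indices with nonzero entry. -/
def wt {ι : Type} [Fintype ι] (x : ι → ZMod 2) : ℕ := ∑ a, if x a = 0 then 0 else 1

lemma zmod2_cases (x : ZMod 2) : x = 0 ∨ x = 1 := by revert x; decide

lemma root_sum {A : Pole} {c : A.E → ZMod 2} {r : Fin 3 → ZMod 2} (h : IsEven A c r) :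
    r 0 + r 1 + r 2 = 0 := by
  have h1 := h (fun _ => 1)
  have h2 : (1 : ZMod 2) + 1 = 0 := by decide
  simp only [h2, mul_zero, Finset.sum_const_zero, zero_add, mul_one] at h1
  rw [Fin.sum_univ_three] at h1
  exact h1

section triple
variable {ι : Type} [Fintype ι]

lemma triple (x y z : ι → ZMod 2) (h : ∀ a, x a + y a + z a = 0) :
    wt y + wt z = wt x + 2 * ∑ a, (if x a = 0 ∧ y a ≠ 0 then 1 else 0) := by
  unfold wt
  rw [Finset.mul_sum, ← Finset.sum_add_distrib, ← Finset.sum_add_distrib]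
  apply Finset.sum_congr rfl
  intro a _
  have := h a
  generalize x a = p at *
  generalize y a = q at *
  generalize z a = s at *
  revert this
  revert p q s
  decide

lemma triple_le (x y z : ι → ZMod 2) (h : ∀ a, x a + y a + z a = 0) : wt x ≤ wt y + wt z := by
  have := triple x y z h
  omega

lemma triple_even (x y z : ι → ZMod 2) (h : ∀ a, x a + y a + z a = 0) :
    (wt x + wt y + wt z) % 2 = 0 := by
  have := triple x y z h
  omega

lemma triple_tight (x y z : ι → ZMod 2) (h : ∀ a, x a + y a + z a = 0)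
    (ht : wt x = wt y + wt z) (a : ι) : ¬ (x a = 0 ∧ y a ≠ 0) := by
  have h1 := triple x y z h
  have h2 : ∑ a, (if x a = 0 ∧ y a ≠ 0 then 1 else 0) = 0 := by omega
  rw [Finset.sum_eq_zero_iff] at h2
  have h3 := h2 a (mem_univ a)
  intro h4
  rw [if_pos h4] at h3
  exact one_ne_zero h3

end triple

/-- Twice the total weight of the internal edges plus the weight of the dangling edges. -/
def cost (A : Pole) {ι : Type} [Fintype ι] (c : ι → A.E → ZMod 2) (r : ι → Fin 3 → ZMod 2) : ℕ :=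
  2 * ∑ e, wt (fun a => c a e) + ∑ j, wt (fun a => r a j)

/-! ### The Petersen graph with one root vertex removed -/

def s1 : Fin 12 → Fin 9 × Fin 3 :=
  ![(0, 2), (1, 1), (2, 2), (0, 1), (1, 0), (2, 0), (3, 0), (4, 1), (5, 1), (6, 2), (7, 2), (8, 2)]
def s2 : Fin 12 → Fin 9 × Fin 3 :=
  ![(1, 2), (2, 1), (3, 1), (5, 0), (6, 0), (7, 0), (8, 0), (6, 1), (7, 1), (8, 1), (4, 2), (5, 2)]
def rt : Fin 3 → Fin 9 × Fin 3 := ![(0, 0), (4, 0), (3, 2)]

open Sum in
def eta : Fin 9 → Fin 3 → Fin 12 ⊕ Fin 3 :=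
  ![![inr 0, inl 3, inl 0], ![inl 4, inl 1, inl 0], ![inl 5, inl 1, inl 2],
    ![inl 6, inl 2, inr 2], ![inr 1, inl 7, inl 10], ![inl 3, inl 8, inl 11],
    ![inl 4, inl 7, inl 9], ![inl 5, inl 8, inl 10], ![inl 6, inl 9, inl 11]]

lemma host_sum {R : Type} [CommSemiring R] (h : Fin 12 ⊕ Fin 3 → R) (F : Fin 9 × Fin 3 → R) :
    ∑ k, h (Sum.inl k) * (F (s1 k) + F (s2 k)) + ∑ j, h (Sum.inr j) * F (rt j)
      = ∑ i, ∑ j, h (eta i j) * F (i, j) := by
  simp only [Fin.sum_univ_succ, Fin.sum_univ_zero, s1, s2, rt, eta]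
  simp
  ring

/-- Substitution of nine poles for the nine non-root vertices of the Petersen graph. -/
def Sub (A : Fin 9 → Pole) : Pole where
  V := Σ i, (A i).V
  E := Fin 12 ⊕ Σ i, (A i).E
  fV := inferInstance
  dV := inferInstance
  fE := inferInstance
  src := Sum.elim (fun k => ⟨(s1 k).1, (A (s1 k).1).t (s1 k).2⟩)
    (fun p => ⟨p.1, (A p.1).src p.2⟩)
  tgt := Sum.elim (fun k => ⟨(s2 k).1, (A (s2 k).1).t (s2 k).2⟩)
    (fun p => ⟨p.1, (A p.1).tgt p.2⟩)
  t := fun j => ⟨(rt j).1, (A (rt j).1).t (rt j).2⟩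

/-- The host vector. -/
def hv {A : Fin 9 → Pole} (c : (Sub A).E → ZMod 2) (r : Fin 3 → ZMod 2) :
    Fin 12 ⊕ Fin 3 → ZMod 2 := Sum.elim (fun k => c (Sum.inl k)) r

lemma sub_identity (A : Fin 9 → Pole) (c : (Sub A).E → ZMod 2) (r : Fin 3 → ZMod 2)
    (f : (Sub A).V → ZMod 2) :
    ∑ e, c e * (f ((Sub A).src e) + f ((Sub A).tgt e)) + ∑ j, r j * f ((Sub A).t j)
      = ∑ i, (∑ e, c (Sum.inr ⟨i, e⟩) * (f ⟨i, (A i).src e⟩ + f ⟨i, (A i).tgt e⟩)
          + ∑ j, hv c r (eta i j) * f ⟨i, (A i).t j⟩) := by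
  have h1 := host_sum (hv c r) (fun p => f ⟨p.1, (A p.1).t p.2⟩)
  rw [Finset.sum_add_distrib]
  have h2 : ∑ e, c e * (f ((Sub A).src e) + f ((Sub A).tgt e))
      = ∑ k : Fin 12, c (Sum.inl k) * (f ((Sub A).src (Sum.inl k)) + f ((Sub A).tgt (Sum.inl k)))
        + ∑ i, ∑ e : (A i).E, c (Sum.inr ⟨i, e⟩) *
          (f ⟨i, (A i).src e⟩ + f ⟨i, (A i).tgt e⟩) := by
    have h3 : ∀ g : (Fin 12 ⊕ Σ i, (A i).E) → ZMod 2,
        ∑ x, g x = ∑ k : Fin 12, g (Sum.inl k) + ∑ i, ∑ e : (A i).E, g (Sum.inr ⟨i, e⟩) := by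
      intro g
      rw [Fintype.sum_sum_type, Fintype.sum_sigma]
    exact h3 _
  rw [h2]
  have h4 : ∑ k : Fin 12, c (Sum.inl k) * (f ((Sub A).src (Sum.inl k)) + f ((Sub A).tgt (Sum.inl k)))
      + ∑ j, r j * f ((Sub A).t j) = ∑ i, ∑ j, hv c r (eta i j) * f ⟨i, (A i).t j⟩ := h1
  rw [← h4]
  ring

lemma even_sub (A : Fin 9 → Pole) (c : (Sub A).E → ZMod 2) (r : Fin 3 → ZMod 2) :
    IsEven (Sub A) c r ↔ ∀ i, IsEven (A i) (fun e => c (Sum.inr ⟨i, e⟩))
      (fun j => hv c r (eta i j)) := by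
  constructor
  · intro h i g
    have h0 := h (fun p => (Function.update (fun i' (_ : (A i').V) => (0 : ZMod 2)) i g) p.1 p.2)
    have h1 := (sub_identity A c r
      (fun p => (Function.update (fun i' (_ : (A i').V) => (0 : ZMod 2)) i g) p.1 p.2)).symm.trans h0
    rw [Finset.sum_eq_single i] at h1
    · simpa using h1
    · intro b _ hb
      have : (Function.update (fun i' (_ : (A i').V) => (0 : ZMod 2)) i g) b = fun _ => 0 :=
        Function.update_of_ne hb _ _
      simp only [this]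
      simp
    · simp
  · intro h f
    rw [sub_identity]
    apply Finset.sum_eq_zero
    intro i _
    exact h i (fun x => f ⟨i, x⟩)

/-- The cost is additive. -/
lemma cost_sub (A : Fin 9 → Pole) {ι : Type} [Fintype ι] (c : ι → (Sub A).E → ZMod 2)
    (r : ι → Fin 3 → ZMod 2) :
    cost (Sub A) c r = ∑ i, cost (A i) (fun a e => c a (Sum.inr ⟨i, e⟩))
      (fun a j => hv (c a) (r a) (eta i j)) := by
  unfold cost
  rw [Finset.sum_add_distrib, ← Finset.mul_sum]
  have h1 := host_sum (fun k => wt (fun a => hv (c a) (r a) k)) (fun _ => 1)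
  have h2 : ∑ e : (Sub A).E, wt (fun a => c a e) = ∑ k : Fin 12, wt (fun a => c a (Sum.inl k))
      + ∑ i, ∑ e : (A i).E, wt (fun a => c a (Sum.inr ⟨i, e⟩)) := by
    have h3 : ∀ g : (Fin 12 ⊕ Σ i, (A i).E) → ℕ,
        ∑ x, g x = ∑ k : Fin 12, g (Sum.inl k) + ∑ i, ∑ e : (A i).E, g (Sum.inr ⟨i, e⟩) := by
      intro g
      rw [Fintype.sum_sum_type, Fintype.sum_sigma]
    exact h3 _
  rw [h2]
  simp only [mul_one] at h1
  rw [← h1]
  simp only [hv, Sum.elim_inl, Sum.elim_inr]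
  rw [← Finset.sum_mul]
  ring

end Pool.Agent.Helper398.SccA
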