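import Pool.Agent.Helper398.SccA

set_option autoImplicit false

/-! The lower bound. -/

namespace Pool.Agent.Helper398.SccB

open Finset Pool.Agent.Helper398.SccA

/-- The one-vertex pole. -/
def triv : Pole where
  V := Unit
  E := Empty
  fV := inferInstance
  dV := inferInstance
  fE := inferInstance
  src := fun _ => ()
  tgt := fun _ => ()
  t := fun _ => ()

/-- `K5` minus two adjacent edges. -/
def G2 : Pole where
  V := Fin 5
  E := Fin 8
  fV := inferInstance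
  dV := inferInstance
  fE := inferInstance
  src := ![3, 3, 3, 3, 4, 4, 4, 1]
  tgt := ![0, 1, 2, 4, 0, 1, 2, 2]
  t := ![0, 1, 2]

/-- A covering family. -/
structure IsCov (A : Pole) {ι : Type} [Fintype ι] (c : ι → A.E → ZMod 2)
    (r : ι → Fin 3 → ZMod 2) : Prop where
  even : ∀ a, IsEven A (c a) (r a)
  posE : ∀ e, 1 ≤ wt (fun a => c a e)
  posR : ∀ j, 1 ≤ wt (fun a => r a j)

lemma IsCov.sub {A : Fin 9 → Pole} {ι : Type} [Fintype ι] {c : ι → (Sub A).E → ZMod 2}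
    {r : ι → Fin 3 → ZMod 2} (h : IsCov (Sub A) c r) (i : Fin 9) :
    IsCov (A i) (fun a e => c a (Sum.inr ⟨i, e⟩)) (fun a j => hv (c a) (r a) (eta i j)) where
  even := fun a => (even_sub A (c a) (r a)).1 (h.even a) i
  posE := fun e => h.posE (Sum.inr ⟨i, e⟩)
  posR := fun j => by
    rcases eta i j with k | k
    · exact h.posE (Sum.inl k)
    · exact h.posR k

/-- Lower bound statement for a pole. -/
def LB (A : Pole) (D B ρ : ℕ) : Prop :=
  ∀ (ι : Type) [Fintype ι] (c : ι → A.E → ZMod 2) (r : ι → Fin 3 → ZMod 2), IsCov A c r →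
    B ≤ cost A c r ∧
    (cost A c r ≤ B + 1 → wt (fun a => r a 0) = D ∧ wt (fun a => r a 1) + 1 = D ∧
      wt (fun a => r a 2) = 1) ∧
    (3 ≤ D → wt (fun a => r a 0) < D → B + ρ ≤ cost A c r)

lemma quad_even {ι : Type} [Fintype ι] (x y z u : ι → ZMod 2)
    (h : ∀ a, x a + y a + z a + u a = 0) : (wt x + wt y + wt z + wt u) % 2 = 0 := by
  have h1 : wt x + wt y + wt z + wt u = ∑ a, ((if x a = 0 then 0 else 1) +
      (if y a = 0 then 0 else 1) + (if z a = 0 then 0 else 1) + (if u a = 0 then 0 else 1)) := by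
    unfold wt
    rw [Finset.sum_add_distrib, Finset.sum_add_distrib, Finset.sum_add_distrib]
  rw [h1]
  apply Nat.mod_eq_zero_of_dvd
  apply Finset.dvd_sum
  intro a _
  have := h a
  generalize x a = p at *
  generalize y a = q at *
  generalize z a = s at *
  generalize u a = t at *
  revert this
  revert p q s t
  decide

lemma lb_G2 : LB G2 2 20 0 := by
  intro ι _ c r h
  have hs : ∀ v : Fin 5, ∀ a, ∑ e : Fin 8, c a e * ((if (![3, 3, 3, 3, 4, 4, 4, 1] : Fin 8 → Fin 5) e = v then 1 else 0)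
      + (if (![0, 1, 2, 4, 0, 1, 2, 2] : Fin 8 → Fin 5) e = v then 1 else 0))
      + ∑ j : Fin 3, r a j * (if (![0, 1, 2] : Fin 3 → Fin 5) j = v then 1 else 0) = 0 := by
    intro v a
    exact h.even a (fun x : Fin 5 => if x = v then 1 else 0)
  have q0 := triple_even (fun a => c a (0 : Fin 8)) (fun a => c a (4 : Fin 8)) (fun a => r a 0)
    (fun a => by
      have := hs 0 a
      simp [Fin.sum_univ_succ] at this
      linear_combination this)
  have p0 := h.posE (0 : Fin 8)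
  have p1 := h.posE (1 : Fin 8)
  have p2 := h.posE (2 : Fin 8)
  have p3 := h.posE (3 : Fin 8)
  have p4 := h.posE (4 : Fin 8)
  have p5 := h.posE (5 : Fin 8)
  have p6 := h.posE (6 : Fin 8)
  have p7 := h.posE (7 : Fin 8)
  have r0 := h.posR 0
  have r1 := h.posR 1
  have r2 := h.posR 2
  have rr := triple_even (fun a => r a 0) (fun a => r a 1) (fun a => r a 2)
    (fun a => root_sum (h.even a))
  have hc : cost G2 c r = 2 * (wt (fun a => c a (0 : Fin 8)) + wt (fun a => c a (1 : Fin 8))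
      + wt (fun a => c a (2 : Fin 8)) + wt (fun a => c a (3 : Fin 8)) + wt (fun a => c a (4 : Fin 8))
      + wt (fun a => c a (5 : Fin 8)) + wt (fun a => c a (6 : Fin 8)) + wt (fun a => c a (7 : Fin 8)))
      + (wt (fun a => r a 0) + wt (fun a => r a 1) + wt (fun a => r a 2)) := by
    unfold cost
    rw [Fin.sum_univ_three]
    congr 2
    have : ∀ g : Fin 8 → ℕ, ∑ e, g e = g 0 + g 1 + g 2 + g 3 + g 4 + g 5 + g 6 + g 7 := by
      intro g
      rw [Fin.sum_univ_eight]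
    exact this (fun e => wt (fun a => c a e))
  refine ⟨by omega, fun hle => ?_, by omega⟩
  omega

set_option synthInstance.maxSize 100000 in
set_option maxRecDepth 100000 in
lemma alt : ∀ (a0 a1 a2 a3 a4 b0 b1 b2 b3 b4 : ZMod 2), a4 + a0 = b0 + b3 → a0 + a1 = b1 + b4 →
    a1 + a2 = b2 + b0 → a2 + a3 = b3 + b1 → a3 + a4 = b4 + b2 →
    ¬ (a4 + a0 = 0 ∧ a0 ≠ 0) → ¬ (a0 + a1 = 0 ∧ a0 ≠ 0) → ¬ (a1 + a2 = 0 ∧ a2 ≠ 0) →
    ¬ (a2 + a3 = 0 ∧ a2 ≠ 0) → ¬ (a3 + a4 = 0 ∧ a3 ≠ 0) →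
    ¬ (a4 + a0 = 0 ∧ b0 ≠ 0) → ¬ (a0 + a1 = 0 ∧ b1 ≠ 0) → ¬ (a1 + a2 = 0 ∧ b0 ≠ 0) →
    ¬ (a2 + a3 = 0 ∧ b1 ≠ 0) → ¬ (a3 + a4 = 0 ∧ b2 ≠ 0) → a3 + b2 + b3 = 0 := by
  decide +kernel

open Sum in
lemma alt15 (x : Fin 12 ⊕ Fin 3 → ZMod 2) (h0 : x (inr 0) + x (inr 1) + x (inr 2) = 0)
    (h : ∀ i, x (eta i 0) + x (eta i 1) + x (eta i 2) = 0)
    (t0 : ¬ (x (inr 1) = 0 ∧ x (inr 0) ≠ 0))
    (t1 : ¬ (x (eta 0 1) = 0 ∧ x (eta 0 0) ≠ 0))
    (t : ∀ i, i ≠ 0 → ¬ (x (eta i 0) = 0 ∧ x (eta i 1) ≠ 0)) :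
    x (inl 2) + x (inl 9) + x (inl 10) = 0 := by
  have e1 : ∀ p q s : ZMod 2, p + q + s = 0 → p = q + s := by decide
  have e2 : ∀ p q s : ZMod 2, p + q + s = 0 → q = s + p := by decide
  have e3 : ∀ p q s : ZMod 2, p + q + s = 0 → q = p + s := by decide
  have m0 : x (inr 1) = x (inr 2) + x (inr 0) := e2 _ _ _ h0
  have m0' : x (inr 1) = x (inl 7) + x (inl 10) := e1 _ _ _ (h 4)
  have m1 : x (inl 3) = x (inr 0) + x (inl 0) := e3 _ _ _ (h 0)
  have m1' : x (inl 3) = x (inl 8) + x (inl 11) := e1 _ _ _ (h 5)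
  have m2 : x (inl 4) = x (inl 1) + x (inl 0) := e1 _ _ _ (h 1)
  have m2' : x (inl 4) = x (inl 7) + x (inl 9) := e1 _ _ _ (h 6)
  have m3 : x (inl 5) = x (inl 1) + x (inl 2) := e1 _ _ _ (h 2)
  have m3' : x (inl 5) = x (inl 8) + x (inl 10) := e1 _ _ _ (h 7)
  have m4 : x (inl 6) = x (inl 2) + x (inr 2) := e1 _ _ _ (h 3)
  have m4' : x (inl 6) = x (inl 9) + x (inl 11) := e1 _ _ _ (h 8)
  have m2'' : x (inl 4) = x (inl 0) + x (inl 1) := by rw [m2, add_comm]
  refine alt (x (inr 0)) (x (inl 0)) (x (inl 1)) (x (inl 2)) (x (inr 2))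
    (x (inl 7)) (x (inl 8)) (x (inl 9)) (x (inl 10)) (x (inl 11)) ?_ ?_ ?_ ?_ ?_ ?_ ?_ ?_ ?_ ?_
    ?_ ?_ ?_ ?_ ?_
  · rw [← m0, m0']
  · rw [← m1, m1']
  · rw [← m2'', m2', add_comm]
  · rw [← m3, m3', add_comm]
  · rw [← m4, m4', add_comm]
  · rw [← m0]; exact t0
  · rw [← m1]; exact t1
  · rw [← m2'']; exact t 1 (by decide)
  · rw [← m3]; exact t 2 (by decide)
  · rw [← m4]; exact t 3 (by decide)
  · rw [← m0]; exact t 4 (by decide)
  · rw [← m1]; exact t 5 (by decide)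
  · rw [← m2'']; exact t 6 (by decide)
  · rw [← m3]; exact t 7 (by decide)
  · rw [← m4]; exact t 8 (by decide)

/-- The poles of one host: `X` at the end of the long edge, three plain vertices, four copies
of `G`, and one blob. -/
def hostPoles (X G : Pole) : Fin 9 → Pole := ![X, triv, triv, triv, G, G, G, G, G2]

def step (X G : Pole) : Pole := Sub (hostPoles X G)

def chain (G : Pole) : ℕ → Pole
  | 0 => triv
  | m + 1 => step (chain G m) G

lemma cost_triv {ι : Type} [Fintype ι] (c : ι → triv.E → ZMod 2) (r : ι → Fin 3 → ZMod 2) :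
    cost triv c r = wt (fun a => r a 0) + wt (fun a => r a 1) + wt (fun a => r a 2) := by
  unfold cost
  rw [Fin.sum_univ_three]
  have : ∑ e : triv.E, wt (fun a => c a e) = 0 := by
    apply Finset.sum_eq_zero
    intro e
    exact Empty.elim e
  rw [this]
  ring

open Sum in
lemma host_claim {X G : Pole} {D B ρ : ℕ} (hG : LB G D B ρ) (hD : 2 ≤ D)
    (hρ : 3 ≤ D → 4 * D + 6 ≤ ρ) {ι : Type} [Fintype ι] {c : ι → (step X G).E → ZMod 2}
    {r : ι → Fin 3 → ZMod 2} (h : IsCov (step X G) c r) :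
    ∃ hc : ℕ, cost (step X G) c r = cost X (fun a e => c a (inr ⟨0, e⟩))
        (fun a j => hv (A := hostPoles X G) (c a) (r a) (eta 0 j)) + hc ∧
      4 * B + 4 * D + 24 ≤ hc ∧
      (hc ≤ 4 * B + 4 * D + 25 → D + 1 ≤ wt (fun a => r a 0) ∧ wt (fun a => r a 1) = D ∧
        wt (fun a => r a 2) = 1) := by
  have hcost := cost_sub (hostPoles X G) c r
  have h9 : ∀ g : Fin 9 → ℕ, ∑ i, g i
      = g 0 + (g 1 + g 2 + g 3 + g 4 + g 5 + g 6 + g 7 + g 8) := by
    intro g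
    simp only [Fin.sum_univ_succ, Fin.sum_univ_zero]
    simp
    ring
  rw [h9] at hcost
  refine ⟨_, hcost, ?_⟩
  have hi := fun i => h.sub (A := hostPoles X G) i
  have hr := fun i a => root_sum ((hi i).even a)
  have hr0 := fun a => root_sum (h.even a)
  obtain ⟨g, hg⟩ : ∃ g : Fin 9 → ℕ, ∀ i, g i = cost (hostPoles X G i)
      (fun a e => c a (inr ⟨i, e⟩)) (fun a j => hv (A := hostPoles X G) (c a) (r a) (eta i j)) :=
    ⟨_, fun i => rfl⟩
  simp only [← hg]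
  obtain ⟨W, hW⟩ : ∃ W : Fin 12 ⊕ Fin 3 → ℕ, ∀ k, W k = wt (fun a =>
      hv (A := hostPoles X G) (c a) (r a) k) := ⟨_, fun k => rfl⟩
  have g1 : g 1 = W (inl 4) + W (inl 1) + W (inl 0) := by
    rw [hg, hW, hW, hW]
    exact cost_triv (fun a (e : Empty) => c a (Sum.inr ⟨1, e⟩)) _
  have g2 : g 2 = W (inl 5) + W (inl 1) + W (inl 2) := by
    rw [hg, hW, hW, hW]
    exact cost_triv (fun a (e : Empty) => c a (Sum.inr ⟨2, e⟩)) _
  have g3 : g 3 = W (inl 6) + W (inl 2) + W (inr 2) := by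
    rw [hg, hW, hW, hW]
    exact cost_triv (fun a (e : Empty) => c a (Sum.inr ⟨3, e⟩)) _
  have g4 : B ≤ g 4 ∧ (g 4 ≤ B + 1 → W (inr 1) = D ∧ W (inl 7) + 1 = D ∧ W (inl 10) = 1) ∧
      (3 ≤ D → W (inr 1) < D → B + ρ ≤ g 4) := by
    rw [hg, hW, hW, hW]
    exact hG ι _ _ (hi 4)
  have g5 : B ≤ g 5 ∧ (g 5 ≤ B + 1 → W (inl 3) = D ∧ W (inl 8) + 1 = D ∧ W (inl 11) = 1) ∧
      (3 ≤ D → W (inl 3) < D → B + ρ ≤ g 5) := by
    rw [hg, hW, hW, hW]
    exact hG ι _ _ (hi 5)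
  have g6 : B ≤ g 6 ∧ (g 6 ≤ B + 1 → W (inl 4) = D ∧ W (inl 7) + 1 = D ∧ W (inl 9) = 1) ∧
      (3 ≤ D → W (inl 4) < D → B + ρ ≤ g 6) := by
    rw [hg, hW, hW, hW]
    exact hG ι _ _ (hi 6)
  have g7 : B ≤ g 7 ∧ (g 7 ≤ B + 1 → W (inl 5) = D ∧ W (inl 8) + 1 = D ∧ W (inl 10) = 1) ∧
      (3 ≤ D → W (inl 5) < D → B + ρ ≤ g 7) := by
    rw [hg, hW, hW, hW]
    exact hG ι _ _ (hi 7)
  have g8 : 20 ≤ g 8 ∧ (g 8 ≤ 20 + 1 → W (inl 6) = 2 ∧ W (inl 9) + 1 = 2 ∧ W (inl 11) = 1) := by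
    rw [hg, hW, hW, hW]
    exact ⟨(lb_G2 ι _ _ (hi 8)).1, (lb_G2 ι _ _ (hi 8)).2.1⟩
  have w0 : W (inr 0) = wt (fun a => r a 0) := hW _
  have w1 : W (inr 1) = wt (fun a => r a 1) := hW _
  have w2 : W (inr 2) = wt (fun a => r a 2) := hW _
  rw [← w0, ← w1, ← w2]
  have pos : ∀ k, 1 ≤ W k := by
    intro k
    rw [hW]
    rcases k with k | k
    · exact h.posE (inl k)
    · exact h.posR k
  have pE := fun k => pos (inl k)
  have pR := fun k => pos (inr k)
  -- triangle inequalities and parities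
  have par0 : (W (inr 0) + W (inr 1) + W (inr 2)) % 2 = 0 := by
    rw [w0, w1, w2]
    exact triple_even _ _ _ hr0
  have par1 : (W (inl 4) + W (inl 1) + W (inl 0)) % 2 = 0 := by
    rw [hW, hW, hW]
    exact triple_even _ _ _ (hr 1)
  have par2 : (W (inl 5) + W (inl 1) + W (inl 2)) % 2 = 0 := by
    rw [hW, hW, hW]
    exact triple_even _ _ _ (hr 2)
  have par3 : (W (inl 6) + W (inl 2) + W (inr 2)) % 2 = 0 := by
    rw [hW, hW, hW]
    exact triple_even _ _ _ (hr 3)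
  have tri1 : W (inl 4) ≤ W (inl 1) + W (inl 0) := by
    rw [hW, hW, hW]
    exact triple_le _ _ _ (hr 1)
  have tri2 : W (inl 5) ≤ W (inl 1) + W (inl 2) := by
    rw [hW, hW, hW]
    exact triple_le _ _ _ (hr 2)
  have tri0 : W (inr 1) ≤ W (inr 0) + W (inr 2) := by
    rw [hW, hW, hW]
    exact triple_le _ _ _ (fun a => by
      have := hr0 a
      show r a 1 + r a 0 + r a 2 = 0
      linear_combination this)
  have p1 := pE 0
  have p2 := pE 1
  have p3 := pE 2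
  have p4 := pE 4
  have p5 := pE 5
  have p6 := pE 6
  have p7 := pR 2
  -- the parity obstruction
  have key : W (inr 1) = W (inr 0) + W (inr 2) → W (inl 3) = W (inr 0) + W (inl 0) →
      W (inl 4) = W (inl 1) + W (inl 0) → W (inl 5) = W (inl 1) + W (inl 2) →
      W (inl 6) = W (inl 2) + W (inr 2) → W (inr 1) = W (inl 7) + W (inl 10) →
      W (inl 3) = W (inl 8) + W (inl 11) → W (inl 4) = W (inl 7) + W (inl 9) →
      W (inl 5) = W (inl 8) + W (inl 10) → W (inl 6) = W (inl 9) + W (inl 11) →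
      (W (inl 2) + W (inl 9) + W (inl 10)) % 2 = 0 := by
    intro k0 k1 k2 k3 k4 k5 k6 k7 k8 k9
    rw [hW, hW, hW]
    apply triple_even
    intro a
    apply alt15 (fun k => hv (A := hostPoles X G) (c a) (r a) k) (hr0 a) (fun i => hr i a)
    · rw [hW, hW, hW] at k0
      exact triple_tight _ _ _ (fun a => by
        have := hr0 a
        show r a 1 + r a 0 + r a 2 = 0
        linear_combination this) k0 a
    · rw [hW, hW, hW] at k1
      exact triple_tight _ _ _ (fun a => by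
        have := hr 0 a
        have e : ∀ p q s : ZMod 2, p + q + s = 0 → q + p + s = 0 := by decide
        exact e _ _ _ this) k1 a
    · intro i hi0
      rw [hW, hW, hW] at k2 k3 k4 k5 k6 k7 k8 k9
      have : i = 1 ∨ i = 2 ∨ i = 3 ∨ i = 4 ∨ i = 5 ∨ i = 6 ∨ i = 7 ∨ i = 8 := by
        revert hi0; revert i; decide
      rcases this with rfl | rfl | rfl | rfl | rfl | rfl | rfl | rfl
      · exact triple_tight _ _ _ (hr 1) k2 a
      · exact triple_tight _ _ _ (hr 2) k3 a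
      · exact triple_tight _ _ _ (hr 3) k4 a
      · exact triple_tight _ _ _ (hr 4) k5 a
      · exact triple_tight _ _ _ (hr 5) k6 a
      · exact triple_tight _ _ _ (hr 6) k7 a
      · exact triple_tight _ _ _ (hr 7) k8 a
      · exact triple_tight _ _ _ (hr 8) k9 a
  obtain ⟨g4a, g4b, g4c⟩ := g4
  obtain ⟨g5a, g5b, g5c⟩ := g5
  obtain ⟨g6a, g6b, g6c⟩ := g6
  obtain ⟨g7a, g7b, g7c⟩ := g7
  obtain ⟨g8a, g8b⟩ := g8
  have hS1 : 2 * D ≤ g 1 ∨ 4 * B + 4 * D + 26 ≤ g 1 + g 2 + g 3 + g 4 + g 5 + g 6 + g 7 + g 8 := by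
    by_cases hm : D ≤ W (inl 4)
    · left; omega
    · rcases Nat.lt_or_ge D 3 with hD3 | hD3
      · left; omega
      · right
        have := g6c hD3 (by omega)
        have := hρ hD3
        omega
  have hS2 : 2 * D ≤ g 2 ∨ 4 * B + 4 * D + 26 ≤ g 1 + g 2 + g 3 + g 4 + g 5 + g 6 + g 7 + g 8 := by
    by_cases hm : D ≤ W (inl 5)
    · left; omega
    · rcases Nat.lt_or_ge D 3 with hD3 | hD3
      · left; omega
      · right
        have := g7c hD3 (by omega)
        have := hρ hD3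
        omega
  have hS3 : 4 ≤ g 3 := by omega
  refine ⟨by omega, fun hle => ?_⟩
  have q1 : 2 * D ≤ g 1 := by omega
  have q2 : 2 * D ≤ g 2 := by omega
  obtain ⟨a1, a2, a3⟩ := g4b (by omega)
  obtain ⟨b1, b2, b3⟩ := g5b (by omega)
  obtain ⟨c1, c2, c3⟩ := g6b (by omega)
  obtain ⟨d1, d2, d3⟩ := g7b (by omega)
  obtain ⟨e1, e2, e3⟩ := g8b (by omega)
  have u1 : g 1 = 2 * D := by omega
  have u2 : g 2 = 2 * D := by omega
  have u3 : g 3 = 4 := by omega
  have v1 : W (inl 2) = 1 := by omega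
  have v2 : W (inr 2) = 1 := by omega
  have v3 : W (inl 1) + 1 = D := by omega
  have v4 : W (inl 0) = 1 := by omega
  refine ⟨?_, a1, v2⟩
  by_contra hlt
  have v5 : W (inr 0) + 1 = D := by omega
  have := key (by omega) (by omega) (by omega) (by omega) (by omega) (by omega) (by omega)
    (by omega) (by omega) (by omega)
  omega

lemma chain_ge {G : Pole} {D B ρ : ℕ} (hG : LB G D B ρ) (hD : 2 ≤ D)
    (hρ : 3 ≤ D → 4 * D + 6 ≤ ρ) : ∀ (m : ℕ) (ι : Type) [Fintype ι]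
    (c : ι → (chain G m).E → ZMod 2) (r : ι → Fin 3 → ZMod 2), IsCov (chain G m) c r →
    m * (4 * B + 4 * D + 24) + 2 * wt (fun a => r a 0) ≤ cost (chain G m) c r ∧
    (wt (fun a => r a 0) ≤ D → m * (4 * B + 4 * D + 26) ≤ cost (chain G m) c r) ∧
    (1 ≤ m → cost (chain G m) c r ≤ m * (4 * B + 4 * D + 24) + 2 * wt (fun a => r a 0) + 1 →
      wt (fun a => r a 1) = D ∧ wt (fun a => r a 2) = 1) := by
  intro m
  induction m with
  | zero =>
    intro ι _ c r h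
    have h1 : cost (chain G 0) c r = _ := cost_triv c r
    have h2 := triple_le (fun a => r a 0) (fun a => r a 1) (fun a => r a 2)
      (fun a => root_sum (h.even a))
    refine ⟨by omega, by omega, by omega⟩
  | succ m ih =>
    intro ι _ c r h
    obtain ⟨hc, h1, h2, h3⟩ := host_claim (X := chain G m) hG hD hρ h
    obtain ⟨i1, i2, i3⟩ := ih ι _ _ (h.sub (A := hostPoles (chain G m) G) 0)
    obtain ⟨x, hx⟩ : ∃ x, x = cost (chain G m) (fun a e => c a (Sum.inr ⟨0, e⟩))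
        (fun a j => hv (A := hostPoles (chain G m) G) (c a) (r a) (eta 0 j)) := ⟨_, rfl⟩
    have h1' : cost (chain G (m + 1)) c r = x + hc := by rw [hx]; exact h1
    rw [h1']
    have i1' : m * (4 * B + 4 * D + 24) + 2 * wt (fun a => r a 0) ≤ x := by rw [hx]; exact i1
    have i2' : wt (fun a => r a 0) ≤ D → m * (4 * B + 4 * D + 26) ≤ x := by rw [hx]; exact i2
    clear i1 i2 i3 h1 h1' hx
    have e1 : (m + 1) * (4 * B + 4 * D + 24) = m * (4 * B + 4 * D + 24) + (4 * B + 4 * D + 24) := by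
      ring
    have e2 : (m + 1) * (4 * B + 4 * D + 26) = m * (4 * B + 4 * D + 26) + (4 * B + 4 * D + 26) := by
      ring
    rw [e1, e2]
    refine ⟨by omega, ?_, ?_⟩
    · intro hle
      have h4 := i2' hle
      have h5 : 4 * B + 4 * D + 26 ≤ hc := by
        by_contra hlt
        have := (h3 (by omega)).1
        omega
      omega
    · intro _ hle
      exact (h3 (by omega)).2

lemma lb_chain {G : Pole} {D B ρ R : ℕ} (hG : LB G D B ρ) (hD : 2 ≤ D)
    (hρ : 3 ≤ D → 4 * D + 6 ≤ ρ) (hR : D + 2 ≤ R) :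
    LB (chain G R) (D + 1) (R * (4 * B + 4 * D + 24) + 2 * (D + 1)) (2 * R - 2 * (D + 1)) := by
  intro ι _ c r h
  obtain ⟨h1, h2, h3⟩ := chain_ge hG hD hρ R ι c r h
  have e : R * (4 * B + 4 * D + 26) = R * (4 * B + 4 * D + 24) + 2 * R := by ring
  refine ⟨?_, ?_, ?_⟩
  · rcases Nat.lt_or_ge D (wt (fun a => r a 0)) with hh | hh
    · omega
    · have := h2 hh
      omega
  · intro hle
    have hh : D + 1 ≤ wt (fun a => r a 0) := by
      by_contra hlt
      have := h2 (by omega)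
      omega
    have := h3 (by omega) (by omega)
    omega
  · intro _ hlt
    have := h2 (by omega)
    omega

/-- The gadgets: `GG R d` forces `d + 2` cycles through its first dangling edge. -/
def GG (R : ℕ) : ℕ → Pole
  | 0 => G2
  | d + 1 => chain (GG R d) R

def BB (R : ℕ) : ℕ → ℕ
  | 0 => 20
  | d + 1 => R * (4 * BB R d + 4 * (d + 2) + 24) + 2 * (d + 2 + 1)

theorem lb_GG (R : ℕ) : ∀ d, 3 * d + 9 ≤ R → LB (GG R d) (d + 2) (BB R d) (2 * R - 2 * (d + 2)) := by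
  intro d
  induction d with
  | zero =>
    intro _ ι _ c r h
    obtain ⟨h1, h2, -⟩ := lb_G2 ι c r h
    exact ⟨h1, h2, by omega⟩
  | succ d ih =>
    intro hR
    have h1 := ih (by omega)
    exact lb_chain h1 (by omega) (by omega) (by omega)

end Pool.Agent.Helper398.SccB
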