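import Pool.Agent.Helper398.SccB

set_option autoImplicit false

/-! Existence of covering families of minimum cost. -/

namespace Pool.Agent.Helper398.SccC

open Finset Pool.Agent.Helper398.SccA Pool.Agent.Helper398.SccB

lemma wt_equiv {ι κ : Type} [Fintype ι] [Fintype κ] (e : κ ≃ ι) (x : ι → ZMod 2) :
    wt (fun a => x (e a)) = wt x := by
  unfold wt
  exact Equiv.sum_comp e (fun a => if x a = 0 then 0 else 1)

lemma cost_equiv {ι κ : Type} [Fintype ι] [Fintype κ] (e : κ ≃ ι) (A : Pole)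
    (c : ι → A.E → ZMod 2) (r : ι → Fin 3 → ZMod 2) :
    cost A (fun a => c (e a)) (fun a => r (e a)) = cost A c r := by
  unfold cost
  congr 1
  · congr 1
    apply Finset.sum_congr rfl
    intro x _
    exact wt_equiv e (fun a => c a x)
  · apply Finset.sum_congr rfl
    intro j _
    exact wt_equiv e (fun a => r a j)

lemma perm_of_fibers {α κ : Type} [Fintype α] [DecidableEq α] [DecidableEq κ] (p q : α → κ)
    (h : ∀ k, Fintype.card {a // p a = k} = Fintype.card {a // q a = k}) :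
    ∃ σ : Equiv.Perm α, ∀ a, q (σ a) = p a := by
  refine ⟨(Equiv.sigmaFiberEquiv p).symm.trans
    ((Equiv.sigmaCongrRight (fun k => Fintype.equivOfCardEq (h k))).trans
      (Equiv.sigmaFiberEquiv q)), fun a => ?_⟩
  exact ((Fintype.equivOfCardEq (h (p a))) ⟨a, rfl⟩).2

lemma cnt {n : ℕ} (p : Fin n → Fin 3 → ZMod 2) (hp : ∀ a, p a 0 + p a 1 + p a 2 = 0)
    (k : Fin 3 → ZMod 2) :
    (k 0 + k 1 + k 2 ≠ 0 → Fintype.card {a // p a = k} = 0) ∧
    (k 0 = 0 → k 1 = 0 → k 2 = 0 → 2 * Fintype.card {a // p a = k} + (wt (fun a => p a 0) +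
      wt (fun a => p a 1) + wt (fun a => p a 2)) = 2 * n) ∧
    (k 0 = 1 → k 1 = 1 → k 2 = 0 → 2 * Fintype.card {a // p a = k} + wt (fun a => p a 2)
      = wt (fun a => p a 0) + wt (fun a => p a 1)) ∧
    (k 0 = 1 → k 1 = 0 → k 2 = 1 → 2 * Fintype.card {a // p a = k} + wt (fun a => p a 1)
      = wt (fun a => p a 0) + wt (fun a => p a 2)) ∧
    (k 0 = 0 → k 1 = 1 → k 2 = 1 → 2 * Fintype.card {a // p a = k} + wt (fun a => p a 0)
      = wt (fun a => p a 1) + wt (fun a => p a 2)) := by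
  have hc : Fintype.card {a // p a = k} = ∑ a, if p a 0 = k 0 ∧ p a 1 = k 1 ∧ p a 2 = k 2
      then 1 else 0 := by
    rw [Fintype.card_subtype, Finset.card_filter]
    apply Finset.sum_congr rfl
    intro a _
    have : p a = k ↔ (p a 0 = k 0 ∧ p a 1 = k 1 ∧ p a 2 = k 2) := by
      rw [funext_iff, Fin.forall_fin_succ, Fin.forall_fin_succ, Fin.forall_fin_succ]
      simp
    simp only [this]
  rw [hc]
  unfold wt
  refine ⟨?_, ?_, ?_, ?_, ?_⟩
  · intro hk
    apply Finset.sum_eq_zero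
    intro a _
    rw [if_neg]
    rintro ⟨h0, h1, h2⟩
    apply hk
    rw [← h0, ← h1, ← h2]
    exact hp a
  · intro h0 h1 h2
    rw [h0, h1, h2, Finset.mul_sum, ← Finset.sum_add_distrib, ← Finset.sum_add_distrib,
      ← Finset.sum_add_distrib]
    have : 2 * n = ∑ _a : Fin n, 2 := by simp [mul_comm]
    rw [this]
    apply Finset.sum_congr rfl
    intro a _
    have := hp a
    beta_reduce
    generalize p a 0 = x at *
    generalize p a 1 = y at *
    generalize p a 2 = z at *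
    clear hc
    revert this
    revert x y z
    decide
  · intro h0 h1 h2
    rw [h0, h1, h2, Finset.mul_sum, ← Finset.sum_add_distrib, ← Finset.sum_add_distrib]
    apply Finset.sum_congr rfl
    intro a _
    have := hp a
    beta_reduce
    generalize p a 0 = x at *
    generalize p a 1 = y at *
    generalize p a 2 = z at *
    clear hc
    revert this
    revert x y z
    decide
  · intro h0 h1 h2
    rw [h0, h1, h2, Finset.mul_sum, ← Finset.sum_add_distrib, ← Finset.sum_add_distrib]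
    apply Finset.sum_congr rfl
    intro a _
    have := hp a
    beta_reduce
    generalize p a 0 = x at *
    generalize p a 1 = y at *
    generalize p a 2 = z at *
    clear hc
    revert this
    revert x y z
    decide
  · intro h0 h1 h2
    rw [h0, h1, h2, Finset.mul_sum, ← Finset.sum_add_distrib, ← Finset.sum_add_distrib]
    apply Finset.sum_congr rfl
    intro a _
    have := hp a
    beta_reduce
    generalize p a 0 = x at *
    generalize p a 1 = y at *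
    generalize p a 2 = z at *
    clear hc
    revert this
    revert x y z
    decide

lemma matching {n : ℕ} (p q : Fin n → Fin 3 → ZMod 2) (hp : ∀ a, p a 0 + p a 1 + p a 2 = 0)
    (hq : ∀ a, q a 0 + q a 1 + q a 2 = 0) (h : ∀ j, wt (fun a => p a j) = wt (fun a => q a j)) :
    ∃ σ : Equiv.Perm (Fin n), ∀ a, q (σ a) = p a := by
  apply perm_of_fibers
  intro k
  obtain ⟨p1, p2, p3, p4, p5⟩ := cnt p hp k
  obtain ⟨q1, q2, q3, q4, q5⟩ := cnt q hq k
  have h0 := h 0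
  have h1 := h 1
  have h2 := h 2
  rcases zmod2_cases (k 0) with k0 | k0 <;> rcases zmod2_cases (k 1) with k1 | k1 <;>
    rcases zmod2_cases (k 2) with k2 | k2
  · have := p2 k0 k1 k2; have := q2 k0 k1 k2; omega
  · have hh : k 0 + k 1 + k 2 ≠ 0 := by rw [k0, k1, k2]; decide
    rw [p1 hh, q1 hh]
  · have hh : k 0 + k 1 + k 2 ≠ 0 := by rw [k0, k1, k2]; decide
    rw [p1 hh, q1 hh]
  · have := p5 k0 k1 k2; have := q5 k0 k1 k2; omega
  · have hh : k 0 + k 1 + k 2 ≠ 0 := by rw [k0, k1, k2]; decide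
    rw [p1 hh, q1 hh]
  · have := p4 k0 k1 k2; have := q4 k0 k1 k2; omega
  · have := p3 k0 k1 k2; have := q3 k0 k1 k2; omega
  · have hh : k 0 + k 1 + k 2 ≠ 0 := by rw [k0, k1, k2]; decide
    rw [p1 hh, q1 hh]

/-- Families of every large size with prescribed root weights and cost. -/
def UB (A : Pole) (x y z B : ℕ) : Prop :=
  ∃ n0 : ℕ, ∀ n, n0 ≤ n → ∃ (c : Fin n → A.E → ZMod 2) (r : Fin n → Fin 3 → ZMod 2),
    IsCov A c r ∧ wt (fun a => r a 0) = x ∧ wt (fun a => r a 1) = y ∧ wt (fun a => r a 2) = z ∧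
    cost A c r = B

/-- Build `UB` from families on arbitrary index types. -/
lemma UB_of {A : Pole} {x y z B : ℕ} (n0 : ℕ)
    (h : ∀ m : ℕ, ∃ (ι : Type) (_ : Fintype ι) (c : ι → A.E → ZMod 2) (r : ι → Fin 3 → ZMod 2),
      Fintype.card ι = n0 + m ∧
      IsCov A c r ∧ wt (fun a => r a 0) = x ∧ wt (fun a => r a 1) = y ∧ wt (fun a => r a 2) = z ∧
      cost A c r = B) : UB A x y z B := by
  refine ⟨n0, fun n hn => ?_⟩
  obtain ⟨m, rfl⟩ := Nat.exists_eq_add_of_le hn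
  obtain ⟨ι, _, c, r, hcard, hcov, hx, hy, hz, hB⟩ := h m
  have e : Fin (n0 + m) ≃ ι := Fintype.equivOfCardEq (by rw [Fintype.card_fin, hcard])
  refine ⟨fun a => c (e a), fun a => r (e a), ⟨fun a => hcov.even (e a), fun x => ?_, fun j => ?_⟩,
    ?_, ?_, ?_, ?_⟩
  · rw [wt_equiv e (fun a => c a x)]; exact hcov.posE x
  · rw [wt_equiv e (fun a => r a j)]; exact hcov.posR j
  · rw [wt_equiv e (fun a => r a 0)]; exact hx
  · rw [wt_equiv e (fun a => r a 1)]; exact hy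
  · rw [wt_equiv e (fun a => r a 2)]; exact hz
  · rw [cost_equiv e]; exact hB

lemma UB_triv (p q s : ℕ) (h1 : 1 ≤ p + q) (h2 : 1 ≤ p + s) (h3 : 1 ≤ q + s) :
    UB triv (p + q) (p + s) (q + s) (2 * (p + q + s)) := by
  apply UB_of (p + (q + s))
  intro m
  refine ⟨(Fin p ⊕ (Fin q ⊕ Fin s)) ⊕ Fin m, inferInstance, fun _ e => Empty.elim e,
    Sum.elim (Sum.elim (fun _ => ![1, 1, 0]) (Sum.elim (fun _ => ![1, 0, 1])
      (fun _ => ![0, 1, 1]))) (fun _ => 0), by simp, ?_⟩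
  have w0 : wt (fun a : (Fin p ⊕ (Fin q ⊕ Fin s)) ⊕ Fin m => (Sum.elim (Sum.elim (fun _ => ![1, 1, 0])
      (Sum.elim (fun _ => ![1, 0, 1]) (fun _ => ![0, 1, 1]))) (fun _ => 0) a : Fin 3 → ZMod 2) 0)
      = p + q := by
    unfold wt
    simp
  have w1 : wt (fun a : (Fin p ⊕ (Fin q ⊕ Fin s)) ⊕ Fin m => (Sum.elim (Sum.elim (fun _ => ![1, 1, 0])
      (Sum.elim (fun _ => ![1, 0, 1]) (fun _ => ![0, 1, 1]))) (fun _ => 0) a : Fin 3 → ZMod 2) 1)
      = p + s := by
    unfold wt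
    simp
  have w2 : wt (fun a : (Fin p ⊕ (Fin q ⊕ Fin s)) ⊕ Fin m => (Sum.elim (Sum.elim (fun _ => ![1, 1, 0])
      (Sum.elim (fun _ => ![1, 0, 1]) (fun _ => ![0, 1, 1]))) (fun _ => 0) a : Fin 3 → ZMod 2) 2)
      = q + s := by
    unfold wt
    simp
  refine ⟨⟨?_, ?_, ?_⟩, w0, w1, w2, ?_⟩
  · intro a f
    have : ∀ g : Empty → ZMod 2, ∑ e, g e = 0 := by intro g; simp
    have h4 : ∑ e : triv.E, Empty.elim e * (f (triv.src e) + f (triv.tgt e)) = 0 :=
      this (fun e => Empty.elim e * (f (triv.src e) + f (triv.tgt e)))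
    rw [h4, zero_add, Fin.sum_univ_three]
    show _ * f () + _ * f () + _ * f () = 0
    rcases a with (a | a | a) | a <;> simp
    · rw [← two_mul]
      have : (2 : ZMod 2) = 0 := by decide
      rw [this, zero_mul]
    · rw [← two_mul]
      have : (2 : ZMod 2) = 0 := by decide
      rw [this, zero_mul]
    · rw [← two_mul]
      have : (2 : ZMod 2) = 0 := by decide
      rw [this, zero_mul]
  · intro e; exact Empty.elim e
  · intro j
    have hj : j = 0 ∨ j = 1 ∨ j = 2 := by revert j; decide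
    rcases hj with rfl | rfl | rfl
    · rw [w0]; exact h1
    · rw [w1]; exact h2
    · rw [w2]; exact h3
  · rw [cost_triv, w0, w1, w2]
    ring

lemma wt_sum {ι κ : Type} [Fintype ι] [Fintype κ] (x : ι ⊕ κ → ZMod 2) :
    wt x = wt (fun a => x (Sum.inl a)) + wt (fun a => x (Sum.inr a)) := by
  unfold wt
  rw [Fintype.sum_sum_type]

lemma wt_const {ι : Type} [Fintype ι] (x : ZMod 2) :
    wt (fun _ : ι => x) = Fintype.card ι * (if x = 0 then 0 else 1) := by
  unfold wt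
  simp

def gE : Fin 2 → Fin 8 → ZMod 2 := ![![1, 1, 0, 0, 0, 0, 0, 0], ![0, 0, 1, 1, 1, 1, 1, 1]]
def gR : Fin 2 → Fin 3 → ZMod 2 := ![![1, 1, 0], ![1, 0, 1]]

lemma gE_wt : ∀ e : Fin 8, wt (fun a => gE a e) = 1 := by decide
lemma gR_wt : ∀ e : Fin 3, wt (fun a => gR a e) = (![2, 1, 1] : Fin 3 → ℕ) e := by decide

lemma gE_even (v : Fin 2) : IsEven G2 (fun e : Fin 8 => gE v e) (gR v) := by
  intro f
  have h2 : (2 : ZMod 2) = 0 := by decide
  have h3 : ∑ e : Fin 8, gE v e * (f ((![3, 3, 3, 3, 4, 4, 4, 1] : Fin 8 → Fin 5) e) +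
      f ((![0, 1, 2, 4, 0, 1, 2, 2] : Fin 8 → Fin 5) e)) + ∑ j : Fin 3, gR v j *
      f ((![0, 1, 2] : Fin 3 → Fin 5) j) = 0 := by
    have hv : v = 0 ∨ v = 1 := by revert v; decide
    rcases hv with rfl | rfl
    · simp [Fin.sum_univ_succ, gE, gR]
      linear_combination (f (3 : Fin 5) + f (0 : Fin 5) + f (1 : Fin 5)) * h2
    · simp [Fin.sum_univ_succ, gE, gR]
      linear_combination (f (3 : Fin 5) + 2 * f (4 : Fin 5) + f (0 : Fin 5) + f (1 : Fin 5) +
        2 * f (2 : Fin 5)) * h2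
  exact h3

lemma UB_G2 : UB G2 2 1 1 20 := by
  apply UB_of 2
  intro m
  refine ⟨Fin 2 ⊕ Fin m, inferInstance, fun a (e : Fin 8) => Sum.elim gE (fun _ _ => 0) a e,
    Sum.elim gR (fun _ _ => 0), by simp, ?_⟩
  have wE : ∀ e : Fin 8, wt (fun a : Fin 2 ⊕ Fin m => Sum.elim gE (fun _ _ => 0) a e) = 1 := by
    intro e
    rw [wt_sum]
    simp only [Sum.elim_inl, Sum.elim_inr, wt_const, if_true, mul_zero, add_zero]
    exact gE_wt e
  have wR : ∀ j : Fin 3, wt (fun a : Fin 2 ⊕ Fin m => Sum.elim gR (fun _ _ => 0) a j)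
        = (![2, 1, 1] : Fin 3 → ℕ) j := by
    intro e
    rw [wt_sum]
    simp only [Sum.elim_inl, Sum.elim_inr, wt_const, if_true, mul_zero, add_zero]
    exact gR_wt e
  refine ⟨⟨?_, fun e => (wE e).ge, ?_⟩, wR 0, wR 1, wR 2, ?_⟩
  · rintro (v | v)
    · exact gE_even v
    · intro f
      simp
  · intro j
    rw [wR j]
    revert j
    decide
  · unfold cost
    have e1 : ∑ e : Fin 8, wt (fun a : Fin 2 ⊕ Fin m => Sum.elim gE (fun _ _ => 0) a e)
        = ∑ e : Fin 8, 1 := Finset.sum_congr rfl (fun e _ => wE e)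
    have e2 : ∑ j : Fin 3, wt (fun a : Fin 2 ⊕ Fin m => Sum.elim gR (fun _ _ => 0) a j) = 4 := by
      rw [Fin.sum_univ_three, wR 0, wR 1, wR 2]
      rfl
    have e3 : 2 * ∑ e : Fin 8, wt (fun a : Fin 2 ⊕ Fin m => Sum.elim gE (fun _ _ => 0) a e)
      + ∑ j : Fin 3, wt (fun a : Fin 2 ⊕ Fin m => Sum.elim gR (fun _ _ => 0) a j) = 20 := by
      rw [e1, e2]
      rfl
    exact e3

/-- A host family. -/
def HostFam (W : Fin 12 ⊕ Fin 3 → ℕ) : Prop :=
  ∃ n0 : ℕ, ∀ n, n0 ≤ n → ∃ h : Fin n → Fin 12 ⊕ Fin 3 → ZMod 2,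
    (∀ a i, h a (eta i 0) + h a (eta i 1) + h a (eta i 2) = 0) ∧
    (∀ k, wt (fun a => h a k) = W k)

lemma UB_sub (A : Fin 9 → Pole) (W : Fin 12 ⊕ Fin 3 → ℕ) (hpos : ∀ k, 1 ≤ W k)
    (hW : HostFam W) (Bs : Fin 9 → ℕ)
    (hA : ∀ i, UB (A i) (W (eta i 0)) (W (eta i 1)) (W (eta i 2)) (Bs i)) :
    UB (Sub A) (W (Sum.inr 0)) (W (Sum.inr 1)) (W (Sum.inr 2)) (∑ i, Bs i) := by
  obtain ⟨n0, hn0⟩ := hW
  choose ni hni using hA
  refine ⟨n0 + ∑ i, ni i, fun n hn => ?_⟩
  obtain ⟨h, hev, hwt⟩ := hn0 n (by omega)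
  have hle : ∀ i, ni i ≤ n := fun i =>
    le_trans (Finset.single_le_sum (f := ni) (fun _ _ => Nat.zero_le _) (mem_univ i)) (by omega)
  choose c r hcov h0 h1 h2 hcost using fun i => hni i n (hle i)
  have hm : ∀ i, ∃ σ : Equiv.Perm (Fin n), ∀ a, r i (σ a) = fun j => h a (eta i j) := by
    intro i
    apply matching (fun a j => h a (eta i j)) (r i) (fun a => hev a i)
      (fun a => root_sum ((hcov i).even a))
    intro j
    have hj : j = 0 ∨ j = 1 ∨ j = 2 := by revert j; decide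
    rcases hj with rfl | rfl | rfl
    · rw [h0, ← hwt]
    · rw [h1, ← hwt]
    · rw [h2, ← hwt]
  choose σ hσ using hm
  have hhv : ∀ a, hv (A := A) (Sum.elim (fun k => h a (Sum.inl k)) (fun p => c p.1 (σ p.1 a) p.2))
      (fun j => h a (Sum.inr j)) = h a := by
    intro a
    funext k
    rcases k with k | k <;> rfl
  refine ⟨fun a => Sum.elim (fun k => h a (Sum.inl k)) (fun p => c p.1 (σ p.1 a) p.2),
    fun a j => h a (Sum.inr j), ⟨?_, ?_, ?_⟩, hwt _, hwt _, hwt _, ?_⟩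
  · intro a
    refine (even_sub A _ _).2 (fun i => ?_)
    have := (hcov i).even (σ i a)
    rw [hσ i a] at this
    rw [hhv a]
    exact this
  · rintro (k | ⟨i, e⟩)
    · exact (hwt (Sum.inl k)).symm ▸ hpos _
    · have := (hcov i).posE e
      rw [← wt_equiv (σ i) (fun a => c i a e)] at this
      exact this
  · intro j
    exact (hwt (Sum.inr j)).symm ▸ hpos _
  · have e1 := cost_sub A (fun a => Sum.elim (fun k => h a (Sum.inl k))
      (fun p => c p.1 (σ p.1 a) p.2)) (fun a j => h a (Sum.inr j))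
    refine e1.trans (Finset.sum_congr rfl (fun i _ => ?_))
    rw [← hcost i, ← cost_equiv (σ i) (A i) (c i) (r i)]
    congr 1
    funext a
    rw [hσ i a, hhv a]

def u1 : Fin 12 ⊕ Fin 3 → ZMod 2 := Sum.elim ![1, 0, 0, 0, 1, 0, 0, 1, 0, 0, 0, 0] ![1, 1, 0]
def u2 : Fin 12 ⊕ Fin 3 → ZMod 2 := Sum.elim ![0, 1, 0, 1, 1, 1, 1, 0, 1, 1, 0, 0] ![1, 0, 1]
def u3 : Fin 12 ⊕ Fin 3 → ZMod 2 := Sum.elim ![0, 0, 1, 1, 0, 1, 1, 0, 0, 0, 1, 1] ![1, 1, 0]
def u4 : Fin 12 ⊕ Fin 3 → ZMod 2 := Sum.elim ![0, 1, 0, 1, 1, 1, 0, 1, 1, 0, 0, 0] ![1, 1, 0]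

def hostW (N : ℕ) : Fin 12 ⊕ Fin 3 → ℕ :=
  Sum.elim ![1, N + 1, 1, N + 2, N + 2, N + 2, 2, N + 1, N + 1, 1, 1, 1] ![N + 3, N + 2, 1]

lemma u_even : ∀ i, (u1 (eta i 0) + u1 (eta i 1) + u1 (eta i 2) = 0) ∧
    (u2 (eta i 0) + u2 (eta i 1) + u2 (eta i 2) = 0) ∧
    (u3 (eta i 0) + u3 (eta i 1) + u3 (eta i 2) = 0) ∧
    (u4 (eta i 0) + u4 (eta i 1) + u4 (eta i 2) = 0) := by decide

lemma u_wt (N : ℕ) : ∀ k, ((if u1 k = 0 then 0 else 1) + (if u2 k = 0 then 0 else 1) +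
    (if u3 k = 0 then 0 else 1)) + N * (if u4 k = 0 then 0 else 1) = hostW N k := by
  have h1 : ∀ k, ((if u1 k = 0 then 0 else 1) + (if u2 k = 0 then 0 else 1) +
    (if u3 k = 0 then 0 else 1)) = hostW 0 k := by decide
  have h2 : ∀ k, (if u4 k = 0 then 0 else 1) = hostW 1 k - hostW 0 k := by decide
  intro k
  rw [h1, h2]
  rcases k with k | k
  · fin_cases k <;> simp [hostW] <;> ring
  · fin_cases k <;> simp [hostW] <;> ring

lemma hostFam (N : ℕ) : HostFam (hostW N) := by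
  refine ⟨3 + N, fun n hn => ?_⟩
  obtain ⟨m, rfl⟩ := Nat.exists_eq_add_of_le hn
  have e : Fin (3 + N + m) ≃ (Fin 3 ⊕ Fin N) ⊕ Fin m :=
    Fintype.equivOfCardEq (by simp)
  refine ⟨fun a => Sum.elim (Sum.elim (![u1, u2, u3]) (fun _ => u4)) (fun _ _ => 0) (e a),
    fun a i => ?_, fun k => ?_⟩
  · obtain ⟨e1, e2, e3, e4⟩ := u_even i
    beta_reduce
    generalize e a = y
    rcases y with (b | b) | b
    · have hb : b = 0 ∨ b = 1 ∨ b = 2 := by revert b; decide
      rcases hb with rfl | rfl | rfl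
      · exact e1
      · exact e2
      · exact e3
    · exact e4
    · simp
  · rw [wt_equiv e (fun a => Sum.elim (Sum.elim (![u1, u2, u3]) (fun _ => u4)) (fun _ _ => 0) a k),
      wt_sum, wt_sum]
    simp only [Sum.elim_inl, Sum.elim_inr, wt_const, if_true, mul_zero, add_zero, Fintype.card_fin]
    rw [← u_wt N k]
    congr 1
    unfold wt
    rw [Fin.sum_univ_three]
    rfl

lemma UB_chain {G : Pole} {N B : ℕ} (hG : UB G (N + 2) (N + 1) 1 B) : ∀ m : ℕ,
    UB (chain G m) (N + 3) (N + 2) 1 (m * (4 * B + 4 * (N + 2) + 24) + 2 * (N + 3)) := by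
  intro m
  induction m with
  | zero =>
    have := UB_triv (N + 2) 1 0 (by omega) (by omega) (by omega)
    have e : 0 * (4 * B + 4 * (N + 2) + 24) + 2 * (N + 3) = 2 * (N + 2 + 1 + 0) := by ring
    rw [e]
    exact this
  | succ m ih =>
    have h1 := UB_sub (hostPoles (chain G m) G) (hostW N) (by
        intro k
        rcases k with k | k <;> fin_cases k <;> simp [hostW]) (hostFam N)
      (![m * (4 * B + 4 * (N + 2) + 24) + 2 * (N + 3), 2 * (N + 1 + 1 + 0), 2 * (N + 1 + 1 + 0),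
        2 * (1 + 1 + 0), B, B, B, B, 20]) (by
        intro i
        have hi : i = 0 ∨ i = 1 ∨ i = 2 ∨ i = 3 ∨ i = 4 ∨ i = 5 ∨ i = 6 ∨ i = 7 ∨ i = 8 := by
          revert i; decide
        rcases hi with rfl | rfl | rfl | rfl | rfl | rfl | rfl | rfl | rfl
        · exact ih
        · exact UB_triv (N + 1) 1 0 (by omega) (by omega) (by omega)
        · exact UB_triv (N + 1) 1 0 (by omega) (by omega) (by omega)
        · exact UB_triv 1 1 0 (by omega) (by omega) (by omega)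
        · exact hG
        · exact hG
        · exact hG
        · exact hG
        · exact UB_G2)
    have e : (m + 1) * (4 * B + 4 * (N + 2) + 24) + 2 * (N + 3) = ∑ i, (![m * (4 * B + 4 * (N + 2) + 24)
        + 2 * (N + 3), 2 * (N + 1 + 1 + 0), 2 * (N + 1 + 1 + 0),
        2 * (1 + 1 + 0), B, B, B, B, 20] : Fin 9 → ℕ) i := by
      simp [Fin.sum_univ_succ]
      ring
    rw [e]
    exact h1

theorem UB_GG (R : ℕ) : ∀ d, UB (GG R d) (d + 2) (d + 1) 1 (BB R d) := by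
  intro d
  induction d with
  | zero => exact UB_G2
  | succ d ih => exact UB_chain ih R

end Pool.Agent.Helper398.SccC
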