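import Pool.Agent.Helper398.SccC

set_option autoImplicit false

/-! 3-connectivity. -/

namespace Pool.Agent.Helper398.SccD

open Finset Pool.Agent.Helper398.SccA Pool.Agent.Helper398.SccB

/-- 3-connectivity of the closed graph in terms of functions that are constant along edges. -/
def Conn (A : Pole) : Prop :=
  ∀ S : Finset (Option A.V), S.card ≤ 2 → ∀ f : Option A.V → Bool,
    (∀ e, some (A.src e) ∉ S → some (A.tgt e) ∉ S → f (some (A.src e)) = f (some (A.tgt e))) →
    (∀ j, some (A.t j) ∉ S → none ∉ S → f (some (A.t j)) = f none) →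
    ∀ x y, x ∉ S → y ∉ S → f x = f y

lemma Conn.inner {A : Pole} (h : Conn A) (T : Finset A.V) (hT : T.card ≤ 1) (g : A.V → Bool)
    (hg : ∀ e, A.src e ∉ T → A.tgt e ∉ T → g (A.src e) = g (A.tgt e)) (x y : A.V)
    (hx : x ∉ T) (hy : y ∉ T) : g x = g y := by
  have h1 := h (insert none (T.map Function.Embedding.some))
    (by
      refine le_trans (Finset.card_insert_le _ _) ?_
      rw [Finset.card_map]
      omega)
    (fun o => o.elim true g)
    (by
      intro e h1 h2
      exact hg e (fun h3 => h1 (by simp [h3])) (fun h3 => h2 (by simp [h3])))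
    (by
      intro j _ h2
      exact absurd (Finset.mem_insert_self _ _) h2)
    (some x) (some y) (by simpa using hx) (by simpa using hy)
  exact h1

lemma Conn.outer {A : Pole} (h : Conn A) (T : Finset A.V) (hT : T.card ≤ 2) (g : A.V → Bool)
    (b : Bool) (hg : ∀ e, A.src e ∉ T → A.tgt e ∉ T → g (A.src e) = g (A.tgt e))
    (hb : ∀ j, A.t j ∉ T → g (A.t j) = b) (x : A.V) (hx : x ∉ T) : g x = b := by
  have h1 := h (T.map Function.Embedding.some) (by rw [Finset.card_map]; exact hT)
    (fun o => o.elim b g)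
    (by
      intro e h1 h2
      exact hg e (fun h3 => h1 (by simp [h3])) (fun h3 => h2 (by simp [h3])))
    (by
      intro j h1 _
      exact hb j (fun h3 => h1 (by simp [h3])))
    (some x) none (by simpa using hx) (by simp)
  exact h1

/-! ### The host -/

def hE : List (Option (Fin 9) × Option (Fin 9)) :=
  (List.finRange 12).map (fun k => (some (s1 k).1, some (s2 k).1)) ++
    (List.finRange 3).map (fun j => (some (rt j).1, none))

def grow (p q : Option (Fin 9)) (m : List (Option (Fin 9)))
    (e : Option (Fin 9) × Option (Fin 9)) : List (Option (Fin 9)) :=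
  if e.1 = p ∨ e.1 = q ∨ e.2 = p ∨ e.2 = q then m
  else if e.1 ∈ m then (if e.2 ∈ m then m else e.2 :: m)
  else if e.2 ∈ m then e.1 :: m else m

def reach (p q b : Option (Fin 9)) : List (Option (Fin 9)) :=
  (hE ++ hE ++ hE ++ hE ++ hE).foldl (grow p q) [b]

def base (p q : Option (Fin 9)) : Option (Fin 9) :=
  if some 0 ≠ p ∧ some 0 ≠ q then some 0
  else if some 1 ≠ p ∧ some 1 ≠ q then some 1 else some 2

lemma reach_all : ∀ p q x : Option (Fin 9), x ≠ p → x ≠ q → x ∈ reach p q (base p q) := by
  decide +kernel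

lemma foldl_sound (p q b : Option (Fin 9)) (g : Option (Fin 9) → Bool)
    (l : List (Option (Fin 9) × Option (Fin 9)))
    (hl : ∀ e ∈ l, e.1 ≠ p → e.1 ≠ q → e.2 ≠ p → e.2 ≠ q → g e.1 = g e.2) :
    ∀ m : List (Option (Fin 9)), (∀ z ∈ m, g z = g b) → ∀ z ∈ l.foldl (grow p q) m, g z = g b := by
  induction l with
  | nil => intro m hm z hz; exact hm z hz
  | cons e l ih =>
    intro m hm
    rw [List.foldl_cons]
    apply ih (fun e' he' => hl e' (List.mem_cons_of_mem _ he'))
    intro z hz
    unfold grow at hz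
    split_ifs at hz with h1 h2 h3 h4
    · exact hm z hz
    · exact hm z hz
    · rcases List.mem_cons.1 hz with rfl | hz
      · push Not at h1
        rw [← hl e (by simp) h1.1 h1.2.1 h1.2.2.1 h1.2.2.2]
        exact hm _ h2
      · exact hm z hz
    · rcases List.mem_cons.1 hz with rfl | hz
      · push Not at h1
        rw [hl e (by simp) h1.1 h1.2.1 h1.2.2.1 h1.2.2.2]
        exact hm _ h4
      · exact hm z hz
    · exact hm z hz

lemma host_conn (p q : Option (Fin 9)) (g : Option (Fin 9) → Bool)
    (h1 : ∀ k, some (s1 k).1 ≠ p → some (s1 k).1 ≠ q → some (s2 k).1 ≠ p → some (s2 k).1 ≠ q →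
      g (some (s1 k).1) = g (some (s2 k).1))
    (h2 : ∀ j, some (rt j).1 ≠ p → some (rt j).1 ≠ q → none ≠ p → none ≠ q →
      g (some (rt j).1) = g none) (x y : Option (Fin 9)) (hxp : x ≠ p) (hxq : x ≠ q)
    (hyp : y ≠ p) (hyq : y ≠ q) : g x = g y := by
  have hl : ∀ e ∈ hE ++ hE ++ hE ++ hE ++ hE, e.1 ≠ p → e.1 ≠ q → e.2 ≠ p → e.2 ≠ q →
      g e.1 = g e.2 := by
    intro e he
    have he' : e ∈ hE := by
      simpa [List.mem_append] using he
    unfold hE at he'
    rw [List.mem_append, List.mem_map, List.mem_map] at he'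
    rcases he' with ⟨k, _, rfl⟩ | ⟨j, _, rfl⟩
    · exact h1 k
    · exact h2 j
  have hx := foldl_sound p q (base p q) g _ hl [base p q] (by simp) x (reach_all p q x hxp hxq)
  have hy := foldl_sound p q (base p q) g _ hl [base p q] (by simp) y (reach_all p q y hyp hyq)
  rw [hx, hy]

set_option synthInstance.maxSize 100000 in
/-- The half-edge `(i, j)` is joined to a part other than `i` and `q`. -/
lemma nbr_exists : ∀ (i : Fin 9) (q : Option (Fin 9)) (j0 : Fin 3), ∃ j, j ≠ j0 ∧
    ((∃ k, s1 k = (i, j) ∧ (s2 k).1 ≠ i ∧ some (s2 k).1 ≠ q) ∨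
     (∃ k, s2 k = (i, j) ∧ (s1 k).1 ≠ i ∧ some (s1 k).1 ≠ q) ∨
     (∃ j', rt j' = (i, j) ∧ none ≠ q)) := by
  decide +kernel

set_option synthInstance.maxSize 100000 in
lemma nbr_all : ∀ (i : Fin 9) (j : Fin 3),
    ((∃ k, s1 k = (i, j) ∧ (s2 k).1 ≠ i) ∨ (∃ k, s2 k = (i, j) ∧ (s1 k).1 ≠ i) ∨
     (∃ j', rt j' = (i, j))) := by
  decide +kernel

lemma alive_exists : ∀ p q : Option (Fin 9), ∃ z, z ≠ p ∧ z ≠ q := by decide

def port (A : Fin 9 → Pole) (p : Fin 9 × Fin 3) : Σ i, (A i).V := ⟨p.1, (A p.1).t p.2⟩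

def part {A : Fin 9 → Pole} (x : Option (Σ i, (A i).V)) : Option (Fin 9) := x.map (fun y => y.1)

section compose

variable {A : Fin 9 → Pole} (hA : ∀ i, Conn (A i)) {S : Finset (Option (Σ i, (A i).V))}
  {f : Option (Σ i, (A i).V) → Bool}
  (hin : ∀ i (e : (A i).E), some ⟨i, (A i).src e⟩ ∉ S → some ⟨i, (A i).tgt e⟩ ∉ S →
    f (some ⟨i, (A i).src e⟩) = f (some ⟨i, (A i).tgt e⟩))
  (hk : ∀ k, some (port A (s1 k)) ∉ S → some (port A (s2 k)) ∉ S →
    f (some (port A (s1 k))) = f (some (port A (s2 k))))
  (hr : ∀ j, some (port A (rt j)) ∉ S → none ∉ S → f (some (port A (rt j))) = f none)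

include hA hin hk hr in
lemma step1 (p q : Option (Fin 9)) (hS : ∀ s ∈ S, part s = p ∨ part s = q) :
    ∃ b, ∀ x, part x ≠ p → part x ≠ q → f x = b := by
  have notin : ∀ x, part x ≠ p → part x ≠ q → x ∉ S := by
    intro x h1 h2 h3
    rcases hS x h3 with h | h
    · exact h1 h
    · exact h2 h
  have K : ∀ i, some i ≠ p → some i ≠ q → ∀ x y : (A i).V, f (some ⟨i, x⟩) = f (some ⟨i, y⟩) := by
    intro i h1 h2 x y
    have ni : ∀ z : (A i).V, some ⟨i, z⟩ ∉ S := fun z => notin _ h1 h2
    exact (hA i).inner ∅ (by simp) (fun z => f (some ⟨i, z⟩)) (fun e _ _ => hin i e (ni _) (ni _))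
      x y (by simp) (by simp)
  let g : Option (Fin 9) → Bool := fun o => o.elim (f none) (fun i => f (some ⟨i, (A i).t 0⟩))
  obtain ⟨z, hz1, hz2⟩ := alive_exists p q
  have hg := host_conn p q g
    (by
      intro k h1 h2 h3 h4
      show f (some ⟨(s1 k).1, (A (s1 k).1).t 0⟩) = f (some ⟨(s2 k).1, (A (s2 k).1).t 0⟩)
      rw [K _ h1 h2 _ ((A (s1 k).1).t (s1 k).2), K _ h3 h4 _ ((A (s2 k).1).t (s2 k).2)]
      exact hk k (notin _ h1 h2) (notin _ h3 h4))
    (by
      intro j h1 h2 h3 h4
      show f (some ⟨(rt j).1, (A (rt j).1).t 0⟩) = f none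
      rw [K _ h1 h2 _ ((A (rt j).1).t (rt j).2)]
      exact hr j (notin _ h1 h2) (notin _ h3 h4))
  refine ⟨g z, fun x h1 h2 => ?_⟩
  rcases x with _ | ⟨i, v⟩
  · exact hg none z h1 h2 hz1 hz2
  · rw [K i h1 h2 v ((A i).t 0)]
    exact hg (some i) z h1 h2 hz1 hz2

include hA hin hk hr in
lemma caseA (hcard : S.card ≤ 2) (p : Option (Fin 9)) (hS : ∀ s ∈ S, part s = p) :
    ∃ b, ∀ x, x ∉ S → f x = b := by
  obtain ⟨b, hb⟩ := step1 hA hin hk hr p p (fun s hs => Or.inl (hS s hs))
  refine ⟨b, fun x hx => ?_⟩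
  by_cases hp : part x = p
  · rcases x with _ | ⟨i, v⟩
    · have hp' : none = p := hp
      have h1 : part (some (port A (rt 0))) ≠ p := by
        rw [← hp']
        exact Option.some_ne_none _
      rw [← hr 0 (fun h => h1 (hS _ h)) hx]
      exact hb _ h1 h1
    · have hp' : some i = p := hp
      have hout : ∀ y, part y ≠ some i → f y = b := fun y hy => hb y (hp' ▸ hy) (hp' ▸ hy)
      have hout' : ∀ y, part y ≠ some i → y ∉ S := fun y hy h => hy (by rw [hS y h, hp'])
      have hT : (univ.filter (fun z : (A i).V => some ⟨i, z⟩ ∈ S)).card ≤ 2 := by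
        refine le_trans (Finset.card_le_card_of_injOn (fun z : (A i).V =>
          (some ⟨i, z⟩ : Option (Σ i, (A i).V))) ?_ ?_) hcard
        · intro z hz
          exact (Finset.mem_filter.1 hz).2
        · intro z _ w _ h
          simpa using h
      refine (hA i).outer (univ.filter (fun z : (A i).V => some ⟨i, z⟩ ∈ S)) hT
        (fun z => f (some ⟨i, z⟩)) b ?_ ?_ v (by simpa using hx)
      · intro e h1 h2
        exact hin i e (by simpa using h1) (by simpa using h2)
      · intro j hj
        have hj' : some (port A (i, j)) ∉ S := by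
          have : some ⟨i, (A i).t j⟩ ∉ S := by simpa using hj
          exact this
        show f (some (port A (i, j))) = b
        rcases nbr_all i j with ⟨k, e1, e2⟩ | ⟨k, e1, e2⟩ | ⟨j', e1⟩
        · have h3 : part (some (port A (s2 k))) ≠ some i := fun h => e2 (Option.some.inj h)
          rw [← e1] at hj' ⊢
          rw [hk k hj' (hout' _ h3)]
          exact hout _ h3
        · have h3 : part (some (port A (s1 k))) ≠ some i := fun h => e2 (Option.some.inj h)
          rw [← e1] at hj' ⊢
          rw [← hk k (hout' _ h3) hj']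
          exact hout _ h3
        · have h3 : part (A := A) none ≠ some i := fun h => Option.some_ne_none _ h.symm
          rw [← e1] at hj' ⊢
          rw [hr j' hj' (hout' _ h3)]
          exact hout _ h3
  · exact hb x hp hp

include hA hin hk hr in
lemma caseB (hT : ∀ i, (∀ x y : (A i).V, x = y) ∨ Function.Injective (A i).t)
    (s s' : Option (Σ i, (A i).V)) (hS : ∀ y ∈ S, y = s ∨ y = s') (hs : s ∈ S)
    (hne : part s ≠ part s') (b : Bool) (hb : ∀ x, part x ≠ part s → part x ≠ part s' → f x = b)
    (x : Option (Σ i, (A i).V)) (hx : x ∉ S) (hp : part x = part s) : f x = b := by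
  have notin : ∀ x, part x ≠ part s → part x ≠ part s' → x ∉ S := by
    intro x h1 h2 h3
    rcases hS x h3 with rfl | rfl
    · exact h1 rfl
    · exact h2 rfl
  rcases x with _ | ⟨i, v⟩
  · rcases s with _ | ⟨i', w⟩
    · exact absurd hs hx
    · exact absurd hp.symm (Option.some_ne_none _)
  · rcases s with _ | ⟨i', w⟩
    · exact absurd hp (Option.some_ne_none _)
    · have hi : i = i' := Option.some.inj hp
      subst hi
      have hvw : v ≠ w := by
        rintro rfl
        exact hx hs
      have hinj : Function.Injective (A i).t := by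
        rcases hT i with h | h
        · exact absurd (h v w) hvw
        · exact h
      have hTi : ∀ z : (A i).V, some ⟨i, z⟩ ∈ S → z = w := by
        intro z hz
        rcases hS _ hz with h | h
        · have := Option.some.inj h
          simpa using this
        · exact absurd (by rw [← h]; rfl) hne
      obtain ⟨j0, hj0⟩ : ∃ j0 : Fin 3, ∀ j, j ≠ j0 → (A i).t j ≠ w := by
        by_cases h : ∃ j0, (A i).t j0 = w
        · obtain ⟨j0, hj0⟩ := h
          exact ⟨j0, fun j hj h => hj (hinj (h.trans hj0.symm))⟩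
        · push Not at h
          exact ⟨0, fun j _ => h j⟩
      obtain ⟨j, hjj, hj⟩ := nbr_exists i (part s') j0
      have hj' : some (port A (i, j)) ∉ S := fun h => hj0 j hjj (hTi _ h)
      have hfb : f (some (port A (i, j))) = b := by
        rcases hj with ⟨k, e1, e2, e3⟩ | ⟨k, e1, e2, e3⟩ | ⟨j', e1, e3⟩
        · have h3 : part (some (port A (s2 k))) ≠ some i := fun h => e2 (Option.some.inj h)
          rw [← e1] at hj' ⊢
          rw [hk k hj' (notin _ h3 e3)]
          exact hb _ h3 e3
        · have h3 : part (some (port A (s1 k))) ≠ some i := fun h => e2 (Option.some.inj h)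
          rw [← e1] at hj' ⊢
          rw [← hk k (notin _ h3 e3) hj']
          exact hb _ h3 e3
        · have h3 : part (A := A) none ≠ some i := fun h => Option.some_ne_none _ h.symm
          rw [← e1] at hj' ⊢
          rw [hr j' hj' (notin _ h3 e3)]
          exact hb _ h3 e3
      rw [← hfb]
      have hcard : (univ.filter (fun z : (A i).V => some ⟨i, z⟩ ∈ S)).card ≤ 1 := by
        rw [Finset.card_le_one]
        intro a ha c hc
        rw [hTi a (Finset.mem_filter.1 ha).2, hTi c (Finset.mem_filter.1 hc).2]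
      refine (hA i).inner (univ.filter (fun z : (A i).V => some ⟨i, z⟩ ∈ S)) hcard
        (fun z => f (some ⟨i, z⟩)) ?_ v ((A i).t j) (by simpa using hx) (by
          have : some ⟨i, (A i).t j⟩ ∉ S := hj'
          simpa using this)
      intro e h1 h2
      exact hin i e (by simpa using h1) (by simpa using h2)

end compose

theorem conn_sub (A : Fin 9 → Pole) (hA : ∀ i, Conn (A i))
    (hT : ∀ i, (∀ x y : (A i).V, x = y) ∨ Function.Injective (A i).t) : Conn (Sub A) := by
  intro S hcard f hE hR
  have hin : ∀ i (e : (A i).E), some ⟨i, (A i).src e⟩ ∉ S → some ⟨i, (A i).tgt e⟩ ∉ S →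
    f (some ⟨i, (A i).src e⟩) = f (some ⟨i, (A i).tgt e⟩) := fun i e => hE (Sum.inr ⟨i, e⟩)
  have hk : ∀ k, some (port A (s1 k)) ∉ S → some (port A (s2 k)) ∉ S →
    f (some (port A (s1 k))) = f (some (port A (s2 k))) := fun k => hE (Sum.inl k)
  have hr : ∀ j, some (port A (rt j)) ∉ S → none ∉ S →
    f (some (port A (rt j))) = f none := hR
  have main : ∃ b, ∀ x, x ∉ S → f x = b := by
    by_cases h1 : ∃ p, ∀ s ∈ S, part s = p
    · obtain ⟨p, hp⟩ := h1
      exact caseA hA hin hk hr hcard p hp
    · have h2 : S.card = 2 := by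
        by_contra hne
        have h3 : S.card ≤ 1 := by omega
        rw [Finset.card_le_one] at h3
        apply h1
        by_cases h4 : S.Nonempty
        · obtain ⟨s, hs⟩ := h4
          exact ⟨part s, fun y hy => by rw [h3 y hy s hs]⟩
        · rw [Finset.not_nonempty_iff_eq_empty] at h4
          exact ⟨none, fun y hy => by rw [h4] at hy; exact absurd hy (by simp)⟩
      obtain ⟨s, s', hss, hS⟩ := Finset.card_eq_two.1 h2
      have hmem : ∀ y ∈ S, y = s ∨ y = s' := fun y hy => by
        rw [hS] at hy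
        simpa using hy
      have hsS : s ∈ S := by rw [hS]; simp
      have hsS' : s' ∈ S := by rw [hS]; simp
      have hne : part s ≠ part s' := by
        intro h
        apply h1
        refine ⟨part s, fun y hy => ?_⟩
        rcases hmem y hy with rfl | rfl
        · rfl
        · exact h.symm
      obtain ⟨b, hb⟩ := step1 hA hin hk hr (part s) (part s') (fun y hy => by
        rcases hmem y hy with rfl | rfl
        · exact Or.inl rfl
        · exact Or.inr rfl)
      refine ⟨b, fun x hx => ?_⟩
      by_cases hp : part x = part s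
      · exact caseB hA hin hk hr hT s s' hmem hsS hne b hb x hx hp
      · by_cases hq : part x = part s'
        · exact caseB hA hin hk hr hT s' s (fun y hy => (hmem y hy).symm) hsS' hne.symm b
            (fun x h1 h2 => hb x h2 h1) x hx hq
        · exact hb x hp hq
  obtain ⟨b, hb⟩ := main
  intro x y hx hy
  rw [hb x hx, hb y hy]

end Pool.Agent.Helper398.SccD
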