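import Pool.Agent.Helper398.SccD

set_option autoImplicit false

/-! The gadgets are 3-connected and simple. -/

namespace Pool.Agent.Helper398.SccE

open Finset Pool.Agent.Helper398.SccA Pool.Agent.Helper398.SccB Pool.Agent.Helper398.SccD

lemma conn_triv : Conn triv := by
  intro S _ f _ hR x y hx hy
  rcases x with _ | ⟨⟩ <;> rcases y with _ | ⟨⟩
  · rfl
  · exact (hR 0 hy hx).symm
  · exact hR 0 hx hy
  · rfl

def g2E : List (Option (Fin 5) × Option (Fin 5)) :=
  [(some 3, some 0), (some 3, some 1), (some 3, some 2), (some 3, some 4), (some 4, some 0),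
   (some 4, some 1), (some 4, some 2), (some 1, some 2), (some 0, none), (some 1, none),
   (some 2, none)]

def grow2 (S : Finset (Option (Fin 5))) (m : List (Option (Fin 5)))
    (e : Option (Fin 5) × Option (Fin 5)) : List (Option (Fin 5)) :=
  if e.1 ∈ S ∨ e.2 ∈ S then m
  else if e.1 ∈ m then (if e.2 ∈ m then m else e.2 :: m)
  else if e.2 ∈ m then e.1 :: m else m

lemma foldl_sound2 (S : Finset (Option (Fin 5))) (b : Option (Fin 5)) (g : Option (Fin 5) → Bool)
    (l : List (Option (Fin 5) × Option (Fin 5)))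
    (hl : ∀ e ∈ l, e.1 ∉ S → e.2 ∉ S → g e.1 = g e.2) :
    ∀ m : List (Option (Fin 5)), (∀ z ∈ m, g z = g b) → ∀ z ∈ l.foldl (grow2 S) m, g z = g b := by
  induction l with
  | nil => intro m hm z hz; exact hm z hz
  | cons e l ih =>
    intro m hm
    rw [List.foldl_cons]
    apply ih (fun e' he' => hl e' (List.mem_cons_of_mem _ he'))
    intro z hz
    unfold grow2 at hz
    split_ifs at hz with h1 h2 h3 h4
    · exact hm z hz
    · exact hm z hz
    · rcases List.mem_cons.1 hz with rfl | hz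
      · push Not at h1
        rw [← hl e (by simp) h1.1 h1.2]
        exact hm _ h2
      · exact hm z hz
    · rcases List.mem_cons.1 hz with rfl | hz
      · push Not at h1
        rw [hl e (by simp) h1.1 h1.2]
        exact hm _ h4
      · exact hm z hz
    · exact hm z hz

def base2 (S : Finset (Option (Fin 5))) : Option (Fin 5) :=
  if some 0 ∉ S then some 0 else if some 1 ∉ S then some 1 else some 2

lemma reach2_all : ∀ S : Finset (Option (Fin 5)), S.card ≤ 2 → ∀ x, x ∉ S →
    x ∈ (g2E ++ g2E ++ g2E ++ g2E).foldl (grow2 S) [base2 S] := by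
  decide +kernel

lemma conn_G2 : Conn G2 := by
  intro S hS f hE hR
  have hl : ∀ e ∈ g2E ++ g2E ++ g2E ++ g2E, e.1 ∉ S → e.2 ∉ S → f e.1 = f e.2 := by
    intro e he
    have he' : e ∈ g2E := by
      simpa [List.mem_append] using he
    unfold g2E at he'
    simp only [List.mem_cons, List.not_mem_nil, or_false] at he'
    rcases he' with rfl | rfl | rfl | rfl | rfl | rfl | rfl | rfl | rfl | rfl | rfl
    · exact hE (0 : Fin 8)
    · exact hE (1 : Fin 8)
    · exact hE (2 : Fin 8)
    · exact hE (3 : Fin 8)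
    · exact hE (4 : Fin 8)
    · exact hE (5 : Fin 8)
    · exact hE (6 : Fin 8)
    · exact hE (7 : Fin 8)
    · exact hR 0
    · exact hR 1
    · exact hR 2
  intro x y hx hy
  have h1 := foldl_sound2 S (base2 S) f _ hl [base2 S] (by simp) x (reach2_all S hS x hx)
  have h2 := foldl_sound2 S (base2 S) f _ hl [base2 S] (by simp) y (reach2_all S hS y hy)
  rw [h1, h2]

/-- Either one vertex, or the terminals are distinct. -/
def Term (A : Pole) : Prop := (∀ x y : A.V, x = y) ∨ Function.Injective A.t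

lemma rt_inj : ∀ j j', (rt j).1 = (rt j').1 → j = j' := by decide

lemma inj_sub (A : Fin 9 → Pole) : Function.Injective (Sub A).t :=
  fun j j' h => rt_inj j j' (congrArg Sigma.fst h)

lemma term_triv : Term triv := Or.inl (fun _ _ => rfl)

lemma inj_G2 : Function.Injective G2.t := by
  have h : ∀ j j' : Fin 3, (![0, 1, 2] : Fin 3 → Fin 5) j = (![0, 1, 2] : Fin 3 → Fin 5) j' →
      j = j' := by decide
  exact fun j j' h' => h j j' h'

lemma term_chain (G : Pole) (m : ℕ) : Term (chain G m) := by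
  cases m with
  | zero => exact term_triv
  | succ m => exact Or.inr (inj_sub _)

lemma conn_chain {G : Pole} (hG : Conn G) (hT : Term G) (m : ℕ) : Conn (chain G m) := by
  induction m with
  | zero => exact conn_triv
  | succ m ih =>
    apply conn_sub
    · intro i
      have hi : i = 0 ∨ i = 1 ∨ i = 2 ∨ i = 3 ∨ i = 4 ∨ i = 5 ∨ i = 6 ∨ i = 7 ∨ i = 8 := by
        revert i; decide
      rcases hi with rfl | rfl | rfl | rfl | rfl | rfl | rfl | rfl | rfl
      · exact ih
      · exact conn_triv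
      · exact conn_triv
      · exact conn_triv
      · exact hG
      · exact hG
      · exact hG
      · exact hG
      · exact conn_G2
    · intro i
      have hi : i = 0 ∨ i = 1 ∨ i = 2 ∨ i = 3 ∨ i = 4 ∨ i = 5 ∨ i = 6 ∨ i = 7 ∨ i = 8 := by
        revert i; decide
      rcases hi with rfl | rfl | rfl | rfl | rfl | rfl | rfl | rfl | rfl
      · exact term_chain G m
      · exact term_triv
      · exact term_triv
      · exact term_triv
      · exact hT
      · exact hT
      · exact hT
      · exact hT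
      · exact Or.inr inj_G2

lemma inj_GG (R : ℕ) (hR : 1 ≤ R) (d : ℕ) : Function.Injective (GG R d).t := by
  cases d with
  | zero => exact inj_G2
  | succ d =>
    obtain ⟨m, rfl⟩ := Nat.exists_eq_add_of_le' hR
    exact inj_sub _

theorem conn_GG (R : ℕ) (hR : 1 ≤ R) (d : ℕ) : Conn (GG R d) := by
  induction d with
  | zero => exact conn_G2
  | succ d ih => exact conn_chain ih (Or.inr (inj_GG R hR d)) R

/-! ### Simplicity -/

def Simp (A : Pole) : Prop :=
  (∀ e, A.src e ≠ A.tgt e) ∧ ∀ e e', s(A.src e, A.tgt e) = s(A.src e', A.tgt e') → e = e'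

lemma simp_triv : Simp triv := ⟨fun e => Empty.elim e, fun e => Empty.elim e⟩

lemma simp_G2 : Simp G2 := by
  have h1 : ∀ e : Fin 8, (![3, 3, 3, 3, 4, 4, 4, 1] : Fin 8 → Fin 5) e ≠
      (![0, 1, 2, 4, 0, 1, 2, 2] : Fin 8 → Fin 5) e := by decide
  have h2 : ∀ e e' : Fin 8, s((![3, 3, 3, 3, 4, 4, 4, 1] : Fin 8 → Fin 5) e,
      (![0, 1, 2, 4, 0, 1, 2, 2] : Fin 8 → Fin 5) e) =
      s((![3, 3, 3, 3, 4, 4, 4, 1] : Fin 8 → Fin 5) e',
      (![0, 1, 2, 4, 0, 1, 2, 2] : Fin 8 → Fin 5) e') → e = e' := by decide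
  exact ⟨h1, h2⟩

lemma host_ne : ∀ k, (s1 k).1 ≠ (s2 k).1 := by decide

lemma host_inj : ∀ k k', s((s1 k).1, (s2 k).1) = s((s1 k').1, (s2 k').1) → k = k' := by decide

lemma simp_sub (A : Fin 9 → Pole) (hA : ∀ i, Simp (A i)) : Simp (Sub A) := by
  constructor
  · rintro (k | ⟨i, e⟩) h
    · exact host_ne k (congrArg Sigma.fst h)
    · have h' : (⟨i, (A i).src e⟩ : Σ i, (A i).V) = ⟨i, (A i).tgt e⟩ := h
      simp only [Sigma.mk.injEq, heq_eq_eq, true_and] at h'
      exact (hA i).1 e h'
  · intro e e' h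
    have h1 := congrArg (Sym2.map (Sigma.fst : (Σ i, (A i).V) → Fin 9)) h
    rcases e with k | ⟨i, e⟩ <;> rcases e' with k' | ⟨i', e'⟩
    · rw [host_inj k k' h1]
    · exfalso
      have h2 : s((s1 k).1, (s2 k).1) = s(i', i') := h1
      rw [Sym2.eq_iff] at h2
      rcases h2 with ⟨h3, h4⟩ | ⟨h3, h4⟩ <;> exact host_ne k (h3.trans h4.symm)
    · exfalso
      have h2 : s(i, i) = s((s1 k').1, (s2 k').1) := h1
      rw [Sym2.eq_iff] at h2
      rcases h2 with ⟨h3, h4⟩ | ⟨h3, h4⟩
      · exact host_ne k' (h3.symm.trans h4)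
      · exact host_ne k' (h4.symm.trans h3)
    · have h2 : s(i, i) = s(i', i') := h1
      have h3 : i = i' := by
        rw [Sym2.eq_iff] at h2
        rcases h2 with ⟨h3, _⟩ | ⟨h3, _⟩ <;> exact h3
      subst h3
      have h4 : s((⟨i, (A i).src e⟩ : Σ i, (A i).V), ⟨i, (A i).tgt e⟩)
          = s((⟨i, (A i).src e'⟩ : Σ i, (A i).V), ⟨i, (A i).tgt e'⟩) := h
      have h5 : s((A i).src e, (A i).tgt e) = s((A i).src e', (A i).tgt e') := by
        rw [Sym2.eq_iff] at h4 ⊢
        simpa using h4
      rw [(hA i).2 e e' h5]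

lemma simp_chain {G : Pole} (hG : Simp G) (m : ℕ) : Simp (chain G m) := by
  induction m with
  | zero => exact simp_triv
  | succ m ih =>
    apply simp_sub
    intro i
    have hi : i = 0 ∨ i = 1 ∨ i = 2 ∨ i = 3 ∨ i = 4 ∨ i = 5 ∨ i = 6 ∨ i = 7 ∨ i = 8 := by
      revert i; decide
    rcases hi with rfl | rfl | rfl | rfl | rfl | rfl | rfl | rfl | rfl
    · exact ih
    · exact simp_triv
    · exact simp_triv
    · exact simp_triv
    · exact hG
    · exact hG
    · exact hG
    · exact hG
    · exact simp_G2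

theorem simp_GG (R : ℕ) (d : ℕ) : Simp (GG R d) := by
  induction d with
  | zero => exact simp_G2
  | succ d ih => exact simp_chain ih R

end Pool.Agent.Helper398.SccE
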