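import Pool.Agent.Helper398.SccE

set_option autoImplicit false

/-! From poles to simple graphs and cycles. -/

namespace Pool.Agent.Helper398.SccF

open Finset Pool.Agent.Helper398.SccA Pool.Agent.Helper398.SccB Pool.Agent.Helper398.SccD
  Pool.Agent.Helper398.SccE Pool.Agent.Helper398.SccC

/-- The edges of the closed graph. -/
def ed (A : Pole) (x : A.E ⊕ Fin 3) : Sym2 (Option A.V) :=
  Sum.elim (fun e => s(some (A.src e), some (A.tgt e))) (fun j => s(some (A.t j), none)) x

/-- The closed graph. -/
def gr (A : Pole) : SimpleGraph (Option A.V) := SimpleGraph.fromEdgeSet (Set.range (ed A))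

lemma ed_inj {A : Pole} (hS : Simp A) (ht : Function.Injective A.t) :
    Function.Injective (ed A) := by
  rintro (e | j) (e' | j') h
  · have h' : s(some (A.src e), some (A.tgt e)) = s(some (A.src e'), some (A.tgt e')) := h
    have h2 : s(A.src e, A.tgt e) = s(A.src e', A.tgt e') := by
      rw [Sym2.eq_iff] at h' ⊢
      simpa using h'
    rw [hS.2 e e' h2]
  · have h' : s(some (A.src e), some (A.tgt e)) = s(some (A.t j'), none) := h
    rw [Sym2.eq_iff] at h'
    simp at h'
  · have h' : s(some (A.t j), none) = s(some (A.src e'), some (A.tgt e')) := h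
    rw [Sym2.eq_iff] at h'
    simp at h'
  · have h' : s(some (A.t j), none) = s(some (A.t j'), none) := h
    rw [Sym2.eq_iff] at h'
    simp at h'
    rw [ht h']

lemma ed_diag {A : Pole} (hS : Simp A) (x : A.E ⊕ Fin 3) : ¬ (ed A x).IsDiag := by
  rcases x with e | j
  · intro h
    have h' : (s(some (A.src e), some (A.tgt e)) : Sym2 (Option A.V)).IsDiag := h
    rw [Sym2.mk_isDiag_iff] at h'
    exact hS.1 e (Option.some.inj h')
  · intro h
    have h' : (s(some (A.t j), none) : Sym2 (Option A.V)).IsDiag := h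
    rw [Sym2.mk_isDiag_iff] at h'
    exact Option.some_ne_none _ h'

lemma mem_edgeSet {A : Pole} (hS : Simp A) (e : Sym2 (Option A.V)) :
    e ∈ (gr A).edgeSet ↔ ∃ x, ed A x = e := by
  unfold gr
  rw [SimpleGraph.edgeSet_fromEdgeSet]
  constructor
  · rintro ⟨⟨x, hx⟩, _⟩
    exact ⟨x, hx⟩
  · rintro ⟨x, rfl⟩
    exact ⟨⟨x, rfl⟩, ed_diag hS x⟩

/-- The test function on edges. -/
def tf {V : Type} (h : V → ZMod 2) : Sym2 V → ZMod 2 :=
  Sym2.lift ⟨fun a b => h a + h b, fun _ _ => add_comm _ _⟩

lemma tf_mk {V : Type} (h : V → ZMod 2) (a b : V) : tf h s(a, b) = h a + h b := rfl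

lemma add_self2 (x : ZMod 2) : x + x = 0 := by revert x; decide

lemma tele {V : Type} {G : SimpleGraph V} (h : V → ZMod 2) {u v : V} (p : G.Walk u v) :
    (p.edges.map (tf h)).sum = h u + h v := by
  induction p with
  | nil => simp [add_self2]
  | @cons a b c hab p ih =>
    rw [SimpleGraph.Walk.edges_cons, List.map_cons, List.sum_cons, ih, tf_mk]
    have := add_self2 (h b)
    linear_combination this

lemma cyc_sum {A : Pole} (hS : Simp A) (ht : Function.Injective A.t) {M : Type} [AddCommMonoid M]
    (F : Sym2 (Option A.V) → M) (l : List (Sym2 (Option A.V))) (hl : l.Nodup)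
    (hsub : ∀ e ∈ l, e ∈ (gr A).edgeSet) :
    ∑ x, (if ed A x ∈ l then F (ed A x) else 0) = (l.map F).sum := by
  classical
  rw [← List.sum_toFinset F hl]
  have h1 : l.toFinset = (univ.filter (fun x => ed A x ∈ l)).image (ed A) := by
    ext e
    rw [List.mem_toFinset, Finset.mem_image]
    constructor
    · intro he
      obtain ⟨x, hx⟩ := (mem_edgeSet hS e).1 (hsub e he)
      exact ⟨x, Finset.mem_filter.2 ⟨mem_univ _, hx ▸ he⟩, hx⟩
    · rintro ⟨x, hx, rfl⟩
      exact (Finset.mem_filter.1 hx).2
  rw [h1, Finset.sum_image (fun x _ y _ h => ed_inj hS ht h), Finset.sum_filter]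

lemma sum_split {A : Pole} {M : Type} [AddCommMonoid M] (g : A.E ⊕ Fin 3 → M) :
    ∑ x, g x = ∑ e, g (Sum.inl e) + ∑ j, g (Sum.inr j) := Fintype.sum_sum_type g

/-- Indicator vectors of a set of edges. -/
def indE (A : Pole) (l : List (Sym2 (Option A.V))) (e : A.E) : ZMod 2 :=
  if ed A (Sum.inl e) ∈ l then 1 else 0
def indR (A : Pole) (l : List (Sym2 (Option A.V))) (j : Fin 3) : ZMod 2 :=
  if ed A (Sum.inr j) ∈ l then 1 else 0

lemma even_cycle {A : Pole} (hS : Simp A) (ht : Function.Injective A.t) {u : Option A.V}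
    (p : (gr A).Walk u u) (hp : p.IsCycle) : IsEven A (indE A p.edges) (indR A p.edges) := by
  intro f
  have h1 := cyc_sum hS ht (tf (fun o : Option A.V => o.elim 0 f)) p.edges hp.edges_nodup
    (fun e he => SimpleGraph.Walk.edges_subset_edgeSet p he)
  rw [tele, add_self2, sum_split] at h1
  rw [← h1]
  congr 1
  · apply Finset.sum_congr rfl
    intro e _
    unfold indE
    split_ifs with h
    · show 1 * (f (A.src e) + f (A.tgt e)) = f (A.src e) + f (A.tgt e)
      rw [one_mul]
    · rw [zero_mul]
  · apply Finset.sum_congr rfl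
    intro j _
    unfold indR
    split_ifs with h
    · show 1 * f (A.t j) = f (A.t j) + 0
      rw [one_mul, add_zero]
    · rw [zero_mul]

lemma countP_eq_card {α : Type} (P : α → Prop) [DecidablePred P] (F : List α) :
    F.countP (fun a => decide (P a)) = (univ.filter (fun i : Fin F.length => P (F.get i))).card := by
  induction F with
  | nil => simp
  | cons a F ih =>
    rw [List.countP_cons, ih]
    have := Fin.card_filter_univ_succ (n := F.length)
      (p := fun i : Fin (F.length + 1) => P ((a :: F).get i))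
    simp only [List.length_cons]
    rw [this]
    simp only [List.get_cons_zero]
    by_cases h : P a <;> simp [h, add_comm]

lemma wt_ite {n : ℕ} (P : Fin n → Prop) [DecidablePred P] :
    wt (fun a => if P a then (1 : ZMod 2) else 0) = (univ.filter P).card := by
  unfold wt
  rw [Finset.card_filter]
  apply Finset.sum_congr rfl
  intro a _
  by_cases h : P a <;> simp [h]

/-- The number of members of a family of closed walks containing an edge. -/
def mult {V : Type} [DecidableEq V] {G : SimpleGraph V} (F : List (Σ u : V, G.Walk u u))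
    (e : Sym2 V) : ℕ :=
  F.countP (fun C => decide (e ∈ C.2.edges))

section cover

variable {A : Pole} (hS : Simp A) (ht : Function.Injective A.t)
  (F : List (Σ u : Option A.V, (gr A).Walk u u)) (hF : ∀ C ∈ F, C.2.IsCycle)

lemma wtE_mult (e : A.E) : wt (fun a : Fin F.length => indE A (F.get a).2.edges e)
    = mult F (ed A (Sum.inl e)) := by
  unfold mult indE
  rw [wt_ite (fun a : Fin F.length => ed A (Sum.inl e) ∈ (F.get a).2.edges)]
  exact (countP_eq_card (fun C : (Σ u : Option A.V, (gr A).Walk u u) =>
    ed A (Sum.inl e) ∈ C.2.edges) F).symm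

lemma wtR_mult (j : Fin 3) : wt (fun a : Fin F.length => indR A (F.get a).2.edges j)
    = mult F (ed A (Sum.inr j)) := by
  unfold mult indR
  rw [wt_ite (fun a : Fin F.length => ed A (Sum.inr j) ∈ (F.get a).2.edges)]
  exact (countP_eq_card (fun C : (Σ u : Option A.V, (gr A).Walk u u) =>
    ed A (Sum.inr j) ∈ C.2.edges) F).symm

include hS ht hF in
lemma length_eq : (F.map (fun C => C.2.length)).sum = ∑ x, mult F (ed A x) := by
  induction F with
  | nil => simp [mult]
  | cons C F ih =>
    have h1 : ∀ x, mult (C :: F) (ed A x) = mult F (ed A x)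
        + (if ed A x ∈ C.2.edges then (fun _ => 1) (ed A x) else 0) := by
      intro x
      unfold mult
      rw [List.countP_cons]
      simp
    simp only [h1]
    rw [Finset.sum_add_distrib, ← ih (fun C hC => hF C (List.mem_cons_of_mem _ hC)),
      cyc_sum hS ht (fun _ => 1) C.2.edges (hF C (by simp)).edges_nodup
        (fun e he => SimpleGraph.Walk.edges_subset_edgeSet C.2 he)]
    rw [List.map_cons, List.sum_cons, add_comm]
    simp

include hS ht hF in
lemma cover_cov (hcov : ∀ e ∈ (gr A).edgeSet, ∃ C ∈ F, e ∈ C.2.edges) :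
    IsCov A (fun a : Fin F.length => indE A (F.get a).2.edges)
      (fun a : Fin F.length => indR A (F.get a).2.edges) where
  even := fun a => even_cycle hS ht (F.get a).2 (hF _ (F.get_mem a))
  posE := fun e => by
    rw [wtE_mult F e]
    obtain ⟨C, hC, he⟩ := hcov _ ((mem_edgeSet hS _).2 ⟨Sum.inl e, rfl⟩)
    exact List.countP_pos_iff.2 ⟨C, hC, by simpa using he⟩
  posR := fun j => by
    rw [wtR_mult F j]
    obtain ⟨C, hC, he⟩ := hcov _ ((mem_edgeSet hS _).2 ⟨Sum.inr j, rfl⟩)
    exact List.countP_pos_iff.2 ⟨C, hC, by simpa using he⟩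

include hS ht hF in
lemma two_length : 2 * (F.map (fun C => C.2.length)).sum
    = cost A (fun a : Fin F.length => indE A (F.get a).2.edges)
      (fun a : Fin F.length => indR A (F.get a).2.edges)
      + (mult F (ed A (Sum.inr 0)) + mult F (ed A (Sum.inr 1)) + mult F (ed A (Sum.inr 2))) := by
  rw [length_eq hS ht F hF, sum_split, Fin.sum_univ_three]
  unfold cost
  rw [Fin.sum_univ_three, wtR_mult, wtR_mult, wtR_mult]
  have : ∑ e, wt (fun a : Fin F.length => indE A (F.get a).2.edges e)
      = ∑ e, mult F (ed A (Sum.inl e)) := Finset.sum_congr rfl (fun e _ => wtE_mult F e)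
  rw [this]
  ring

end cover

end Pool.Agent.Helper398.SccF
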