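import Pool.Agent.Helper398.SccF

set_option autoImplicit false

/-! Even edge sets decompose into cycles; 3-connectivity of the closed graph. -/

namespace Pool.Agent.Helper398.SccG

open Finset Pool.Agent.Helper398.SccA Pool.Agent.Helper398.SccB Pool.Agent.Helper398.SccD
  Pool.Agent.Helper398.SccE Pool.Agent.Helper398.SccC Pool.Agent.Helper398.SccF

lemma exists_cycle {A : Pole} (hS : Simp A) (ht : Function.Injective A.t)
    (y : A.E ⊕ Fin 3 → ZMod 2) (hy : ∀ h : Option A.V → ZMod 2, ∑ x, y x * tf h (ed A x) = 0)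
    (x0 : A.E ⊕ Fin 3) (hx0 : y x0 ≠ 0) :
    ∃ (u : Option A.V) (p : (gr A).Walk u u), p.IsCycle ∧ ed A x0 ∈ p.edges ∧
      ∀ x, ed A x ∈ p.edges → y x ≠ 0 := by
  classical
  let H : SimpleGraph (Option A.V) := SimpleGraph.fromEdgeSet {e | ∃ x, y x ≠ 0 ∧ ed A x = e}
  have hH : ∀ e, e ∈ H.edgeSet ↔ ∃ x, y x ≠ 0 ∧ ed A x = e := by
    intro e
    show e ∈ (SimpleGraph.fromEdgeSet {e | ∃ x, y x ≠ 0 ∧ ed A x = e}).edgeSet ↔ _
    rw [SimpleGraph.edgeSet_fromEdgeSet]
    constructor
    · rintro ⟨⟨x, hx⟩, _⟩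
      exact ⟨x, hx⟩
    · rintro ⟨x, hx, rfl⟩
      exact ⟨⟨x, hx, rfl⟩, ed_diag hS x⟩
  have hle : H ≤ gr A := by
    rw [← SimpleGraph.edgeSet_subset_edgeSet]
    intro e he
    obtain ⟨x, _, hx⟩ := (hH e).1 he
    exact (mem_edgeSet hS e).2 ⟨x, hx⟩
  have he0 : ed A x0 ∈ H.edgeSet := (hH _).2 ⟨x0, hx0, rfl⟩
  have hex : ∃ (u : Option A.V) (p : H.Walk u u), p.IsCycle ∧ ed A x0 ∈ p.edges := by
    by_contra hno
    push Not at hno
    have hb : H.IsBridge (ed A x0) :=
      (SimpleGraph.isBridge_iff_forall_cycle_notMem he0).2 (fun u p hp => hno u p hp)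
    obtain ⟨a, b, hab⟩ : ∃ a b, ed A x0 = s(a, b) := by
      induction ed A x0 with
      | _ a b => exact ⟨a, b, rfl⟩
    rw [hab, SimpleGraph.isBridge_iff] at hb
    have h1 := hy (fun w => if (H.deleteEdges {s(a, b)}).Reachable a w then 1 else 0)
    rw [Finset.sum_eq_single x0] at h1
    · rw [hab, tf_mk, if_pos (SimpleGraph.Reachable.refl a), if_neg hb] at h1
      simp only [add_zero, mul_one] at h1
      exact hx0 h1
    · intro x _ hx
      by_cases hyx : y x = 0
      · rw [hyx, zero_mul]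
      · have hxe : ed A x ∈ H.edgeSet := (hH _).2 ⟨x, hyx, rfl⟩
        have hne : ed A x ≠ s(a, b) := fun h => hx (ed_inj hS ht (h.trans hab.symm))
        obtain ⟨c, d, hcd⟩ : ∃ c d, ed A x = s(c, d) := by
          induction ed A x with
          | _ a b => exact ⟨a, b, rfl⟩
        rw [hcd] at hxe hne ⊢
        have hadj : (H.deleteEdges {s(a, b)}).Adj c d := by
          rw [SimpleGraph.deleteEdges_adj]
          exact ⟨hxe, by simpa using hne⟩
        rw [tf_mk]
        have hiff : (H.deleteEdges {s(a, b)}).Reachable a c ↔ (H.deleteEdges {s(a, b)}).Reachable a d :=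
          ⟨fun h => h.trans hadj.reachable, fun h => h.trans hadj.symm.reachable⟩
        simp only [hiff]
        rw [add_self2, mul_zero]
    · intro h
      exact absurd (mem_univ _) h
  obtain ⟨u, p, hp, hpe⟩ := hex
  refine ⟨u, p.mapLe hle, hp.mapLe hle, ?_, ?_⟩
  · rw [SimpleGraph.Walk.edges_mapLe_eq_edges]
    exact hpe
  · intro x hx
    rw [SimpleGraph.Walk.edges_mapLe_eq_edges] at hx
    obtain ⟨x', h1, h2⟩ := (hH _).1 (SimpleGraph.Walk.edges_subset_edgeSet p hx)
    rw [← ed_inj hS ht h2]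
    exact h1

lemma veblen {A : Pole} (hS : Simp A) (ht : Function.Injective A.t) : ∀ (n : ℕ)
    (y : A.E ⊕ Fin 3 → ZMod 2), (univ.filter (fun x => y x ≠ 0)).card = n →
    (∀ h : Option A.V → ZMod 2, ∑ x, y x * tf h (ed A x) = 0) →
    ∃ L : List (Σ u : Option A.V, (gr A).Walk u u), (∀ C ∈ L, C.2.IsCycle) ∧
      ∀ x, mult L (ed A x) = if y x = 0 then 0 else 1 := by
  intro n
  induction n using Nat.strong_induction_on with
  | _ n ih =>
    intro y hn hy
    by_cases h0 : ∃ x0, y x0 ≠ 0
    · obtain ⟨x0, hx0⟩ := h0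
      obtain ⟨u, p, hp, hp0, hpy⟩ := exists_cycle hS ht y hy x0 hx0
      have hy1 : ∀ x, ed A x ∈ p.edges → y x = 1 := by
        intro x hx
        rcases zmod2_cases (y x) with h | h
        · exact absurd h (hpy x hx)
        · exact h
      let y' : A.E ⊕ Fin 3 → ZMod 2 := fun x => if ed A x ∈ p.edges then 0 else y x
      have hy' : ∀ x, y' x = y x + (if ed A x ∈ p.edges then 1 else 0) := by
        intro x
        show (if ed A x ∈ p.edges then 0 else y x) = _
        split_ifs with h
        · rw [hy1 x h]; decide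
        · rw [add_zero]
      have hlt : (univ.filter (fun x => y' x ≠ 0)).card < n := by
        rw [← hn]
        apply Finset.card_lt_card
        rw [Finset.ssubset_iff_of_subset]
        · refine ⟨x0, by simpa using hx0, ?_⟩
          simp only [Finset.mem_filter, mem_univ, true_and, not_not]
          show (if ed A x0 ∈ p.edges then 0 else y x0) = 0
          rw [if_pos hp0]
        · intro x hx
          simp only [Finset.mem_filter, mem_univ, true_and] at hx ⊢
          intro h
          apply hx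
          show (if ed A x ∈ p.edges then 0 else y x) = 0
          split_ifs
          · rfl
          · exact h
      obtain ⟨L, hL1, hL2⟩ := ih _ hlt y' rfl (by
        intro h
        have h1 : ∀ x, y' x * tf h (ed A x) = y x * tf h (ed A x)
            + (if ed A x ∈ p.edges then tf h (ed A x) else 0) := by
          intro x
          rw [hy']
          split_ifs <;> ring
        simp only [h1]
        rw [Finset.sum_add_distrib, hy h, zero_add,
          cyc_sum hS ht (tf h) p.edges hp.edges_nodup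
            (fun e he => SimpleGraph.Walk.edges_subset_edgeSet p he), tele, add_self2])
      refine ⟨⟨u, p⟩ :: L, ?_, ?_⟩
      · intro C hC
        rcases List.mem_cons.1 hC with rfl | hC
        · exact hp
        · exact hL1 C hC
      · intro x
        have h1 : mult (⟨u, p⟩ :: L) (ed A x) = mult L (ed A x)
            + (if ed A x ∈ p.edges then 1 else 0) := by
          unfold mult
          rw [List.countP_cons]
          simp
        rw [h1, hL2 x]
        show (if (if ed A x ∈ p.edges then 0 else y x) = 0 then 0 else 1) + _ = _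
        by_cases h : ed A x ∈ p.edges
        · rw [if_pos h, if_pos h, hy1 x h]
          simp
        · rw [if_neg h, if_neg h, add_zero]
    · push Not at h0
      refine ⟨[], by simp, fun x => ?_⟩
      rw [if_pos (h0 x)]
      rfl

lemma even_total {A : Pole} (c : A.E → ZMod 2) (r : Fin 3 → ZMod 2) (h : IsEven A c r)
    (g : Option A.V → ZMod 2) : ∑ x, (Sum.elim c r : A.E ⊕ Fin 3 → ZMod 2) x * tf g (ed A x) = 0 := by
  rw [sum_split]
  have h1 := h (fun v => g (some v))
  have h2 := root_sum h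
  have h3 : ∑ j, r j * tf g (ed A (Sum.inr j)) = ∑ j, r j * g (some (A.t j))
      + (r 0 + r 1 + r 2) * g none := by
    rw [Fin.sum_univ_three, Fin.sum_univ_three]
    show r 0 * (g (some (A.t 0)) + g none) + r 1 * (g (some (A.t 1)) + g none)
      + r 2 * (g (some (A.t 2)) + g none) = _
    ring
  show ∑ e, c e * (g (some (A.src e)) + g (some (A.tgt e))) + ∑ j, r j * tf g (ed A (Sum.inr j)) = 0
  rw [h3, h2, zero_mul, add_zero]
  exact h1

/-- A covering family of even vectors gives a list of cycles with the same multiplicities. -/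
lemma from_family {A : Pole} (hS : Simp A) (ht : Function.Injective A.t) {n : ℕ}
    (c : Fin n → A.E → ZMod 2) (r : Fin n → Fin 3 → ZMod 2) (h : ∀ a, IsEven A (c a) (r a)) :
    ∃ L : List (Σ u : Option A.V, (gr A).Walk u u), (∀ C ∈ L, C.2.IsCycle) ∧
      (∀ e, mult L (ed A (Sum.inl e)) = wt (fun a => c a e)) ∧
      (∀ j, mult L (ed A (Sum.inr j)) = wt (fun a => r a j)) := by
  choose L hL1 hL2 using fun a => veblen hS ht _ (Sum.elim (c a) (r a)) rfl
    (even_total (c a) (r a) (h a))
  have hm : ∀ x, mult (List.ofFn L).flatten (ed A x) = ∑ a, mult (L a) (ed A x) := by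
    intro x
    unfold mult
    rw [List.countP_flatten, List.map_ofFn, List.sum_ofFn]
    rfl
  refine ⟨(List.ofFn L).flatten, ?_, ?_, ?_⟩
  · intro C hC
    rw [List.mem_flatten] at hC
    obtain ⟨l, hl, hC⟩ := hC
    rw [List.mem_ofFn] at hl
    obtain ⟨a, rfl⟩ := hl
    exact hL1 a C hC
  · intro e
    rw [hm]
    unfold wt
    exact Finset.sum_congr rfl (fun a _ => hL2 a (Sum.inl e))
  · intro j
    rw [hm]
    unfold wt
    exact Finset.sum_congr rfl (fun a _ => hL2 a (Sum.inr j))

lemma three_conn {A : Pole} (hS : Simp A) (hC : Conn A) (ht : Function.Injective A.t) :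
    3 < Fintype.card (Option A.V) ∧ ∀ S : Finset (Option A.V), S.card < 3 →
      ((gr A).induce ((↑S : Set (Option A.V))ᶜ)).Connected := by
  have hcard : 3 < Fintype.card (Option A.V) := by
    have h1 := Fintype.card_le_of_injective A.t ht
    rw [Fintype.card_fin] at h1
    rw [Fintype.card_option]
    omega
  refine ⟨hcard, fun S hSc => ?_⟩
  have hne : ∃ x, x ∉ S := by
    by_contra hno
    push Not at hno
    have : S = univ := Finset.eq_univ_iff_forall.2 hno
    rw [this, Finset.card_univ] at hSc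
    omega
  have hmem : ∀ v, v ∉ S → v ∈ ((↑S : Set (Option A.V))ᶜ) := by
    intro v hv
    simpa using hv
  obtain ⟨x0, hx0⟩ := hne
  have : Nonempty ↑((↑S : Set (Option A.V))ᶜ) := ⟨⟨x0, hmem x0 hx0⟩⟩
  refine ⟨fun x y => ?_⟩
  classical
  have hxS : x.1 ∉ S := fun h => x.2 (by exact_mod_cast h)
  have hyS : y.1 ∉ S := fun h => y.2 (by exact_mod_cast h)
  have hstep : ∀ a b : Option A.V, (ha : a ∉ S) → (hb : b ∉ S) → s(a, b) ∈ (gr A).edgeSet →
      decide (∃ h : a ∈ ((↑S : Set (Option A.V))ᶜ), ((gr A).induce ((↑S : Set (Option A.V))ᶜ)).Reachable x ⟨a, h⟩)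
      = decide (∃ h : b ∈ ((↑S : Set (Option A.V))ᶜ), ((gr A).induce ((↑S : Set (Option A.V))ᶜ)).Reachable x ⟨b, h⟩) := by
    intro a b ha hb hab
    have hadj : ((gr A).induce ((↑S : Set (Option A.V))ᶜ)).Adj ⟨a, hmem a ha⟩ ⟨b, hmem b hb⟩ := by
      simpa using hab
    rw [decide_eq_decide]
    constructor
    · rintro ⟨_, h2⟩
      exact ⟨hmem b hb, h2.trans hadj.reachable⟩
    · rintro ⟨_, h2⟩
      exact ⟨hmem a ha, h2.trans hadj.symm.reachable⟩
  have hfin := hC S (by omega) (fun z => decide (∃ h : z ∈ ((↑S : Set (Option A.V))ᶜ),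
      ((gr A).induce ((↑S : Set (Option A.V))ᶜ)).Reachable x ⟨z, h⟩))
    (fun e h1 h2 => hstep _ _ h1 h2 ((mem_edgeSet hS _).2 ⟨Sum.inl e, rfl⟩))
    (fun j h1 h2 => hstep _ _ h1 h2 ((mem_edgeSet hS _).2 ⟨Sum.inr j, rfl⟩))
    x.1 y.1 hxS hyS
  have hx1 : decide (∃ h : x.1 ∈ ((↑S : Set (Option A.V))ᶜ),
      ((gr A).induce ((↑S : Set (Option A.V))ᶜ)).Reachable x ⟨x.1, h⟩) = true := by
    rw [decide_eq_true_eq]
    exact ⟨x.2, SimpleGraph.Reachable.refl _⟩
  rw [hx1] at hfin
  obtain ⟨_, h⟩ := of_decide_eq_true hfin.symm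
  exact h

end Pool.Agent.Helper398.SccG
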